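import Pool.Agent.PPH.H1b

/-!
ROW H1c (0.9 h). The normalised counts NN.
`sum_NN`: regroup the finite sum according to the value of cell m (gr q m i) (Finset.sum_fiberwise_of_maps_to / ENNReal.tsum, tsum_eq_sum outside the finite image NN = 0).
`NN_le_Mu`: C3 = 2 C1 + 1 (C1 of Om_UL). The squares sq m i with i selected and cell m (gr q m i) = cc are disjoint, of volume 1/4^m, contained in Om, and for y ∈ sq m i
 |ev (D_j q) y - (gr q m i)_j| ≤ 2 C1 2^m (Bd on the segment from the corner, hasDerivAt_ev', as in H1b) and 0 ≤ (gr q m i)_j - 2^m cc_j < 2^m (floor). So they are contained in Mu D C3 q m cc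
 (C3 2^m ≥ (2 C1 + 1) 2^m) and the sum of their volumes is NN.
`tsum_NN`: sum_NN with F = 1: ∑' NN = (number of selected squares)/4^m = volume (Om D q m) (Om_eq, disjoint squares: sq_unique, volume_sq).
`uI_pointwise`: Om = disjoint union of the selected squares; the integral over Om is the sum of the integrals over sq m i = Ico × Ico (setIntegral finite union, integrableOn: am is bounded measurable on BB, measurable_ev),
 `packet` for each of them, sum_NN with F cc = ofReal (ww (cc - cell m x)).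
-/

namespace Pool.Agent.PPH

open MeasureTheory Set MvPolynomial
open scoped ENNReal Real

open Classical in
theorem sum_NN (D : ℕ) (q : RR) (m : ℕ) (F : ℤ × ℤ → ℝ≥0∞) :
    ∑ i ∈ (idx m).filter (fun i => Sel D q m i), ENNReal.ofReal (1 / 4 ^ m) * F (cell m (gr q m i)) =
      ∑' cc : ℤ × ℤ, ENNReal.ofReal (NN D q m cc) * F cc := by
  set S := (idx m).filter (fun i => Sel D q m i) with hS
  have hNN : ∀ cc, NN D q m cc = ((S.filter fun i => cell m (gr q m i) = cc).card : ℝ) / 4 ^ m := by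
    intro cc
    unfold NN
    rw [hS, Finset.filter_filter]
  rw [tsum_eq_sum (s := S.image fun i => cell m (gr q m i))]
  · rw [← Finset.sum_fiberwise_of_maps_to (s := S) (t := S.image fun i => cell m (gr q m i))
      (g := fun i => cell m (gr q m i)) (fun i hi => Finset.mem_image_of_mem _ hi)]
    refine Finset.sum_congr rfl fun cc _ => ?_
    rw [hNN cc]
    have : ∀ i ∈ S.filter (fun i => cell m (gr q m i) = cc),
        ENNReal.ofReal (1 / 4 ^ m) * F (cell m (gr q m i)) = ENNReal.ofReal (1 / 4 ^ m) * F cc := by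
      intro i hi
      rw [(Finset.mem_filter.mp hi).2]
    rw [Finset.sum_congr rfl this, Finset.sum_const, nsmul_eq_mul, ← mul_assoc]
    congr 1
    rw [← ENNReal.ofReal_natCast, ← ENNReal.ofReal_mul (by positivity)]
    congr 1
    ring
  · intro cc hcc
    have : S.filter (fun i => cell m (gr q m i) = cc) = ∅ := by
      rw [Finset.filter_eq_empty_iff]
      intro i hi h
      exact hcc (Finset.mem_image.mpr ⟨i, hi, h⟩)
    rw [hNN cc, this]
    simp

/-- values of a function on a selected square differ little from the value at the corner -/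
lemma h1c_diff (C1 : ℝ) (f : RR) (m : ℕ) (hm : 2 ≤ m) (i : ℤ × ℤ) (hi : i ∈ idx m)
    (hB : ∀ y ∈ BB, |y.1 - (cor m i).1| ≤ 2 / 2 ^ m → |y.2 - (cor m i).2| ≤ 2 / 2 ^ m →
      |ev (D1 f) y| ≤ C1 * (2 ^ m) ^ 2 ∧ |ev (D2 f) y| ≤ C1 * (2 ^ m) ^ 2)
    (y : ℝ × ℝ) (hy : y ∈ sq m i) : |ev f y - ev f (cor m i)| ≤ 2 * C1 * 2 ^ m := by
  have hyBB : y ∈ BB := BB0_subset (sq_subset hm hi hy)
  have hcBB : cor m i ∈ BB := cor_mem hm hi
  obtain ⟨hd1, hd2⟩ := sq_dist hy
  set v : ℝ × ℝ := (y.1 - (cor m i).1, y.2 - (cor m i).2) with hv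
  have hseg : ∀ r ∈ Icc (0:ℝ) 1, ((cor m i).1 + r * v.1, (cor m i).2 + r * v.2) ∈ BB := by
    intro r hr
    have := convex_BB hcBB hyBB (by linarith [hr.2] : 0 ≤ 1 - r) hr.1 (by ring)
    convert this using 1
    ext
    · simp [hv]; ring
    · simp [hv]; ring
  have h2pos : (0:ℝ) < 2 ^ m := by positivity
  have hv1 : |v.1| ≤ 1 / 2 ^ m := hd1
  have hv2 : |v.2| ≤ 1 / 2 ^ m := hd2
  have key := norm_image_sub_le_of_norm_deriv_le_segment' (a := (0:ℝ)) (b := 1)
    (f := fun r : ℝ => ev f ((cor m i).1 + r * v.1, (cor m i).2 + r * v.2))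
    (f' := fun r : ℝ => v.1 * ev (D1 f) ((cor m i).1 + r * v.1, (cor m i).2 + r * v.2) +
        v.2 * ev (D2 f) ((cor m i).1 + r * v.1, (cor m i).2 + r * v.2))
    (C := 2 * C1 * 2 ^ m)
    (fun r hr => (hasDerivAt_ev' f (cor m i) v r (BB_sub_disc (hseg r hr))).hasDerivWithinAt)
    (by
      intro r hr
      have hr' : r ∈ Icc (0:ℝ) 1 := Ico_subset_Icc_self hr
      have hle : ∀ z : ℝ, |z| ≤ 1 / 2 ^ m → |r * z| ≤ 2 / 2 ^ m := by
        intro z hz
        rw [abs_mul, abs_of_nonneg hr'.1]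
        calc r * |z| ≤ 1 * (1 / 2 ^ m) := mul_le_mul hr'.2 hz (abs_nonneg _) (by norm_num)
          _ ≤ 2 / 2 ^ m := by
            rw [one_mul]
            gcongr
            norm_num
      obtain ⟨b1, b2⟩ := hB _ (hseg r hr') (by simpa using hle _ hv1) (by simpa using hle _ hv2)
      rw [Real.norm_eq_abs]
      refine (abs_add_le _ _).trans ?_
      rw [abs_mul, abs_mul]
      have e1 := mul_le_mul hv1 b1 (abs_nonneg _) (by positivity)
      have e2 := mul_le_mul hv2 b2 (abs_nonneg _) (by positivity)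
      have e3 : 1 / 2 ^ m * (C1 * (2 ^ m) ^ 2) = C1 * 2 ^ m := by
        field_simp
      rw [e3] at e1 e2
      linarith)
    1 (right_mem_Icc.mpr zero_le_one)
  have e1 : ((cor m i).1 + 1 * v.1, (cor m i).2 + 1 * v.2) = y := by
    ext <;> simp [hv]
  have e0 : ((cor m i).1 + 0 * v.1, (cor m i).2 + 0 * v.2) = cor m i := by
    ext <;> simp
  simp only [e1, e0, Real.norm_eq_abs, sub_zero, mul_one] at key
  exact key

lemma h1c_disj (m : ℕ) (s : Set (ℤ × ℤ)) : s.PairwiseDisjoint (sq m) := by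
  intro i _ j _ hij
  refine Set.disjoint_left.mpr fun y hy hy' => hij (sq_unique hy hy')

theorem NN_le_Mu (D : ℕ) : ∃ C3 : ℝ, 0 ≤ C3 ∧ ∀ (c : Cf D) (t : ℝ) (m : ℕ), 2 ≤ m → ∀ cc : ℤ × ℤ,
    ENNReal.ofReal (NN D (qt c t) m cc) ≤ volume (Mu D C3 (qt c t) m cc) := by
  classical
  obtain ⟨C1, eps0, hC1, heps0, hUL⟩ := Om_UL D
  refine ⟨2 * C1 + 1, by linarith, ?_⟩
  intro c t m hm cc
  obtain ⟨hU, -, -⟩ := hUL c t m hm
  set q := qt c t with hq
  set T := (idx m).filter fun i => Sel D q m i ∧ cell m (gr q m i) = cc with hT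
  have hvol : ENNReal.ofReal (NN D q m cc) = volume (⋃ i ∈ T, sq m i) := by
    rw [measure_biUnion_finset (h1c_disj m _) (fun i _ => measurableSet_sq m i)]
    rw [Finset.sum_congr rfl (fun i _ => volume_sq m i), Finset.sum_const, nsmul_eq_mul]
    have : NN D q m cc = (T.card : ℝ) * (1 / 4 ^ m) := by
      unfold NN
      rw [hT]
      rw [mul_one_div]
    rw [this, ENNReal.ofReal_mul (by positivity), ENNReal.ofReal_natCast]
  rw [hvol]
  refine measure_mono ?_
  intro y hy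
  simp only [mem_iUnion] at hy
  obtain ⟨i, hiT, hyi⟩ := hy
  obtain ⟨hi, hsel, hcell⟩ := Finset.mem_filter.mp hiT
  have h2J : 2 ≤ JJ D := by unfold JJ; omega
  have hb : ∀ y ∈ BB, |y.1 - (cor m i).1| ≤ 2 / 2 ^ m → |y.2 - (cor m i).2| ≤ 2 / 2 ^ m →
      |ev (DD 2 0 q) y| ≤ C1 * (2 ^ m) ^ 2 ∧ |ev (DD 1 1 q) y| ≤ C1 * (2 ^ m) ^ 2 ∧
      |ev (DD 0 2 q) y| ≤ C1 * (2 ^ m) ^ 2 := by
    intro y hy h1 h2
    have := hU i hi hsel y hy h1 h2
    exact ⟨this 2 0 (by norm_num) h2J, this 1 1 (by norm_num) h2J, this 0 2 (by norm_num) h2J⟩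
  have g1 := h1c_diff C1 (D1 q) m hm i hi (fun y hy h1 h2 => ⟨(hb y hy h1 h2).1, by
    have := (hb y hy h1 h2).2.1
    have e : D2 (D1 q) = DD 1 1 q := (D_comm q).symm
    rw [e]; exact this⟩) y hyi
  have g2 := h1c_diff C1 (D2 q) m hm i hi (fun y hy h1 h2 => ⟨(hb y hy h1 h2).2.1,
    (hb y hy h1 h2).2.2⟩) y hyi
  have h2pos : (0:ℝ) < 2 ^ m := by positivity
  have hcell1 : ⌊(gr q m i).1 / 2 ^ m⌋ = cc.1 := congrArg Prod.fst hcell
  have hcell2 : ⌊(gr q m i).2 / 2 ^ m⌋ = cc.2 := congrArg Prod.snd hcell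
  rw [Int.floor_eq_iff] at hcell1 hcell2
  rw [le_div_iff₀ h2pos, div_lt_iff₀ h2pos] at hcell1 hcell2
  have gr1 : (gr q m i).1 = ev (D1 q) (cor m i) := rfl
  have gr2 : (gr q m i).2 = ev (D2 q) (cor m i) := rfl
  rw [gr1] at hcell1
  rw [gr2] at hcell2
  refine ⟨⟨i, hi, hsel, hyi⟩, ?_, ?_⟩
  · rw [abs_le] at g1 ⊢
    constructor <;> nlinarith [hcell1.1, hcell1.2, g1.1, g1.2]
  · rw [abs_le] at g2 ⊢
    constructor <;> nlinarith [hcell2.1, hcell2.2, g2.1, g2.2]

theorem tsum_NN (D : ℕ) (q : RR) (m : ℕ) (hm : 2 ≤ m) :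
    ∑' cc : ℤ × ℤ, ENNReal.ofReal (NN D q m cc) = volume (Om D q m) := by
  classical
  have h := sum_NN D q m (fun _ => 1)
  simp only [mul_one] at h
  rw [← h, Om_eq, measure_biUnion_finset (h1c_disj m _) (fun i _ => measurableSet_sq m i)]
  exact Finset.sum_congr rfl (fun i _ => (volume_sq m i).symm)

theorem integrableOn_am (al q : RR) (x : ℝ × ℝ) : IntegrableOn (am al q x) BB := by
  obtain ⟨K, hK, hb⟩ := ev_bdd al
  refine Measure.integrableOn_of_bounded (M := K) isCompact_BB.measure_lt_top.ne ?_ ?_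
  · have h1 := measurable_ev al
    have h2 := measurable_ev q
    unfold am
    apply Measurable.aestronglyMeasurable
    fun_prop
  · refine (ae_restrict_iff' measurableSet_BB).mpr (Filter.Eventually.of_forall fun y hy => ?_)
    unfold am
    rw [norm_mul, Complex.norm_exp_ofReal_mul_I, mul_one, Complex.norm_real]
    exact hb y hy

theorem uI_pointwise (D : ℕ) : ∃ K : ℝ, 0 < K ∧ ∀ (c : Cf D) (t A : ℝ) (al : RR) (m : ℕ), 2 ≤ m →
    0 ≤ A → Amp A al → ∀ x : ℝ × ℝ, ‖uI (Om D (qt c t) m) al (qt c t) x‖ₑ ≤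
      ENNReal.ofReal (K * A) * ∑' cc : ℤ × ℤ, ENNReal.ofReal (NN D (qt c t) m cc) *
        ENNReal.ofReal (ww (cc - cell m x)) := by
  classical
  obtain ⟨K, hK, hp⟩ := packet D
  refine ⟨K, hK, ?_⟩
  intro c t A al m hm hA hal x
  set q := qt c t with hq
  rw [← sum_NN D q m (fun cc => ENNReal.ofReal (ww (cc - cell m x)))]
  have hsqBB : ∀ i ∈ (idx m).filter (fun i => Sel D q m i), sq m i ⊆ BB := fun i hi =>
    (sq_subset hm (Finset.mem_filter.mp hi).1).trans BB0_subset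
  have hsplit : uI (Om D q m) al q x =
      ∑ i ∈ (idx m).filter (fun i => Sel D q m i), ∫ y in sq m i, am al q x y := by
    unfold uI
    rw [Om_eq]
    exact integral_biUnion_finset _ (fun i _ => measurableSet_sq m i) (h1c_disj m _)
      (fun i hi => (integrableOn_am al q x).mono_set (hsqBB i hi))
  rw [hsplit, Finset.mul_sum]
  refine (enorm_sum_le _ _).trans (Finset.sum_le_sum fun i hi => ?_)
  obtain ⟨hi', hsel⟩ := Finset.mem_filter.mp hi
  have := hp c t A al m hm hA hal i hi' hsel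
    ((i.1 : ℝ) / 2 ^ m, (i.2 : ℝ) / 2 ^ m) (((i.1 : ℝ) + 1) / 2 ^ m, ((i.2 : ℝ) + 1) / 2 ^ m)
    (le_refl _) x
  rw [← ofReal_norm]
  have hww : 0 ≤ ww (cell m (gr q m i) - cell m x) := by
    unfold ww
    positivity
  calc ENNReal.ofReal ‖∫ y in sq m i, am al q x y‖
      ≤ ENNReal.ofReal (K * A / 4 ^ m * ww (cell m (gr q m i) - cell m x)) :=
        ENNReal.ofReal_le_ofReal this
    _ = ENNReal.ofReal (K * A) * (ENNReal.ofReal (1 / 4 ^ m) *
          ENNReal.ofReal (ww (cell m (gr q m i) - cell m x))) := by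
        rw [← ENNReal.ofReal_mul (by positivity), ← ENNReal.ofReal_mul (by positivity)]
        congr 1
        ring

end Pool.Agent.PPH
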