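import Pool.Agent.PPH.C1b
import Pool.Agent.PPH.H1c

/-!
ROW H4a (0.7 h). Measurability of (t, x) ↦ u_m(t,x) = uI (Om D (qt c t) m) al (qt c t) x.
 uI (Om ..) = ∫ y, F (t,x,y), F = indicator {y ∈ Om D (qt c t) m} (ev al y * exp(i (ev (qt c t) y - x·y))); F is jointly measurable in ((t,x),y) (measurableSet_OmT; ev (qt c t) y = ev (qq c) y + t psi y is measurable in (t,y):
 measurable_DD_qt with a = b = 0 (DD_zero); measurable_ev), so `MeasureTheory.StronglyMeasurable.integral_prod_right'` gives strong measurability of the parameter integral (for every fixed (t,x); volume on ℝ × ℝ is s-finite).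
`measurable_uI_BB`: same with BB.
-/

namespace Pool.Agent.PPH

open MeasureTheory Set MvPolynomial
open scoped ENNReal Real

theorem h4a_am (D : ℕ) (c : Cf D) (al : RR) :
    Measurable fun w : (ℝ × (ℝ × ℝ)) × (ℝ × ℝ) => am al (qt c w.1.1) w.1.2 w.2 := by
  have h1 : Measurable fun w : (ℝ × (ℝ × ℝ)) × (ℝ × ℝ) => ev al w.2 :=
    (measurable_ev al).comp measurable_snd
  have h0 : Measurable fun z : ℝ × (ℝ × ℝ) => ev (qt c z.1) z.2 := by
    have h := measurable_DD_qt c 0 0
    simp only [DD_zero] at h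
    exact h
  have hpr : Measurable fun w : (ℝ × (ℝ × ℝ)) × (ℝ × ℝ) => (w.1.1, w.2) :=
    (measurable_fst.comp measurable_fst).prodMk measurable_snd
  have h2 : Measurable fun w : (ℝ × (ℝ × ℝ)) × (ℝ × ℝ) => ev (qt c w.1.1) w.2 := by
    have h := h0.comp hpr
    simp only [Function.comp_def] at h
    exact h
  have h3 : Measurable fun w : (ℝ × (ℝ × ℝ)) × (ℝ × ℝ) =>
      ev (qt c w.1.1) w.2 - w.1.2.1 * w.2.1 - w.1.2.2 * w.2.2 := by
    refine (h2.sub ?_).sub ?_
    · exact (measurable_fst.comp (measurable_snd.comp measurable_fst)).mul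
        (measurable_fst.comp measurable_snd)
    · exact (measurable_snd.comp (measurable_snd.comp measurable_fst)).mul
        (measurable_snd.comp measurable_snd)
  have h4 := Complex.measurable_ofReal.comp h1
  have h5 := ((Complex.measurable_ofReal.comp h3).mul_const Complex.I).cexp
  have h6 := h4.mul h5
  simp only [Function.comp_def] at h6
  unfold am
  exact h6

theorem measurable_uI (D : ℕ) (c : Cf D) (al : RR) (m : ℕ) :
    Measurable fun z : ℝ × (ℝ × ℝ) => uI (Om D (qt c z.1) m) al (qt c z.1) z.2 := by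
  set A : Set ((ℝ × (ℝ × ℝ)) × (ℝ × ℝ)) := {w | w.2 ∈ Om D (qt c w.1.1) m} with hA
  have hAm : MeasurableSet A := by
    have h1 : Measurable fun w : (ℝ × (ℝ × ℝ)) × (ℝ × ℝ) => (w.1.1, w.2) :=
      (measurable_fst.comp measurable_fst).prodMk measurable_snd
    exact h1 (measurableSet_OmT D c m)
  have h2 : StronglyMeasurable (A.indicator fun w => am al (qt c w.1.1) w.1.2 w.2) :=
    ((h4a_am D c al).indicator hAm).stronglyMeasurable
  have h3 := h2.integral_prod_right' (ν := (volume : Measure (ℝ × ℝ)))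
  have h4 : (fun z : ℝ × (ℝ × ℝ) => uI (Om D (qt c z.1) m) al (qt c z.1) z.2) =
      fun z => ∫ y, (A.indicator fun w => am al (qt c w.1.1) w.1.2 w.2) (z, y) := by
    funext z
    unfold uI
    rw [← integral_indicator (measurableSet_Om D (qt c z.1) m)]
    refine integral_congr_ae (Filter.Eventually.of_forall fun y => ?_)
    by_cases hy : y ∈ Om D (qt c z.1) m
    · have hy' : ((z, y) : (ℝ × (ℝ × ℝ)) × (ℝ × ℝ)) ∈ A := hy
      show (Om D (qt c z.1) m).indicator _ y = A.indicator _ (z, y)
      rw [Set.indicator_of_mem hy, Set.indicator_of_mem hy']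
    · have hy' : ((z, y) : (ℝ × (ℝ × ℝ)) × (ℝ × ℝ)) ∉ A := hy
      show (Om D (qt c z.1) m).indicator _ y = A.indicator _ (z, y)
      rw [Set.indicator_of_notMem hy, Set.indicator_of_notMem hy']
  rw [h4]
  exact h3.measurable

theorem measurable_uI_BB (D : ℕ) (c : Cf D) (al : RR) :
    Measurable fun z : ℝ × (ℝ × ℝ) => uI BB al (qt c z.1) z.2 := by
  set A : Set ((ℝ × (ℝ × ℝ)) × (ℝ × ℝ)) := {w | w.2 ∈ BB} with hA
  have hAm : MeasurableSet A := measurable_snd measurableSet_BB
  have h2 : StronglyMeasurable (A.indicator fun w => am al (qt c w.1.1) w.1.2 w.2) :=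
    ((h4a_am D c al).indicator hAm).stronglyMeasurable
  have h3 := h2.integral_prod_right' (ν := (volume : Measure (ℝ × ℝ)))
  have h4 : (fun z : ℝ × (ℝ × ℝ) => uI BB al (qt c z.1) z.2) =
      fun z => ∫ y, (A.indicator fun w => am al (qt c w.1.1) w.1.2 w.2) (z, y) := by
    funext z
    unfold uI
    rw [← integral_indicator measurableSet_BB]
    refine integral_congr_ae (Filter.Eventually.of_forall fun y => ?_)
    by_cases hy : y ∈ BB
    · have hy' : ((z, y) : (ℝ × (ℝ × ℝ)) × (ℝ × ℝ)) ∈ A := hy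
      show BB.indicator _ y = A.indicator _ (z, y)
      rw [Set.indicator_of_mem hy, Set.indicator_of_mem hy']
    · have hy' : ((z, y) : (ℝ × (ℝ × ℝ)) × (ℝ × ℝ)) ∉ A := hy
      show BB.indicator _ y = A.indicator _ (z, y)
      rw [Set.indicator_of_notMem hy, Set.indicator_of_notMem hy']
  rw [h4]
  exact h3.measurable

theorem measurable_vol_Om (D : ℕ) (c : Cf D) (m : ℕ) :
    Measurable fun t : ℝ => volume (Om D (qt c t) m) := by
  exact measurable_measure_prodMk_left (measurableSet_OmT D c m)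

end Pool.Agent.PPH
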