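import Mathlib

/-!
ROW S2 (0.7 h). Gaussian integrals (pure).
`gauss_Ioi`: for v > 0: ∫_{λ>0} v e^{-(λ v)²} dλ = √π/2 (integral_gaussian_Ioi with b = v²: √(π/v²)/2), odd in v.
`gauss_four`: v e^{-v²} = (1/(4√π)) (-i) ∫ s e^{-s²/4} e^{i s v} ds. Proof: Φ(v) = ∫ e^{-s²/4} e^{isv} ds = 2√π e^{-v²} (Mathlib: fourierIntegral_gaussian / integral_cexp_quadratic / GaussianFourier), and by parts
 ∫ s e^{-s²/4} e^{isv} ds = ∫ 2 e^{-s²/4} (i v) e^{isv} ds = 2 i v Φ(v) = 4 i √π v e^{-v²} (integral_mul_deriv_eq_deriv_mul_of_integrable with u = e^{isv}, v' = -2 d/ds e^{-s²/4}).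
`mass`: ∫⁻ |s| e^{-s²/4}/(4√π) ds = 4/(4√π) = 1/√π ≤ 1.
-/

namespace Pool.Agent.PPH

open MeasureTheory Set
open scoped ENNReal Real

theorem gauss_Ioi (v : ℝ) :
    ∫ r in Ioi (0:ℝ), v * Real.exp (-(r * v) ^ 2) = Real.sign v * (√π / 2) := by
  have h1 : ∀ r : ℝ, v * Real.exp (-(r * v) ^ 2) = v * Real.exp (-(v ^ 2) * r ^ 2) := by
    intro r
    congr 2
    ring
  simp_rw [h1]
  rw [integral_const_mul, integral_gaussian_Ioi]
  rcases lt_trichotomy v 0 with hv | hv | hv
  · have hv0 : v ≠ 0 := hv.ne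
    rw [Real.sign_of_neg hv, Real.sqrt_div Real.pi_pos.le, Real.sqrt_sq_eq_abs, abs_of_neg hv]
    field_simp
  · subst hv
    simp
  · rw [Real.sign_of_pos hv, Real.sqrt_div Real.pi_pos.le, Real.sqrt_sq_eq_abs, abs_of_pos hv]
    field_simp

theorem gauss_Ioi_abs (v : ℝ) :
    ∫⁻ r in Ioi (0:ℝ), ENNReal.ofReal (|v| * Real.exp (-(r * v) ^ 2)) ≤
      ENNReal.ofReal (√π / 2) := by
  by_cases hv : v = 0
  · subst hv
    simp
  have hv2 : 0 < v ^ 2 := by positivity
  have h1 : ∀ r : ℝ, |v| * Real.exp (-(r * v) ^ 2) = |v| * Real.exp (-(v ^ 2) * r ^ 2) := by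
    intro r
    congr 2
    ring
  have hint : Integrable (fun r : ℝ => |v| * Real.exp (-(v ^ 2) * r ^ 2))
      (volume.restrict (Ioi (0:ℝ))) :=
    ((integrable_exp_neg_mul_sq hv2).const_mul _).restrict
  have h2 : ∫⁻ r in Ioi (0:ℝ), ENNReal.ofReal (|v| * Real.exp (-(r * v) ^ 2)) =
      ENNReal.ofReal (√π / 2) := by
    simp_rw [h1]
    rw [← ofReal_integral_eq_lintegral_ofReal hint
      (Filter.Eventually.of_forall fun r => by positivity)]
    congr 1
    rw [integral_const_mul, integral_gaussian_Ioi, Real.sqrt_div Real.pi_pos.le,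
      Real.sqrt_sq_eq_abs]
    have : |v| ≠ 0 := abs_ne_zero.2 hv
    field_simp
  exact h2.le

theorem gauss_four (v : ℝ) :
    ((v * Real.exp (-v ^ 2) : ℝ) : ℂ) = ∫ s : ℝ, (((s * Real.exp (-s ^ 2 / 4) / (4 * √π)) : ℝ) : ℂ) *
      (-Complex.I) * Complex.exp (((s * v : ℝ) : ℂ) * Complex.I) := by
  have hb : (0:ℝ) < ((1 / 4 : ℂ)).re := by norm_num
  have hpi : (√π : ℂ) ≠ 0 := by
    exact_mod_cast (Real.sqrt_pos.2 Real.pi_pos).ne'
  -- the unimodular factor and the Gaussian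
  obtain ⟨u, hu⟩ : ∃ u : ℝ → ℂ, ∀ s, u s = Complex.exp (((s * v : ℝ) : ℂ) * Complex.I) :=
    ⟨_, fun _ => rfl⟩
  obtain ⟨w, hw⟩ : ∃ w : ℝ → ℂ, ∀ s, w s = Complex.exp (-(1 / 4 : ℂ) * (s : ℂ) ^ 2) :=
    ⟨_, fun _ => rfl⟩
  have hun : ∀ s, ‖u s‖ = 1 := by
    intro s
    rw [hu, Complex.norm_exp_ofReal_mul_I]
  have huc : Continuous u := by
    have : u = fun s : ℝ => Complex.exp (((s * v : ℝ) : ℂ) * Complex.I) := funext hu
    rw [this]
    fun_prop
  have hud : ∀ s, HasDerivAt u (u s * (v * Complex.I)) s := by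
    intro s
    have h1 : HasDerivAt (fun s : ℝ => (((s * v : ℝ) : ℂ) * Complex.I)) (v * Complex.I) s := by
      have h2 : HasDerivAt (fun s : ℝ => s * v) v s := by
        simpa using (hasDerivAt_id s).mul_const v
      exact (h2.ofReal_comp).mul_const _
    have h3 := h1.cexp
    have h4 : u = fun s : ℝ => Complex.exp (((s * v : ℝ) : ℂ) * Complex.I) := funext hu
    rw [h4]
    exact h3
  have hwd : ∀ s, HasDerivAt w (w s * (-(1 / 2 : ℂ) * s)) s := by
    intro s
    have h1 : HasDerivAt (fun s : ℝ => (-(1 / 4 : ℂ) * (s : ℂ) ^ 2)) (-(1 / 2 : ℂ) * s) s := by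
      have h2 : HasDerivAt (fun s : ℝ => ((s : ℂ))) 1 s := by
        simpa using (hasDerivAt_id s).ofReal_comp
      have h5 := (h2.pow 2).const_mul (-(1 / 4 : ℂ))
      refine h5.congr_deriv ?_
      push_cast
      ring
    have h3 := h1.cexp
    have h4 : w = fun s : ℝ => Complex.exp (-(1 / 4 : ℂ) * (s : ℂ) ^ 2) := funext hw
    rw [h4]
    exact h3
  have hbdd : ∀ g : ℝ → ℂ, Integrable g → Integrable (fun s => u s * g s) := by
    intro g hg
    refine hg.mono (huc.aestronglyMeasurable.mul hg.1) (Filter.Eventually.of_forall fun s => ?_)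
    rw [norm_mul, hun, one_mul]
  have hwi : Integrable w := by
    have h4 : w = fun s : ℝ => Complex.exp (-(1 / 4 : ℂ) * (s : ℂ) ^ 2) := funext hw
    rw [h4]
    exact integrable_cexp_neg_mul_sq hb
  have hswi : Integrable (fun s : ℝ => (s : ℂ) * w s) := by
    have h4 : w = fun s : ℝ => Complex.exp (-(1 / 4 : ℂ) * (s : ℂ) ^ 2) := funext hw
    rw [h4]
    exact integrable_mul_cexp_neg_mul_sq hb
  have hparts : ∫ s, u s * (w s * (-(1 / 2 : ℂ) * s)) = -∫ s, u s * (v * Complex.I) * w s := by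
    refine integral_mul_deriv_eq_deriv_mul_of_integrable (u := u) (v := w)
      (u' := fun s => u s * (v * Complex.I)) (v' := fun s => w s * (-(1 / 2 : ℂ) * s))
      (fun s _ => hud s) (fun s _ => hwd s) ?_ ?_ ?_
    · have h1 := (hbdd _ hswi).const_mul (-(1 / 2 : ℂ))
      refine h1.congr (Filter.Eventually.of_forall fun s => ?_)
      simp only [Pi.mul_apply]
      ring
    · have h1 := (hbdd _ hwi).const_mul (v * Complex.I)
      refine h1.congr (Filter.Eventually.of_forall fun s => ?_)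
      simp only [Pi.mul_apply]
      ring
    · exact hbdd _ hwi
  have hfour : ∫ s, u s * w s = 2 * √π * Complex.exp (-(v : ℂ) ^ 2) := by
    have h1 := fourierIntegral_gaussian (b := (1 / 4 : ℂ)) hb (v : ℂ)
    have h2 : ∫ s, u s * w s = ∫ x : ℝ, Complex.exp (Complex.I * (v : ℂ) * x) *
        Complex.exp (-(1 / 4 : ℂ) * (x : ℂ) ^ 2) := by
      refine integral_congr_ae (Filter.Eventually.of_forall fun s => ?_)
      simp only [hu, hw]
      congr 2
      push_cast
      ring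
    rw [h2, h1]
    have h3 : ((π : ℂ) / (1 / 4)) ^ (1 / 2 : ℂ) = 2 * √π := by
      have h4 : ((π : ℂ) / (1 / 4)) = ((4 * π : ℝ) : ℂ) := by push_cast; ring
      have h5 : (1 / 2 : ℂ) = ((1 / 2 : ℝ) : ℂ) := by push_cast; ring
      rw [h4, h5, ← Complex.ofReal_cpow (by positivity), ← Real.sqrt_eq_rpow]
      have h6 : √(4 * π) = 2 * √π := by
        rw [Real.sqrt_mul (by norm_num), show (4 : ℝ) = 2 ^ 2 by norm_num,
          Real.sqrt_sq (by norm_num)]
      rw [h6]
      push_cast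
      ring
    rw [h3]
    congr 2
    ring
  -- collect
  have hsum : ∫ s, u s * ((s : ℂ) * w s) = 2 * (v * Complex.I) * (2 * √π * Complex.exp (-(v : ℂ) ^ 2)) := by
    have h1 : ∫ s, u s * (w s * (-(1 / 2 : ℂ) * s)) = -(1 / 2 : ℂ) * ∫ s, u s * ((s : ℂ) * w s) := by
      rw [← integral_const_mul]
      refine integral_congr_ae (Filter.Eventually.of_forall fun s => ?_)
      simp only
      ring
    have h2 : ∫ s, u s * (v * Complex.I) * w s = (v * Complex.I) * ∫ s, u s * w s := by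
      rw [← integral_const_mul]
      refine integral_congr_ae (Filter.Eventually.of_forall fun s => ?_)
      simp only
      ring
    rw [h1, h2, hfour] at hparts
    linear_combination (-2 : ℂ) * hparts
  have hfin : ∫ s : ℝ, (((s * Real.exp (-s ^ 2 / 4) / (4 * √π)) : ℝ) : ℂ) *
      (-Complex.I) * Complex.exp (((s * v : ℝ) : ℂ) * Complex.I) =
      (-Complex.I / (4 * √π)) * ∫ s, u s * ((s : ℂ) * w s) := by
    rw [← integral_const_mul]
    refine integral_congr_ae (Filter.Eventually.of_forall fun s => ?_)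
    simp only [hu, hw]
    push_cast
    have h1 : -(s : ℂ) ^ 2 / 4 = -(1 / 4 : ℂ) * (s : ℂ) ^ 2 := by ring
    rw [h1]
    ring
  rw [hfin, hsum]
  have h9 : (-Complex.I / (4 * √π)) * (2 * (v * Complex.I) *
      (2 * √π * Complex.exp (-(v : ℂ) ^ 2))) =
      -(Complex.I ^ 2) * v * Complex.exp (-(v : ℂ) ^ 2) := by
    field_simp
    norm_num
  rw [h9, Complex.I_sq]
  push_cast
  ring

theorem gauss_mass :
    ∫⁻ s : ℝ, ENNReal.ofReal (|s| * Real.exp (-s ^ 2 / 4) / (4 * √π)) ≤ 1 := by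
  have hpi : 0 < √π := Real.sqrt_pos.2 Real.pi_pos
  have hb : (0:ℝ) < 1 / 4 := by norm_num
  have hi0 : Integrable (fun s : ℝ => |s| * Real.exp (-s ^ 2 / 4)) := by
    have h1 := (integrable_mul_exp_neg_mul_sq hb).norm
    refine h1.congr (Filter.Eventually.of_forall fun s => ?_)
    simp only [norm_mul, Real.norm_eq_abs, abs_of_pos (Real.exp_pos _)]
    congr 2
    ring
  have hint : Integrable (fun s : ℝ => |s| * Real.exp (-s ^ 2 / 4) / (4 * √π)) :=
    hi0.div_const _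
  rw [← ofReal_integral_eq_lintegral_ofReal hint
    (Filter.Eventually.of_forall fun r => by positivity)]
  rw [integral_div]
  have h2 : ∫ s : ℝ, |s| * Real.exp (-s ^ 2 / 4) = 4 := by
    have h3 := integral_comp_abs (f := fun s : ℝ => s * Real.exp (-s ^ 2 / 4))
    simp only [sq_abs] at h3
    rw [h3]
    have h4 : ∫ s in Ioi (0:ℝ), s * Real.exp (-s ^ 2 / 4) = 2 := by
      have h5 := integral_mul_cexp_neg_mul_sq (b := (1 / 4 : ℂ)) (by norm_num)
      have h6 : ((∫ s in Ioi (0:ℝ), s * Real.exp (-s ^ 2 / 4) : ℝ) : ℂ) = 2 := by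
        rw [← integral_complex_ofReal]
        have h7 : ∀ s : ℝ, ((s * Real.exp (-s ^ 2 / 4) : ℝ) : ℂ) =
            (s : ℂ) * Complex.exp (-(1 / 4 : ℂ) * (s : ℂ) ^ 2) := by
          intro s
          push_cast
          congr 2
          ring
        simp_rw [h7]
        rw [h5]
        norm_num
      exact_mod_cast h6
    rw [h4]
    norm_num
  rw [h2]
  have h8 : (4 : ℝ) / (4 * √π) ≤ 1 := by
    rw [div_le_one (by positivity)]
    have : (1 : ℝ) ≤ √π := by
      rw [Real.one_le_sqrt]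
      linarith [Real.pi_gt_three]
    linarith
  calc ENNReal.ofReal (4 / (4 * √π)) ≤ ENNReal.ofReal 1 := ENNReal.ofReal_le_ofReal h8
    _ = 1 := ENNReal.ofReal_one

end Pool.Agent.PPH
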