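import Pool.Agent.PPH.Defs2

/-!
ROW S4a (0.7 h).
`measurable_VV`: parameter integral of a jointly measurable function (StronglyMeasurable.integral_prod_right').
`VV_le`: enorm_integral_le_lintegral_enorm, the exponential is unimodular.
`measurable_GG`: measurable_ev, Measurable.ite, Finset.measurable_prod. `norm_GG_le`: 1/ψ ≤ 10/9 on BB (BB_psi), |phs| = 1, |cut| ≤ 1.
`mink`: pointwise (∫⁻ F dν)^p ≤ ν(univ)^(p-1) ∫⁻ F^p dν (Hoelder: ENNReal.lintegral_mul_le_Lp_mul_Lq with exponents p, p/(p-1); p = 1 trivial; or Jensen), then Tonelli (lintegral_lintegral_swap, needs SFinite).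
-/

namespace Pool.Agent.PPH

open MeasureTheory Set MvPolynomial
open scoped ENNReal Real

theorem measurable_VV {W : Type*} [MeasurableSpace W] (h : W → ℝ × ℝ → ℂ)
    (hh : Measurable (Function.uncurry h)) :
    Measurable fun q : W × (ℝ × (ℝ × ℝ)) => VV (h q.1) q.2 := by
  have hpsi : Measurable psi := continuous_psi.measurable
  have h1 : Measurable (fun r : (W × (ℝ × (ℝ × ℝ))) × (ℝ × ℝ) => h r.1.1 r.2) :=
    hh.comp ((measurable_fst.comp measurable_fst).prodMk measurable_snd)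
  have h2 : Measurable (fun r : (W × (ℝ × (ℝ × ℝ))) × (ℝ × ℝ) =>
      (r.1.2.1 * psi r.2 - r.1.2.2.1 * r.2.1 - r.1.2.2.2 * r.2.2 : ℝ)) := by
    have hp : Measurable (fun r : (W × (ℝ × (ℝ × ℝ))) × (ℝ × ℝ) => psi r.2) :=
      hpsi.comp measurable_snd
    fun_prop
  have h3 : Measurable (fun r : (W × (ℝ × (ℝ × ℝ))) × (ℝ × ℝ) => h r.1.1 r.2 *
      Complex.exp (((r.1.2.1 * psi r.2 - r.1.2.2.1 * r.2.1 - r.1.2.2.2 * r.2.2 : ℝ) : ℂ) * Complex.I)) :=
    h1.mul (Complex.measurable_exp.comp ((Complex.measurable_ofReal.comp h2).mul_const _))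
  exact (h3.stronglyMeasurable.integral_prod_right' (ν := volume.restrict BB)).measurable

private lemma enorm_exp_real (x : ℝ) : ‖Complex.exp ((x : ℂ) * Complex.I)‖ₑ = 1 := by
  rw [← ofReal_norm, Complex.norm_exp_ofReal_mul_I, ENNReal.ofReal_one]

theorem VV_le (G : ℝ × ℝ → ℂ) (z : ℝ × (ℝ × ℝ)) : ‖VV G z‖ₑ ≤ ∫⁻ y in BB, ‖G y‖ₑ := by
  unfold VV
  refine (enorm_integral_le_lintegral_enorm _).trans (le_of_eq ?_)
  refine lintegral_congr fun y => ?_
  rw [enorm_mul, enorm_exp_real, mul_one]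

private lemma measurable_cut {D : ℕ} (c : Cf D) : Measurable (cut c) :=
  Measurable.ite (measurableSet_lt measurable_const (measurable_ev _)) measurable_const
    measurable_const

theorem measurable_GG {D N : ℕ} (c : Cf D) (cs : Fin N → Cf D) : Measurable (GG c cs) := by
  have hpsi : Measurable psi := continuous_psi.measurable
  have h1 : Measurable (fun y : ℝ × ℝ => ((1 / psi y : ℝ) : ℂ)) :=
    Complex.measurable_ofReal.comp (measurable_const.div hpsi)
  have h2 : Measurable (phs c) :=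
    Complex.measurable_exp.comp ((Complex.measurable_ofReal.comp (measurable_ev _)).mul_const _)
  have h3 : Measurable (fun y : ℝ × ℝ => ∏ i, cut (cs i) y) :=
    Finset.measurable_prod _ fun i _ => measurable_cut (cs i)
  exact (h1.mul h2).mul h3

theorem norm_GG_le {D N : ℕ} (c : Cf D) (cs : Fin N → Cf D) {y : ℝ × ℝ} (hy : y ∈ BB) :
    ‖GG c cs y‖ ≤ 10 / 9 := by
  obtain ⟨h1, h2⟩ := BB_psi hy
  have hpos : 0 < psi y := by linarith
  unfold GG
  rw [norm_mul, norm_mul, norm_prod]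
  have e1 : ‖((1 / psi y : ℝ) : ℂ)‖ = 1 / psi y := by
    rw [Complex.norm_real, Real.norm_eq_abs, abs_of_pos (by positivity)]
  have e2 : ‖phs c y‖ = 1 := by
    unfold phs
    exact Complex.norm_exp_ofReal_mul_I _
  have e3 : ∏ i, ‖cut (cs i) y‖ ≤ 1 := by
    apply Finset.prod_le_one
    · intro i _
      exact norm_nonneg _
    · intro i _
      unfold cut
      split_ifs
      · simp
      · simp
  have e4 : 0 ≤ ∏ i, ‖cut (cs i) y‖ := Finset.prod_nonneg fun i _ => norm_nonneg _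
  rw [e1, e2, mul_one]
  have e5 : 1 / psi y ≤ 10 / 9 := by
    rw [div_le_div_iff₀ hpos (by norm_num)]
    linarith
  calc 1 / psi y * ∏ i, ‖cut (cs i) y‖ ≤ (10 / 9) * 1 := by gcongr
    _ = 10 / 9 := by norm_num

private lemma mink_pt {W : Type*} [MeasurableSpace W] (ν : Measure W) [IsFiniteMeasure ν]
    (g : W → ℝ≥0∞) (hg : Measurable g) (p : ℝ) (hp : 1 ≤ p) :
    (∫⁻ w, g w ∂ν) ^ p ≤ ν univ ^ (p - 1) * ∫⁻ w, g w ^ p ∂ν := by
  rcases eq_or_lt_of_le hp with h1 | h1
  · subst h1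
    simp
  · have hpq : p.HolderConjugate (p.conjExponent) := Real.HolderConjugate.conjExponent h1
    have h2 := ENNReal.lintegral_mul_le_Lp_mul_Lq ν hpq hg.aemeasurable
      (aemeasurable_const (b := (1 : ℝ≥0∞)))
    simp only [Pi.mul_apply, mul_one, ENNReal.one_rpow, lintegral_const, one_mul] at h2
    have hp0 : 0 < p := by linarith
    calc (∫⁻ w, g w ∂ν) ^ p ≤ ((∫⁻ w, g w ^ p ∂ν) ^ (1 / p) * ν univ ^ (1 / p.conjExponent)) ^ p := by
          gcongr
      _ = (∫⁻ w, g w ^ p ∂ν) * ν univ ^ (p - 1) := by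
          rw [ENNReal.mul_rpow_of_nonneg _ _ hp0.le, ← ENNReal.rpow_mul, ← ENNReal.rpow_mul,
            one_div_mul_cancel hp0.ne', ENNReal.rpow_one]
          congr 2
          unfold Real.conjExponent
          have : p - 1 ≠ 0 := by linarith
          field_simp
      _ = _ := mul_comm _ _

theorem mink {W Z : Type*} [MeasurableSpace W] [MeasurableSpace Z] (ν : Measure W)
    [IsFiniteMeasure ν] (μ : Measure Z) [SFinite μ] (F : W → Z → ℝ≥0∞)
    (hF : Measurable (Function.uncurry F)) (p : ℝ) (hp : 1 ≤ p) :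
    ∫⁻ z, (∫⁻ w, F w z ∂ν) ^ p ∂μ ≤ ν univ ^ (p - 1) * ∫⁻ w, (∫⁻ z, F w z ^ p ∂μ) ∂ν := by
  calc ∫⁻ z, (∫⁻ w, F w z ∂ν) ^ p ∂μ
      ≤ ∫⁻ z, ν univ ^ (p - 1) * ∫⁻ w, F w z ^ p ∂ν ∂μ := by
        refine lintegral_mono fun z => ?_
        exact mink_pt ν (fun w => F w z) (hF.comp measurable_prodMk_right) p hp
    _ = ν univ ^ (p - 1) * ∫⁻ z, (∫⁻ w, F w z ^ p ∂ν) ∂μ := by
        rw [lintegral_const_mul']
        exact ENNReal.rpow_ne_top_of_nonneg (by linarith) (measure_ne_top ν univ)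
    _ = _ := by
        congr 1
        rw [lintegral_lintegral_swap]
        have h1 : Measurable (fun q : Z × W => F q.2 q.1) :=
          hF.comp (measurable_snd.prodMk measurable_fst)
        exact (h1.pow_const p).aemeasurable

end Pool.Agent.PPH
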