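import Pool.Agent.PPH.S0
import Pool.Agent.PPH.S2
import Pool.Agent.PPH.S4a

/-!
ROW S4b (0.9 h). The damped cuts T_r = GG c cs · (r q1) e^{-(r q1)²}, q1 = ev (qq c1). By gauss_four with v = r q1(y) and Fubini on BB × ℝ (integrand bounded by (10/9) |s| e^{-s²/4}, integrable: gauss_mass):
 VV T_r z = ∫ s, (s e^{-s²/4}/(4√π)) (-i) VV (GG (c + (s r) • c1) cs) z ds, because GG c cs y * e^{i s r q1(y)} = GG (c + (s*r) • c1) cs y (qq_add, qq_smul, exp_add).
 So ‖VV T_r z‖ₑ ≤ ∫⁻ s, ‖VV (GG (c + (s*r)•c1) cs) z‖ₑ dν(s), ν = ofReal(|s| e^{-s²/4}/(4√π)) ds (withDensity), ν(univ) ≤ 1 (gauss_mass). `mink` (measurable_VV for (s,y) ↦ GG (c + (s r)•c1) cs y, jointly measurable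
 because ev (qq (c + (s r)•c1)) y = ev (qq c) y + s r ev (qq c1) y) and the hypothesis: ≤ 1 * ∫⁻ s, C dν ≤ C.
-/

namespace Pool.Agent.PPH

open MeasureTheory Set MvPolynomial
open scoped ENNReal Real

lemma s4b_shift {D N : ℕ} (c : Cf D) (cs : Fin N → Cf D) (c1 : Cf D) (r s : ℝ) (y : ℝ × ℝ) :
    GG (c + (s * r) • c1) cs y = GG c cs y *
      Complex.exp (((s * (r * ev (qq c1) y) : ℝ) : ℂ) * Complex.I) := by
  unfold GG phs
  rw [qq_add, qq_smul, ev_add, ev_mul, ev_C]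
  have : (((ev (qq c) y + s * r * ev (qq c1) y : ℝ) : ℂ) * Complex.I) =
      ((ev (qq c) y : ℝ) : ℂ) * Complex.I + ((s * (r * ev (qq c1) y) : ℝ) : ℂ) * Complex.I := by
    push_cast
    ring
  rw [this, Complex.exp_add]
  ring

/-- the Gaussian weight -/
noncomputable def s4b_g (s : ℝ) : ℝ := |s| * Real.exp (-s ^ 2 / 4) / (4 * √π)

lemma s4b_g_nonneg (s : ℝ) : 0 ≤ s4b_g s := by unfold s4b_g; positivity

lemma s4b_g_meas : Measurable s4b_g := by unfold s4b_g; fun_prop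

lemma s4b_g_int : Integrable s4b_g := by
  refine ⟨s4b_g_meas.aestronglyMeasurable, ?_⟩
  rw [hasFiniteIntegral_iff_ofReal (Filter.Eventually.of_forall s4b_g_nonneg)]
  exact lt_of_le_of_lt gauss_mass (by simp)

/-- the complex weight -/
noncomputable def s4b_w (s : ℝ) : ℂ :=
  (((s * Real.exp (-s ^ 2 / 4) / (4 * √π)) : ℝ) : ℂ) * (-Complex.I)

lemma s4b_w_meas : Measurable s4b_w := by unfold s4b_w; fun_prop

lemma s4b_w_norm (s : ℝ) : ‖s4b_w s‖ = s4b_g s := by
  unfold s4b_w s4b_g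
  rw [norm_mul, Complex.norm_real, norm_neg, Complex.norm_I, mul_one, Real.norm_eq_abs, abs_div,
    abs_mul, Real.abs_exp, abs_of_pos (by positivity : 0 < 4 * √π)]

lemma s4b_norm_exp (x : ℝ) : ‖Complex.exp (((x : ℝ) : ℂ) * Complex.I)‖ = 1 :=
  Complex.norm_exp_ofReal_mul_I x

lemma s4b_formula {D N : ℕ} (c : Cf D) (cs : Fin N → Cf D) (c1 : Cf D) (r : ℝ)
    (z : ℝ × (ℝ × ℝ)) :
    VV (fun y => GG c cs y *
      ((r * ev (qq c1) y * Real.exp (-(r * ev (qq c1) y) ^ 2) : ℝ) : ℂ)) z =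
      ∫ s : ℝ, s4b_w s * VV (GG (c + (s * r) • c1) cs) z := by
  set Ez : ℝ × ℝ → ℂ := fun y =>
    Complex.exp (((z.1 * psi y - z.2.1 * y.1 - z.2.2 * y.2 : ℝ) : ℂ) * Complex.I) with hEz
  have hEzm : Measurable Ez := by
    rw [hEz]
    have := continuous_psi.measurable
    fun_prop
  set f : ℝ × ℝ → ℝ → ℂ := fun y s => s4b_w s * (GG (c + (s * r) • c1) cs y * Ez y) with hf
  have hq := measurable_ev (qq c1)
  have hGm := measurable_GG c cs
  have hfm : Measurable (Function.uncurry f) := by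
    have : Function.uncurry f = fun x : (ℝ × ℝ) × ℝ => s4b_w x.2 * ((GG c cs x.1 *
        Complex.exp (((x.2 * (r * ev (qq c1) x.1) : ℝ) : ℂ) * Complex.I)) * Ez x.1) := by
      funext x
      simp only [Function.uncurry, hf, s4b_shift]
    rw [this]
    have h1 : Measurable fun x : (ℝ × ℝ) × ℝ => s4b_w x.2 := s4b_w_meas.comp measurable_snd
    have h2 : Measurable fun x : (ℝ × ℝ) × ℝ => GG c cs x.1 := hGm.comp measurable_fst
    have h3 : Measurable fun x : (ℝ × ℝ) × ℝ => Ez x.1 := hEzm.comp measurable_fst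
    have h4 : Measurable fun x : (ℝ × ℝ) × ℝ => ev (qq c1) x.1 := hq.comp measurable_fst
    refine h1.mul ((h2.mul ?_).mul h3)
    fun_prop
  have hGi : IntegrableOn (GG c cs) BB := by
    refine Measure.integrableOn_of_bounded (M := 10 / 9) isCompact_BB.measure_lt_top.ne
      hGm.aestronglyMeasurable ?_
    exact (ae_restrict_iff' measurableSet_BB).mpr
      (Filter.Eventually.of_forall fun y hy => norm_GG_le c cs hy)
  have hfi : Integrable (Function.uncurry f) ((volume.restrict BB).prod volume) := by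
    refine (Integrable.mul_prod (Integrable.norm hGi) s4b_g_int).mono'
      hfm.aestronglyMeasurable (Filter.Eventually.of_forall fun x => ?_)
    simp only [Function.uncurry, hf, s4b_shift, norm_mul, s4b_w_norm, hEz, s4b_norm_exp, mul_one]
    rw [mul_comm]
  unfold VV
  have step : ∀ y : ℝ × ℝ, (GG c cs y *
      ((r * ev (qq c1) y * Real.exp (-(r * ev (qq c1) y) ^ 2) : ℝ) : ℂ)) * Ez y =
      ∫ s : ℝ, f y s := by
    intro y
    rw [gauss_four, ← integral_const_mul, ← integral_mul_const]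
    congr 1
    funext s
    simp only [hf, s4b_shift, s4b_w]
    ring
  calc ∫ y in BB, (GG c cs y *
        ((r * ev (qq c1) y * Real.exp (-(r * ev (qq c1) y) ^ 2) : ℝ) : ℂ)) * Ez y
      = ∫ y in BB, ∫ s : ℝ, f y s := by
        congr 1
        funext y
        exact step y
    _ = ∫ s : ℝ, ∫ y in BB, f y s := integral_integral_swap hfi
    _ = _ := by
        congr 1
        funext s
        simp only [hf]
        rw [integral_const_mul]

theorem damped {D N : ℕ} (p : ℝ) (hp : 1 ≤ p) (C : ℝ≥0∞)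
    (H : ∀ (c : Cf D) (cs : Fin N → Cf D),
      ∫⁻ z : ℝ × (ℝ × ℝ), ‖VV (GG c cs) z‖ₑ ^ p ≤ C)
    (c : Cf D) (cs : Fin N → Cf D) (c1 : Cf D) (r : ℝ) :
    ∫⁻ z : ℝ × (ℝ × ℝ), ‖VV (fun y => GG c cs y *
      ((r * ev (qq c1) y * Real.exp (-(r * ev (qq c1) y) ^ 2) : ℝ) : ℂ)) z‖ₑ ^ p ≤ C := by
  set ν : Measure ℝ := volume.withDensity (fun s => ENNReal.ofReal (s4b_g s)) with hν
  have hνu : ν univ ≤ 1 := by
    rw [hν, withDensity_apply _ MeasurableSet.univ, Measure.restrict_univ]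
    exact gauss_mass
  have hfin : IsFiniteMeasure ν := ⟨lt_of_le_of_lt hνu (by simp)⟩
  have hGm := measurable_GG c cs
  have hq := measurable_ev (qq c1)
  have hhm : Measurable (Function.uncurry fun (s : ℝ) (y : ℝ × ℝ) =>
      GG (c + (s * r) • c1) cs y) := by
    have : (Function.uncurry fun (s : ℝ) (y : ℝ × ℝ) => GG (c + (s * r) • c1) cs y) =
        fun x : ℝ × (ℝ × ℝ) => GG c cs x.2 *
          Complex.exp (((x.1 * (r * ev (qq c1) x.2) : ℝ) : ℂ) * Complex.I) := by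
      funext x
      simp only [Function.uncurry, s4b_shift]
    rw [this]
    have h2 : Measurable fun x : ℝ × (ℝ × ℝ) => GG c cs x.2 := hGm.comp measurable_snd
    have h4 : Measurable fun x : ℝ × (ℝ × ℝ) => ev (qq c1) x.2 := hq.comp measurable_snd
    refine h2.mul ?_
    fun_prop
  have hVm := measurable_VV (fun (s : ℝ) (y : ℝ × ℝ) => GG (c + (s * r) • c1) cs y) hhm
  set F : ℝ → ℝ × (ℝ × ℝ) → ℝ≥0∞ := fun s z => ‖VV (GG (c + (s * r) • c1) cs) z‖ₑ with hF
  have hFm : Measurable (Function.uncurry F) := hVm.enorm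
  have hpt : ∀ z : ℝ × (ℝ × ℝ), ‖VV (fun y => GG c cs y *
      ((r * ev (qq c1) y * Real.exp (-(r * ev (qq c1) y) ^ 2) : ℝ) : ℂ)) z‖ₑ ≤
      ∫⁻ s, F s z ∂ν := by
    intro z
    rw [s4b_formula]
    refine (enorm_integral_le_lintegral_enorm _).trans (le_of_eq ?_)
    have hFz : Measurable fun s => F s z := Measurable.of_uncurry_right hFm
    rw [hν, lintegral_withDensity_eq_lintegral_mul _ s4b_g_meas.ennreal_ofReal hFz]
    congr 1
    funext s
    rw [Pi.mul_apply, enorm_mul, ← ofReal_norm, s4b_w_norm]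
  calc ∫⁻ z : ℝ × (ℝ × ℝ), ‖VV (fun y => GG c cs y *
        ((r * ev (qq c1) y * Real.exp (-(r * ev (qq c1) y) ^ 2) : ℝ) : ℂ)) z‖ₑ ^ p
      ≤ ∫⁻ z : ℝ × (ℝ × ℝ), (∫⁻ s, F s z ∂ν) ^ p :=
        lintegral_mono fun z => ENNReal.rpow_le_rpow (hpt z) (by linarith)
    _ ≤ ν univ ^ (p - 1) * ∫⁻ s, (∫⁻ z, F s z ^ p) ∂ν := mink ν volume F hFm p hp
    _ ≤ 1 * ∫⁻ _s, C ∂ν := by
        gcongr
        · exact ENNReal.rpow_le_one hνu (by linarith)
        · exact H _ _
    _ ≤ C := by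
        rw [lintegral_const, one_mul]
        calc C * ν univ ≤ C * 1 := by gcongr
          _ = C := mul_one C

end Pool.Agent.PPH
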