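import Pool.Agent.PPH.H4e
import Pool.Agent.PPH.S4c

/-!
ROW S4d (0.5 h). Induction on N. N = 0: GG c cs y = (1/ψ) e^{i q_c}; VV (GG c cs) z = uI BB (X 3) (qt c z.1) z.2 (ev (X 3) y = 1/psi y, ev (qt c t) y = ev (qq c) y + t psi y; empty product), Amp A (X 3) for some A
 (ev_bdd for the four derivatives DD a b (X 3), a, b ≤ 1), `core`. N + 1: GG c cs = GG c (fun i => cs i.castSucc) * cut (cs (Fin.last N)) (Fin.prod_univ_castSucc), one_cut.
-/

namespace Pool.Agent.PPH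

open MeasureTheory Set MvPolynomial
open scoped ENNReal Real

private lemma s4d_amp : ∃ A : ℝ, 0 ≤ A ∧ Amp A (X 3) := by
  choose K hK0 hK using fun f : RR => ev_bdd f
  refine ⟨K (DD 0 0 (X 3)) + K (DD 0 1 (X 3)) + K (DD 1 0 (X 3)) + K (DD 1 1 (X 3)), ?_, ?_⟩
  · have h1 := hK0 (DD 0 0 (X 3))
    have h2 := hK0 (DD 0 1 (X 3))
    have h3 := hK0 (DD 1 0 (X 3))
    have h4 := hK0 (DD 1 1 (X 3))
    linarith
  · intro a b ha hb y hy
    have h1 := hK0 (DD 0 0 (X 3))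
    have h2 := hK0 (DD 0 1 (X 3))
    have h3 := hK0 (DD 1 0 (X 3))
    have h4 := hK0 (DD 1 1 (X 3))
    have hab : (a = 0 ∨ a = 1) ∧ (b = 0 ∨ b = 1) := by omega
    rcases hab with ⟨rfl | rfl, rfl | rfl⟩
    · have := hK (DD 0 0 (X 3)) y hy
      linarith
    · have := hK (DD 0 1 (X 3)) y hy
      linarith
    · have := hK (DD 1 0 (X 3)) y hy
      linarith
    · have := hK (DD 1 1 (X 3)) y hy
      linarith

private lemma s4d_zero {D : ℕ} (c : Cf D) (cs : Fin 0 → Cf D) (z : ℝ × (ℝ × ℝ)) :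
    VV (GG c cs) z = uI BB (X 3) (qt c z.1) z.2 := by
  unfold VV uI
  congr 1
  funext y
  unfold GG am phs
  rw [Fin.prod_univ_zero, mul_one, mul_assoc, ← Complex.exp_add, ev_X3]
  congr 2
  have : ev (qt c z.1) y = ev (qq c) y + z.1 * psi y := by
    rw [qt, ev_add, ev_mul, ev_C, ev_X2]
  rw [this]
  push_cast
  ring

theorem all_cuts (D N : ℕ) : ∀ p : ℝ, 3 < p → ∃ C : ℝ≥0∞, C ≠ ∞ ∧
    ∀ (c : Cf D) (cs : Fin N → Cf D), ∫⁻ z : ℝ × (ℝ × ℝ), ‖VV (GG c cs) z‖ₑ ^ p ≤ C := by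
  induction N with
  | zero =>
    intro p hp
    obtain ⟨A, hA, hAmp⟩ := s4d_amp
    obtain ⟨C, hC, h⟩ := core D A p hA hp
    refine ⟨C, hC, fun c cs => ?_⟩
    have := h c (X 3) hAmp
    simp only [s4d_zero]
    exact this
  | succ N ih =>
    intro p hp
    obtain ⟨C, hC, h⟩ := one_cut D N ih p hp
    refine ⟨C, hC, fun c cs => ?_⟩
    have h1 : GG c cs = fun y => GG c (fun i : Fin N => cs i.castSucc) y * cut (cs (Fin.last N)) y := by
      funext y
      unfold GG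
      rw [Fin.prod_univ_castSucc, mul_assoc, mul_assoc, mul_assoc]
    rw [h1]
    exact h c (fun i : Fin N => cs i.castSucc) (cs (Fin.last N))

end Pool.Agent.PPH
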