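import Pool.Agent.PPH.A0

/-!
ROW C1a (0.8 h). Dyadic squares. `sq m i` = [i.1/2^m, (i.1+1)/2^m) × [i.2/2^m, (i.2+1)/2^m); y ∈ sq m i iff i = (⌊2^m y.1⌋, ⌊2^m y.2⌋) (Int.floor_eq_iff), which gives `exists_sq`,
`sq_unique`. For m ≥ 2: -1/4 ≤ y < 1/4 iff -2^(m-2) ≤ ⌊2^m y⌋ < 2^(m-2) (2^m = 4 * 2^(m-2)). `anc_sq`: ⌊2^(m-k) y⌋ = ⌊(2^m y) / 2^k⌋ = ⌊2^m y⌋ / 2^k (Int.floor_div / Int.floor_natCast_div...:
or directly: i.1 / 2^k * 2^k ≤ i.1 < (i.1 / 2^k + 1) * 2^k, Int.ediv_mul_le, Int.lt_ediv_add_one_mul_self).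
-/

namespace Pool.Agent.PPH

open MeasureTheory Set MvPolynomial
open scoped ENNReal Real

/-- the half open square -/
def BB0 : Set (ℝ × ℝ) := Ico (-(1/4)) (1/4) ×ˢ Ico (-(1/4)) (1/4)

private lemma c1a_mem (m : ℕ) (n : ℤ) (x : ℝ) :
    x ∈ Ico ((n : ℝ) / 2 ^ m) (((n : ℝ) + 1) / 2 ^ m) ↔ ⌊2 ^ m * x⌋ = n := by
  have h : (0 : ℝ) < 2 ^ m := by positivity
  rw [Int.floor_eq_iff, Set.mem_Ico, div_le_iff₀ h, lt_div_iff₀ h, mul_comm x]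

private lemma c1a_Ico {m : ℕ} (hm : 2 ≤ m) {n : ℤ} (hn : -2 ^ (m - 2) ≤ n ∧ n < 2 ^ (m - 2)) :
    Ico ((n : ℝ) / 2 ^ m) (((n : ℝ) + 1) / 2 ^ m) ⊆ Ico (-(1 / 4)) (1 / 4) := by
  obtain ⟨j, rfl⟩ := Nat.exists_eq_add_of_le hm
  rw [Nat.add_sub_cancel_left] at hn
  have h0 : (0 : ℝ) < 2 ^ j := by positivity
  have h1 : (-2 ^ j : ℝ) ≤ n := by exact_mod_cast hn.1
  have h2 : (n : ℝ) + 1 ≤ 2 ^ j := by exact_mod_cast hn.2
  have h3 : (2 : ℝ) ^ (2 + j) = 4 * 2 ^ j := by rw [pow_add]; norm_num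
  refine Ico_subset_Ico ?_ ?_
  · rw [h3, le_div_iff₀ (by positivity)]
    linarith
  · rw [h3, div_le_iff₀ (by positivity)]
    linarith

private lemma c1a_floor {m : ℕ} (hm : 2 ≤ m) {x : ℝ} (hx : x ∈ Ico (-(1 / 4) : ℝ) (1 / 4)) :
    -2 ^ (m - 2) ≤ ⌊2 ^ m * x⌋ ∧ ⌊2 ^ m * x⌋ < 2 ^ (m - 2) := by
  obtain ⟨j, rfl⟩ := Nat.exists_eq_add_of_le hm
  rw [Nat.add_sub_cancel_left]
  have h0 : (0 : ℝ) < 2 ^ j := by positivity
  have h3 : (2 : ℝ) ^ (2 + j) = 4 * 2 ^ j := by rw [pow_add]; norm_num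
  constructor
  · rw [Int.le_floor, h3]
    push_cast
    have := mul_le_mul_of_nonneg_left hx.1 h0.le
    linarith
  · rw [Int.floor_lt, h3]
    push_cast
    have := mul_lt_mul_of_pos_left hx.2 h0
    linarith

private lemma c1a_anc {m k : ℕ} (hk : k ≤ m) {n : ℤ} {x : ℝ}
    (hx : x ∈ Ico ((n : ℝ) / 2 ^ m) (((n : ℝ) + 1) / 2 ^ m)) :
    x ∈ Ico (((n / 2 ^ k : ℤ) : ℝ) / 2 ^ (m - k)) ((((n / 2 ^ k : ℤ) : ℝ) + 1) / 2 ^ (m - k)) := by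
  obtain ⟨j, rfl⟩ := Nat.exists_eq_add_of_le hk
  rw [Nat.add_sub_cancel_left]
  have hk0 : (0 : ℤ) < 2 ^ k := by positivity
  have hj : (0 : ℝ) < 2 ^ j := by positivity
  have hkR : (0 : ℝ) < 2 ^ k := by positivity
  have hkj : (0 : ℝ) < 2 ^ (k + j) := by positivity
  have h1 : n / 2 ^ k * 2 ^ k ≤ n := Int.ediv_mul_le n hk0.ne'
  have h2 : n < (n / 2 ^ k + 1) * 2 ^ k := Int.lt_ediv_add_one_mul_self n hk0
  have h3 : n + 1 ≤ (n / 2 ^ k + 1) * 2 ^ k := h2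
  have h1' : ((n / 2 ^ k : ℤ) : ℝ) * 2 ^ k ≤ n := by exact_mod_cast h1
  have h3' : (n : ℝ) + 1 ≤ (((n / 2 ^ k : ℤ) : ℝ) + 1) * 2 ^ k := by exact_mod_cast h3
  have h4 := hx.1
  have h5 := hx.2
  rw [div_le_iff₀ hkj, pow_add] at h4
  rw [lt_div_iff₀ hkj, pow_add] at h5
  constructor
  · rw [div_le_iff₀ hj]
    have h6 : ((n / 2 ^ k : ℤ) : ℝ) * 2 ^ k ≤ x * 2 ^ j * 2 ^ k := by
      calc ((n / 2 ^ k : ℤ) : ℝ) * 2 ^ k ≤ n := h1'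
        _ ≤ x * (2 ^ k * 2 ^ j) := h4
        _ = x * 2 ^ j * 2 ^ k := by ring
    exact le_of_mul_le_mul_right h6 hkR
  · rw [lt_div_iff₀ hj]
    have h6 : x * 2 ^ j * 2 ^ k < (((n / 2 ^ k : ℤ) : ℝ) + 1) * 2 ^ k := by
      calc x * 2 ^ j * 2 ^ k = x * (2 ^ k * 2 ^ j) := by ring
        _ < n + 1 := h5
        _ ≤ _ := h3'
    exact lt_of_mul_lt_mul_right h6 hkR.le

private lemma c1a_anc_idx {m k : ℕ} (hk : k + 2 ≤ m) {n : ℤ}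
    (hn : -2 ^ (m - 2) ≤ n ∧ n < 2 ^ (m - 2)) :
    -2 ^ (m - k - 2) ≤ n / 2 ^ k ∧ n / 2 ^ k < 2 ^ (m - k - 2) := by
  obtain ⟨j, rfl⟩ := Nat.exists_eq_add_of_le hk
  have e1 : k + 2 + j - 2 = j + k := by omega
  have e2 : k + 2 + j - k - 2 = j := by omega
  rw [e1, pow_add] at hn
  rw [e2]
  have hk0 : (0 : ℤ) < 2 ^ k := by positivity
  constructor
  · rw [Int.le_ediv_iff_mul_le hk0]
    linarith [hn.1]
  · rw [Int.ediv_lt_iff_lt_mul hk0]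
    exact hn.2

theorem BB0_subset : BB0 ⊆ BB := by
  exact Set.prod_mono Ico_subset_Icc_self Ico_subset_Icc_self

theorem measurableSet_BB0 : MeasurableSet BB0 := by
  exact measurableSet_Ico.prod measurableSet_Ico

theorem volume_BB_diff : volume (BB \ BB0) = 0 := by
  have h0 : volume BB0 = ENNReal.ofReal (1 / 4) := by
    unfold BB0
    rw [Measure.volume_eq_prod, Measure.prod_prod, Real.volume_Ico, ← ENNReal.ofReal_mul]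
    · norm_num
    · norm_num
  have h1 : volume BB = ENNReal.ofReal (1 / 4) := by
    unfold BB
    rw [Measure.volume_eq_prod, Measure.prod_prod, Real.volume_Icc, ← ENNReal.ofReal_mul]
    · norm_num
    · norm_num
  rw [measure_sdiff BB0_subset measurableSet_BB0.nullMeasurableSet (by rw [h0]; exact
    ENNReal.ofReal_ne_top), h0, h1, tsub_self]

theorem volume_BB : volume BB = ENNReal.ofReal (1 / 4) := by
  unfold BB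
  rw [Measure.volume_eq_prod, Measure.prod_prod, Real.volume_Icc, ← ENNReal.ofReal_mul]
  · norm_num
  · norm_num

theorem measurableSet_sq (m : ℕ) (i : ℤ × ℤ) : MeasurableSet (sq m i) := by
  exact measurableSet_Ico.prod measurableSet_Ico

theorem volume_sq (m : ℕ) (i : ℤ × ℤ) : volume (sq m i) = ENNReal.ofReal (1 / 4 ^ m) := by
  unfold sq
  have h1 : ∀ n : ℤ, ((n : ℝ) + 1) / 2 ^ m - (n : ℝ) / 2 ^ m = 1 / 2 ^ m := fun n => by ring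
  rw [Measure.volume_eq_prod, Measure.prod_prod, Real.volume_Ico, Real.volume_Ico, h1, h1,
    ← ENNReal.ofReal_mul (by positivity)]
  congr 1
  rw [show (4 : ℝ) = 2 * 2 by norm_num, mul_pow]
  field_simp

theorem cor_mem_sq (m : ℕ) (i : ℤ × ℤ) : cor m i ∈ sq m i := by
  have h : ∀ n : ℤ, (n : ℝ) / 2 ^ m ∈ Ico ((n : ℝ) / 2 ^ m) (((n : ℝ) + 1) / 2 ^ m) := fun n =>
    ⟨le_rfl, by
      have : (0 : ℝ) < 2 ^ m := by positivity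
      gcongr
      linarith⟩
  exact ⟨h i.1, h i.2⟩

theorem sq_subset {m : ℕ} (hm : 2 ≤ m) {i : ℤ × ℤ} (hi : i ∈ idx m) : sq m i ⊆ BB0 := by
  rw [idx, Finset.mem_product, Finset.mem_Ico, Finset.mem_Ico] at hi
  exact Set.prod_mono (c1a_Ico hm hi.1) (c1a_Ico hm hi.2)

theorem cor_mem {m : ℕ} (hm : 2 ≤ m) {i : ℤ × ℤ} (hi : i ∈ idx m) : cor m i ∈ BB := by
  exact BB0_subset (sq_subset hm hi (cor_mem_sq m i))

theorem exists_sq {m : ℕ} (hm : 2 ≤ m) {y : ℝ × ℝ} (hy : y ∈ BB0) : ∃ i ∈ idx m, y ∈ sq m i := by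
  refine ⟨(⌊2 ^ m * y.1⌋, ⌊2 ^ m * y.2⌋), ?_, (c1a_mem m _ _).2 rfl, (c1a_mem m _ _).2 rfl⟩
  rw [idx, Finset.mem_product, Finset.mem_Ico, Finset.mem_Ico]
  exact ⟨c1a_floor hm hy.1, c1a_floor hm hy.2⟩

theorem sq_unique {m : ℕ} {i j : ℤ × ℤ} {y : ℝ × ℝ} (hi : y ∈ sq m i) (hj : y ∈ sq m j) :
    i = j := by
  have h1 := (c1a_mem m _ _).1 hi.1
  have h2 := (c1a_mem m _ _).1 hi.2
  have h3 := (c1a_mem m _ _).1 hj.1
  have h4 := (c1a_mem m _ _).1 hj.2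
  exact Prod.ext (h1.symm.trans h3) (h2.symm.trans h4)

theorem anc_sq {m k : ℕ} (hk : k ≤ m) {i : ℤ × ℤ} {y : ℝ × ℝ} (hy : y ∈ sq m i) :
    y ∈ sq (m - k) (anc k i) := by
  exact ⟨c1a_anc hk hy.1, c1a_anc hk hy.2⟩

theorem anc_idx {m k : ℕ} (hk : k + 2 ≤ m) {i : ℤ × ℤ} (hi : i ∈ idx m) :
    anc k i ∈ idx (m - k) := by
  rw [idx, Finset.mem_product, Finset.mem_Ico, Finset.mem_Ico] at hi ⊢
  exact ⟨c1a_anc_idx hk hi.1, c1a_anc_idx hk hi.2⟩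

theorem sq_dist {m : ℕ} {i : ℤ × ℤ} {y : ℝ × ℝ} (hy : y ∈ sq m i) :
    |y.1 - (cor m i).1| ≤ 1 / 2 ^ m ∧ |y.2 - (cor m i).2| ≤ 1 / 2 ^ m := by
  have h : ∀ (n : ℤ) (x : ℝ), x ∈ Ico ((n : ℝ) / 2 ^ m) (((n : ℝ) + 1) / 2 ^ m) →
      |x - (n : ℝ) / 2 ^ m| ≤ 1 / 2 ^ m := by
    intro n x hx
    have h1 := hx.1
    have h2 := hx.2
    rw [add_div] at h2
    rw [abs_le]
    constructor <;> linarith [show (0 : ℝ) < 1 / 2 ^ m by positivity]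
  exact ⟨h _ _ hy.1, h _ _ hy.2⟩

end Pool.Agent.PPH
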