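import Pool.Agent.PPH.S6

/-!
Superpositions.
-/

namespace Pool.Agent.PPH

open MeasureTheory Set MvPolynomial Pool.Agent.MP_6cbfb8_an
open scoped ENNReal Real

theorem measurable_pol_param {W : Type*} [MeasurableSpace W] {N : ℕ}
    (P : W → MvPolynomial (Fin 3) ℝ) (Q : W → Fin N → MvPolynomial (Fin 3) ℝ)
    (hP : Measurable fun q : W × E 3 => eval (fun i => q.2 i) (P q.1))
    (hQ : ∀ i, Measurable fun q : W × E 3 => eval (fun j => q.2 j) (Q q.1 i)) :
    Measurable fun q : W × E 3 => pol (P q.1) (Q q.1) q.2 := by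
  unfold pol
  refine Measurable.mul ?_ (Finset.measurable_prod _ fun i _ => ?_)
  · fun_prop
  · exact Measurable.ite (measurableSet_lt measurable_const (hQ i)) measurable_const
      measurable_const

/-- Superpositions in dimension three. -/
theorem mix3 (D N : ℕ) (p : ℝ) (hp : 3 < p) : ∃ C : ℝ≥0∞, C ≠ ∞ ∧
    ∀ (W : Type) (_ : MeasurableSpace W) (ν : Measure W) (_ : IsFiniteMeasure ν)
      (R : W → (E 3 ≃ₗᵢ[ℝ] E 3)) (η : W → E 3) (P : W → MvPolynomial (Fin 3) ℝ)
      (Q : W → Fin N → MvPolynomial (Fin 3) ℝ),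
      (Measurable fun q : W × E 3 => R q.1 q.2) → Measurable η →
      (Measurable fun q : W × E 3 => eval (fun i => q.2 i) (P q.1)) →
      (∀ i, Measurable fun q : W × E 3 => eval (fun j => q.2 j) (Q q.1 i)) →
      (∀ w, (P w).totalDegree ≤ D) → (∀ w i, (Q w i).totalDegree ≤ D) →
      ∫⁻ ξ, ‖extn (mix ν R η fun w => pol (P w) (Q w)) ξ‖ₑ ^ p ≤ C * ν univ ^ p := by
  obtain ⟨C, hC, H⟩ := main3 D N p hp
  refine ⟨C, hC, ?_⟩
  intro W _ ν _ R η P Q hR hη hP hQ hd hd'
  exact lintegral_mix_le (by linarith) (fun g => ∃ (P : MvPolynomial (Fin 3) ℝ)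
    (Q : Fin N → MvPolynomial (Fin 3) ℝ), P.totalDegree ≤ D ∧ (∀ i, (Q i).totalDegree ≤ D) ∧
    g = pol P Q) (by
      rintro g _ _ ⟨P, Q, h1, h2, rfl⟩
      exact H P Q h1 h2) ν R η (fun w => pol (P w) (Q w)) hR hη (measurable_pol_param P Q hP hQ)
    (fun w x => norm_pol_le _ _ _) (fun w => ⟨P w, Q w, hd w, hd' w, rfl⟩)

/-- Superpositions in higher dimensions. -/
theorem mixhigh (D N M l : ℕ) (hl : 2 ≤ l) (p : ℝ) (hp : 2 * ((l : ℝ) + 2) / (l + 1) < p) :
    ∃ C : ℝ≥0∞, C ≠ ∞ ∧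
    ∀ (W : Type) (_ : MeasurableSpace W) (ν : Measure W) (_ : IsFiniteMeasure ν)
      (R : W → (E (2 + l) ≃ₗᵢ[ℝ] E (2 + l))) (η : W → E (2 + l))
      (P : W → MvPolynomial (Fin 3) ℝ) (Q : W → Fin N → MvPolynomial (Fin 3) ℝ)
      (v : W → Fin M → E (2 + l)) (c : W → Fin M → ℝ),
      (Measurable fun q : W × E (2 + l) => R q.1 q.2) → Measurable η →
      (Measurable fun q : W × E 3 => eval (fun i => q.2 i) (P q.1)) →
      (∀ i, Measurable fun q : W × E 3 => eval (fun j => q.2 j) (Q q.1 i)) →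
      Measurable v → Measurable c →
      (∀ w, (P w).totalDegree ≤ D) → (∀ w i, (Q w i).totalDegree ≤ D) →
      ∫⁻ ξ, ‖extn (mix ν R η fun w x =>
        lift (pol (P w) (Q w)) x * ∏ i, hsn (c w i) (v w i) x) ξ‖ₑ ^ p ≤ C * ν univ ^ p := by
  obtain ⟨C, hC, H⟩ := high D N M l hl p hp
  refine ⟨C, hC, ?_⟩
  intro W _ ν _ R η P Q v c hR hη hP hQ hv hc hd hd'
  have hp1 : 1 ≤ p := by
    refine le_trans ?_ hp.le
    rw [le_div_iff₀ (by positivity)]
    have : (0:ℝ) ≤ l := Nat.cast_nonneg l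
    linarith
  refine lintegral_mix_le hp1 (fun g => ∃ (P : MvPolynomial (Fin 3) ℝ)
    (Q : Fin N → MvPolynomial (Fin 3) ℝ) (v : Fin M → E (2 + l)) (c : Fin M → ℝ),
    P.totalDegree ≤ D ∧ (∀ i, (Q i).totalDegree ≤ D) ∧
    g = fun x => lift (pol P Q) x * ∏ i, hsn (c i) (v i) x) (by
      rintro g _ _ ⟨P, Q, v, c, h1, h2, rfl⟩
      exact H P Q h1 h2 v c) ν R η
      (fun w x => lift (pol (P w) (Q w)) x * ∏ i, hsn (c w i) (v w i) x) hR hη ?_
    (fun w x => ?_) (fun w => ⟨P w, Q w, v w, c w, hd w, hd' w, rfl⟩)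
  · have h1 : Measurable fun q : W × E (2 + l) =>
        (q.1, (join (fstE (k := 2) (l := l) q.2) ‖(sndE q.2 : E l)‖ : E 3)) := by
      refine measurable_fst.prodMk ?_
      have h2 : Measurable fun q : W × E (2 + l) =>
          ((fstE (k := 2) (l := l) q.2 : E 2), ‖(sndE q.2 : E l)‖) :=
        (continuous_fstE.measurable.comp measurable_snd).prodMk
          ((continuous_sndE.norm).measurable.comp measurable_snd)
      exact measurable_join.comp h2
    have h3 : Measurable fun q : W × E (2 + l) => (lift (pol (P q.1) (Q q.1)) q.2 : ℂ) := by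
      have h7 : Measurable fun r : W × E 3 => pol (P r.1) (Q r.1) r.2 :=
        measurable_pol_param P Q hP hQ
      have h8 := h7.comp h1
      simp only [Function.comp_def] at h8
      unfold lift
      exact h8
    have h4 : Measurable fun q : W × E (2 + l) => ∏ i, hsn (c q.1 i) (v q.1 i) q.2 := by
      refine Finset.measurable_prod _ fun i _ => ?_
      unfold hsn
      refine Measurable.ite ?_ measurable_const measurable_const
      have h5 : Measurable fun q : W × E (2 + l) => c q.1 i :=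
        (measurable_pi_iff.1 hc i).comp measurable_fst
      have h6 : Measurable fun q : W × E (2 + l) => v q.1 i :=
        (measurable_pi_iff.1 hv i).comp measurable_fst
      exact measurableSet_lt h5 (measurable_snd.inner h6)
    exact h3.mul h4
  · rw [norm_mul]
    exact mul_le_one₀ (norm_pol_le _ _ _) (norm_nonneg _) (norm_prod_hsn_le _ _ _)

end Pool.Agent.PPH
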