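import Pool.Agent.PPH.A0

/-!
ROW S5a (0.8 h). Canonical form. By linearity (P = sum over the support of its monomials, `MvPolynomial.as_sum`, eval of a sum; the coefficients c add up: qq is additive in c: qq c = Σ c_p monomial_p) it is enough to treat
 a monomial X0^a X1^b X2^e, a + b + e ≤ D: on the disc psi^e = (1 - y1² - y2²)^(e/2) psi^(e%2) (psi_sq), expand: (1 - y1² - y2²)^k is a polynomial in y1, y2 of degree ≤ 2k in each variable, so
 the result is Σ c_{ij} y1^i y2^j psi^(e%2) with i ≤ a + 2(e/2) ≤ D, j ≤ b + 2(e/2) ≤ D.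
 Suggested: the set of functions on the disc of the form ev (qq c), c : Cf D, is closed under sums and scalars; prove by induction on k: for all a + b + 2k + e' ≤ D (e' ≤ 1) the function y1^a y2^b (1 - y1² - y2²)^k psi^e' is
 of this form (k = 0: one coefficient; k + 1: = [k for (a,b)] - [k for (a+2,b)] - [k for (a,b+2)]).
-/

namespace Pool.Agent.PPH

open MeasureTheory Set MvPolynomial
open scoped ENNReal Real

/-- functions on the disc of the form `ev (qq c)` -/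
def s5aQ (D : ℕ) (F : ℝ × ℝ → ℝ) : Prop := ∃ c : Cf D, ∀ y ∈ disc, F y = ev (qq c) y

lemma s5a_ev {D : ℕ} (c : Cf D) (y : ℝ × ℝ) : ev (qq c) y =
    ∑ p : Fin (D + 1) × Fin (D + 1) × Fin 2, c p *
      (y.1 ^ (p.1 : ℕ) * y.2 ^ (p.2.1 : ℕ) * psi y ^ (p.2.2 : ℕ)) := by
  unfold qq
  rw [ev_sum]
  refine Finset.sum_congr rfl fun p _ => ?_
  rw [ev_mul, ev_mul, ev_mul, ev_pow, ev_pow, ev_pow, ev_C, ev_X0, ev_X1, ev_X2]

lemma s5a_add {D : ℕ} {F G : ℝ × ℝ → ℝ} (hF : s5aQ D F) (hG : s5aQ D G) :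
    s5aQ D (fun y => F y + G y) := by
  obtain ⟨c, hc⟩ := hF
  obtain ⟨c', hc'⟩ := hG
  refine ⟨c + c', fun y hy => ?_⟩
  dsimp only
  rw [hc y hy, hc' y hy, s5a_ev, s5a_ev, s5a_ev, ← Finset.sum_add_distrib]
  refine Finset.sum_congr rfl fun p _ => ?_
  rw [Pi.add_apply]
  ring

lemma s5a_smul {D : ℕ} {F : ℝ × ℝ → ℝ} (t : ℝ) (hF : s5aQ D F) :
    s5aQ D (fun y => t * F y) := by
  obtain ⟨c, hc⟩ := hF
  refine ⟨t • c, fun y hy => ?_⟩
  dsimp only
  rw [hc y hy, s5a_ev, s5a_ev, Finset.mul_sum]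
  refine Finset.sum_congr rfl fun p _ => ?_
  rw [Pi.smul_apply, smul_eq_mul]
  ring

lemma s5a_zero {D : ℕ} : s5aQ D (fun _ => 0) :=
  ⟨0, fun y _ => by rw [s5a_ev]; simp⟩

lemma s5a_sum {D : ℕ} {ι : Type*} (s : Finset ι) (F : ι → ℝ × ℝ → ℝ)
    (hF : ∀ i ∈ s, s5aQ D (F i)) : s5aQ D (fun y => ∑ i ∈ s, F i y) := by
  classical
  induction s using Finset.induction_on with
  | empty => simpa using s5a_zero
  | insert a s ha ih =>
    have h1 := s5a_add (hF a (Finset.mem_insert_self a s))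
      (ih fun i hi => hF i (Finset.mem_insert_of_mem hi))
    refine (congrArg (s5aQ D) ?_).mp h1
    funext y
    rw [Finset.sum_insert ha]

lemma s5a_mono (D k : ℕ) : ∀ a b e : ℕ, a + b + 2 * k + e ≤ D → e ≤ 1 →
    s5aQ D (fun y => y.1 ^ a * y.2 ^ b * (1 - y.1 ^ 2 - y.2 ^ 2) ^ k * psi y ^ e) := by
  classical
  induction k with
  | zero =>
    intro a b e h he
    refine ⟨Pi.single ((⟨a, by omega⟩ : Fin (D + 1)), (⟨b, by omega⟩ : Fin (D + 1)),
      (⟨e, by omega⟩ : Fin 2)) 1, fun y _ => ?_⟩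
    rw [s5a_ev, Finset.sum_eq_single ((⟨a, by omega⟩ : Fin (D + 1)), (⟨b, by omega⟩ : Fin (D + 1)),
      (⟨e, by omega⟩ : Fin 2))]
    · rw [Pi.single_eq_same]
      ring
    · intro q _ hq
      rw [Pi.single_eq_of_ne hq, zero_mul]
    · intro h
      exact absurd (Finset.mem_univ _) h
  | succ k ih =>
    intro a b e h he
    have h0 := ih a b e (by omega) he
    have h1 := ih (a + 2) b e (by omega) he
    have h2 := ih a (b + 2) e (by omega) he
    have h3 := s5a_add h0 (s5a_add (s5a_smul (-1) h1) (s5a_smul (-1) h2))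
    refine (congrArg (s5aQ D) ?_).mp h3
    funext y
    ring

theorem canon (D : ℕ) (P : MvPolynomial (Fin 3) ℝ) (hP : P.totalDegree ≤ D) :
    ∃ c : Cf D, ∀ y ∈ disc, eval ![y.1, y.2, psi y] P = ev (qq c) y := by
  have key : s5aQ D (fun y => ∑ s ∈ P.support, P.coeff s *
      (y.1 ^ (s 0) * y.2 ^ (s 1) * (1 - y.1 ^ 2 - y.2 ^ 2) ^ (s 2 / 2) * psi y ^ (s 2 % 2))) := by
    refine s5a_sum _ _ fun s hs => s5a_smul _ (s5a_mono D _ _ _ _ ?_ ?_)
    · have h1 := MvPolynomial.le_totalDegree hs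
      rw [Finsupp.sum_fintype _ _ (fun _ => rfl)] at h1
      simp only [Fin.sum_univ_three] at h1
      omega
    · omega
  obtain ⟨c, hc⟩ := key
  refine ⟨c, fun y hy => ?_⟩
  rw [← hc y hy]
  dsimp only
  rw [MvPolynomial.eval_eq']
  refine Finset.sum_congr rfl fun s _ => ?_
  congr 1
  rw [Fin.prod_univ_three]
  have hy' : y.1 ^ 2 + y.2 ^ 2 < 1 := hy
  have hpsi := psi_sq hy'.le
  have e1 : psi y ^ (s 2) = (1 - y.1 ^ 2 - y.2 ^ 2) ^ (s 2 / 2) * psi y ^ (s 2 % 2) := by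
    rw [← hpsi, ← pow_mul, ← pow_add, Nat.div_add_mod]
  simp only [Matrix.cons_val_zero, Matrix.cons_val_one, Matrix.cons_val]
  rw [e1]
  ring

end Pool.Agent.PPH
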