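import Pool.Agent.PPH.Defs3
import Pool.Agent.PPH.S4a

/-!
From the sphere to the chart.
-/

namespace Pool.Agent.PPH

open MeasureTheory Set MvPolynomial Pool.Agent.MP_6cbfb8_an
open scoped ENNReal Real

/-- the measurable equivalence of the plane with Euclidean 2-space -/
noncomputable def s5bJ : ℝ × ℝ ≃ᵐ E 2 :=
  (MeasurableEquiv.finTwoArrow (α := ℝ)).symm.trans (MeasurableEquiv.toLp 2 (Fin 2 → ℝ))

theorem s5bJ_zero (y : ℝ × ℝ) : s5bJ y 0 = y.1 := rfl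

theorem s5bJ_one (y : ℝ × ℝ) : s5bJ y 1 = y.2 := rfl

theorem s5b_mp : MeasurePreserving s5bJ volume volume :=
  ((volume_preserving_finTwoArrow ℝ).symm _).trans (PiLp.volume_preserving_toLp (Fin 2))

theorem s5b_inner (X : E 2) (y : ℝ × ℝ) :
    inner ℝ (s5bJ y) X = y.1 * X 0 + y.2 * X 1 := by
  rw [PiLp.inner_apply, Fin.sum_univ_two]
  simp only [s5bJ_zero, s5bJ_one]
  simp [mul_comm]

theorem s5b_norm (y : ℝ × ℝ) : ‖s5bJ y‖ ^ 2 = y.1 ^ 2 + y.2 ^ 2 := by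
  rw [EuclideanSpace.norm_sq_eq, Fin.sum_univ_two]
  simp only [s5bJ_zero, s5bJ_one]
  simp

theorem s5b_psi (y : ℝ × ℝ) : √(1 - ‖s5bJ y‖ ^ 2) = psi y := by
  rw [s5b_norm]
  unfold psi
  congr 1
  ring

theorem s5b_join (y : ℝ × ℝ) (h : ℝ) :
    (join (s5bJ y) h : E 3) = WithLp.toLp 2 ![y.1, y.2, h] := by
  ext i
  fin_cases i <;> simp [join, Fin.snoc] <;> rfl

theorem extn_chart (g : E 3 → ℂ) (hg : Measurable g) (hb : ∀ x, ‖g x‖ ≤ 1)
    (hU : ∀ x, x ∉ UU → g x = 0) (X : E 2) (t : ℝ) :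
    extn g (join X t) = VV (fun y => ((1 / psi y : ℝ) : ℂ) * g (WithLp.toLp 2 ![y.1, y.2, psi y]))
      (-(2 * π * t), (2 * π * X 0, 2 * π * X 1)) := by
  have h0 : g = fun x : E (1 + 2) => if 0 < x (Fin.last (1 + 1)) then g x else 0 := by
    funext x
    by_cases h : 0 < x (Fin.last (1 + 1))
    · rw [if_pos h]
    · rw [if_neg h]
      refine hU x fun hx => h ?_
      exact hx.2.2
  have h1 := MST.chart 1 g hg hb X t
  rw [← h0] at h1
  refine h1.trans ?_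
  have hms : MeasurableSet (Metric.ball (0 : E 2) 1) := measurableSet_ball
  rw [← integral_indicator hms]
  have h2 := (s5b_mp.integral_comp s5bJ.measurableEmbedding
    ((Metric.ball (0 : E 2) 1).indicator fun u : E 2 => g (join u √(1 - ‖u‖ ^ 2)) *
        ((1 / √(1 - ‖u‖ ^ 2) : ℝ) : ℂ) * MST.ex (inner ℝ u X + √(1 - ‖u‖ ^ 2) * t))).symm
  refine h2.trans ?_
  unfold VV
  rw [← integral_indicator measurableSet_BB]
  refine integral_congr_ae (Filter.Eventually.of_forall fun y => ?_)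
  simp only
  by_cases hy : y ∈ BB
  · rw [indicator_of_mem hy]
    have hball : s5bJ y ∈ Metric.ball (0 : E 2) 1 := by
      rw [mem_ball_zero_iff]
      have h3 := s5b_norm y
      have h4 := BB_sq hy
      nlinarith [norm_nonneg (s5bJ y)]
    rw [indicator_of_mem hball, s5b_psi, s5b_join, s5b_inner]
    unfold MST.ex
    rw [mul_comm (g _) _]
    congr 2
    push_cast
    ring
  · rw [indicator_of_notMem hy]
    by_cases hball : s5bJ y ∈ Metric.ball (0 : E 2) 1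
    · rw [indicator_of_mem hball, s5b_psi, s5b_join]
      have : g (WithLp.toLp 2 ![y.1, y.2, psi y]) = 0 := by
        refine hU _ fun hx => hy ?_
        have a1 : |y.1| < 1 / 4 := hx.1
        have a2 : |y.2| < 1 / 4 := hx.2.1
        rw [abs_lt] at a1 a2
        exact ⟨⟨a1.1.le, a1.2.le⟩, ⟨a2.1.le, a2.2.le⟩⟩
      rw [this]
      simp
    · rw [indicator_of_notMem hball]

theorem s5b_dil1 (f : ℝ → ℝ≥0∞) (hf : Measurable f) :
    ∫⁻ t, f (-(2 * π * t)) ≤ ∫⁻ t, f t := by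
  have hπ : (-(2 * π)) ≠ 0 := by
    have := Real.pi_pos
    linarith
  have h2 : ∫⁻ x : ℝ, f ((-(2 * π)) • x) =
      ∫⁻ x, f x ∂(Measure.map (fun x : ℝ => (-(2 * π)) • x) volume) :=
    (lintegral_map hf (measurable_const_smul _)).symm
  have h1 : ∫⁻ t, f (-(2 * π * t)) = ∫⁻ x : ℝ, f ((-(2 * π)) • x) := by
    refine lintegral_congr fun x => ?_
    rw [smul_eq_mul]
    congr 1
    ring
  rw [h1, h2, Measure.map_addHaar_smul volume hπ, lintegral_smul_measure, smul_eq_mul]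
  refine (mul_le_mul_left (?_ : _ ≤ (1 : ℝ≥0∞)) _).trans (one_mul _).le
  rw [Module.finrank_self, pow_one, ENNReal.ofReal_le_one, abs_inv, abs_neg,
    abs_of_pos (by positivity)]
  refine inv_le_one_of_one_le₀ ?_
  have := Real.two_le_pi
  linarith

theorem s5b_dil2 (f : E 2 → ℝ≥0∞) (hf : Measurable f) :
    ∫⁻ X : E 2, f ((2 * π) • X) ≤ ∫⁻ X, f X := by
  have hπ : (2 * π) ≠ 0 := by positivity
  have h2 : ∫⁻ x : E 2, f ((2 * π) • x) =
      ∫⁻ x, f x ∂(Measure.map (fun x : E 2 => (2 * π) • x) volume) :=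
    (lintegral_map hf (measurable_const_smul _)).symm
  rw [h2, Measure.map_addHaar_smul volume hπ, lintegral_smul_measure, smul_eq_mul]
  refine (mul_le_mul_left (?_ : _ ≤ (1 : ℝ≥0∞)) _).trans (one_mul _).le
  rw [ENNReal.ofReal_le_one, abs_inv, abs_of_pos (by positivity)]
  refine inv_le_one_of_one_le₀ ?_
  refine one_le_pow₀ ?_
  have := Real.two_le_pi
  linarith

theorem lint_chart (g : E 3 → ℂ) (hg : Measurable g) (hb : ∀ x, ‖g x‖ ≤ 1)
    (hU : ∀ x, x ∉ UU → g x = 0) (p : ℝ) (hp : 0 < p) :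
    ∫⁻ ξ : E 3, ‖extn g ξ‖ₑ ^ p ≤ ∫⁻ z : ℝ × (ℝ × ℝ),
      ‖VV (fun y => ((1 / psi y : ℝ) : ℂ) * g (WithLp.toLp 2 ![y.1, y.2, psi y])) z‖ₑ ^ p := by
  set G : ℝ × ℝ → ℂ := fun y => ((1 / psi y : ℝ) : ℂ) * g (WithLp.toLp 2 ![y.1, y.2, psi y])
    with hG
  have hGm : Measurable G := by
    have h1 : Measurable fun y : ℝ × ℝ => (WithLp.toLp 2 ![y.1, y.2, psi y] : E 3) := by
      have h2 : Measurable fun y : ℝ × ℝ => (join (s5bJ y) (psi y) : E 3) :=
        measurable_join.comp (s5bJ.measurable.prodMk continuous_psi.measurable)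
      simpa only [s5b_join] using h2
    have h3 : Measurable fun y : ℝ × ℝ => ((1 / psi y : ℝ) : ℂ) :=
      Complex.measurable_ofReal.comp (measurable_const.div continuous_psi.measurable)
    exact h3.mul (hg.comp h1)
  have hVm : Measurable fun z : ℝ × (ℝ × ℝ) => ‖VV G z‖ₑ ^ p := by
    have h1 := measurable_VV (W := Unit) (fun _ => G) (hGm.comp measurable_snd)
    exact ((h1.comp (f := fun z : ℝ × (ℝ × ℝ) => (((), z) : Unit × (ℝ × (ℝ × ℝ))))
      (measurable_const.prodMk measurable_id)).enorm).pow_const p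
  rw [lintegral_join 2 _ ((measurable_extn _ hg).enorm.pow_const p)]
  have e1 : ∀ X : E 2, ∫⁻ t, ‖extn g (join X t)‖ₑ ^ p ≤
      ∫⁻ t, ‖VV G (t, (2 * π * X 0, 2 * π * X 1))‖ₑ ^ p := by
    intro X
    refine le_trans (le_of_eq ?_) (s5b_dil1 (fun t => ‖VV G (t, (2 * π * X 0, 2 * π * X 1))‖ₑ ^ p)
      (hVm.comp (f := fun t : ℝ => ((t, (2 * π * X 0, 2 * π * X 1)) : ℝ × (ℝ × ℝ)))
        (measurable_id.prodMk measurable_const)))
    refine lintegral_congr fun t => ?_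
    rw [extn_chart g hg hb hU X t]
  refine (lintegral_mono e1).trans ?_
  have hΨ : Measurable fun w : ℝ × ℝ => ∫⁻ t, ‖VV G (t, w)‖ₑ ^ p :=
    hVm.lintegral_prod_left'
  have hΨ2 : Measurable fun X : E 2 => ∫⁻ t, ‖VV G (t, (X 0, X 1))‖ₑ ^ p := by
    refine hΨ.comp (f := fun X : E 2 => ((X 0, X 1) : ℝ × ℝ)) ?_
    fun_prop
  have e2 := s5b_dil2 (fun X : E 2 => ∫⁻ t, ‖VV G (t, (X 0, X 1))‖ₑ ^ p) hΨ2
  refine le_trans (le_of_eq ?_) (e2.trans ?_)
  · refine lintegral_congr fun X => ?_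
    simp only [PiLp.smul_apply, smul_eq_mul]
  · have e3 : ∫⁻ X : E 2, ∫⁻ t, ‖VV G (t, (X 0, X 1))‖ₑ ^ p =
        ∫⁻ y : ℝ × ℝ, ∫⁻ t, ‖VV G (t, y)‖ₑ ^ p := by
      rw [← s5b_mp.lintegral_comp_emb s5bJ.measurableEmbedding]
      refine lintegral_congr fun y => ?_
      simp only [s5bJ_zero, s5bJ_one]
    rw [e3]
    have e4 := lintegral_prod_symm' (fun z : ℝ × (ℝ × ℝ) => ‖VV G z‖ₑ ^ p) hVm
      (μ := (volume : Measure ℝ)) (ν := (volume : Measure (ℝ × ℝ)))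
    exact (le_of_eq e4.symm)

end Pool.Agent.PPH
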