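import Pool.Agent.PPH.S4d
import Pool.Agent.PPH.S5a
import Pool.Agent.PPH.S5b

/-!
ROW S5c (0.8 h). The estimate on one rotated piece.
`measurable_pol`, `norm_pol_le`: continuity of polynomials, unimodular exponential, indicators ≤ 1.
`one_piece`: g x = pol P Q x * (if x ∈ UU then 1 else 0): measurable, ‖g‖ ≤ 1, zero outside of UU. lint_chart: the function in the chart is (1/psi y) pol P Q (..) 1[..∈ UU]; for y ∈ BB with |y.1|, |y.2| < 1/4 it equals
 GG c cs y with c, cs i from `canon` for P, Q i (BB ⊆ disc); the rest of BB is a null set (two pairs of lines |y.1| = 1/4, |y.2| = 1/4), so VV is the same. all_cuts.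
`rot_piece`: for R : E 3 ≃ₗᵢ E 3, pol P Q x = pol P' Q' (R x) with P' = P ∘ R⁻¹ = MvPolynomial.bind₁ (fun i => Σ_j C ((R.symm (basis j)) i) * X j) P, totalDegree ≤ D (bind₁/aeval with polynomials of degree ≤ 1:
 sum over the support). So pol P Q x * chi R x = g'(R x), g' as in one_piece for P', Q'; extn_isometry: extn (g' ∘ R) ζ = extn g' (R ζ), and R preserves the volume of E 3 (R.measurePreserving).
-/

namespace Pool.Agent.PPH

open MeasureTheory Set MvPolynomial Pool.Agent.MP_6cbfb8_an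
open scoped ENNReal Real

theorem measurable_pol (P : MvPolynomial (Fin 3) ℝ) {N : ℕ} (Q : Fin N → MvPolynomial (Fin 3) ℝ) :
    Measurable (pol P Q) := by
  have hc : Continuous fun x : E 3 => (fun i => x i : Fin 3 → ℝ) := by fun_prop
  have hev : ∀ F : MvPolynomial (Fin 3) ℝ, Measurable fun x : E 3 => eval (fun i => x i) F :=
    fun F => ((MvPolynomial.continuous_eval F).comp hc).measurable
  unfold pol
  refine Measurable.mul ?_ ?_
  · exact Complex.measurable_exp.comp
      ((Complex.measurable_ofReal.comp (hev P)).mul measurable_const)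
  · refine Finset.measurable_prod _ fun i _ => ?_
    exact Measurable.ite (measurableSet_lt measurable_const (hev (Q i))) measurable_const
      measurable_const

theorem norm_pol_le (P : MvPolynomial (Fin 3) ℝ) {N : ℕ} (Q : Fin N → MvPolynomial (Fin 3) ℝ)
    (x : E 3) : ‖pol P Q x‖ ≤ 1 := by
  unfold pol
  rw [norm_mul, norm_phase, one_mul, norm_prod]
  refine Finset.prod_le_one (fun i _ => norm_nonneg _) fun i _ => ?_
  split_ifs <;> simp

theorem measurableSet_UU : MeasurableSet UU := by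
  have h : ∀ i : Fin 3, Measurable fun x : E 3 => x i := by
    intro i
    fun_prop
  exact (measurableSet_lt (h 0).abs measurable_const).inter
    ((measurableSet_lt (h 1).abs measurable_const).inter (measurableSet_lt measurable_const (h 2)))

/-- substitution of a linear isometry in a polynomial -/
theorem rot_poly (R : E 3 ≃ₗᵢ[ℝ] E 3) (P : MvPolynomial (Fin 3) ℝ) :
    ∃ P' : MvPolynomial (Fin 3) ℝ, P'.totalDegree ≤ P.totalDegree ∧
      ∀ x : E 3, eval (fun i => x i) P = eval (fun i => (R x) i) P' := by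
  obtain ⟨f, hf⟩ : ∃ f : Fin 3 → MvPolynomial (Fin 3) ℝ, ∀ i, f i =
      ∑ j, C ((R.symm (EuclideanSpace.single j (1:ℝ))) i) * X j := ⟨_, fun _ => rfl⟩
  have hfd : ∀ i, (f i).totalDegree ≤ 1 := by
    intro i
    rw [hf]
    refine totalDegree_finsetSum_le fun j _ => ?_
    refine (totalDegree_mul _ _).trans ?_
    rw [totalDegree_C, totalDegree_X, zero_add]
  refine ⟨bind₁ f P, ?_, fun x => ?_⟩
  · have h1 : bind₁ f P = ∑ s ∈ P.support, C (coeff s P) * ∏ i, f i ^ s i := by
      rw [show bind₁ f P = aeval f P from rfl, aeval_def, eval₂_eq']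
      rfl
    rw [h1]
    refine totalDegree_finsetSum_le fun s hs => ?_
    refine (totalDegree_mul _ _).trans ?_
    rw [totalDegree_C, zero_add]
    refine (totalDegree_finsetProd _ _).trans ?_
    calc ∑ i, (f i ^ s i).totalDegree ≤ ∑ i, s i := by
          refine Finset.sum_le_sum fun i _ => ?_
          refine (totalDegree_pow _ _).trans ?_
          calc s i * (f i).totalDegree ≤ s i * 1 := Nat.mul_le_mul_left _ (hfd i)
            _ = s i := mul_one _
      _ = s.sum fun _ e => e := by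
          rw [Finsupp.sum_fintype _ _ (fun _ => rfl)]
      _ ≤ P.totalDegree := le_totalDegree hs
  · have h2 : eval (fun i => (R x) i) (bind₁ f P) =
        eval (fun i => eval (fun i => (R x) i) (f i)) P :=
      eval₂Hom_bind₁ (RingHom.id ℝ) (fun i => (R x) i) f P
    rw [h2]
    congr 2
    funext i
    rw [hf]
    simp only [map_sum, map_mul, eval_C, eval_X]
    have h3 : R x = ∑ j, (R x) j • EuclideanSpace.single j (1:ℝ) := by
      ext k
      simp [Finset.sum_apply, Pi.single_apply]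
    have h4 : x = ∑ j, (R x) j • R.symm (EuclideanSpace.single j (1:ℝ)) := by
      have h5 := congrArg R.symm h3
      rw [R.symm_apply_apply, map_sum] at h5
      simpa using h5
    have h6 := congrArg (fun z : E 3 => z i) h4
    simp only [WithLp.ofLp_sum, Finset.sum_apply, PiLp.smul_apply, smul_eq_mul] at h6
    rw [h6]
    exact Finset.sum_congr rfl fun j _ => mul_comm _ _

theorem one_piece (D N : ℕ) (p : ℝ) (hp : 3 < p) : ∃ C : ℝ≥0∞, C ≠ ∞ ∧
    ∀ (P : MvPolynomial (Fin 3) ℝ) (Q : Fin N → MvPolynomial (Fin 3) ℝ), P.totalDegree ≤ D →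
    (∀ i, (Q i).totalDegree ≤ D) →
    ∫⁻ ξ : E 3, ‖extn (fun x => pol P Q x * UU.indicator (fun _ => (1:ℂ)) x) ξ‖ₑ ^ p ≤ C := by
  obtain ⟨C, hC, hall⟩ := all_cuts D N p hp
  refine ⟨C, hC, fun P Q hP hQ => ?_⟩
  obtain ⟨c, hc⟩ := canon D P hP
  choose cs hcs using fun i => canon D (Q i) (hQ i)
  have hg : Measurable fun x => pol P Q x * UU.indicator (fun _ => (1:ℂ)) x :=
    (measurable_pol P Q).mul (measurable_const.indicator measurableSet_UU)
  have hb : ∀ x, ‖pol P Q x * UU.indicator (fun _ => (1:ℂ)) x‖ ≤ 1 := by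
    intro x
    by_cases hx : x ∈ UU
    · rw [Set.indicator_of_mem hx, mul_one]
      exact norm_pol_le P Q x
    · rw [Set.indicator_of_notMem hx, mul_zero, norm_zero]
      exact zero_le_one
  have hU : ∀ x, x ∉ UU → pol P Q x * UU.indicator (fun _ => (1:ℂ)) x = 0 := by
    intro x hx
    rw [Set.indicator_of_notMem hx, mul_zero]
  refine (lint_chart _ hg hb hU p (by linarith)).trans ?_
  refine le_trans (le_of_eq ?_) (hall c cs)
  refine lintegral_congr fun z => ?_
  congr 2
  unfold VV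
  refine setIntegral_congr_ae measurableSet_BB ?_
  have hne : ∀ a : ℝ, ∀ᵐ x : ℝ, x ≠ a := fun a => compl_mem_ae_iff.2 (measure_singleton a)
  have h1 : ∀ a : ℝ, ∀ᵐ y : ℝ × ℝ, y.1 ≠ a := fun a =>
    Measure.quasiMeasurePreserving_fst.ae (hne a)
  have h2 : ∀ a : ℝ, ∀ᵐ y : ℝ × ℝ, y.2 ≠ a := fun a =>
    Measure.quasiMeasurePreserving_snd.ae (hne a)
  filter_upwards [h1 (1/4), h1 (-(1/4)), h2 (1/4), h2 (-(1/4))] with y ha hb' hc' hd hy
  congr 1
  have hpsi := BB_psi hy
  have hy' := hy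
  obtain ⟨⟨ha1, ha2⟩, ⟨hb1, hb2⟩⟩ := hy'
  have hmem : (WithLp.toLp 2 ![y.1, y.2, psi y] : E 3) ∈ UU := by
    refine ⟨?_, ?_, ?_⟩
    · show |y.1| < 1 / 4
      rw [abs_lt]
      exact ⟨lt_of_le_of_ne ha1 (Ne.symm hb'), lt_of_le_of_ne ha2 ha⟩
    · show |y.2| < 1 / 4
      rw [abs_lt]
      exact ⟨lt_of_le_of_ne hb1 (Ne.symm hd), lt_of_le_of_ne hb2 hc'⟩
    · show 0 < psi y
      linarith [hpsi.1]
  rw [Set.indicator_of_mem hmem, mul_one]
  have hdisc := BB_sub_disc hy
  unfold pol GG phs cut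
  have he : ∀ F : MvPolynomial (Fin 3) ℝ,
      eval (fun i => (WithLp.toLp 2 ![y.1, y.2, psi y] : E 3) i) F =
        eval ![y.1, y.2, psi y] F := fun F => rfl
  rw [he, hc y hdisc]
  have hprod : (∏ i, if 0 < eval (fun j => (WithLp.toLp 2 ![y.1, y.2, psi y] : E 3) j) (Q i)
      then (1:ℂ) else 0) = ∏ i, if 0 < ev (qq (cs i)) y then (1:ℂ) else 0 := by
    refine Finset.prod_congr rfl fun i _ => ?_
    rw [he, hcs i y hdisc]
  rw [hprod]
  ring

theorem rot_piece (D N : ℕ) (p : ℝ) (hp : 3 < p) : ∃ C : ℝ≥0∞, C ≠ ∞ ∧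
    ∀ (R : E 3 ≃ₗᵢ[ℝ] E 3) (P : MvPolynomial (Fin 3) ℝ) (Q : Fin N → MvPolynomial (Fin 3) ℝ),
    P.totalDegree ≤ D → (∀ i, (Q i).totalDegree ≤ D) →
    ∫⁻ ξ : E 3, ‖extn (fun x => pol P Q x * chi R x) ξ‖ₑ ^ p ≤ C := by
  obtain ⟨C, hC, hone⟩ := one_piece D N p hp
  refine ⟨C, hC, fun R P Q hP hQ => ?_⟩
  obtain ⟨P', hP', hPe⟩ := rot_poly R P
  choose Q' hQ' hQe using fun i => rot_poly R (Q i)
  have hfun : ∀ x : E 3, pol P Q x * chi R x =
      (fun x => pol P' Q' x * UU.indicator (fun _ => (1:ℂ)) x) (R x) := by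
    intro x
    simp only
    have h1 : pol P Q x = pol P' Q' (R x) := by
      unfold pol
      rw [hPe x]
      congr 1
      refine Finset.prod_congr rfl fun i _ => ?_
      rw [hQe i x]
    have h2 : chi R x = UU.indicator (fun _ => (1:ℂ)) (R x) := by
      unfold chi
      by_cases hx : R x ∈ UU
      · rw [if_pos hx, Set.indicator_of_mem hx]
      · rw [if_neg hx, Set.indicator_of_notMem hx]
    rw [h1, h2]
  have hext : ∀ ξ : E 3, extn (fun x => pol P Q x * chi R x) ξ =
      extn (fun x => pol P' Q' x * UU.indicator (fun _ => (1:ℂ)) x) (R ξ) := by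
    intro ξ
    rw [← extn_isometry]
    unfold extn
    refine integral_congr_ae (Filter.Eventually.of_forall fun x => ?_)
    simp only
    rw [hfun]
  simp_rw [hext]
  have hmp : MeasurePreserving (R : E 3 → E 3) volume volume := R.measurePreserving
  rw [hmp.lintegral_comp_emb R.toMeasurableEquiv.measurableEmbedding
    (fun ξ => ‖extn (fun x => pol P' Q' x * UU.indicator (fun _ => (1:ℂ)) x) ξ‖ₑ ^ p)]
  exact hone P' Q' (hP'.trans hP) fun i => (hQ' i).trans (hQ i)

end Pool.Agent.PPH
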