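import Pool.Agent.PPH.Defs3

/-!
ROW S5d (0.6 h).
`cover`: for ‖x‖ = 1 there is a linear isometry R with R x = e3 := toLp ![0,0,1] ∈ UU: the reflection in (ℝ ∙ (x - e3))ᗮ (`Submodule.reflection_sub` : ‖v‖ = ‖w‖ → reflection (ℝ ∙ (v - w))ᗮ v = w). The sets {x' | R x' ∈ UU}
 are open (UU is open, R continuous) and cover the compact sphere: finite subcover (IsCompact.elim_finite_subcover), as a list.
`chi_eq`: the five half spaces: polynomials 1/4 - (Rx)_0, 1/4 + (Rx)_0, 1/4 - (Rx)_1, 1/4 + (Rx)_1, (Rx)_2 of degree ≤ 1 in x, (Rx)_j = Σ_i (R e_i)_j x_i.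
`pol_append`: Fin.append, Fin.prod_univ_add.
-/

namespace Pool.Agent.PPH

open MeasureTheory Set MvPolynomial Pool.Agent.MP_6cbfb8_an
open scoped ENNReal Real

private lemma isOpen_UU : IsOpen UU := by
  have h0 : Continuous fun x : E 3 => |x 0| := by fun_prop
  have h1 : Continuous fun x : E 3 => |x 1| := by fun_prop
  have h2 : Continuous fun x : E 3 => x 2 := by fun_prop
  exact (isOpen_lt h0 continuous_const).inter
    ((isOpen_lt h1 continuous_const).inter (isOpen_lt continuous_const h2))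

theorem cover : ∃ L : List (E 3 ≃ₗᵢ[ℝ] E 3), ∀ x : E 3, ‖x‖ = 1 → ∃ R ∈ L, R x ∈ UU := by
  obtain ⟨t, ht⟩ := (isCompact_sphere (0 : E 3) 1).elim_finite_subcover
    (fun R : E 3 ≃ₗᵢ[ℝ] E 3 => {x : E 3 | R x ∈ UU})
    (fun R => isOpen_UU.preimage R.continuous) (by
      intro x hx
      have hx1 : ‖x‖ = 1 := by simpa using hx
      rw [mem_iUnion]
      refine ⟨Submodule.reflection (ℝ ∙ (x - EuclideanSpace.single 2 1))ᗮ, ?_⟩
      show Submodule.reflection (ℝ ∙ (x - EuclideanSpace.single 2 1))ᗮ x ∈ UU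
      rw [Submodule.reflection_sub (by rw [hx1]; simp)]
      refine ⟨?_, ?_, ?_⟩
      · simp
      · simp
      · simp)
  refine ⟨t.toList, fun x hx => ?_⟩
  have h1 : x ∈ Metric.sphere (0 : E 3) 1 := by simpa using hx
  have h2 := ht h1
  simp only [mem_iUnion] at h2
  obtain ⟨R, hR, hx2⟩ := h2
  exact ⟨R, Finset.mem_toList.2 hR, hx2⟩

/-- the coordinate `(R x)_j` as a polynomial -/
private noncomputable def lin (R : E 3 ≃ₗᵢ[ℝ] E 3) (j : Fin 3) : MvPolynomial (Fin 3) ℝ :=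
  ∑ i, C ((R (EuclideanSpace.single i 1)) j) * X i

private lemma lin_eval (R : E 3 ≃ₗᵢ[ℝ] E 3) (j : Fin 3) (x : E 3) :
    eval (fun j => x j) (lin R j) = (R x) j := by
  have hx : x = ∑ i, x i • (EuclideanSpace.single i (1 : ℝ) : E 3) := by
    ext k
    simp [Finset.sum_apply, Pi.single_apply]
  conv_rhs => rw [hx]
  rw [map_sum]
  simp only [lin, map_sum, map_mul, eval_C, eval_X, map_smul]
  simp [mul_comm]

private lemma lin_deg (R : E 3 ≃ₗᵢ[ℝ] E 3) (j : Fin 3) : (lin R j).totalDegree ≤ 1 := by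
  unfold lin
  refine totalDegree_finsetSum_le fun i _ => ?_
  refine (totalDegree_mul _ _).trans ?_
  rw [totalDegree_C, totalDegree_X]

theorem chi_eq (R : E 3 ≃ₗᵢ[ℝ] E 3) : ∃ H : Fin 5 → MvPolynomial (Fin 3) ℝ,
    (∀ i, (H i).totalDegree ≤ 1) ∧
    ∀ x : E 3, chi R x = ∏ i, if 0 < eval (fun j => x j) (H i) then (1:ℂ) else 0 := by
  refine ⟨![C (1 / 4) - lin R 0, C (1 / 4) + lin R 0, C (1 / 4) - lin R 1, C (1 / 4) + lin R 1,
    lin R 2], ?_, ?_⟩
  · have hs : ∀ (r : ℝ) (j : Fin 3), (C r - lin R j).totalDegree ≤ 1 := fun r j =>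
      (totalDegree_sub _ _).trans (max_le (by rw [totalDegree_C]; exact Nat.zero_le _) (lin_deg R j))
    have ha : ∀ (r : ℝ) (j : Fin 3), (C r + lin R j).totalDegree ≤ 1 := fun r j =>
      (totalDegree_add _ _).trans (max_le (by rw [totalDegree_C]; exact Nat.zero_le _) (lin_deg R j))
    intro i
    fin_cases i
    · exact hs _ _
    · exact ha _ _
    · exact hs _ _
    · exact ha _ _
    · exact lin_deg R 2
  · intro x
    rw [Fin.prod_univ_five]
    have e0 : eval (fun j => x j) (C (1 / 4) - lin R 0) = 1 / 4 - (R x) 0 := by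
      rw [map_sub, eval_C, lin_eval]
    have e1 : eval (fun j => x j) (C (1 / 4) + lin R 0) = 1 / 4 + (R x) 0 := by
      rw [map_add, eval_C, lin_eval]
    have e2 : eval (fun j => x j) (C (1 / 4) - lin R 1) = 1 / 4 - (R x) 1 := by
      rw [map_sub, eval_C, lin_eval]
    have e3 : eval (fun j => x j) (C (1 / 4) + lin R 1) = 1 / 4 + (R x) 1 := by
      rw [map_add, eval_C, lin_eval]
    have e4 : eval (fun j => x j) (lin R 2) = (R x) 2 := lin_eval R 2 x
    change chi R x = (if 0 < eval (fun j => x j) (C (1 / 4) - lin R 0) then (1:ℂ) else 0) *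
      (if 0 < eval (fun j => x j) (C (1 / 4) + lin R 0) then (1:ℂ) else 0) *
      (if 0 < eval (fun j => x j) (C (1 / 4) - lin R 1) then (1:ℂ) else 0) *
      (if 0 < eval (fun j => x j) (C (1 / 4) + lin R 1) then (1:ℂ) else 0) *
      (if 0 < eval (fun j => x j) (lin R 2) then (1:ℂ) else 0)
    rw [e0, e1, e2, e3, e4]
    unfold chi
    have hU : R x ∈ UU ↔ (0 < 1 / 4 - (R x) 0 ∧ 0 < 1 / 4 + (R x) 0) ∧
        (0 < 1 / 4 - (R x) 1 ∧ 0 < 1 / 4 + (R x) 1) ∧ 0 < (R x) 2 := by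
      unfold UU
      rw [mem_ofPred_eq, abs_lt, abs_lt]
      constructor
      · rintro ⟨⟨h1, h2⟩, ⟨h3, h4⟩, h5⟩
        exact ⟨⟨by linarith, by linarith⟩, ⟨by linarith, by linarith⟩, h5⟩
      · rintro ⟨⟨h1, h2⟩, ⟨h3, h4⟩, h5⟩
        exact ⟨⟨by linarith, by linarith⟩, ⟨by linarith, by linarith⟩, h5⟩
    by_cases h : R x ∈ UU
    · rw [if_pos h]
      obtain ⟨⟨h1, h2⟩, ⟨h3, h4⟩, h5⟩ := hU.1 h
      rw [if_pos h1, if_pos h2, if_pos h3, if_pos h4, if_pos h5]
      norm_num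
    · rw [if_neg h]
      by_cases h1 : 0 < 1 / 4 - (R x) 0
      · by_cases h2 : 0 < 1 / 4 + (R x) 0
        · by_cases h3 : 0 < 1 / 4 - (R x) 1
          · by_cases h4 : 0 < 1 / 4 + (R x) 1
            · by_cases h5 : 0 < (R x) 2
              · exact absurd (hU.2 ⟨⟨h1, h2⟩, ⟨h3, h4⟩, h5⟩) h
              · rw [if_neg h5, mul_zero]
            · rw [if_neg h4]
              ring
          · rw [if_neg h3]
            ring
        · rw [if_neg h2]
          ring
      · rw [if_neg h1]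
        ring

theorem pol_append (P : MvPolynomial (Fin 3) ℝ) {N M : ℕ} (Q : Fin N → MvPolynomial (Fin 3) ℝ)
    (H : Fin M → MvPolynomial (Fin 3) ℝ) (x : E 3) :
    pol P (Fin.append Q H) x = pol P Q x * ∏ i, if 0 < eval (fun j => x j) (H i) then (1:ℂ) else 0 := by
  unfold pol
  rw [Fin.prod_univ_add, mul_assoc]
  congr 2
  · refine Finset.prod_congr rfl fun i _ => ?_
    rw [Fin.append_left]
  · refine Finset.prod_congr rfl fun i _ => ?_
    rw [Fin.append_right]

end Pool.Agent.PPH
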