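import Pool.Agent.MP_6cbfb8_an.LiftF
import Pool.Agent.PPH.S5c
import Pool.Agent.PPH.S5d

/-!
ROW S5e (0.8 h). Patching. First D ≥ 1 (a bound for D + 1 implies the bound for D).
`union_bound`: induction on the list L, for all N simultaneously. L = []: unn [] = 0, extn 0 = 0. L' = R :: L: unn (R :: L) = unn L + chi R - unn L * chi R (0/1 valued functions), and
 pol P Q * unn L * chi R = pol P (Fin.append Q H) * unn L (chi_eq, pol_append; degrees ≤ D as D ≥ 1). extn is additive on bounded measurable functions (integrable on the sphere), so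
 ‖extn‖^p ≤ 3^p (‖..‖^p + ‖..‖^p + ‖..‖^p) (library `add_rpow_le_three` in Tools.lean), with the three bounds: induction hypothesis for N, rot_piece, induction hypothesis for N + 5.
`main3`: L from `cover`: unn L x = 1 on the unit sphere, extn_congr_sphere.
-/

namespace Pool.Agent.PPH

open MeasureTheory Set MvPolynomial Pool.Agent.MP_6cbfb8_an
open scoped ENNReal Real

private theorem s5e_meas_chi (R : E 3 ≃ₗᵢ[ℝ] E 3) : Measurable (chi R) := by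
  unfold chi
  exact Measurable.ite (R.continuous.measurable measurableSet_UU) measurable_const measurable_const

private theorem s5e_meas_set (L : List (E 3 ≃ₗᵢ[ℝ] E 3)) :
    MeasurableSet {x : E 3 | ∃ R ∈ L, R x ∈ UU} := by
  have h : {x : E 3 | ∃ R ∈ L, R x ∈ UU} = ⋃ R ∈ {R | R ∈ L}, (R ⁻¹' UU : Set (E 3)) := by
    ext x
    simp
  rw [h]
  exact MeasurableSet.biUnion (L.finite_toSet.countable)
    fun R _ => R.continuous.measurable measurableSet_UU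

private theorem s5e_meas_unn (L : List (E 3 ≃ₗᵢ[ℝ] E 3)) : Measurable (unn L) := by
  unfold unn
  exact Measurable.ite (s5e_meas_set L) measurable_const measurable_const

private theorem s5e_norm_chi (R : E 3 ≃ₗᵢ[ℝ] E 3) (x : E 3) : ‖chi R x‖ ≤ 1 := by
  unfold chi
  split_ifs <;> simp

private theorem s5e_norm_unn (L : List (E 3 ≃ₗᵢ[ℝ] E 3)) (x : E 3) : ‖unn L x‖ ≤ 1 := by
  unfold unn
  split_ifs <;> simp

private theorem s5e_cons (R : E 3 ≃ₗᵢ[ℝ] E 3) (L : List (E 3 ≃ₗᵢ[ℝ] E 3)) (x : E 3) :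
    unn (R :: L) x = unn L x + chi R x - unn L x * chi R x := by
  unfold unn chi
  by_cases h1 : R x ∈ UU <;> by_cases h2 : ∃ R ∈ L, R x ∈ UU
  · have h3 : ∃ R' ∈ R :: L, R' x ∈ UU := ⟨R, List.mem_cons_self, h1⟩
    rw [if_pos h1, if_pos h2, if_pos h3]
    ring
  · have h3 : ∃ R' ∈ R :: L, R' x ∈ UU := ⟨R, List.mem_cons_self, h1⟩
    rw [if_pos h1, if_neg h2, if_pos h3]
    ring
  · have h3 : ∃ R' ∈ R :: L, R' x ∈ UU := by
      obtain ⟨R', hR', hx⟩ := h2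
      exact ⟨R', List.mem_cons_of_mem _ hR', hx⟩
    rw [if_neg h1, if_pos h2, if_pos h3]
    ring
  · have h3 : ¬ ∃ R' ∈ R :: L, R' x ∈ UU := by
      rintro ⟨R', hR', hx⟩
      rcases List.mem_cons.1 hR' with h | h
      · subst h
        exact h1 hx
      · exact h2 ⟨R', h, hx⟩
    rw [if_neg h1, if_neg h2, if_neg h3]
    ring

private theorem s5e_int {g : E 3 → ℂ} (hg : Measurable g) (hb : ∀ x, ‖g x‖ ≤ 1) (ξ : E 3) :
    Integrable (fun x : S 3 => g x *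
      Complex.exp (((-(2 * π * inner ℝ (x : E 3) ξ) : ℝ) : ℂ) * Complex.I)) (sm 3) := by
  have h1 : Measurable fun x : S 3 => g x *
      Complex.exp (((-(2 * π * inner ℝ (x : E 3) ξ) : ℝ) : ℂ) * Complex.I) := by
    have h2 : Measurable fun x : S 3 => g (x : E 3) := hg.comp measurable_subtype_coe
    have h3 : Measurable fun x : S 3 => (inner ℝ (x : E 3) ξ : ℝ) := by
      have h4 : Measurable fun x : S 3 => (x : E 3) := measurable_subtype_coe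
      exact h4.inner measurable_const
    exact h2.mul (by fun_prop)
  refine Integrable.of_bound h1.aestronglyMeasurable 1 (Filter.Eventually.of_forall fun x => ?_)
  rw [norm_mul, norm_phase, mul_one]
  exact hb x

private theorem s5e_extn {f1 f2 f3 : E 3 → ℂ} (h1 : Measurable f1) (h2 : Measurable f2)
    (h3 : Measurable f3) (b1 : ∀ x, ‖f1 x‖ ≤ 1) (b2 : ∀ x, ‖f2 x‖ ≤ 1) (b3 : ∀ x, ‖f3 x‖ ≤ 1)
    (ξ : E 3) : extn (fun x => f1 x + f2 x - f3 x) ξ = extn f1 ξ + extn f2 ξ - extn f3 ξ := by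
  have e1 := integral_add (s5e_int h1 b1 ξ) (s5e_int h2 b2 ξ)
  have e2 := integral_sub ((s5e_int h1 b1 ξ).add (s5e_int h2 b2 ξ)) (s5e_int h3 b3 ξ)
  unfold extn
  rw [← e1]
  refine Eq.trans ?_ e2
  refine integral_congr_ae (Filter.Eventually.of_forall fun x => ?_)
  simp only [Pi.add_apply]
  ring

private theorem s5e_three {f1 f2 f3 : E 3 → ℂ} (h1 : Measurable f1) (h2 : Measurable f2)
    (h3 : Measurable f3) (b1 : ∀ x, ‖f1 x‖ ≤ 1) (b2 : ∀ x, ‖f2 x‖ ≤ 1) (b3 : ∀ x, ‖f3 x‖ ≤ 1)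
    {p : ℝ} (hp : 0 ≤ p) {C1 C2 C3 : ℝ≥0∞} (c1 : ∫⁻ ξ, ‖extn f1 ξ‖ₑ ^ p ≤ C1)
    (c2 : ∫⁻ ξ, ‖extn f2 ξ‖ₑ ^ p ≤ C2) (c3 : ∫⁻ ξ, ‖extn f3 ξ‖ₑ ^ p ≤ C3) :
    ∫⁻ ξ, ‖extn (fun x => f1 x + f2 x - f3 x) ξ‖ₑ ^ p ≤ 3 ^ p * (C1 + C2 + C3) := by
  have m1 : Measurable fun ξ => ‖extn f1 ξ‖ₑ ^ p := (measurable_extn f1 h1).enorm.pow_const p
  have m2 : Measurable fun ξ => ‖extn f2 ξ‖ₑ ^ p := (measurable_extn f2 h2).enorm.pow_const p
  have hpt : ∀ ξ, ‖extn (fun x => f1 x + f2 x - f3 x) ξ‖ₑ ^ p ≤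
      3 ^ p * (‖extn f1 ξ‖ₑ ^ p + ‖extn f2 ξ‖ₑ ^ p + ‖extn f3 ξ‖ₑ ^ p) := by
    intro ξ
    rw [s5e_extn h1 h2 h3 b1 b2 b3 ξ]
    refine le_trans (ENNReal.rpow_le_rpow ?_ hp) (add_rpow_le_three hp)
    calc ‖extn f1 ξ + extn f2 ξ - extn f3 ξ‖ₑ
        ≤ ‖extn f1 ξ + extn f2 ξ‖ₑ + ‖extn f3 ξ‖ₑ := enorm_sub_le
      _ ≤ ‖extn f1 ξ‖ₑ + ‖extn f2 ξ‖ₑ + ‖extn f3 ξ‖ₑ := by
          gcongr
          exact enorm_add_le _ _
  calc ∫⁻ ξ, ‖extn (fun x => f1 x + f2 x - f3 x) ξ‖ₑ ^ p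
      ≤ ∫⁻ ξ, 3 ^ p * (‖extn f1 ξ‖ₑ ^ p + ‖extn f2 ξ‖ₑ ^ p + ‖extn f3 ξ‖ₑ ^ p) :=
        lintegral_mono hpt
    _ ≤ 3 ^ p * ((∫⁻ ξ, ‖extn f1 ξ‖ₑ ^ p) + (∫⁻ ξ, ‖extn f2 ξ‖ₑ ^ p) +
          ∫⁻ ξ, ‖extn f3 ξ‖ₑ ^ p) := by
        have h3ne : (3 : ℝ≥0∞) ^ p ≠ ∞ := ENNReal.rpow_ne_top_of_nonneg hp (by norm_num)
        have e1 : ∫⁻ ξ, (‖extn f1 ξ‖ₑ ^ p + ‖extn f2 ξ‖ₑ ^ p + ‖extn f3 ξ‖ₑ ^ p) =
            (∫⁻ ξ, (‖extn f1 ξ‖ₑ ^ p + ‖extn f2 ξ‖ₑ ^ p)) + ∫⁻ ξ, ‖extn f3 ξ‖ₑ ^ p :=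
          lintegral_add_left (m1.add m2) _
        rw [lintegral_const_mul' _ _ h3ne, e1, lintegral_add_left m1]
    _ ≤ 3 ^ p * (C1 + C2 + C3) := by gcongr

theorem union_bound (D : ℕ) (hD : 1 ≤ D) (p : ℝ) (hp : 3 < p) (L : List (E 3 ≃ₗᵢ[ℝ] E 3)) :
    ∀ N : ℕ, ∃ C : ℝ≥0∞, C ≠ ∞ ∧
    ∀ (P : MvPolynomial (Fin 3) ℝ) (Q : Fin N → MvPolynomial (Fin 3) ℝ), P.totalDegree ≤ D →
    (∀ i, (Q i).totalDegree ≤ D) →
    ∫⁻ ξ : E 3, ‖extn (fun x => pol P Q x * unn L x) ξ‖ₑ ^ p ≤ C := by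
  have hp0 : 0 < p := by linarith
  induction L with
  | nil =>
    intro N
    refine ⟨0, ENNReal.zero_ne_top, fun P Q _ _ => ?_⟩
    have h1 : ∀ ξ : E 3, ‖extn (fun x => pol P Q x * unn [] x) ξ‖ₑ ^ p = 0 := by
      intro ξ
      have h2 : extn (fun x => pol P Q x * unn [] x) ξ = 0 := by
        unfold extn unn
        simp
      rw [h2, enorm_zero, ENNReal.zero_rpow_of_pos hp0]
    simp_rw [h1]
    simp
  | cons R L ih =>
    intro N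
    obtain ⟨C1, hC1, k1⟩ := ih N
    obtain ⟨C2, hC2, k2⟩ := rot_piece D N p hp
    obtain ⟨C3, hC3, k3⟩ := ih (N + 5)
    refine ⟨3 ^ p * (C1 + C2 + C3), ?_, fun P Q hP hQ => ?_⟩
    · exact ENNReal.mul_ne_top (ENNReal.rpow_ne_top_of_nonneg hp0.le (by norm_num))
        (ENNReal.add_ne_top.2 ⟨ENNReal.add_ne_top.2 ⟨hC1, hC2⟩, hC3⟩)
    obtain ⟨H, hH, hchi⟩ := chi_eq R
    have hQH : ∀ i, (Fin.append Q H i).totalDegree ≤ D := by
      intro i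
      refine Fin.addCases (fun i => ?_) (fun i => ?_) i
      · rw [Fin.append_left]
        exact hQ i
      · rw [Fin.append_right]
        exact (hH i).trans hD
    have hmp := measurable_pol P Q
    have hmpH := measurable_pol P (Fin.append Q H)
    have hfun : (fun x => pol P Q x * unn (R :: L) x) = fun x =>
        (fun x => pol P Q x * unn L x) x + (fun x => pol P Q x * chi R x) x -
          (fun x => pol P (Fin.append Q H) x * unn L x) x := by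
      funext x
      simp only
      rw [s5e_cons, pol_append, ← hchi x]
      ring
    rw [hfun]
    have hbd : ∀ {g h : E 3 → ℂ}, (∀ x, ‖g x‖ ≤ 1) → (∀ x, ‖h x‖ ≤ 1) → ∀ x, ‖g x * h x‖ ≤ 1 := by
      intro g h hg hh x
      rw [norm_mul]
      exact mul_le_one₀ (hg x) (norm_nonneg _) (hh x)
    exact s5e_three (hmp.mul (s5e_meas_unn L)) (hmp.mul (s5e_meas_chi R))
      (hmpH.mul (s5e_meas_unn L)) (hbd (norm_pol_le P Q) (s5e_norm_unn L))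
      (hbd (norm_pol_le P Q) (s5e_norm_chi R))
      (hbd (norm_pol_le P (Fin.append Q H)) (s5e_norm_unn L)) hp0.le (k1 P Q hP hQ)
      (k2 R P Q hP hQ) (k3 P (Fin.append Q H) hP hQH)

theorem main3 (D N : ℕ) (p : ℝ) (hp : 3 < p) : ∃ C : ℝ≥0∞, C ≠ ∞ ∧
    ∀ (P : MvPolynomial (Fin 3) ℝ) (Q : Fin N → MvPolynomial (Fin 3) ℝ), P.totalDegree ≤ D →
    (∀ i, (Q i).totalDegree ≤ D) → ∫⁻ ξ : E 3, ‖extn (pol P Q) ξ‖ₑ ^ p ≤ C := by
  obtain ⟨L, hL⟩ := cover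
  obtain ⟨C, hC, hub⟩ := union_bound (D + 1) (by omega) p hp L N
  refine ⟨C, hC, fun P Q hP hQ => ?_⟩
  have h1 : extn (pol P Q) = extn (fun x => pol P Q x * unn L x) := by
    refine extn_congr_sphere fun x hx => ?_
    have h2 : unn L x = 1 := by
      unfold unn
      rw [if_pos (hL x hx)]
    rw [h2, mul_one]
  rw [h1]
  exact hub P Q (hP.trans (Nat.le_succ D)) fun i => (hQ i).trans (Nat.le_succ D)

end Pool.Agent.PPH
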