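import Mathlib

/-!
ROW B1a (0.8 h). `sublevel1`: J ⊆ ℝ OrdConnected, h_0, .., h_k with h_i' = h_{i+1} on J (HasDerivAt), h_k ≥ β > 0 on J (or ≤ -β). Then |{r ∈ J : |h_0 r| ≤ α}| ≤ C_k (α/β)^{1/k}, k ≥ 1.
 Induction on k. k = 1: h_0 is strictly monotone with slope ≥ β, the set is OrdConnected... of length ≤ 2α/β.
 k → k+1: h_k is monotone with slope ≥ β. For δ > 0: {r ∈ J : |h_k r| ≤ δ} has measure ≤ 2δ/β (case k=1), {h_k > δ} ∩ J and {h_k < -δ} ∩ J are OrdConnected: induction with β := δ: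
 total ≤ 2 C_k (α/δ)^{1/k} + 2δ/β; δ = (α β^k)^{1/(k+1)} (α > 0; α = 0: let α → 0 or take α' > 0 small).
-/

namespace Pool.Agent.PPH

open MeasureTheory Set MvPolynomial
open scoped ENNReal Real

lemma b1a_mul_abs_sub_le {S : Set ℝ} (hS : S.OrdConnected) {F F' : ℝ → ℝ} {κ : ℝ}
    (hF : ∀ x ∈ S, HasDerivAt F (F' x) x) (hF' : ∀ x ∈ S, κ ≤ |F' x|) :
    ∀ x ∈ S, ∀ y ∈ S, κ * |x - y| ≤ |F x - F y| := by
  have key : ∀ x ∈ S, ∀ y ∈ S, x < y → κ * |x - y| ≤ |F x - F y| := by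
    intro x hx y hy hxy
    have hsub : Icc x y ⊆ S := hS.out hx hy
    have hcont : ContinuousOn F (Icc x y) := fun z hz =>
      (hF z (hsub hz)).continuousAt.continuousWithinAt
    obtain ⟨c, hc, hc'⟩ := exists_hasDerivAt_eq_slope F F' hxy hcont
      (fun z hz => hF z (hsub (Ioo_subset_Icc_self hz)))
    have h1 := hF' c (hsub (Ioo_subset_Icc_self hc))
    have hpos : 0 < y - x := sub_pos.mpr hxy
    have h2 : F y - F x = F' c * (y - x) := by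
      rw [hc']; field_simp
    have h3 : |F x - F y| = |F' c| * |x - y| := by
      rw [abs_sub_comm (F x), h2, abs_mul, abs_sub_comm x y]
    rw [h3]
    exact mul_le_mul_of_nonneg_right h1 (abs_nonneg _)
  intro x hx y hy
  rcases lt_trichotomy x y with h | h | h
  · exact key x hx y hy h
  · subst h; simp
  · rw [abs_sub_comm x y, abs_sub_comm (F x)]
    exact key y hy x hx h

lemma b1a_split {S : Set ℝ} (hS : S.OrdConnected) {F F' : ℝ → ℝ} {κ : ℝ} (τ : ℝ) (hκ : 0 < κ)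
    (hF : ∀ x ∈ S, HasDerivAt F (F' x) x) (hF' : ∀ x ∈ S, κ ≤ |F' x|) :
    ∃ L R M : Set ℝ, L.OrdConnected ∧ R.OrdConnected ∧ L ⊆ S ∧ R ⊆ S ∧ S ⊆ L ∪ R ∪ M ∧
      (∀ x ∈ L, τ < |F x|) ∧ (∀ x ∈ R, τ < |F x|) ∧
      volume M ≤ ENNReal.ofReal (2 * τ / κ) := by
  set B : Set ℝ := {x | x ∈ S ∧ |F x| ≤ τ} with hB
  have hBd : ∀ x ∈ B, ∀ y ∈ B, |x - y| ≤ 2 * τ / κ := by
    intro x hx y hy
    have h1 := b1a_mul_abs_sub_le hS hF hF' x hx.1 y hy.1
    have h2 : |F x - F y| ≤ 2 * τ := by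
      have := abs_sub (F x) (F y)
      have h3 := hx.2
      have h4 := hy.2
      linarith
    rw [le_div_iff₀ hκ]
    linarith
  refine ⟨{x | x ∈ S ∧ ∀ b ∈ B, x < b}, {x | x ∈ S ∧ ∀ b ∈ B, b < x},
    {x | x ∈ S ∧ (∃ b ∈ B, b ≤ x) ∧ ∃ b ∈ B, x ≤ b}, ?_, ?_, fun x hx => hx.1, fun x hx => hx.1,
    ?_, ?_, ?_, ?_⟩
  · constructor
    intro x hx y hy z hz
    exact ⟨hS.out hx.1 hy.1 hz, fun b hb => lt_of_le_of_lt hz.2 (hy.2 b hb)⟩
  · constructor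
    intro x hx y hy z hz
    exact ⟨hS.out hx.1 hy.1 hz, fun b hb => lt_of_lt_of_le (hx.2 b hb) hz.1⟩
  · intro x hx
    by_cases h1 : ∀ b ∈ B, x < b
    · exact Or.inl (Or.inl ⟨hx, h1⟩)
    · by_cases h2 : ∀ b ∈ B, b < x
      · exact Or.inl (Or.inr ⟨hx, h2⟩)
      · push Not at h1 h2
        exact Or.inr ⟨hx, h1, h2⟩
  · intro x hx
    by_contra hlt
    push Not at hlt
    exact lt_irrefl x (hx.2 x ⟨hx.1, hlt⟩)
  · intro x hx
    by_contra hlt
    push Not at hlt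
    exact lt_irrefl x (hx.2 x ⟨hx.1, hlt⟩)
  · refine (Real.volume_le_diam _).trans ?_
    refine Metric.ediam_le ?_
    rintro x ⟨_, ⟨b1, hb1, hb1x⟩, b2, hb2, hb2x⟩ y ⟨_, ⟨b3, hb3, hb3y⟩, b4, hb4, hb4y⟩
    rw [edist_dist]
    refine ENNReal.ofReal_le_ofReal ?_
    rw [Real.dist_eq, abs_le]
    have h1 := hBd b1 hb1 b4 hb4
    have h2 := hBd b2 hb2 b3 hb3
    rw [abs_le] at h1 h2
    constructor <;> linarith

lemma b1a_pos (k : ℕ) : ∃ K : ℝ, 0 < K ∧ ∀ (J : Set ℝ) (_ : J.OrdConnected)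
    (h : ℕ → ℝ → ℝ) (_ : ∀ i < k + 1, ∀ r ∈ J, HasDerivAt (h i) (h (i + 1) r) r) (α β : ℝ)
    (_ : 0 < α) (_ : 0 < β) (_ : ∀ r ∈ J, β ≤ |h (k + 1) r|),
    volume {r ∈ J | |h 0 r| ≤ α} ≤ ENNReal.ofReal (K * (α / β) ^ (1 / ((k + 1 : ℕ) : ℝ))) := by
  induction k with
  | zero =>
    refine ⟨2, by norm_num, ?_⟩
    intro J hJ h hd α β hα hβ hb
    obtain ⟨L, R, M, -, -, -, -, hS', hL, hR, hM⟩ :=
      b1a_split hJ α hβ (hd 0 (by norm_num)) hb
    have : 2 * (α / β) ^ (1 / ((0 + 1 : ℕ) : ℝ)) = 2 * α / β := by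
      norm_num
      ring
    rw [this]
    refine le_trans (measure_mono ?_) hM
    rintro x ⟨hx, hx'⟩
    rcases hS' hx with (h' | h') | h'
    · exact absurd (hL x h') (not_lt.mpr hx')
    · exact absurd (hR x h') (not_lt.mpr hx')
    · exact h'
  | succ k ih =>
    obtain ⟨K, hK, ih⟩ := ih
    refine ⟨2 * K + 2, by positivity, ?_⟩
    intro J hJ h hd α β hα hβ hb
    set x : ℝ := (α / β) ^ (1 / ((k + 1 + 1 : ℕ) : ℝ)) with hx
    have hab : 0 < α / β := by positivity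
    have hxpos : 0 < x := Real.rpow_pos_of_pos hab _
    have hxpow : x ^ (k + 2) = α / β := by
      rw [hx, ← Real.rpow_natCast, ← Real.rpow_mul hab.le]
      have : (1 / ((k + 1 + 1 : ℕ) : ℝ)) * ((k + 2 : ℕ) : ℝ) = 1 := by
        have : ((k + 2 : ℕ) : ℝ) ≠ 0 := by positivity
        field_simp
      rw [this, Real.rpow_one]
    obtain ⟨L, R, M, hLo, hRo, hLJ, hRJ, hS', hL, hR, hM⟩ :=
      b1a_split hJ (β * x) hβ (hd (k + 1) (by omega)) hb
    have hδ : 0 < β * x := by positivity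
    have hroot : (α / (β * x)) ^ (1 / ((k + 1 : ℕ) : ℝ)) = x := by
      have : α / (β * x) = x ^ (k + 1) := by
        have : α / (β * x) = (α / β) / x := by field_simp
        rw [this, ← hxpow]
        field_simp
        ring
      rw [this, ← Real.rpow_natCast, ← Real.rpow_mul hxpos.le]
      have : ((k + 1 : ℕ) : ℝ) * (1 / ((k + 1 : ℕ) : ℝ)) = 1 := by
        have : ((k + 1 : ℕ) : ℝ) ≠ 0 := by positivity
        field_simp
      rw [this, Real.rpow_one]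
    have e1 := ih L hLo h (fun i hi r hr => hd i (by omega) r (hLJ hr)) α (β * x) hα hδ
      (fun r hr => (hL r hr).le)
    have e2 := ih R hRo h (fun i hi r hr => hd i (by omega) r (hRJ hr)) α (β * x) hα hδ
      (fun r hr => (hR r hr).le)
    rw [hroot] at e1 e2
    have hM' : 2 * (β * x) / β = 2 * x := by field_simp
    rw [hM'] at hM
    have hsub : {r ∈ J | |h 0 r| ≤ α} ⊆
        M ∪ ({r ∈ L | |h 0 r| ≤ α} ∪ {r ∈ R | |h 0 r| ≤ α}) := by
      rintro y ⟨hy, hy'⟩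
      rcases hS' hy with (h' | h') | h'
      · exact Or.inr (Or.inl ⟨h', hy'⟩)
      · exact Or.inr (Or.inr ⟨h', hy'⟩)
      · exact Or.inl h'
    refine (measure_mono hsub).trans ((measure_union_le _ _).trans ?_)
    refine (add_le_add hM ((measure_union_le _ _).trans (add_le_add e1 e2))).trans ?_
    rw [← ENNReal.ofReal_add (by positivity) (by positivity),
      ← ENNReal.ofReal_add (by positivity) (by positivity)]
    apply ENNReal.ofReal_le_ofReal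
    apply le_of_eq
    ring

theorem sublevel1 (k : ℕ) (hk : 1 ≤ k) : ∃ K : ℝ, 0 < K ∧ ∀ (J : Set ℝ) (_ : J.OrdConnected)
    (h : ℕ → ℝ → ℝ) (_ : ∀ i < k, ∀ r ∈ J, HasDerivAt (h i) (h (i + 1) r) r) (α β : ℝ) (_ : 0 ≤ α)
    (_ : 0 < β) (_ : (∀ r ∈ J, β ≤ h k r) ∨ (∀ r ∈ J, h k r ≤ -β)),
    volume {r ∈ J | |h 0 r| ≤ α} ≤ ENNReal.ofReal (K * (α / β) ^ (1 / (k : ℝ))) := by
  obtain ⟨m, rfl⟩ : ∃ m, k = m + 1 := ⟨k - 1, by omega⟩
  obtain ⟨K, hK, hmain⟩ := b1a_pos m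
  refine ⟨K, hK, ?_⟩
  intro J hJ h hd α β hα hβ hb
  have hb' : ∀ r ∈ J, β ≤ |h (m + 1) r| := by
    intro r hr
    rcases hb with hb | hb
    · exact (hb r hr).trans (le_abs_self _)
    · exact (by linarith [hb r hr] : β ≤ -(h (m + 1) r)).trans (neg_le_abs _)
  have hcont : Continuous (fun a : ℝ => ENNReal.ofReal (K * (a / β) ^ (1 / ((m + 1 : ℕ) : ℝ)))) := by
    refine ENNReal.continuous_ofReal.comp (continuous_const.mul ?_)
    exact (continuous_id.div_const β).rpow_const (fun x => Or.inr (by positivity))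
  have ht : Filter.Tendsto (fun a : ℝ => ENNReal.ofReal (K * (a / β) ^ (1 / ((m + 1 : ℕ) : ℝ))))
      (nhdsWithin α (Ioi α)) (nhds (ENNReal.ofReal (K * (α / β) ^ (1 / ((m + 1 : ℕ) : ℝ))))) :=
    (hcont.tendsto α).mono_left nhdsWithin_le_nhds
  refine ge_of_tendsto ht ?_
  filter_upwards [self_mem_nhdsWithin] with a ha
  refine le_trans (measure_mono ?_) (hmain J hJ h hd a β (lt_of_le_of_lt hα ha) hβ hb')
  rintro r ⟨hr, hr'⟩
  exact ⟨hr, hr'.trans (le_of_lt ha)⟩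

end Pool.Agent.PPH
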