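import Pool.Agent.PPH.Defs

/-!
Basic facts: bounds for `psi` on the square, `ev` as a ring homomorphism, measurability, continuity.
-/

namespace Pool.Agent.PPH

open MeasureTheory Set MvPolynomial
open scoped ENNReal Real

lemma psi_sq {y : ℝ × ℝ} (h : y.1 ^ 2 + y.2 ^ 2 ≤ 1) : psi y ^ 2 = 1 - y.1 ^ 2 - y.2 ^ 2 := by
  unfold psi
  rw [Real.sq_sqrt]
  linarith

lemma psi_pos {y : ℝ × ℝ} (h : y.1 ^ 2 + y.2 ^ 2 < 1) : 0 < psi y := by
  unfold psi
  apply Real.sqrt_pos.2
  linarith

lemma BB_sq {y : ℝ × ℝ} (hy : y ∈ BB) : y.1 ^ 2 + y.2 ^ 2 ≤ 1 / 8 := by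
  obtain ⟨⟨h1, h2⟩, ⟨h3, h4⟩⟩ := hy
  nlinarith

lemma BB_psi {y : ℝ × ℝ} (hy : y ∈ BB) : 9 / 10 ≤ psi y ∧ psi y ≤ 1 := by
  have h := BB_sq hy
  constructor
  · unfold psi
    apply Real.le_sqrt_of_sq_le
    nlinarith
  · unfold psi
    rw [Real.sqrt_le_one]
    nlinarith [sq_nonneg y.1, sq_nonneg y.2]

lemma ev_add (f g : RR) (y : ℝ × ℝ) : ev (f + g) y = ev f y + ev g y := by simp [ev]
lemma ev_sub (f g : RR) (y : ℝ × ℝ) : ev (f - g) y = ev f y - ev g y := by simp [ev]
lemma ev_neg (f : RR) (y : ℝ × ℝ) : ev (-f) y = - ev f y := by simp [ev]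
lemma ev_mul (f g : RR) (y : ℝ × ℝ) : ev (f * g) y = ev f y * ev g y := by simp [ev]
lemma ev_pow (f : RR) (n : ℕ) (y : ℝ × ℝ) : ev (f ^ n) y = ev f y ^ n := by simp [ev]
lemma ev_C (c : ℝ) (y : ℝ × ℝ) : ev (C c) y = c := by simp [ev]
lemma ev_X0 (y : ℝ × ℝ) : ev (X 0) y = y.1 := by simp [ev, pnt]
lemma ev_X1 (y : ℝ × ℝ) : ev (X 1) y = y.2 := by simp [ev, pnt]
lemma ev_X2 (y : ℝ × ℝ) : ev (X 2) y = psi y := by simp [ev, pnt]
lemma ev_X3 (y : ℝ × ℝ) : ev (X 3) y = 1 / psi y := by simp [ev, pnt]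
lemma ev_sum {ι : Type*} (s : Finset ι) (f : ι → RR) (y : ℝ × ℝ) :
    ev (∑ i ∈ s, f i) y = ∑ i ∈ s, ev (f i) y := by simp [ev]
lemma ev_smul (c : ℝ) (f : RR) (y : ℝ × ℝ) : ev (c • f) y = c * ev f y := by simp [ev]

lemma continuous_psi : Continuous psi := by
  unfold psi
  fun_prop

lemma measurable_ev (f : RR) : Measurable (ev f) := by
  induction f using MvPolynomial.induction_on with
  | C a =>
    have : ev (C a) = fun _ => a := funext fun y => by simp [ev]
    rw [this]
    exact measurable_const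
  | add p q hp hq =>
    have : ev (p + q) = fun y => ev p y + ev q y := funext fun y => by simp [ev]
    rw [this]
    exact hp.add hq
  | mul_X p i hp =>
    have : ev (p * X i) = fun y => ev p y * pnt y i := funext fun y => by simp [ev]
    rw [this]
    refine hp.mul ?_
    have hpsi := continuous_psi.measurable
    fin_cases i
    · simpa [pnt] using measurable_fst
    · simpa [pnt] using measurable_snd
    · simpa [pnt] using hpsi
    · have h : Measurable fun y => (psi y)⁻¹ := hpsi.inv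
      have e : (fun y => pnt y ⟨3, by norm_num⟩) = fun y => (psi y)⁻¹ := by
        funext y
        simp [pnt]
      exact e ▸ h

/-- the open unit disc -/
def disc : Set (ℝ × ℝ) := {y | y.1 ^ 2 + y.2 ^ 2 < 1}

lemma isOpen_disc : IsOpen disc := by
  unfold disc
  exact isOpen_lt (by fun_prop) continuous_const

lemma BB_sub_disc : BB ⊆ disc := by
  intro y hy
  have := BB_sq hy
  unfold disc
  change y.1 ^ 2 + y.2 ^ 2 < 1
  linarith

lemma isCompact_BB : IsCompact BB := isCompact_Icc.prod isCompact_Icc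

lemma measurableSet_BB : MeasurableSet BB := measurableSet_Icc.prod measurableSet_Icc

lemma convex_BB : Convex ℝ BB := (convex_Icc _ _).prod (convex_Icc _ _)

lemma continuousOn_ev (f : RR) : ContinuousOn (ev f) disc := by
  induction f using MvPolynomial.induction_on with
  | C a =>
    have : ev (C a) = fun _ => a := funext fun y => by simp [ev]
    rw [this]
    exact continuousOn_const
  | add p q hp hq =>
    have : ev (p + q) = fun y => ev p y + ev q y := funext fun y => by simp [ev]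
    rw [this]
    exact hp.add hq
  | mul_X p i hp =>
    have : ev (p * X i) = fun y => ev p y * pnt y i := funext fun y => by simp [ev]
    rw [this]
    refine hp.mul ?_
    fin_cases i
    · simpa [pnt] using continuousOn_fst
    · simpa [pnt] using continuousOn_snd
    · simpa [pnt] using continuous_psi.continuousOn
    · have h : ContinuousOn (fun y => (psi y)⁻¹) disc :=
        continuous_psi.continuousOn.inv₀ fun y hy => (psi_pos hy).ne'
      simpa [pnt] using h

lemma ev_bdd (f : RR) : ∃ K : ℝ, 0 < K ∧ ∀ y ∈ BB, |ev f y| ≤ K := by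
  obtain ⟨K, hK⟩ := isCompact_BB.exists_bound_of_continuousOn ((continuousOn_ev f).mono BB_sub_disc)
  refine ⟨max K 1, lt_max_of_lt_right one_pos, fun y hy => ?_⟩
  have := hK y hy
  rw [Real.norm_eq_abs] at this
  exact this.trans (le_max_left _ _)

end Pool.Agent.PPH
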