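import Pool.Agent.PPH.A0

/-!
ROW A1a (0.6 h). Derivatives of `ev`.
`hasDerivAt_ev`: the derivative of `ev f` at a point of the open unit disc along a line in direction `v` is
`v.1 * ev (D1 f) + v.2 * ev (D2 f)`. Induction on `f` (MvPolynomial.induction_on): constants: D1 (C a) = 0; sums; `p * X i`:
Leibniz (Derivation.leibniz, smul_eq_mul) and the four functions `y.1, y.2, psi, 1 / psi`:
 d/dr psi (y + r v) = -(y.1 v.1 + y.2 v.2) / psi (Real.sqrt: HasDerivAt.sqrt, 1 - |y|^2 > 0),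
 d/dr (1/psi) = (y.1 v.1 + y.2 v.2) / psi^3 (HasDerivAt.inv).
 `D1 (X i) = ![1, 0, -(X 0 * X 3), X 0 * X 3 ^ 3] i` is `mkDerivation_X`.
-/

namespace Pool.Agent.PPH

open MeasureTheory Set MvPolynomial
open scoped ENNReal Real

lemma a1a_psi (y v : ℝ × ℝ) (r : ℝ) (hy : (y.1 + r * v.1, y.2 + r * v.2) ∈ disc) :
    HasDerivAt (fun r : ℝ => psi (y.1 + r * v.1, y.2 + r * v.2))
      (-((y.1 + r * v.1) * v.1 + (y.2 + r * v.2) * v.2) *
        (1 / psi (y.1 + r * v.1, y.2 + r * v.2))) r := by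
  have h1 : HasDerivAt (fun r : ℝ => y.1 + r * v.1) v.1 r := by
    simpa using ((hasDerivAt_id r).mul_const v.1).const_add y.1
  have h2 : HasDerivAt (fun r : ℝ => y.2 + r * v.2) v.2 r := by
    simpa using ((hasDerivAt_id r).mul_const v.2).const_add y.2
  have h3 : HasDerivAt (fun r : ℝ => 1 - (y.1 + r * v.1) ^ 2 - (y.2 + r * v.2) ^ 2)
      (-(2 * (y.1 + r * v.1) * v.1) - 2 * (y.2 + r * v.2) * v.2) r := by
    have h4 := ((h1.pow 2).const_sub 1).sub (h2.pow 2)
    refine (h4.congr_deriv ?_).congr_of_eventuallyEq (Filter.Eventually.of_forall fun s => rfl)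
    simp
  have h5 : (0 : ℝ) < 1 - (y.1 + r * v.1) ^ 2 - (y.2 + r * v.2) ^ 2 := by
    have : (y.1 + r * v.1) ^ 2 + (y.2 + r * v.2) ^ 2 < 1 := hy
    linarith
  have h6 := h3.sqrt h5.ne'
  have h7 : (0 : ℝ) < √(1 - (y.1 + r * v.1) ^ 2 - (y.2 + r * v.2) ^ 2) := Real.sqrt_pos.2 h5
  refine h6.congr_deriv ?_
  simp only [psi]
  field_simp
  ring

lemma a1a_X (i : Fin 4) (y v : ℝ × ℝ) (r : ℝ) (hy : (y.1 + r * v.1, y.2 + r * v.2) ∈ disc) :
    HasDerivAt (fun r : ℝ => ev (X i) (y.1 + r * v.1, y.2 + r * v.2))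
      (v.1 * ev (D1 (X i)) (y.1 + r * v.1, y.2 + r * v.2) +
        v.2 * ev (D2 (X i)) (y.1 + r * v.1, y.2 + r * v.2)) r := by
  have h1 : HasDerivAt (fun r : ℝ => y.1 + r * v.1) v.1 r := by
    simpa using ((hasDerivAt_id r).mul_const v.1).const_add y.1
  have h2 : HasDerivAt (fun r : ℝ => y.2 + r * v.2) v.2 r := by
    simpa using ((hasDerivAt_id r).mul_const v.2).const_add y.2
  have h3 := a1a_psi y v r hy
  have hpos : 0 < psi (y.1 + r * v.1, y.2 + r * v.2) := psi_pos hy
  fin_cases i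
  · simp only [D1, D2, mkDerivation_X]
    refine h1.congr_deriv ?_ |>.congr_of_eventuallyEq (Filter.Eventually.of_forall fun s => ?_)
    · simp [ev]
    · exact ev_X0 _
  · simp only [D1, D2, mkDerivation_X]
    refine h2.congr_deriv ?_ |>.congr_of_eventuallyEq (Filter.Eventually.of_forall fun s => ?_)
    · simp [ev]
    · exact ev_X1 _
  · simp only [D1, D2, mkDerivation_X]
    refine h3.congr_deriv ?_ |>.congr_of_eventuallyEq (Filter.Eventually.of_forall fun s => ?_)
    · simp [ev, pnt]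
      ring
    · exact ev_X2 _
  · simp only [D1, D2, mkDerivation_X]
    refine (h3.inv hpos.ne').congr_deriv ?_ |>.congr_of_eventuallyEq
      (Filter.Eventually.of_forall fun s => ?_)
    · simp [ev, pnt]
      field_simp
      try ring
    · show ev (X 3) _ = (psi _)⁻¹
      rw [ev_X3, one_div]

lemma a1a_gen (f : RR) (y v : ℝ × ℝ) (r : ℝ) (hy : (y.1 + r * v.1, y.2 + r * v.2) ∈ disc) :
    HasDerivAt (fun r : ℝ => ev f (y.1 + r * v.1, y.2 + r * v.2))
      (v.1 * ev (D1 f) (y.1 + r * v.1, y.2 + r * v.2) +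
        v.2 * ev (D2 f) (y.1 + r * v.1, y.2 + r * v.2)) r := by
  induction f using MvPolynomial.induction_on with
  | C a =>
    have h1 : D1 (C a) = 0 := by
      have := D1.map_algebraMap a
      simpa using this
    have h2 : D2 (C a) = 0 := by
      have := D2.map_algebraMap a
      simpa using this
    rw [h1, h2]
    have h3 : ∀ z, ev (0 : RR) z = 0 := fun z => by simp [ev]
    rw [h3, mul_zero, mul_zero, add_zero]
    refine (hasDerivAt_const r a).congr_of_eventuallyEq (Filter.Eventually.of_forall fun s => ?_)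
    exact ev_C a _
  | add p q hp hq =>
    refine (hp.add hq).congr_deriv ?_ |>.congr_of_eventuallyEq
      (Filter.Eventually.of_forall fun s => ?_)
    · rw [map_add, map_add, ev_add, ev_add]
      ring
    · exact ev_add p q _
  | mul_X p i hp =>
    refine (hp.mul (a1a_X i y v r hy)).congr_deriv ?_ |>.congr_of_eventuallyEq
      (Filter.Eventually.of_forall fun s => ?_)
    · rw [Derivation.leibniz, Derivation.leibniz]
      simp only [smul_eq_mul, ev_add, ev_mul]
      ring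
    · exact ev_mul p (X i) _

theorem hasDerivAt_ev (f : RR) (y v : ℝ × ℝ) (hy : y ∈ disc) :
    HasDerivAt (fun r : ℝ => ev f (y.1 + r * v.1, y.2 + r * v.2))
      (v.1 * ev (D1 f) y + v.2 * ev (D2 f) y) 0 := by
  have h0 : (y.1 + (0 : ℝ) * v.1, y.2 + (0 : ℝ) * v.2) = y := by simp
  have h1 := a1a_gen f y v 0 (by rw [h0]; exact hy)
  rw [h0] at h1
  exact h1

/-- the same at an arbitrary point of the line -/
theorem hasDerivAt_ev' (f : RR) (y v : ℝ × ℝ) (r : ℝ) (hy : (y.1 + r * v.1, y.2 + r * v.2) ∈ disc) :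
    HasDerivAt (fun r : ℝ => ev f (y.1 + r * v.1, y.2 + r * v.2))
      (v.1 * ev (D1 f) (y.1 + r * v.1, y.2 + r * v.2) +
        v.2 * ev (D2 f) (y.1 + r * v.1, y.2 + r * v.2)) r := by
  exact a1a_gen f y v r hy

end Pool.Agent.PPH
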