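import Pool.Agent.PPH.Defs

/-!
ROW A1c (0.6 h).
`D_comm`: D1 (D2 f) = D2 (D1 f): the commutator of two derivations is a derivation (`⁅D1, D2⁆`, Derivation.commutator_apply),
and a derivation of MvPolynomial vanishing on the variables is 0 (`MvPolynomial.derivation_ext`).
`deg_D1`, `deg_D2`: f = sum of monomials; the degree of D (monomial) is at most degree + 3
(`totalDegree_mul`, `totalDegree_finset_sum`, induction_on as above works as well: prove it for `monomial s a` by
 `Derivation.leibniz`/`mkDerivation_monomial`).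
-/

namespace Pool.Agent.PPH

open MeasureTheory Set MvPolynomial
open scoped ENNReal Real

lemma a1c_D1X (i : Fin 4) : D1 (X i) = (![1, 0, -(X 0 * X 3), X 0 * X 3 ^ 3] : Fin 4 → RR) i :=
  mkDerivation_X _ _ _

lemma a1c_D2X (i : Fin 4) : D2 (X i) = (![0, 1, -(X 1 * X 3), X 1 * X 3 ^ 3] : Fin 4 → RR) i :=
  mkDerivation_X _ _ _

lemma a1c_deg (w : Fin 4 → RR) (hw : ∀ i, (w i).totalDegree ≤ 4) (f : RR) :
    (mkDerivation ℝ w f).totalDegree ≤ f.totalDegree + 3 := by
  conv_lhs => rw [← support_sum_monomial_coeff f]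
  rw [map_sum]
  refine totalDegree_finsetSum_le fun s hs => ?_
  rw [mkDerivation_monomial]
  refine (totalDegree_smul_le _ _).trans ?_
  refine totalDegree_finsetSum_le fun i hi => ?_
  have h1 := le_totalDegree hs
  have h2 : (s - Finsupp.single i 1) + Finsupp.single i 1 = s := by
    apply tsub_add_cancel_of_le
    rw [Finsupp.single_le_iff]
    exact Nat.one_le_iff_ne_zero.mpr (Finsupp.mem_support_iff.mp hi)
  have h3 : (s - Finsupp.single i 1).sum (fun _ e => e) + 1 = s.sum fun _ e => e := by
    conv_rhs => rw [← h2]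
    rw [Finsupp.sum_add_index' (fun _ => rfl) (fun _ _ _ => rfl)]
    simp
  have h4 : (monomial (s - Finsupp.single i 1) ((s i : ℕ) : ℝ)).totalDegree ≤
      (s - Finsupp.single i 1).sum fun _ e => e := totalDegree_monomial_le _ _
  have h5 := totalDegree_mul (monomial (s - Finsupp.single i 1) ((s i : ℕ) : ℝ)) (w i)
  have h6 := hw i
  show (monomial (s - Finsupp.single i 1) ((s i : ℕ) : ℝ) * w i).totalDegree ≤ f.totalDegree + 3
  omega

theorem D_comm (f : RR) : D1 (D2 f) = D2 (D1 f) := by
  have h : ⁅D1, D2⁆ = 0 := by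
    apply MvPolynomial.derivation_ext
    intro i
    rw [Derivation.commutator_apply, a1c_D1X, a1c_D2X]
    have hC1 : D1 (1 : RR) = 0 := D1.map_one_eq_zero
    have hC2 : D2 (1 : RR) = 0 := D2.map_one_eq_zero
    fin_cases i
    · simp [hC2]
    · simp [hC1]
    · simp only [Fin.reduceFinMk, Matrix.cons_val, map_neg, Derivation.leibniz, smul_eq_mul,
        a1c_D1X, a1c_D2X, Derivation.coe_zero, Pi.zero_apply]
      simp
      try ring
    · simp only [Fin.reduceFinMk, Matrix.cons_val, map_neg, Derivation.leibniz,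
        Derivation.leibniz_pow, smul_eq_mul,
        a1c_D1X, a1c_D2X, Derivation.coe_zero, Pi.zero_apply]
      simp
      try ring
  have h2 := congrArg (fun δ : Derivation ℝ RR RR => δ f) h
  simp only [Derivation.commutator_apply] at h2
  exact sub_eq_zero.mp h2

theorem deg_D1 (f : RR) : (D1 f).totalDegree ≤ f.totalDegree + 3 := by
  refine a1c_deg _ (fun i => ?_) f
  fin_cases i
  · show (_ : RR).totalDegree ≤ 4
    simp
  · show (_ : RR).totalDegree ≤ 4
    simp
  · show (-(X 0 * X 3) : RR).totalDegree ≤ 4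
    rw [totalDegree_neg]
    refine (totalDegree_mul _ _).trans ?_
    rw [totalDegree_X, totalDegree_X]
    norm_num
  · show (X 0 * X 3 ^ 3 : RR).totalDegree ≤ 4
    refine (totalDegree_mul _ _).trans ?_
    have h := totalDegree_pow (X 3 : RR) 3
    rw [totalDegree_X] at h ⊢
    omega

theorem deg_D2 (f : RR) : (D2 f).totalDegree ≤ f.totalDegree + 3 := by
  refine a1c_deg _ (fun i => ?_) f
  fin_cases i
  · show (_ : RR).totalDegree ≤ 4
    simp
  · show (_ : RR).totalDegree ≤ 4
    simp
  · show (-(X 1 * X 3) : RR).totalDegree ≤ 4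
    rw [totalDegree_neg]
    refine (totalDegree_mul _ _).trans ?_
    rw [totalDegree_X, totalDegree_X]
    norm_num
  · show (X 1 * X 3 ^ 3 : RR).totalDegree ≤ 4
    refine (totalDegree_mul _ _).trans ?_
    have h := totalDegree_pow (X 3 : RR) 3
    rw [totalDegree_X] at h ⊢
    omega

end Pool.Agent.PPH
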