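import Pool.Agent.PPH.A1c

/-!
ROW A1d (0.5 h). Iterated derivatives. All are easy inductions from A1c (`D_comm`, `deg_D1`, `deg_D2`).
-/

namespace Pool.Agent.PPH

open MeasureTheory Set MvPolynomial
open scoped ENNReal Real

theorem DD_zero (f : RR) : DD 0 0 f = f := rfl

private theorem a1d_comm : Function.Commute (⇑D1 : RR → RR) (⇑D2 : RR → RR) := fun f => D_comm f

private theorem a1d_C1 (c : ℝ) : D1 (C c : RR) = 0 := by
  rw [← MvPolynomial.algebraMap_eq]
  exact D1.map_algebraMap c

private theorem a1d_C2 (c : ℝ) : D2 (C c : RR) = 0 := by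
  rw [← MvPolynomial.algebraMap_eq]
  exact D2.map_algebraMap c

theorem D1_DD (a b : ℕ) (f : RR) : D1 (DD a b f) = DD (a + 1) b f :=
  (Function.iterate_succ_apply' D1 a _).symm

theorem D2_DD (a b : ℕ) (f : RR) : D2 (DD a b f) = DD a (b + 1) f := by
  unfold DD
  rw [Function.iterate_succ_apply' D2 b f]
  exact (a1d_comm.symm.iterate_right a).eq _

theorem DD_D1 (a b : ℕ) (f : RR) : DD a b (D1 f) = DD (a + 1) b f := by
  unfold DD
  rw [Function.iterate_succ_apply D1 a]
  exact congrArg (⇑D1)^[a] ((a1d_comm.symm.iterate_left b).eq f)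

theorem DD_D2 (a b : ℕ) (f : RR) : DD a b (D2 f) = DD a (b + 1) f := rfl

theorem DD_DD (a b a' b' : ℕ) (f : RR) : DD a b (DD a' b' f) = DD (a + a') (b + b') f := by
  unfold DD
  rw [Function.iterate_add_apply, Function.iterate_add_apply D2]
  exact congrArg (⇑D1)^[a] ((a1d_comm.symm.iterate_iterate b a').eq _)

theorem DD_add (a b : ℕ) (f g : RR) : DD a b (f + g) = DD a b f + DD a b g := by
  unfold DD
  rw [iterate_map_add D2, iterate_map_add D1]

theorem DD_sub (a b : ℕ) (f g : RR) : DD a b (f - g) = DD a b f - DD a b g := by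
  unfold DD
  rw [iterate_map_sub D2, iterate_map_sub D1]

theorem DD_C_mul (a b : ℕ) (c : ℝ) (f : RR) : DD a b (C c * f) = C c * DD a b f := by
  have h1 : ∀ (n : ℕ) (g : RR), (⇑D1)^[n] (C c * g) = C c * (⇑D1)^[n] g := by
    intro n
    induction n with
    | zero => intro g; rfl
    | succ n ih =>
      intro g
      rw [Function.iterate_succ_apply, Function.iterate_succ_apply, Derivation.leibniz, a1d_C1,
        smul_zero, add_zero, smul_eq_mul, ih]
  have h2 : ∀ (n : ℕ) (g : RR), (⇑D2)^[n] (C c * g) = C c * (⇑D2)^[n] g := by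
    intro n
    induction n with
    | zero => intro g; rfl
    | succ n ih =>
      intro g
      rw [Function.iterate_succ_apply, Function.iterate_succ_apply, Derivation.leibniz, a1d_C2,
        smul_zero, add_zero, smul_eq_mul, ih]
  unfold DD
  rw [h2, h1]

private theorem a1d_zero (a b : ℕ) : DD a b (0 : RR) = 0 := by
  unfold DD
  rw [iterate_map_zero D2, iterate_map_zero D1]

theorem DD_sum {ι : Type*} (s : Finset ι) (a b : ℕ) (f : ι → RR) :
    DD a b (∑ i ∈ s, f i) = ∑ i ∈ s, DD a b (f i) := by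
  classical
  induction s using Finset.induction_on with
  | empty => simp only [Finset.sum_empty]; exact a1d_zero a b
  | insert i s hi ih => rw [Finset.sum_insert hi, Finset.sum_insert hi, DD_add, ih]

/-- affine functions have no second derivatives -/
theorem DD_affine (a b : ℕ) (h : 2 ≤ a + b) (α β γ : ℝ) :
    DD a b (C α + C β * X 0 + C γ * X 1) = 0 := by
  have hX0 : D1 (X 0 : RR) = 1 := by simp [D1]
  have hX1 : D1 (X 1 : RR) = 0 := by simp [D1]
  have hX0' : D2 (X 0 : RR) = 0 := by simp [D2]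
  have hX1' : D2 (X 1 : RR) = 1 := by simp [D2]
  have g1 : D1 (C α + C β * X 0 + C γ * X 1 : RR) = C β := by
    rw [map_add, map_add, Derivation.leibniz, Derivation.leibniz, a1d_C1, a1d_C1, a1d_C1, hX0,
      hX1]
    simp
  have g2 : D2 (C α + C β * X 0 + C γ * X 1 : RR) = C γ := by
    rw [map_add, map_add, Derivation.leibniz, Derivation.leibniz, a1d_C2, a1d_C2, a1d_C2, hX0',
      hX1']
    simp
  have hconst : ∀ (a b : ℕ) (c : ℝ), 1 ≤ a + b → DD a b (C c : RR) = 0 := by
    intro a b c hab
    rcases Nat.eq_zero_or_pos b with hb | hb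
    · subst hb
      obtain ⟨a', rfl⟩ := Nat.exists_eq_add_of_le' (show 1 ≤ a by omega)
      rw [← DD_D1, a1d_C1, a1d_zero]
    · obtain ⟨b', rfl⟩ := Nat.exists_eq_add_of_le' (show 1 ≤ b by omega)
      rw [← DD_D2, a1d_C2, a1d_zero]
  rcases Nat.eq_zero_or_pos b with hb | hb
  · subst hb
    obtain ⟨a', rfl⟩ := Nat.exists_eq_add_of_le' (show 1 ≤ a by omega)
    rw [← DD_D1, g1]
    exact hconst _ _ _ (by omega)
  · obtain ⟨b', rfl⟩ := Nat.exists_eq_add_of_le' (show 1 ≤ b by omega)
    rw [← DD_D2, g2]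
    exact hconst _ _ _ (by omega)

theorem deg_DD (a b : ℕ) (f : RR) : (DD a b f).totalDegree ≤ f.totalDegree + 3 * (a + b) := by
  have h2 : ∀ (n : ℕ) (g : RR), ((⇑D2)^[n] g).totalDegree ≤ g.totalDegree + 3 * n := by
    intro n
    induction n with
    | zero => intro g; simp
    | succ n ih =>
      intro g
      rw [Function.iterate_succ_apply']
      have := deg_D2 ((⇑D2)^[n] g)
      have := ih g
      omega
  have h1 : ∀ (n : ℕ) (g : RR), ((⇑D1)^[n] g).totalDegree ≤ g.totalDegree + 3 * n := by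
    intro n
    induction n with
    | zero => intro g; simp
    | succ n ih =>
      intro g
      rw [Function.iterate_succ_apply']
      have := deg_D1 ((⇑D1)^[n] g)
      have := ih g
      omega
  have := h1 a ((⇑D2)^[b] f)
  have := h2 b f
  unfold DD
  omega

theorem deg_Ds (s k : ℕ) (f : RR) : ((Ds s)^[k] f).totalDegree ≤ f.totalDegree + 3 * k := by
  have h0 : ∀ g : RR, (Ds s g).totalDegree ≤ g.totalDegree + 3 := by
    intro g
    unfold Ds
    refine (totalDegree_add _ _).trans (max_le (deg_D1 g) ?_)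
    refine (totalDegree_mul _ _).trans ?_
    rw [totalDegree_C, zero_add]
    exact deg_D2 g
  induction k with
  | zero => simp
  | succ k ih =>
    rw [Function.iterate_succ_apply']
    have := h0 ((Ds s)^[k] f)
    omega

end Pool.Agent.PPH
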