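import Pool.Agent.PPH.A1a
import Pool.Agent.PPH.A1d

/-!
ROW A1e (0.5 h). Directional derivatives: binomial formula (Finset.sum_range_succ, Pascal), from A1a, A1d.
-/

namespace Pool.Agent.PPH

open MeasureTheory Set MvPolynomial
open scoped ENNReal Real

/-- binomial formula for the directional derivatives; `v = (v.1, v.2)`, the `k`-th derivative along the line -/
noncomputable def Dv (v : ℝ × ℝ) (k : ℕ) (f : RR) : RR :=
  ∑ l ∈ Finset.range (k + 1), C ((k.choose l : ℝ) * v.1 ^ (k - l) * v.2 ^ l) * DD (k - l) l f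

theorem Dv_zero (v : ℝ × ℝ) (f : RR) : Dv v 0 f = f := by
  simp [Dv, DD]

/-- (v.1 D1 + v.2 D2) (Dv v k f) = Dv v (k+1) f -/
theorem Dv_succ (v : ℝ × ℝ) (k : ℕ) (f : RR) :
    C v.1 * D1 (Dv v k f) + C v.2 * D2 (Dv v k f) = Dv v (k + 1) f := by
  have hD1 : ∀ (a : ℝ) (g : RR), D1 (C a * g) = C a * D1 g := by
    intro a g
    rw [← smul_eq_C_mul, ← smul_eq_C_mul, Derivation.map_smul]
  have hD2 : ∀ (a : ℝ) (g : RR), D2 (C a * g) = C a * D2 g := by
    intro a g
    rw [← smul_eq_C_mul, ← smul_eq_C_mul, Derivation.map_smul]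
  have h1 : C v.1 * D1 (Dv v k f) =
      ∑ l ∈ Finset.range (k + 1),
        C ((k.choose l : ℝ) * v.1 ^ (k + 1 - l) * v.2 ^ l) * DD (k + 1 - l) l f := by
    unfold Dv
    rw [map_sum, Finset.mul_sum]
    refine Finset.sum_congr rfl fun l hl => ?_
    have hl' : l ≤ k := Nat.lt_succ_iff.1 (Finset.mem_range.1 hl)
    rw [hD1, D1_DD, ← mul_assoc, ← C_mul, show k + 1 - l = k - l + 1 by omega]
    congr 2
    ring
  have h2 : C v.2 * D2 (Dv v k f) =
      ∑ l ∈ Finset.range (k + 1),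
        C ((k.choose l : ℝ) * v.1 ^ (k - l) * v.2 ^ (l + 1)) * DD (k - l) (l + 1) f := by
    unfold Dv
    rw [map_sum, Finset.mul_sum]
    refine Finset.sum_congr rfl fun l hl => ?_
    rw [hD2, D2_DD, ← mul_assoc, ← C_mul]
    congr 2
    ring
  have h3 : ∑ l ∈ Finset.range (k + 1),
        C ((k.choose l : ℝ) * v.1 ^ (k + 1 - l) * v.2 ^ l) * DD (k + 1 - l) l f =
      ∑ l ∈ Finset.range (k + 1),
        C ((k.choose (l + 1) : ℝ) * v.1 ^ (k - l) * v.2 ^ (l + 1)) * DD (k - l) (l + 1) f +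
        C ((k.choose 0 : ℝ) * v.1 ^ (k + 1) * v.2 ^ 0) * DD (k + 1) 0 f := by
    have h4 := Finset.sum_range_succ
      (fun l => (C ((k.choose l : ℝ) * v.1 ^ (k + 1 - l) * v.2 ^ l) : RR) * DD (k + 1 - l) l f)
      (k + 1)
    have h5 := Finset.sum_range_succ'
      (fun l => (C ((k.choose l : ℝ) * v.1 ^ (k + 1 - l) * v.2 ^ l) : RR) * DD (k + 1 - l) l f)
      (k + 1)
    rw [Nat.choose_succ_self, Nat.cast_zero, zero_mul, zero_mul, C_0, zero_mul, add_zero] at h4
    rw [← h4, h5]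
    simp only [Nat.add_sub_add_right, Nat.sub_zero]
  rw [h1, h2, h3]
  unfold Dv
  rw [Finset.sum_range_succ' _ (k + 1), add_right_comm, ← Finset.sum_add_distrib]
  congr 1
  · refine Finset.sum_congr rfl fun l hl => ?_
    rw [← add_mul, ← C_add, Nat.choose_succ_succ, Nat.add_sub_add_right]
    congr 2
    push_cast
    ring
  · rw [Nat.choose_zero_right, Nat.choose_zero_right, Nat.sub_zero]

theorem Ds_iterate (s k : ℕ) (f : RR) : (Ds s)^[k] f = Dv (1, s) k f := by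
  induction k with
  | zero => rw [Dv_zero]; rfl
  | succ k ih =>
    rw [Function.iterate_succ_apply', ih, ← Dv_succ]
    unfold Ds
    rw [C_1, one_mul]

theorem hasDerivAt_Dv (f : RR) (y v : ℝ × ℝ) (k : ℕ) (r : ℝ)
    (hy : (y.1 + r * v.1, y.2 + r * v.2) ∈ disc) :
    HasDerivAt (fun r : ℝ => ev (Dv v k f) (y.1 + r * v.1, y.2 + r * v.2))
      (ev (Dv v (k + 1) f) (y.1 + r * v.1, y.2 + r * v.2)) r := by
  have h := hasDerivAt_ev' (Dv v k f) y v r hy
  rw [← Dv_succ, ev_add, ev_mul, ev_mul, ev_C, ev_C]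
  exact h

end Pool.Agent.PPH
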