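import Pool.Agent.PPH.A0

/-!
ROW A1f (0.5 h). Strict Frechet derivative of `ev f` at the points of the open unit disc.
MvPolynomial.induction_on: constants (hasStrictFDerivAt_const), sums, products with a variable
(HasStrictFDerivAt.mul, Derivation.leibniz, smul_eq_mul, ev_add, ev_mul); the four variables: y.1, y.2 (hasStrictFDerivAt_fst/snd),
psi = sqrt(1 - y.1^2 - y.2^2): derivative -(y.1/psi) fst - (y.2/psi) snd (HasStrictFDerivAt.sqrt, the argument is > 0 on the disc), 1/psi: derivative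
(y.1/psi^3) fst + (y.2/psi^3) snd (HasStrictDerivAt.inv / comp_hasStrictFDerivAt). `D1 (X i)`, `D2 (X i)`: mkDerivation_X.
-/

namespace Pool.Agent.PPH

open MeasureTheory Set MvPolynomial
open scoped ENNReal Real

lemma a1f_psi (y : ℝ × ℝ) (hy : y ∈ disc) :
    HasStrictFDerivAt psi ((-(y.1 * (1 / psi y))) • ContinuousLinearMap.fst ℝ ℝ ℝ +
      (-(y.2 * (1 / psi y))) • ContinuousLinearMap.snd ℝ ℝ ℝ) y := by
  have h1 : HasStrictFDerivAt (fun y : ℝ × ℝ => y.1) (ContinuousLinearMap.fst ℝ ℝ ℝ) y :=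
    hasStrictFDerivAt_fst
  have h2 : HasStrictFDerivAt (fun y : ℝ × ℝ => y.2) (ContinuousLinearMap.snd ℝ ℝ ℝ) y :=
    hasStrictFDerivAt_snd
  have h3 := ((h1.pow 2).const_sub 1).sub (h2.pow 2)
  have h5 : (0 : ℝ) < 1 - y.1 ^ 2 - y.2 ^ 2 := by
    have : y.1 ^ 2 + y.2 ^ 2 < 1 := hy
    linarith
  have h6 := h3.sqrt h5.ne'
  have h7 : (0 : ℝ) < √(1 - y.1 ^ 2 - y.2 ^ 2) := Real.sqrt_pos.2 h5
  have h8 : psi y = √(1 - y.1 ^ 2 - y.2 ^ 2) := rfl
  refine HasStrictFDerivAt.congr_fderiv (f := psi) h6 ?_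
  rw [h8]
  refine ContinuousLinearMap.ext fun v => ?_
  simp
  field_simp
  try ring

lemma a1f_D (i : Fin 4) : D1 (X i) = (![1, 0, -(X 0 * X 3), X 0 * X 3 ^ 3] : Fin 4 → RR) i ∧
    D2 (X i) = (![0, 1, -(X 1 * X 3), X 1 * X 3 ^ 3] : Fin 4 → RR) i :=
  ⟨mkDerivation_X _ _ _, mkDerivation_X _ _ _⟩

lemma a1f_ev0 (y : ℝ × ℝ) : ev (0 : RR) y = 0 := by simp [ev]
lemma a1f_ev1 (y : ℝ × ℝ) : ev (1 : RR) y = 1 := by simp [ev]

lemma a1f_X0 (y : ℝ × ℝ) :
    HasStrictFDerivAt (ev (X 0))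
      (ev (D1 (X 0)) y • ContinuousLinearMap.fst ℝ ℝ ℝ +
        ev (D2 (X 0)) y • ContinuousLinearMap.snd ℝ ℝ ℝ) y := by
  have h1 : D1 (X 0) = 1 := (a1f_D 0).1
  have h2 : D2 (X 0) = 0 := (a1f_D 0).2
  have he : ev (X 0) = fun y : ℝ × ℝ => y.1 := funext ev_X0
  rw [h1, h2, a1f_ev0, a1f_ev1, one_smul, zero_smul, add_zero, he]
  exact hasStrictFDerivAt_fst

lemma a1f_X1 (y : ℝ × ℝ) :
    HasStrictFDerivAt (ev (X 1))
      (ev (D1 (X 1)) y • ContinuousLinearMap.fst ℝ ℝ ℝ +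
        ev (D2 (X 1)) y • ContinuousLinearMap.snd ℝ ℝ ℝ) y := by
  have h1 : D1 (X 1) = 0 := (a1f_D 1).1
  have h2 : D2 (X 1) = 1 := (a1f_D 1).2
  have he : ev (X 1) = fun y : ℝ × ℝ => y.2 := funext ev_X1
  rw [h1, h2, a1f_ev0, a1f_ev1, one_smul, zero_smul, zero_add, he]
  exact hasStrictFDerivAt_snd

lemma a1f_X2 (y : ℝ × ℝ) (hy : y ∈ disc) :
    HasStrictFDerivAt (ev (X 2))
      (ev (D1 (X 2)) y • ContinuousLinearMap.fst ℝ ℝ ℝ +
        ev (D2 (X 2)) y • ContinuousLinearMap.snd ℝ ℝ ℝ) y := by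
  have h1 : D1 (X 2) = -(X 0 * X 3) := (a1f_D 2).1
  have h2 : D2 (X 2) = -(X 1 * X 3) := (a1f_D 2).2
  have he : ev (X 2) = psi := funext ev_X2
  rw [h1, h2, ev_neg, ev_neg, ev_mul, ev_mul, ev_X0, ev_X1, ev_X3, he]
  exact a1f_psi y hy

lemma a1f_inv (y : ℝ × ℝ) (hy : y ∈ disc) :
    HasStrictFDerivAt (fun y => (psi y)⁻¹) ((y.1 * (1 / psi y) ^ 3) •
      ContinuousLinearMap.fst ℝ ℝ ℝ +
      (y.2 * (1 / psi y) ^ 3) • ContinuousLinearMap.snd ℝ ℝ ℝ) y := by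
  have hpos : 0 < psi y := psi_pos hy
  have h4 := (hasStrictDerivAt_inv hpos.ne').comp_hasStrictFDerivAt y (a1f_psi y hy)
  refine HasStrictFDerivAt.congr_fderiv (f := fun y : ℝ × ℝ => (psi y)⁻¹) h4 ?_
  rw [smul_add, smul_smul, smul_smul]
  congr 2
  · field_simp
  · field_simp

lemma a1f_X3 (y : ℝ × ℝ) (hy : y ∈ disc) :
    HasStrictFDerivAt (ev (X 3))
      (ev (D1 (X 3)) y • ContinuousLinearMap.fst ℝ ℝ ℝ +
        ev (D2 (X 3)) y • ContinuousLinearMap.snd ℝ ℝ ℝ) y := by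
  have h1 : D1 (X 3) = X 0 * X 3 ^ 3 := (a1f_D 3).1
  have h2 : D2 (X 3) = X 1 * X 3 ^ 3 := (a1f_D 3).2
  have he : ev (X 3) = fun y : ℝ × ℝ => (psi y)⁻¹ := by
    funext z
    rw [ev_X3, one_div]
  rw [h1, h2, ev_mul, ev_mul, ev_pow, ev_X0, ev_X1, ev_X3, he]
  exact a1f_inv y hy

lemma a1f_X (i : Fin 4) (y : ℝ × ℝ) (hy : y ∈ disc) :
    HasStrictFDerivAt (ev (X i))
      (ev (D1 (X i)) y • ContinuousLinearMap.fst ℝ ℝ ℝ +
        ev (D2 (X i)) y • ContinuousLinearMap.snd ℝ ℝ ℝ) y :=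
  match i with
  | 0 => a1f_X0 y
  | 1 => a1f_X1 y
  | 2 => a1f_X2 y hy
  | 3 => a1f_X3 y hy

theorem hasStrictFDerivAt_ev (f : RR) (y : ℝ × ℝ) (hy : y ∈ disc) :
    HasStrictFDerivAt (ev f)
      (ev (D1 f) y • ContinuousLinearMap.fst ℝ ℝ ℝ + ev (D2 f) y • ContinuousLinearMap.snd ℝ ℝ ℝ)
      y := by
  induction f using MvPolynomial.induction_on with
  | C a =>
    have h1 : D1 (C a) = 0 := by
      have := D1.map_algebraMap a
      simpa using this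
    have h2 : D2 (C a) = 0 := by
      have := D2.map_algebraMap a
      simpa using this
    rw [h1, h2]
    have h3 : ∀ z, ev (0 : RR) z = 0 := fun z => by simp [ev]
    have he : ev (C a) = fun _ => a := funext (ev_C a)
    rw [h3, zero_smul, zero_smul, add_zero, he]
    exact hasStrictFDerivAt_const a y
  | add p q hp hq =>
    have he : ev (p + q) = fun y => ev p y + ev q y := funext (ev_add p q)
    rw [he]
    refine (hp.add hq).congr_fderiv ?_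
    refine ContinuousLinearMap.ext fun v => ?_
    simp only [map_add, ev_add]
    simp
    ring
  | mul_X p i hp =>
    have he : ev (p * X i) = fun y => ev p y * ev (X i) y := funext (ev_mul p (X i))
    rw [he]
    refine (hp.mul (a1f_X i y hy)).congr_fderiv ?_
    refine ContinuousLinearMap.ext fun v => ?_
    rw [Derivation.leibniz, Derivation.leibniz]
    simp only [smul_eq_mul, ev_add, ev_mul]
    simp
    ring

end Pool.Agent.PPH
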