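import Pool.Agent.PPH.A0

/-!
ROW A2a (0.8 h). `normal_form`: psi^d * ev f = A + B psi with polynomials A, B in y of degree <= 2d.
 f = sum over the support of c_α X^α, |α| = a+b+c+e <= d (totalDegree; MvPolynomial.le_totalDegree);
 psi^d y1^a y2^b psi^c psi^{-e} = y1^a y2^b psi^(d+c-e) (psi > 0), and psi^(2k) = (1-y1²-y2²)^k, psi^(2k+1) = (1-y1²-y2²)^k psi.
 So take for every α: k = (d+c-e)/2 and put c_α X0^a X1^b (1-X0²-X1²)^k into A or B according to the parity of d+c-e.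
 Degree: a + b + 2k <= a + b + d + c <= 2d.
 (or by MvPolynomial induction: prove by induction on f the statement with d replaced by any n ≥ ... ; the sum version is easier.)
-/

namespace Pool.Agent.PPH

open MeasureTheory Set MvPolynomial
open scoped ENNReal Real

lemma a2a_deg (d : ℕ) (c : ℝ) (a b k : ℕ) (h : a + b + 2 * k ≤ 2 * d) :
    (C c * (X 0 ^ a * X 1 ^ b * (1 - X 0 ^ 2 - X 1 ^ 2) ^ k) : MvPolynomial (Fin 2) ℝ).totalDegree
      ≤ 2 * d := by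
  have hP : (1 - X 0 ^ 2 - X 1 ^ 2 : MvPolynomial (Fin 2) ℝ).totalDegree ≤ 2 := by
    refine (totalDegree_sub _ _).trans (max_le ((totalDegree_sub _ _).trans (max_le ?_ ?_)) ?_)
    · simp
    · simp
    · simp
  have h1 : (X 0 ^ a : MvPolynomial (Fin 2) ℝ).totalDegree ≤ a := by simp
  have h2 : (X 1 ^ b : MvPolynomial (Fin 2) ℝ).totalDegree ≤ b := by simp
  have h3 : ((1 - X 0 ^ 2 - X 1 ^ 2) ^ k : MvPolynomial (Fin 2) ℝ).totalDegree ≤ k * 2 :=
    (totalDegree_pow _ _).trans (Nat.mul_le_mul_left k hP)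
  have h4 := totalDegree_mul (C c : MvPolynomial (Fin 2) ℝ)
    (X 0 ^ a * X 1 ^ b * (1 - X 0 ^ 2 - X 1 ^ 2) ^ k)
  have h5 := totalDegree_mul (X 0 ^ a * X 1 ^ b : MvPolynomial (Fin 2) ℝ)
    ((1 - X 0 ^ 2 - X 1 ^ 2) ^ k)
  have h6 := totalDegree_mul (X 0 ^ a : MvPolynomial (Fin 2) ℝ) (X 1 ^ b)
  rw [totalDegree_C] at h4
  omega

lemma a2a_term (d a b c e : ℕ) (h : e ≤ d) (y : ℝ × ℝ) (hy : y ∈ disc) :
    psi y ^ d * (y.1 ^ a * y.2 ^ b * psi y ^ c * (1 / psi y) ^ e) =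
      y.1 ^ a * y.2 ^ b * (1 - y.1 ^ 2 - y.2 ^ 2) ^ ((d + c - e) / 2) *
        psi y ^ ((d + c - e) % 2) := by
  have hp : 0 < psi y := psi_pos hy
  have hs : psi y ^ 2 = 1 - y.1 ^ 2 - y.2 ^ 2 := psi_sq (le_of_lt hy)
  rw [← hs, ← pow_mul, mul_assoc (y.1 ^ a * y.2 ^ b) (psi y ^ (2 * ((d + c - e) / 2))), ← pow_add,
    Nat.div_add_mod, one_div, inv_pow]
  have h1 : psi y ^ (d + c - e) * psi y ^ e = psi y ^ d * psi y ^ c := by
    rw [← pow_add, ← pow_add]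
    congr 1
    omega
  have h2 : psi y ^ e ≠ 0 := (pow_pos hp e).ne'
  field_simp
  linear_combination (-(y.1 ^ a * y.2 ^ b)) * h1

theorem normal_form (d : ℕ) (f : RR) (hf : f.totalDegree ≤ d) :
    ∃ A B : MvPolynomial (Fin 2) ℝ, A.totalDegree ≤ 2 * d ∧ B.totalDegree ≤ 2 * d ∧
      ∀ y ∈ disc, psi y ^ d * ev f y = eval ![y.1, y.2] A + eval ![y.1, y.2] B * psi y := by
  classical
  have hdeg : ∀ α ∈ f.support, α 0 + α 1 + α 2 + α 3 ≤ d := by
    intro α hα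
    have h1 := (le_totalDegree hα).trans hf
    rw [Finsupp.sum_fintype _ _ (fun _ => rfl), Fin.sum_univ_four] at h1
    exact h1
  refine ⟨∑ α ∈ f.support, if (d + α 2 - α 3) % 2 = 0 then C (coeff α f) *
      (X 0 ^ α 0 * X 1 ^ α 1 * (1 - X 0 ^ 2 - X 1 ^ 2) ^ ((d + α 2 - α 3) / 2)) else 0,
    ∑ α ∈ f.support, if (d + α 2 - α 3) % 2 = 0 then 0 else C (coeff α f) *
      (X 0 ^ α 0 * X 1 ^ α 1 * (1 - X 0 ^ 2 - X 1 ^ 2) ^ ((d + α 2 - α 3) / 2)), ?_, ?_, ?_⟩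
  · refine (totalDegree_finsetSum _ _).trans (Finset.sup_le fun α hα => ?_)
    split_ifs
    · have := hdeg α hα
      exact a2a_deg d _ _ _ _ (by omega)
    · simp
  · refine (totalDegree_finsetSum _ _).trans (Finset.sup_le fun α hα => ?_)
    split_ifs
    · simp
    · have := hdeg α hα
      exact a2a_deg d _ _ _ _ (by omega)
  · intro y hy
    rw [show ev f y = eval (pnt y) f from rfl, eval_eq', map_sum, map_sum, Finset.mul_sum,
      Finset.sum_mul, ← Finset.sum_add_distrib]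
    refine Finset.sum_congr rfl fun α hα => ?_
    have h1 := hdeg α hα
    have h2 := a2a_term d (α 0) (α 1) (α 2) (α 3) (by omega) y hy
    rw [Fin.prod_univ_four]
    have h3 : pnt y 0 = y.1 := rfl
    have h4 : pnt y 1 = y.2 := rfl
    have h5 : pnt y 2 = psi y := rfl
    have h6 : pnt y 3 = 1 / psi y := rfl
    rw [h3, h4, h5, h6]
    have h7 : psi y ^ d * (coeff α f * (y.1 ^ α 0 * y.2 ^ α 1 * psi y ^ α 2 * (1 / psi y) ^ α 3)) =
        coeff α f * (psi y ^ d * (y.1 ^ α 0 * y.2 ^ α 1 * psi y ^ α 2 * (1 / psi y) ^ α 3)) := by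
      ring
    rw [h7, h2]
    split_ifs with h8
    · rw [h8]
      simp [mul_assoc]
    · have h9 : (d + α 2 - α 3) % 2 = 1 := by omega
      rw [h9]
      simp [mul_assoc]

end Pool.Agent.PPH
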