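import Mathlib

/-!
ROW A2b (0.6 h). `line_poly`. Restriction to a line y(r) = (y.1 + r v.1, y.2 + r v.2): a, b = the polynomials A, B with `Polynomial.C y.1 + Polynomial.X * Polynomial.C v.1` etc.
 substituted (MvPolynomial.aeval; natDegree of the result <= totalDegree: sum over the support, natDegree_sum_le, natDegree_prod_le, natDegree_pow_le), w = 1 - (..)^2 - (..)^2 as a polynomial in r.
 Last clause: a'^2 = b'^2 w identically; as v ≠ 0, w(r) < 0 for all |r| large (leading coefficient -|v|^2, or: w(r) → -∞), so a'(r)^2 = b'(r)^2 w(r) forces a'(r) = b'(r) = 0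
 for infinitely many r, so a' = b' = 0 (Polynomial.eq_zero_of_infinite_isRoot).
-/

namespace Pool.Agent.PPH

open MeasureTheory Set MvPolynomial
open scoped ENNReal Real

theorem a2b_deg (A : MvPolynomial (Fin 2) ℝ) (d : ℕ) (hA : A.totalDegree ≤ d)
    (l : Fin 2 → Polynomial ℝ) (hl : ∀ i, (l i).natDegree ≤ 1) :
    (MvPolynomial.aeval l A).natDegree ≤ d := by
  rw [MvPolynomial.aeval_def, MvPolynomial.eval₂_eq']
  refine Polynomial.natDegree_sum_le_of_forall_le _ _ fun m hm => ?_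
  refine Polynomial.natDegree_mul_le.trans ?_
  have h1 : (algebraMap ℝ (Polynomial ℝ) (A.coeff m)).natDegree = 0 := Polynomial.natDegree_C _
  rw [h1, zero_add]
  refine (Polynomial.natDegree_prod_le _ _).trans ?_
  have h2 : ∑ i : Fin 2, (l i ^ m i).natDegree ≤ ∑ i : Fin 2, m i := by
    refine Finset.sum_le_sum fun i _ => ?_
    refine Polynomial.natDegree_pow_le.trans ?_
    calc m i * (l i).natDegree ≤ m i * 1 := Nat.mul_le_mul_left _ (hl i)
      _ = m i := mul_one _
  refine h2.trans ?_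
  have h3 := MvPolynomial.le_totalDegree hm
  rw [Finsupp.sum_fintype _ _ (fun _ => rfl)] at h3
  exact h3.trans hA

theorem a2b_eval (A : MvPolynomial (Fin 2) ℝ) (y v : ℝ × ℝ) (r : ℝ) :
    (MvPolynomial.aeval ![Polynomial.C y.1 + Polynomial.X * Polynomial.C v.1,
      Polynomial.C y.2 + Polynomial.X * Polynomial.C v.2] A).eval r =
      eval ![y.1 + r * v.1, y.2 + r * v.2] A := by
  induction A using MvPolynomial.induction_on with
  | C a => simp
  | add p q hp hq => rw [map_add, Polynomial.eval_add, hp, hq, map_add]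
  | mul_X p i hp =>
    rw [map_mul, Polynomial.eval_mul, hp, map_mul, MvPolynomial.aeval_X, MvPolynomial.eval_X]
    congr 1
    fin_cases i
    · simp; ring
    · simp; ring

theorem a2b_neg (y v : ℝ × ℝ) (hv : v ≠ 0) :
    ∃ R : ℝ, ∀ r, R < r → 1 - (y.1 + r * v.1) ^ 2 - (y.2 + r * v.2) ^ 2 < 0 := by
  have hs : 0 < v.1 ^ 2 + v.2 ^ 2 := by
    rcases eq_or_ne v.1 0 with h1 | h1
    · have h2 : v.2 ≠ 0 := fun h2 => hv (Prod.ext h1 h2)
      have := sq_pos_of_ne_zero h2
      have := sq_nonneg v.1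
      linarith
    · have := sq_pos_of_ne_zero h1
      have := sq_nonneg v.2
      linarith
  refine ⟨2 * (1 + y.1 ^ 2 + y.2 ^ 2) / (v.1 ^ 2 + v.2 ^ 2) + 1, fun r hr => ?_⟩
  have hq : 0 ≤ 2 * (1 + y.1 ^ 2 + y.2 ^ 2) / (v.1 ^ 2 + v.2 ^ 2) := by positivity
  have hr1 : 1 < r := by linarith
  have hr2 : 2 * (1 + y.1 ^ 2 + y.2 ^ 2) / (v.1 ^ 2 + v.2 ^ 2) < r ^ 2 := by nlinarith
  rw [div_lt_iff₀ hs] at hr2
  nlinarith [sq_nonneg (2 * y.1 + r * v.1), sq_nonneg (2 * y.2 + r * v.2)]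

/-- restriction of `A + B psi` to a line: if `A² = B² w` identically on the line then `A = B = 0` on it -/
theorem line_poly (A B : MvPolynomial (Fin 2) ℝ) (d : ℕ) (hA : A.totalDegree ≤ d)
    (hB : B.totalDegree ≤ d) (y v : ℝ × ℝ) (hv : v ≠ 0) :
    ∃ a b w : Polynomial ℝ, a.natDegree ≤ d ∧ b.natDegree ≤ d ∧ w.natDegree ≤ 2 ∧
      (∀ r : ℝ, a.eval r = eval ![y.1 + r * v.1, y.2 + r * v.2] A) ∧
      (∀ r : ℝ, b.eval r = eval ![y.1 + r * v.1, y.2 + r * v.2] B) ∧
      (∀ r : ℝ, w.eval r = 1 - (y.1 + r * v.1) ^ 2 - (y.2 + r * v.2) ^ 2) ∧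
      (∀ a' b' : Polynomial ℝ, a' ^ 2 - b' ^ 2 * w = 0 → a' = 0 ∧ b' = 0) := by
  have hw : ∀ r : ℝ, (1 - (Polynomial.C y.1 + Polynomial.X * Polynomial.C v.1) ^ 2 -
      (Polynomial.C y.2 + Polynomial.X * Polynomial.C v.2) ^ 2 : Polynomial ℝ).eval r =
      1 - (y.1 + r * v.1) ^ 2 - (y.2 + r * v.2) ^ 2 := by
    intro r
    simp
    ring
  have hl : ∀ i, ((![Polynomial.C y.1 + Polynomial.X * Polynomial.C v.1,
      Polynomial.C y.2 + Polynomial.X * Polynomial.C v.2] : Fin 2 → Polynomial ℝ) i).natDegree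
        ≤ 1 := by
    have h0 : ∀ a b : ℝ, (Polynomial.C a + Polynomial.X * Polynomial.C b).natDegree ≤ 1 := by
      intro a b
      compute_degree
    intro i
    fin_cases i
    · exact h0 y.1 v.1
    · exact h0 y.2 v.2
  refine ⟨MvPolynomial.aeval ![Polynomial.C y.1 + Polynomial.X * Polynomial.C v.1,
      Polynomial.C y.2 + Polynomial.X * Polynomial.C v.2] A,
    MvPolynomial.aeval ![Polynomial.C y.1 + Polynomial.X * Polynomial.C v.1,
      Polynomial.C y.2 + Polynomial.X * Polynomial.C v.2] B,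
    1 - (Polynomial.C y.1 + Polynomial.X * Polynomial.C v.1) ^ 2 -
      (Polynomial.C y.2 + Polynomial.X * Polynomial.C v.2) ^ 2,
    a2b_deg A d hA _ hl, a2b_deg B d hB _ hl, ?_, a2b_eval A y v, a2b_eval B y v, hw, ?_⟩
  · compute_degree
  · intro a' b' h
    obtain ⟨R, hR⟩ := a2b_neg y v hv
    have key : ∀ r, R < r → a'.eval r = 0 ∧ b'.eval r = 0 := by
      intro r hr
      have h1 := congrArg (Polynomial.eval r) h
      rw [Polynomial.eval_sub, Polynomial.eval_mul, Polynomial.eval_pow, Polynomial.eval_pow, hw,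
        Polynomial.eval_zero] at h1
      have h2 := hR r hr
      have h3 := sq_nonneg (a'.eval r)
      have h4 := sq_nonneg (b'.eval r)
      have h5 : (b'.eval r) ^ 2 = 0 := by
        by_contra hne
        have h6 : 0 < (b'.eval r) ^ 2 := lt_of_le_of_ne h4 (Ne.symm hne)
        have h7 := mul_neg_of_pos_of_neg h6 h2
        linarith
      rw [h5, zero_mul, sub_zero] at h1
      exact ⟨pow_eq_zero_iff (two_ne_zero) |>.1 h1, pow_eq_zero_iff (two_ne_zero) |>.1 h5⟩
    constructor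
    · exact Polynomial.eq_zero_of_infinite_isRoot a'
        ((Set.Ioi_infinite R).mono fun r hr => (key r hr).1)
    · exact Polynomial.eq_zero_of_infinite_isRoot b'
        ((Set.Ioi_infinite R).mono fun r hr => (key r hr).2)

end Pool.Agent.PPH
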