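import Pool.Agent.PPH.A2a
import Pool.Agent.PPH.A2b

/-!
ROW A2c (0.5 h). `zeros_line`, from normal_form and line_poly.
 A zero of ev f on the line inside BB (⊆ disc) satisfies a(r) + b(r) psi = 0, so h(r) = a(r)^2 - b(r)^2 w(r) = 0 (psi^2 = w on BB).
 h has degree <= 4d+2. If h ≠ 0 the zero set is contained in its roots: card ≤ 4d+2 (Polynomial.card_roots', toFinset).
 If h = 0: a = b = 0 (last clause of line_poly) and ev f = 0 on the line inside BB (psi^d > 0).
-/

namespace Pool.Agent.PPH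

open MeasureTheory Set MvPolynomial
open scoped ENNReal Real

theorem zeros_line (d : ℕ) : ∃ N : ℕ, ∀ (f : RR) (_ : f.totalDegree ≤ d) (y v : ℝ × ℝ) (_ : v ≠ 0),
    (∀ r : ℝ, (y.1 + r * v.1, y.2 + r * v.2) ∈ BB → ev f (y.1 + r * v.1, y.2 + r * v.2) = 0) ∨
    ∃ Z : Finset ℝ, Z.card ≤ N ∧ ∀ r : ℝ, (y.1 + r * v.1, y.2 + r * v.2) ∈ BB →
      ev f (y.1 + r * v.1, y.2 + r * v.2) = 0 → r ∈ Z := by
  refine ⟨4 * d + 2, ?_⟩
  intro f hf y v hv
  obtain ⟨A, B, hA, hB, hAB⟩ := normal_form d f hf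
  obtain ⟨a, b, w, ha, hb, hw, hae, hbe, hwe, hlast⟩ := line_poly A B (2 * d) hA hB y v hv
  have key : ∀ r : ℝ, (y.1 + r * v.1, y.2 + r * v.2) ∈ BB →
      psi (y.1 + r * v.1, y.2 + r * v.2) ^ d * ev f (y.1 + r * v.1, y.2 + r * v.2) =
        a.eval r + b.eval r * psi (y.1 + r * v.1, y.2 + r * v.2) := by
    intro r hr
    rw [hae r, hbe r]
    exact hAB _ (BB_sub_disc hr)
  by_cases h0 : a ^ 2 - b ^ 2 * w = 0
  · left
    intro r hr
    obtain ⟨ha0, hb0⟩ := hlast a b h0
    have h := key r hr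
    rw [ha0, hb0, Polynomial.eval_zero, zero_mul, add_zero] at h
    have hpos : 0 < psi (y.1 + r * v.1, y.2 + r * v.2) := psi_pos (BB_sub_disc hr)
    rcases mul_eq_zero.mp h with h1 | h1
    · exact absurd h1 (pow_pos hpos d).ne'
    · exact h1
  · right
    refine ⟨(a ^ 2 - b ^ 2 * w).roots.toFinset, ?_, ?_⟩
    · refine (Multiset.toFinset_card_le _).trans ((Polynomial.card_roots' _).trans ?_)
      have h1 : (a ^ 2).natDegree ≤ 2 * (2 * d) :=
        Polynomial.natDegree_pow_le_of_le 2 ha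
      have h2 : (b ^ 2).natDegree ≤ 2 * (2 * d) :=
        Polynomial.natDegree_pow_le_of_le 2 hb
      have h3 : (b ^ 2 * w).natDegree ≤ 2 * (2 * d) + 2 :=
        Polynomial.natDegree_mul_le_of_le h2 hw
      refine (Polynomial.natDegree_sub_le _ _).trans ?_
      refine max_le ?_ ?_ <;> omega
    · intro r hr hz
      rw [Multiset.mem_toFinset, Polynomial.mem_roots h0, Polynomial.IsRoot.def,
        Polynomial.eval_sub, Polynomial.eval_mul, Polynomial.eval_pow, Polynomial.eval_pow,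
        hwe r]
      have h := key r hr
      rw [hz, mul_zero] at h
      have hsq := psi_sq (y := (y.1 + r * v.1, y.2 + r * v.2))
        (le_of_lt (BB_sub_disc hr))
      have h4 : a.eval r = -(b.eval r * psi (y.1 + r * v.1, y.2 + r * v.2)) := by linarith
      rw [h4]
      have h5 : 1 - (y.1 + r * v.1) ^ 2 - (y.2 + r * v.2) ^ 2 =
          psi (y.1 + r * v.1, y.2 + r * v.2) ^ 2 := hsq.symm
      rw [h5]
      ring

end Pool.Agent.PPH
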