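import Pool.Agent.PPH.A1e
import Pool.Agent.PPH.A2b

namespace Pool.Agent.PPH

open MeasureTheory Set MvPolynomial
open scoped ENNReal Real Topology

/-- a polynomial of degree `< n` which is `O(r^n)` at `0` vanishes -/
lemma vanish_poly (n : ℕ) : ∀ (p : Polynomial ℝ) (K : ℝ), p.natDegree < n →
    (∀ᶠ r in 𝓝[≠] (0 : ℝ), |p.eval r| ≤ K * |r| ^ n) → p = 0 := by
  induction n with
  | zero => intro p K h; omega
  | succ n ih =>
    intro p K hp hK
    have h0 : p.eval 0 = 0 := by
      have t1 : Filter.Tendsto (fun r : ℝ => |p.eval r|) (𝓝[≠] (0 : ℝ)) (𝓝 |p.eval 0|) :=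
        ((p.continuous.abs).tendsto 0).mono_left nhdsWithin_le_nhds
      have t2 : Filter.Tendsto (fun r : ℝ => K * |r| ^ (n + 1)) (𝓝[≠] (0 : ℝ)) (𝓝 0) := by
        have : Continuous fun r : ℝ => K * |r| ^ (n + 1) := by fun_prop
        have h := (this.tendsto 0).mono_left (nhdsWithin_le_nhds (s := {0}ᶜ))
        simpa using h
      have := le_of_tendsto_of_tendsto t1 t2 hK
      exact abs_eq_zero.1 (le_antisymm this (abs_nonneg _))
    have hc0 : p.coeff 0 = 0 := by
      rw [Polynomial.coeff_zero_eq_eval_zero, h0]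
    have hX : p = p.divX * Polynomial.X := by
      conv_lhs => rw [← Polynomial.divX_mul_X_add p]
      rw [hc0]; simp
    rcases Nat.eq_zero_or_pos n with hn | hn
    · subst hn
      have : p.natDegree = 0 := by omega
      rw [Polynomial.eq_C_of_natDegree_eq_zero this, hc0]
      simp
    · have hd : p.divX.natDegree < n := by
        rw [Polynomial.natDegree_divX_eq_natDegree_tsub_one]
        omega
      have : p.divX = 0 := by
        refine ih _ K hd ?_
        filter_upwards [hK, self_mem_nhdsWithin] with r hr hr0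
        have hr0 : r ≠ 0 := hr0
        have hpos : 0 < |r| := abs_pos.2 hr0
        have e : p.eval r = p.divX.eval r * r := by
          conv_lhs => rw [hX]
          simp
        rw [e, abs_mul, pow_succ, ← mul_assoc] at hr
        exact le_of_mul_le_mul_right hr hpos
      rw [hX, this, zero_mul]

/-- Taylor -/
lemma vanish_taylor (g : ℕ → ℝ → ℝ) (δ : ℝ) (hδ : 0 < δ) (N : ℕ) (hN : 1 ≤ N)
    (hder : ∀ k, ∀ r, |r| ≤ δ → HasDerivAt (g k) (g (k + 1) r) r)
    (hzero : ∀ k, 2 ≤ k → k ≤ N → g k 0 = 0) :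
    ∃ K : ℝ, 0 ≤ K ∧ ∀ r, |r| ≤ δ → |g 0 r - g 0 0 - g 1 0 * r| ≤ K * |r| ^ (N + 1) := by
  have hmem : ∀ r : ℝ, r ∈ Icc (-δ) δ ↔ |r| ≤ δ := fun r => by
    rw [abs_le]; rfl
  have hcont : ContinuousOn (g (N + 1)) (Icc (-δ) δ) := fun r hr =>
    (hder (N + 1) r ((hmem r).1 hr)).continuousAt.continuousWithinAt
  obtain ⟨K, hK⟩ := isCompact_Icc.exists_bound_of_continuousOn hcont
  have hK0 : 0 ≤ K := by
    have := hK 0 ((hmem 0).2 (by simpa using hδ.le))
    exact (norm_nonneg _).trans this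
  -- mean value step
  have key : ∀ (f f' : ℝ → ℝ) (j : ℕ), (∀ r, |r| ≤ δ → HasDerivAt f (f' r) r) → f 0 = 0 →
      (∀ r, |r| ≤ δ → |f' r| ≤ K * |r| ^ j) → ∀ r, |r| ≤ δ → |f r| ≤ K * |r| ^ (j + 1) := by
    intro f f' j hf h0 hb r hr
    have hcv : Convex ℝ (Icc (-|r|) |r|) := convex_Icc _ _
    have h1 : ∀ x ∈ Icc (-|r|) |r|, HasDerivWithinAt f (f' x) (Icc (-|r|) |r|) x := by
      intro x hx
      have : |x| ≤ |r| := abs_le.2 hx
      exact (hf x (this.trans hr)).hasDerivWithinAt
    have h2 : ∀ x ∈ Icc (-|r|) |r|, ‖f' x‖ ≤ K * |r| ^ j := by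
      intro x hx
      have : |x| ≤ |r| := abs_le.2 hx
      refine (hb x (this.trans hr)).trans ?_
      gcongr
    have := hcv.norm_image_sub_le_of_norm_hasDerivWithin_le h1 h2
      (show (0:ℝ) ∈ Icc (-|r|) |r| by constructor <;> simp) (show r ∈ Icc (-|r|) |r| from
        ⟨neg_abs_le r, le_abs_self r⟩)
    rw [h0, sub_zero, sub_zero, Real.norm_eq_abs, Real.norm_eq_abs] at this
    rw [pow_succ, ← mul_assoc]
    exact this
  have main : ∀ j, j + 1 ≤ N → ∀ r, |r| ≤ δ → |g (N + 1 - j) r| ≤ K * |r| ^ j := by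
    intro j
    induction j with
    | zero =>
      intro _ r hr
      have := hK r ((hmem r).2 hr)
      simpa using this
    | succ j ih =>
      intro hj
      have ih := ih (by omega)
      have e : N + 1 - j = (N + 1 - (j + 1)) + 1 := by omega
      rw [e] at ih
      exact key _ _ j (fun r hr => hder _ r hr) (hzero _ (by omega) (by omega)) ih
  have m2 : ∀ r, |r| ≤ δ → |g 2 r| ≤ K * |r| ^ (N - 1) := by
    have := main (N - 1) (by omega)
    have e : N + 1 - (N - 1) = 2 := by omega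
    rwa [e] at this
  have m1 : ∀ r, |r| ≤ δ → |g 1 r - g 1 0| ≤ K * |r| ^ N := by
    have := key (fun r => g 1 r - g 1 0) (g 2) (N - 1) (fun r hr => (hder 1 r hr).sub_const _)
      (by simp) m2
    have e : N - 1 + 1 = N := by omega
    rwa [e] at this
  refine ⟨K, hK0, ?_⟩
  exact key (fun r => g 0 r - g 0 0 - g 1 0 * r) (fun r => g 1 r - g 1 0) N (fun r hr => by
    have h1 := ((hder 0 r hr).sub_const (g 0 0)).sub ((hasDerivAt_id r).const_mul (g 1 0))
    have h2 : g 1 r - g 1 0 * 1 = g 1 r - g 1 0 := by ring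
    rw [← h2]
    exact h1) (by simp) m1


/-- the two parts of the phase -/
noncomputable def vpart {D : ℕ} (c : Cf D) (e : Fin 2) : MvPolynomial (Fin 2) ℝ :=
  ∑ p : Fin (D + 1) × Fin (D + 1), C (c (p.1, p.2, e)) * (X 0 ^ (p.1 : ℕ) * X 1 ^ (p.2 : ℕ))

lemma vpart_deg {D : ℕ} (c : Cf D) (e : Fin 2) : (vpart c e).totalDegree ≤ 2 * D := by
  unfold vpart
  refine (totalDegree_finsetSum _ _).trans (Finset.sup_le fun p _ => ?_)
  refine (totalDegree_mul _ _).trans ?_
  rw [totalDegree_C, zero_add]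
  refine (totalDegree_mul _ _).trans ?_
  have h1 := totalDegree_pow (X 0 : MvPolynomial (Fin 2) ℝ) (p.1 : ℕ)
  have h2 := totalDegree_pow (X 1 : MvPolynomial (Fin 2) ℝ) (p.2 : ℕ)
  rw [totalDegree_X] at h1 h2
  have := p.1.2
  have := p.2.2
  omega

lemma vpart_ev {D : ℕ} (c : Cf D) (z : ℝ × ℝ) :
    ev (qq c) z = eval ![z.1, z.2] (vpart c 0) + eval ![z.1, z.2] (vpart c 1) * psi z := by
  unfold qq vpart
  rw [ev_sum, map_sum, map_sum, Finset.sum_mul, ← Finset.sum_add_distrib]
  rw [← (Equiv.prodAssoc (Fin (D + 1)) (Fin (D + 1)) (Fin 2)).sum_comp, Fintype.sum_prod_type]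
  refine Finset.sum_congr rfl fun p _ => ?_
  simp [ev_mul, ev_C, ev_pow, ev_X0, ev_X1, ev_X2]
  ring

lemma vpart_coeff {D : ℕ} (c : Cf D) (e : Fin 2) (i j : Fin (D + 1)) :
    coeff (Finsupp.single 0 (i : ℕ) + Finsupp.single 1 (j : ℕ)) (vpart c e) = c (i, j, e) := by
  unfold vpart
  rw [coeff_sum]
  rw [Finset.sum_eq_single (i, j)]
  · rw [coeff_C_mul, X_pow_eq_monomial, X_pow_eq_monomial, monomial_mul, coeff_monomial]
    simp
  · intro p _ hp
    rw [coeff_C_mul, X_pow_eq_monomial, X_pow_eq_monomial, monomial_mul, coeff_monomial]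
    rw [if_neg, mul_zero]
    intro h
    apply hp
    have h0 := DFunLike.congr_fun h 0
    have h1 := DFunLike.congr_fun h 1
    simp at h0 h1
    ext
    · simpa using h0
    · simpa using h1
  · intro h
    exact absurd (Finset.mem_univ _) h

/-- on every line through `y` -/
lemma vanish_line (D : ℕ) (c : Cf D) (y : ℝ × ℝ) (hy : y ∈ BB)
    (h : ∀ a b : ℕ, 2 ≤ a + b → a + b ≤ JJ D → ev (DD a b (qq c)) y = 0) (v : ℝ × ℝ) (hv : v ≠ 0)
    (r : ℝ) :
    eval ![y.1 + r * v.1, y.2 + r * v.2] (vpart c 1) = 0 ∧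
    eval ![y.1 + r * v.1, y.2 + r * v.2] (vpart c 0) =
      ev (qq c) y + r * (v.1 * ev (D1 (qq c)) y + v.2 * ev (D2 (qq c)) y) := by
  obtain ⟨a, b, w, ha, hb, hw, ha', hb', hw', hlast⟩ := line_poly (vpart c 0) (vpart c 1) (2 * D)
    (vpart_deg c 0) (vpart_deg c 1) y v hv
  have hyd : y ∈ disc := BB_sub_disc hy
  -- the segment
  have hcontl : Continuous fun r : ℝ => (y.1 + r * v.1, y.2 + r * v.2) := by fun_prop
  have hmem : ∀ᶠ r in 𝓝 (0 : ℝ), (y.1 + r * v.1, y.2 + r * v.2) ∈ disc := by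
    apply hcontl.continuousAt.eventually_mem
    apply isOpen_disc.mem_nhds
    simpa using hyd
  obtain ⟨δ', hδ', hball⟩ := Metric.eventually_nhds_iff.1 hmem
  have hδ : 0 < δ' / 2 := by positivity
  have hin : ∀ r : ℝ, |r| ≤ δ' / 2 → (y.1 + r * v.1, y.2 + r * v.2) ∈ disc := by
    intro r hr
    apply hball
    rw [Real.dist_eq, sub_zero]
    linarith
  set g : ℕ → ℝ → ℝ := fun k r => ev (Dv v k (qq c)) (y.1 + r * v.1, y.2 + r * v.2) with hg
  obtain ⟨K, hK0, hK⟩ := vanish_taylor g (δ' / 2) hδ (JJ D) (by unfold JJ; omega)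
    (fun k r hr => hasDerivAt_Dv (qq c) y v k r (hin r hr)) (by
      intro k h2 hk
      simp only [hg, zero_mul, add_zero]
      unfold Dv
      rw [ev_sum]
      apply Finset.sum_eq_zero
      intro l hl
      rw [ev_mul, h (k - l) l (by have := Finset.mem_range.1 hl; omega)
        (by have := Finset.mem_range.1 hl; omega), mul_zero])
  have g0 : g 0 0 = ev (qq c) y := by
    simp only [hg, zero_mul, add_zero, Dv_zero]
  have g1 : g 1 0 = v.1 * ev (D1 (qq c)) y + v.2 * ev (D2 (qq c)) y := by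
    simp only [hg, zero_mul, add_zero]
    have := Dv_succ v 0 (qq c)
    rw [Dv_zero, zero_add] at this
    rw [← this, ev_add, ev_mul, ev_mul, ev_C, ev_C]
  set a1 : Polynomial ℝ := a - Polynomial.C (g 0 0) - Polynomial.C (g 1 0) * Polynomial.X with ha1
  -- bound
  have hw2 : ∀ r : ℝ, |r| ≤ δ' / 2 → w.eval r = psi (y.1 + r * v.1, y.2 + r * v.2) ^ 2 := by
    intro r hr
    rw [hw', psi_sq]
    exact (hin r hr).le
  have hcpsi : Continuous fun r : ℝ => psi (y.1 + r * v.1, y.2 + r * v.2) :=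
    continuous_psi.comp hcontl
  have hcont2 : Continuous fun r : ℝ => a1.eval r - b.eval r * psi (y.1 + r * v.1, y.2 + r * v.2) := by
    exact a1.continuous.sub (b.continuous.mul hcpsi)
  obtain ⟨M, hM⟩ := (isCompact_Icc (a := -(δ' / 2)) (b := δ' / 2)).exists_bound_of_continuousOn
    hcont2.continuousOn
  have hp : a1 ^ 2 - b ^ 2 * w = 0 := by
    apply vanish_poly (JJ D + 1) _ (K * M)
    · have d1 : a1.natDegree ≤ 2 * D + 1 := by
        rw [ha1]
        refine (Polynomial.natDegree_sub_le _ _).trans (max_le ?_ ?_)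
        · refine (Polynomial.natDegree_sub_le _ _).trans (max_le (by omega) ?_)
          rw [Polynomial.natDegree_C]
          omega
        · have := Polynomial.natDegree_C_mul_le (g 1 0) Polynomial.X
          rw [Polynomial.natDegree_X] at this
          omega
      have d2 : (a1 ^ 2).natDegree ≤ 2 * (2 * D + 1) :=
        Polynomial.natDegree_pow_le_of_le 2 d1
      have d3 : (b ^ 2 * w).natDegree ≤ 2 * (2 * D) + 2 := by
        refine Polynomial.natDegree_mul_le.trans ?_
        have := Polynomial.natDegree_pow_le_of_le 2 hb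
        omega
      refine Nat.lt_succ_of_le ((Polynomial.natDegree_sub_le _ _).trans (max_le ?_ ?_))
      · unfold JJ; omega
      · unfold JJ; omega
    · have : ∀ᶠ r in 𝓝 (0 : ℝ), |r| ≤ δ' / 2 := by
        have : Metric.ball (0 : ℝ) (δ' / 2) ∈ 𝓝 (0 : ℝ) := Metric.ball_mem_nhds _ hδ
        filter_upwards [this] with r hr
        rw [Metric.mem_ball, Real.dist_eq, sub_zero] at hr
        exact hr.le
      filter_upwards [this.filter_mono nhdsWithin_le_nhds] with r hr
      have e1 : (a1 ^ 2 - b ^ 2 * w).eval r =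
          (a1.eval r + b.eval r * psi (y.1 + r * v.1, y.2 + r * v.2)) *
          (a1.eval r - b.eval r * psi (y.1 + r * v.1, y.2 + r * v.2)) := by
        rw [Polynomial.eval_sub, Polynomial.eval_mul, Polynomial.eval_pow, Polynomial.eval_pow,
          hw2 r hr]
        ring
      have e2 : a1.eval r + b.eval r * psi (y.1 + r * v.1, y.2 + r * v.2) =
          g 0 r - g 0 0 - g 1 0 * r := by
        have : g 0 r = ev (qq c) (y.1 + r * v.1, y.2 + r * v.2) := by
          simp only [hg, Dv_zero]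
        rw [this, vpart_ev, ← ha', ← hb', ha1]
        simp
        ring
      rw [e1, e2, abs_mul]
      have hM' := hM r (abs_le.1 hr)
      rw [Real.norm_eq_abs] at hM'
      calc |g 0 r - g 0 0 - g 1 0 * r| *
            |a1.eval r - b.eval r * psi (y.1 + r * v.1, y.2 + r * v.2)|
          ≤ (K * |r| ^ (JJ D + 1)) * M :=
            mul_le_mul (hK r hr) hM' (abs_nonneg _) (by positivity)
        _ = K * M * |r| ^ (JJ D + 1) := by ring
  obtain ⟨z1, z2⟩ := hlast a1 b hp
  constructor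
  · rw [← hb', z2]
    simp
  · rw [← ha']
    have : a.eval r = a1.eval r + g 0 0 + g 1 0 * r := by
      rw [ha1]
      simp
      ring
    rw [this, z1, g0, g1]
    simp
    ring

theorem vanish (D : ℕ) (c : Cf D) (y : ℝ × ℝ) (hy : y ∈ BB)
    (hc : ∀ p : Fin (D + 1) × Fin (D + 1) × Fin 2, (p.1 : ℕ) + p.2.1 ≤ 1 → (p.2.2 : ℕ) = 0 → c p = 0)
    (h : ∀ a b : ℕ, 2 ≤ a + b → a + b ≤ JJ D → ev (DD a b (qq c)) y = 0) : c = 0 := by
  have key : ∀ z : ℝ × ℝ, eval ![z.1, z.2] (vpart c 1) = 0 ∧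
      eval ![z.1, z.2] (vpart c 0) =
        ev (qq c) y + ((z.1 - y.1) * ev (D1 (qq c)) y + (z.2 - y.2) * ev (D2 (qq c)) y) := by
    intro z
    by_cases hz : z = y
    · have := vanish_line D c y hy h (1, 0) (by simp) 0
      subst hz
      simpa using this
    · have := vanish_line D c y hy h (z - y) (sub_ne_zero.2 hz) 1
      simpa using this
  have kB : vpart c 1 = 0 := by
    apply MvPolynomial.funext
    intro x
    have := (key (x 0, x 1)).1
    have e : ![(x 0, x 1).1, (x 0, x 1).2] = x := by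
      funext i
      fin_cases i <;> rfl
    rw [e] at this
    rw [this, map_zero]
  have kA : vpart c 0 = C (ev (qq c) y - y.1 * ev (D1 (qq c)) y - y.2 * ev (D2 (qq c)) y) +
      C (ev (D1 (qq c)) y) * X 0 + C (ev (D2 (qq c)) y) * X 1 := by
    apply MvPolynomial.funext
    intro x
    have := (key (x 0, x 1)).2
    have e : ![(x 0, x 1).1, (x 0, x 1).2] = x := by
      funext i
      fin_cases i <;> rfl
    rw [e] at this
    rw [this]
    simp
    ring
  funext p
  obtain ⟨i, j, e⟩ := p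
  have hcase : e = 0 ∨ e = 1 := by
    fin_cases e <;> simp
  rcases hcase with rfl | rfl
  · by_cases hij : (i : ℕ) + j ≤ 1
    · exact hc (i, j, 0) hij rfl
    · have := vpart_coeff c 0 i j
      rw [← this, kA]
      have hX : ∀ s : Fin 2, (X s : MvPolynomial (Fin 2) ℝ) = monomial (Finsupp.single s 1) 1 :=
        fun s => rfl
      have f0 : ∀ m : Fin 2 →₀ ℕ, m 0 + m 1 ≤ 1 →
          m ≠ Finsupp.single 0 (i : ℕ) + Finsupp.single 1 (j : ℕ) := by
        intro m hm hEq
        apply hij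
        have h0 := DFunLike.congr_fun hEq 0
        have h1 := DFunLike.congr_fun hEq 1
        simp at h0 h1
        omega
      rw [coeff_add, coeff_add, coeff_C_mul, coeff_C_mul, coeff_C, hX, hX, coeff_monomial,
        coeff_monomial, if_neg (f0 _ (by simp)), if_neg (f0 _ (by simp)), if_neg (f0 _ (by simp))]
      simp
  · have := vpart_coeff c 1 i j
    rw [← this, kB]
    simp

end Pool.Agent.PPH
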