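import Pool.Agent.PPH.A3a

/-!
ROW A3b (0.8 h). `norm_equiv`, from vanish. Let Φ(y,c) = Σ_{2≤a+b≤JJ D} |ev (DD a b (qq c)) y| (finite sum over a,b ∈ range (JJ D + 1)), continuous on BB × (Cf D)
 (ev (DD a b (qq c)) y = Σ_p c p * ev (DD a b (monomial_p)) y by DD_sum, DD_C_mul; continuousOn_ev). On the compact set BB × {c : ‖c‖ = 1, c_000 = c_100 = c_010 = 0}
 Φ > 0 by vanish, so Φ ≥ δ > 0 there (IsCompact.exists_isMinOn; the case of an empty set is trivial), by homogeneity Φ(y,c) ≥ δ ‖c‖ for all c with these three zero.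
 Also |ev (DD a b (qq c)) y'| ≤ K ‖c‖ for 2 ≤ a+b ≤ JJ D + 1 (ev_bdd for the finitely many monomials). For general c replace the three coefficients by 0: the
 derivatives of order ≥ 2 do not change (DD_affine, X 0 and X 1 terms). D = 0: the index type still contains (0,0,0), (1,0,0) does not exist: treat the affine part
 by `c' p = if (p.1:ℕ) + p.2.1 ≤ 1 ∧ (p.2.2:ℕ) = 0 then 0 else c p`. (In `vanish` the hypothesis is stated in this way.)
-/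

namespace Pool.Agent.PPH

open MeasureTheory Set MvPolynomial
open scoped ENNReal Real

/-- the monomials -/
noncomputable def a3b_mon {D : ℕ} (p : Fin (D + 1) × Fin (D + 1) × Fin 2) : RR :=
  X 0 ^ (p.1 : ℕ) * X 1 ^ (p.2.1 : ℕ) * X 2 ^ (p.2.2 : ℕ)

theorem a3b_ev {D : ℕ} (a b : ℕ) (c : Cf D) (y : ℝ × ℝ) :
    ev (DD a b (qq c)) y = ∑ p, c p * ev (DD a b (a3b_mon p)) y := by
  unfold qq
  rw [DD_sum, ev_sum]
  refine Finset.sum_congr rfl fun p _ => ?_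
  rw [DD_C_mul, ev_mul, ev_C]
  rfl

theorem a3b_affine {D : ℕ} (a b : ℕ) (h : 2 ≤ a + b) (p : Fin (D + 1) × Fin (D + 1) × Fin 2)
    (h1 : (p.1 : ℕ) + p.2.1 ≤ 1) (h2 : (p.2.2 : ℕ) = 0) : DD a b (a3b_mon p) = 0 := by
  have h3 : ((p.1 : ℕ) = 0 ∧ (p.2.1 : ℕ) = 0) ∨ ((p.1 : ℕ) = 1 ∧ (p.2.1 : ℕ) = 0) ∨
      ((p.1 : ℕ) = 0 ∧ (p.2.1 : ℕ) = 1) := by omega
  unfold a3b_mon
  rcases h3 with ⟨e1, e2⟩ | ⟨e1, e2⟩ | ⟨e1, e2⟩
  · rw [e1, e2, h2]
    have := DD_affine a b h 1 0 0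
    simpa using this
  · rw [e1, e2, h2]
    have := DD_affine a b h 0 1 0
    simpa using this
  · rw [e1, e2, h2]
    have := DD_affine a b h 0 0 1
    simpa using this

/-- removal of the affine part -/
noncomputable def a3b_cz {D : ℕ} (c : Cf D) : Cf D := fun p =>
  if (p.1 : ℕ) + p.2.1 ≤ 1 ∧ (p.2.2 : ℕ) = 0 then 0 else c p

theorem a3b_ev_cz {D : ℕ} (a b : ℕ) (h : 2 ≤ a + b) (c : Cf D) (y : ℝ × ℝ) :
    ev (DD a b (qq (a3b_cz c))) y = ev (DD a b (qq c)) y := by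
  rw [a3b_ev, a3b_ev]
  refine Finset.sum_congr rfl fun p _ => ?_
  unfold a3b_cz
  split_ifs with hp
  · rw [a3b_affine a b h p hp.1 hp.2]
    simp [ev]
  · rfl

/-- the index set of the derivatives -/
def a3b_F (D : ℕ) : Finset (ℕ × ℕ) :=
  (Finset.range (JJ D + 1) ×ˢ Finset.range (JJ D + 1)).filter
    fun p => 2 ≤ p.1 + p.2 ∧ p.1 + p.2 ≤ JJ D

theorem a3b_memF {D : ℕ} {p : ℕ × ℕ} : p ∈ a3b_F D ↔ 2 ≤ p.1 + p.2 ∧ p.1 + p.2 ≤ JJ D := by
  unfold a3b_F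
  rw [Finset.mem_filter, Finset.mem_product, Finset.mem_range, Finset.mem_range]
  constructor
  · exact fun h => h.2
  · intro h
    exact ⟨⟨by omega, by omega⟩, h⟩

/-- the sum of the derivatives -/
noncomputable def a3b_Phi {D : ℕ} (z : (ℝ × ℝ) × Cf D) : ℝ :=
  ∑ p ∈ a3b_F D, |ev (DD p.1 p.2 (qq z.2)) z.1|

theorem a3b_Phi_nonneg {D : ℕ} (z : (ℝ × ℝ) × Cf D) : 0 ≤ a3b_Phi z :=
  Finset.sum_nonneg fun _ _ => abs_nonneg _

theorem a3b_Phi_smul {D : ℕ} (y : ℝ × ℝ) (t : ℝ) (c : Cf D) :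
    a3b_Phi (y, t • c) = |t| * a3b_Phi (y, c) := by
  unfold a3b_Phi
  rw [Finset.mul_sum]
  refine Finset.sum_congr rfl fun p _ => ?_
  rw [← abs_mul]
  congr 1
  show ev (DD p.1 p.2 (qq (t • c))) y = t * ev (DD p.1 p.2 (qq c)) y
  rw [a3b_ev, a3b_ev, Finset.mul_sum]
  refine Finset.sum_congr rfl fun q _ => ?_
  rw [Pi.smul_apply, smul_eq_mul, mul_assoc]

theorem a3b_cont {D : ℕ} (S : Set (Cf D)) : ContinuousOn (a3b_Phi (D := D)) (BB ×ˢ S) := by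
  unfold a3b_Phi
  refine continuousOn_finsetSum _ fun p _ => ContinuousOn.abs ?_
  have h : (fun z : (ℝ × ℝ) × Cf D => ev (DD p.1 p.2 (qq z.2)) z.1) =
      fun z => ∑ q, z.2 q * ev (DD p.1 p.2 (a3b_mon q)) z.1 := by
    funext z
    exact a3b_ev _ _ _ _
  rw [h]
  refine continuousOn_finsetSum _ fun q _ => ContinuousOn.mul ?_ ?_
  · exact ((continuous_apply q).comp continuous_snd).continuousOn
  · have h1 : ContinuousOn (ev (DD p.1 p.2 (a3b_mon q))) BB :=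
      (continuousOn_ev _).mono BB_sub_disc
    exact h1.comp continuousOn_fst fun z hz => hz.1

theorem a3b_lower (D : ℕ) : ∃ δ : ℝ, 0 < δ ∧ ∀ (y : ℝ × ℝ) (c : Cf D), y ∈ BB →
    (∀ p : Fin (D + 1) × Fin (D + 1) × Fin 2, (p.1 : ℕ) + p.2.1 ≤ 1 → (p.2.2 : ℕ) = 0 → c p = 0) →
    δ * ‖c‖ ≤ a3b_Phi (y, c) := by
  set T : Set (Cf D) := {c | ∀ p : Fin (D + 1) × Fin (D + 1) × Fin 2,
    (p.1 : ℕ) + p.2.1 ≤ 1 → (p.2.2 : ℕ) = 0 → c p = 0} with hT
  have hTc : IsClosed T := by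
    rw [hT]
    simp only [Set.ofPred_forall]
    refine isClosed_iInter fun p => isClosed_iInter fun _ => isClosed_iInter fun _ => ?_
    exact isClosed_eq (continuous_apply p) continuous_const
  set S : Set (Cf D) := Metric.sphere 0 1 ∩ T with hS
  have hSc : IsCompact S := (isCompact_sphere 0 1).inter_right hTc
  have hK : IsCompact (BB ×ˢ S) := isCompact_BB.prod hSc
  obtain ⟨δ, hδ, hmin⟩ : ∃ δ : ℝ, 0 < δ ∧ ∀ z ∈ BB ×ˢ S, δ ≤ a3b_Phi z := by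
    by_cases hne : (BB ×ˢ S).Nonempty
    · obtain ⟨z, hz, hz'⟩ := hK.exists_isMinOn hne (a3b_cont S)
      refine ⟨a3b_Phi z, ?_, fun w hw => hz' hw⟩
      refine lt_of_le_of_ne (a3b_Phi_nonneg z) fun h0 => ?_
      have h1 := (Finset.sum_eq_zero_iff_of_nonneg (fun p _ => abs_nonneg _)).1 h0.symm
      have h2 := vanish D z.2 z.1 hz.1 hz.2.2 fun a b hab hab' => by
        have h3 := h1 (a, b) (a3b_memF.2 ⟨hab, hab'⟩)
        exact abs_eq_zero.1 h3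
      have h4 : ‖z.2‖ = 1 := by
        have := hz.2.1
        rwa [mem_sphere_zero_iff_norm] at this
      rw [h2, norm_zero] at h4
      exact absurd h4 zero_ne_one
    · exact ⟨1, one_pos, fun w hw => absurd ⟨w, hw⟩ hne⟩
  refine ⟨δ, hδ, fun y c hy hc => ?_⟩
  by_cases h0 : c = 0
  · rw [h0, norm_zero, mul_zero]
    exact a3b_Phi_nonneg _
  · have hn : 0 < ‖c‖ := norm_pos_iff.2 h0
    have h1 : (y, ‖c‖⁻¹ • c) ∈ BB ×ˢ S := by
      refine ⟨hy, ?_, ?_⟩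
      · rw [mem_sphere_zero_iff_norm]
        show ‖‖c‖⁻¹ • c‖ = 1
        rw [norm_smul, norm_inv, norm_norm, inv_mul_cancel₀ hn.ne']
      · intro p hp hp'
        show (‖c‖⁻¹ • c) p = 0
        rw [Pi.smul_apply, hc p hp hp', smul_zero]
    have h2 := hmin _ h1
    rw [a3b_Phi_smul, abs_of_pos (inv_pos.2 hn), inv_mul_eq_div, le_div_iff₀ hn] at h2
    exact h2

theorem a3b_upper (D : ℕ) : ∃ K : ℝ, 0 ≤ K ∧ ∀ (y : ℝ × ℝ) (c : Cf D), y ∈ BB →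
    ∀ a b : ℕ, a + b ≤ JJ D + 1 → |ev (DD a b (qq c)) y| ≤ K * ‖c‖ := by
  choose k hk0 hk using ev_bdd
  refine ⟨∑ q ∈ Finset.range (JJ D + 2) ×ˢ Finset.range (JJ D + 2),
    ∑ p : Fin (D + 1) × Fin (D + 1) × Fin 2, k (DD q.1 q.2 (a3b_mon p)), ?_, ?_⟩
  · exact Finset.sum_nonneg fun q _ => Finset.sum_nonneg fun p _ => (hk0 _).le
  · intro y c hy a b hab
    have h1 : |ev (DD a b (qq c)) y| ≤
        (∑ p : Fin (D + 1) × Fin (D + 1) × Fin 2, k (DD a b (a3b_mon p))) * ‖c‖ := by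
      rw [a3b_ev, Finset.sum_mul]
      refine (Finset.abs_sum_le_sum_abs _ _).trans (Finset.sum_le_sum fun p _ => ?_)
      rw [abs_mul, mul_comm]
      have h2 : |c p| ≤ ‖c‖ := by
        have := norm_le_pi_norm c p
        rwa [Real.norm_eq_abs] at this
      exact mul_le_mul (hk _ y hy) h2 (abs_nonneg _) (hk0 _).le
    refine h1.trans (mul_le_mul_of_nonneg_right ?_ (norm_nonneg _))
    have h3 : ((a, b) : ℕ × ℕ) ∈ Finset.range (JJ D + 2) ×ˢ Finset.range (JJ D + 2) := by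
      rw [Finset.mem_product, Finset.mem_range, Finset.mem_range]
      exact ⟨by show a < _; omega, by show b < _; omega⟩
    exact Finset.single_le_sum (f := fun q : ℕ × ℕ =>
        ∑ p : Fin (D + 1) × Fin (D + 1) × Fin 2, k (DD q.1 q.2 (a3b_mon p)))
      (fun q _ => Finset.sum_nonneg fun p _ => (hk0 _).le) h3

theorem norm_equiv (D : ℕ) : ∃ K : ℝ, 0 < K ∧ ∀ (c : Cf D) (y y' : ℝ × ℝ), y ∈ BB → y' ∈ BB →
    ∀ (M : ℝ), (∀ a b : ℕ, 2 ≤ a + b → a + b ≤ JJ D → |ev (DD a b (qq c)) y| ≤ M) →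
    ∀ a b : ℕ, 2 ≤ a + b → a + b ≤ JJ D + 1 → |ev (DD a b (qq c)) y'| ≤ K * M := by
  obtain ⟨δ, hδ, hlow⟩ := a3b_lower D
  obtain ⟨K, hK, hup⟩ := a3b_upper D
  refine ⟨K / δ * (a3b_F D).card + 1, by positivity, ?_⟩
  intro c y y' hy hy' M hM a b hab hab'
  have hM0 : 0 ≤ M := by
    have h1 := hM 2 0 (le_refl _) (by unfold JJ; omega)
    exact (abs_nonneg _).trans h1
  have h1 := hup y' (a3b_cz c) hy' a b hab'
  rw [a3b_ev_cz a b hab] at h1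
  have h2 := hlow y (a3b_cz c) hy fun p hp hp' => by
    unfold a3b_cz
    rw [if_pos ⟨hp, hp'⟩]
  have h3 : a3b_Phi (y, a3b_cz c) ≤ (a3b_F D).card * M := by
    unfold a3b_Phi
    rw [← nsmul_eq_mul]
    refine Finset.sum_le_card_nsmul _ _ _ fun p hp => ?_
    have hp' := a3b_memF.1 hp
    show |ev (DD p.1 p.2 (qq (a3b_cz c))) y| ≤ M
    rw [a3b_ev_cz p.1 p.2 hp'.1]
    exact hM _ _ hp'.1 hp'.2
  have h4 : ‖a3b_cz c‖ ≤ (a3b_F D).card * M / δ := by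
    rw [le_div_iff₀ hδ, mul_comm]
    exact h2.trans h3
  have h5 : K * ‖a3b_cz c‖ ≤ K * ((a3b_F D).card * M / δ) := mul_le_mul_of_nonneg_left h4 hK
  have h6 : K * ((a3b_F D).card * M / δ) = K / δ * (a3b_F D).card * M := by ring
  rw [add_mul, one_mul]
  linarith

end Pool.Agent.PPH
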