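import Pool.Agent.PPH.A3b

/-!
ROW A4a (0.3 h). `qt_eq`: qt c t = qq c' (c' = c with t added at the index (0,0,1)).
ROW A4 (0.8 h). `loc_const`. With q = qt c t = qq c'. Put v = y' - y, |v.i| ≤ 2/R, J = JJ D. Let 2 ≤ n = a+b ≤ J, f = DD a b q, h(r) = ev f (y + r v), r ∈ [0,1]
 (the segment is in BB by convexity, BB ⊆ disc). By hasDerivAt_Dv the i-th derivative of h is ev (Dv v i f)(y + r v), and
 |ev (Dv v i f) z| ≤ Σ_l choose(i,l) (2/R)^i sup |ev (DD (a+i-l) (b+l) q) z| = (4/R)^i sup. For i ≤ J - n at z = y: ≤ 4^i ε R^n.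
 For i = J-n+1 (all z in BB): norm_equiv with M = ε R^J (R ≥ 1) gives ≤ (4/R)^i K ε R^J = 4^i K ε R^(n-1) ≤ 4^i K ε R^n.
 Taylor with Lagrange remainder (taylor_mean_remainder_lagrange, or induct: |h^(i)| on [0,1] ≤ |h^(i)(0)| + sup|h^(i+1)|, mean value inequality, from i = J-n down to 0:
 simplest!) gives |h(1)| ≤ Σ_{i ≤ J-n} 4^i ε R^n + 4^(J+1) K ε R^n ≤ C1 ε R^n.
-/

namespace Pool.Agent.PPH

open MeasureTheory Set MvPolynomial
open scoped ENNReal Real

theorem qt_eq {D : ℕ} (c : Cf D) (t : ℝ) : ∃ c' : Cf D, qt c t = qq c' := by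
  classical
  refine ⟨fun p => c p + if p = (0, 0, 1) then t else 0, ?_⟩
  unfold qt qq
  have h : ∀ p : Fin (D + 1) × Fin (D + 1) × Fin 2,
      (C (c p + if p = (0, 0, 1) then t else 0) : RR) *
        (X 0 ^ (p.1 : ℕ) * X 1 ^ (p.2.1 : ℕ) * X 2 ^ (p.2.2 : ℕ)) =
      C (c p) * (X 0 ^ (p.1 : ℕ) * X 1 ^ (p.2.1 : ℕ) * X 2 ^ (p.2.2 : ℕ)) +
        (if p = (0, 0, 1) then C t * X 2 else 0) := by
    intro p
    split_ifs with hp
    · subst hp
      simp [add_mul]
    · simp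
  rw [Finset.sum_congr rfl fun p _ => h p, Finset.sum_add_distrib]
  simp

lemma Dv_bd (v : ℝ × ℝ) (ρ : ℝ) (h1 : |v.1| ≤ ρ) (h2 : |v.2| ≤ ρ) (i : ℕ) (f : RR)
    (z : ℝ × ℝ) (S : ℝ) (hS : 0 ≤ S) (h : ∀ l ≤ i, |ev (DD (i - l) l f) z| ≤ S) :
    |ev (Dv v i f) z| ≤ (2 * ρ) ^ i * S := by
  have hρ : 0 ≤ ρ := (abs_nonneg _).trans h1
  rw [Dv, ev_sum]
  calc |∑ l ∈ Finset.range (i + 1), ev (C ((i.choose l : ℝ) * v.1 ^ (i - l) * v.2 ^ l) * DD (i - l) l f) z|
      ≤ ∑ l ∈ Finset.range (i + 1),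
          |ev (C ((i.choose l : ℝ) * v.1 ^ (i - l) * v.2 ^ l) * DD (i - l) l f) z| :=
        Finset.abs_sum_le_sum_abs _ _
    _ ≤ ∑ l ∈ Finset.range (i + 1), (i.choose l : ℝ) * (ρ ^ i * S) := by
        refine Finset.sum_le_sum fun l hl => ?_
        have hl' : l ≤ i := by
          have := Finset.mem_range.1 hl
          omega
        rw [ev_mul, ev_C, abs_mul, abs_mul, abs_mul, abs_of_nonneg (Nat.cast_nonneg _), abs_pow,
          abs_pow, mul_assoc, mul_assoc]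
        refine mul_le_mul_of_nonneg_left ?_ (Nat.cast_nonneg _)
        rw [← mul_assoc]
        refine mul_le_mul ?_ (h l hl') (abs_nonneg _) (by positivity)
        calc |v.1| ^ (i - l) * |v.2| ^ l ≤ ρ ^ (i - l) * ρ ^ l :=
              mul_le_mul (pow_le_pow_left₀ (abs_nonneg _) h1 _)
                (pow_le_pow_left₀ (abs_nonneg _) h2 _) (by positivity) (by positivity)
          _ = ρ ^ i := by rw [← pow_add, Nat.sub_add_cancel hl']
    _ = (2 * ρ) ^ i * S := by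
        rw [← Finset.sum_mul, mul_pow, mul_assoc]
        congr 1
        exact_mod_cast Nat.sum_range_choose i

theorem loc_const (D : ℕ) : ∃ C1 : ℝ, 1 ≤ C1 ∧ ∀ (c : Cf D) (t R ε : ℝ), 1 ≤ R → 0 < ε →
    ∀ y y' : ℝ × ℝ, y ∈ BB → y' ∈ BB → |y'.1 - y.1| ≤ 2 / R → |y'.2 - y.2| ≤ 2 / R →
    Bd D ε R (qt c t) y → Bd D (C1 * ε) R (qt c t) y' := by
  obtain ⟨K, hK, hne⟩ := norm_equiv D
  set J := JJ D with hJ
  refine ⟨1 + ((J : ℝ) + 1) * 4 ^ (J + 1) + 4 ^ (J + 1) * K, ?_, ?_⟩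
  · have : 0 ≤ ((J : ℝ) + 1) * 4 ^ (J + 1) + 4 ^ (J + 1) * K := by positivity
    linarith
  intro c t R ε hR hε y y' hy hy' h1 h2 hB
  obtain ⟨c', hc'⟩ := qt_eq c t
  rw [hc'] at hB ⊢
  have hR0 : 0 < R := by linarith
  have hM : ∀ a b : ℕ, 2 ≤ a + b → a + b ≤ J → |ev (DD a b (qq c')) y| ≤ ε * R ^ J := by
    intro a b hab hab'
    refine (hB a b hab hab').trans ?_
    exact mul_le_mul_of_nonneg_left (pow_le_pow_right₀ hR hab') hε.le
  intro a b hab hab'
  set n := a + b with hn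
  set f := DD a b (qq c') with hf
  set v : ℝ × ℝ := (y'.1 - y.1, y'.2 - y.2) with hv
  have hseg : ∀ r ∈ Icc (0 : ℝ) 1, (y.1 + r * v.1, y.2 + r * v.2) ∈ BB := by
    intro r hr
    have := convex_BB.add_smul_sub_mem hy hy' hr
    have e : (y.1 + r * v.1, y.2 + r * v.2) = y + r • (y' - y) := by
      ext <;> simp [hv]
    rw [e]
    exact this
  -- main claim
  have hm : J - n + 1 + n = J + 1 := by omega
  have claim : ∀ j ≤ J - n + 1, ∀ r ∈ Icc (0 : ℝ) 1,
      |ev (Dv v (J - n + 1 - j) f) (y.1 + r * v.1, y.2 + r * v.2)| ≤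
        ((j : ℝ) * 4 ^ (J + 1) + 4 ^ (J + 1) * K) * (ε * R ^ n) := by
    intro j
    induction j with
    | zero =>
      intro _ r hr
      rw [Nat.sub_zero]
      have hb := Dv_bd v (2 / R) h1 h2 (J - n + 1) f (y.1 + r * v.1, y.2 + r * v.2)
        (K * (ε * R ^ J)) (by positivity) (by
          intro l hl
          rw [hf, DD_DD]
          exact hne c' y _ hy (hseg r hr) (ε * R ^ J) hM _ _ (by omega) (by omega))
      refine hb.trans ?_
      have e1 : (2 * (2 / R)) ^ (J - n + 1) * (K * (ε * R ^ J)) =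
          4 ^ (J - n + 1) * K * (ε * R ^ (n - 1)) := by
        have e2 : R ^ J = R ^ (J - n + 1) * R ^ (n - 1) := by
          rw [← pow_add]
          congr 1
          omega
        rw [e2, show (2 * (2 / R)) = 4 / R by ring, div_pow]
        field_simp
      rw [e1]
      have h4 : (4 : ℝ) ^ (J - n + 1) ≤ 4 ^ (J + 1) := pow_le_pow_right₀ (by norm_num) (by omega)
      have h5 : R ^ (n - 1) ≤ R ^ n := pow_le_pow_right₀ hR (by omega)
      calc (4 : ℝ) ^ (J - n + 1) * K * (ε * R ^ (n - 1))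
          ≤ 4 ^ (J + 1) * K * (ε * R ^ n) := by gcongr
        _ = _ := by simp
    | succ j ih =>
      intro hj r hr
      have ih' := ih (by omega)
      have hi : J - n + 1 - j = (J - n + 1 - (j + 1)) + 1 := by omega
      set i := J - n + 1 - (j + 1) with hidef
      rw [hi] at ih'
      have h0 : |ev (Dv v i f) y| ≤ 4 ^ (J + 1) * (ε * R ^ n) := by
        have hb := Dv_bd v (2 / R) h1 h2 i f y (ε * R ^ (i + n)) (by positivity) (by
          intro l hl
          rw [hf, DD_DD]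
          have := hB (i - l + a) (l + b) (by omega) (by omega)
          refine this.trans (le_of_eq ?_)
          congr 2
          omega)
        refine hb.trans ?_
        have e1 : (2 * (2 / R)) ^ i * (ε * R ^ (i + n)) = 4 ^ i * (ε * R ^ n) := by
          rw [show (2 * (2 / R)) = 4 / R by ring, div_pow, pow_add]
          field_simp
        rw [e1]
        have h4 : (4 : ℝ) ^ i ≤ 4 ^ (J + 1) := pow_le_pow_right₀ (by norm_num) (by omega)
        gcongr
      have hmv := norm_image_sub_le_of_norm_deriv_le_segment'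
        (f := fun r : ℝ => ev (Dv v i f) (y.1 + r * v.1, y.2 + r * v.2))
        (f' := fun r : ℝ => ev (Dv v (i + 1) f) (y.1 + r * v.1, y.2 + r * v.2))
        (a := 0) (b := 1) (C := ((j : ℝ) * 4 ^ (J + 1) + 4 ^ (J + 1) * K) * (ε * R ^ n))
        (fun x hx => (hasDerivAt_Dv f y v i x (BB_sub_disc (hseg x hx))).hasDerivWithinAt)
        (fun x hx => by
          rw [Real.norm_eq_abs]
          exact ih' x (Ico_subset_Icc_self hx)) r hr
      rw [Real.norm_eq_abs] at hmv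
      simp only [zero_mul, add_zero, sub_zero] at hmv
      have hB0 : 0 ≤ ((j : ℝ) * 4 ^ (J + 1) + 4 ^ (J + 1) * K) * (ε * R ^ n) := by positivity
      have h3 : |ev (Dv v i f) (y.1 + r * v.1, y.2 + r * v.2)| ≤
          |ev (Dv v i f) (y.1 + r * v.1, y.2 + r * v.2) - ev (Dv v i f) (y.1, y.2)| +
            |ev (Dv v i f) y| := by
        have := abs_add_le (ev (Dv v i f) (y.1 + r * v.1, y.2 + r * v.2) - ev (Dv v i f) (y.1, y.2))
          (ev (Dv v i f) y)
        simpa using this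
      have h5 : ((j : ℝ) * 4 ^ (J + 1) + 4 ^ (J + 1) * K) * (ε * R ^ n) * r ≤
          ((j : ℝ) * 4 ^ (J + 1) + 4 ^ (J + 1) * K) * (ε * R ^ n) :=
        mul_le_of_le_one_right hB0 hr.2
      push_cast
      nlinarith
  have hfin := claim (J - n + 1) le_rfl 1 ⟨zero_le_one, le_rfl⟩
  rw [Nat.sub_self, Dv_zero] at hfin
  have e : (y.1 + 1 * v.1, y.2 + 1 * v.2) = y' := by
    ext <;> simp [hv]
  rw [e] at hfin
  refine hfin.trans ?_
  have hcast : ((J - n + 1 : ℕ) : ℝ) ≤ (J : ℝ) + 1 := by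
    have : J - n + 1 ≤ J + 1 := by omega
    exact_mod_cast this
  have hpos : 0 ≤ ε * R ^ n := by positivity
  rw [mul_assoc]
  refine mul_le_mul_of_nonneg_right ?_ hpos
  have : ((J - n + 1 : ℕ) : ℝ) * 4 ^ (J + 1) ≤ ((J : ℝ) + 1) * 4 ^ (J + 1) := by gcongr
  linarith

end Pool.Agent.PPH
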