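import Pool.Agent.PPH.A1e

/-!
ROW A5 (0.7 h). Vandermonde. (Ds s)^[k] f = Σ_l C (choose k l * 1 * s^l) * DD (k-l) l f (Ds_iterate, Dv). The (k+1)×(k+1) matrix (s^l) is invertible
(Matrix.det_vandermonde_ne_zero_iff, injectivity of s : Fin (k+1) → ℝ), so with the inverse matrix W: choose k l * DD (k-l) l f = Σ_s W l s * (Ds s)^[k] f.
`vand`: if |ev (DD a b f) y| ≥ lam with a + b = k then for some s ≤ k: |ev ((Ds s)^[k] f) y| ≥ lam / K; K depends only on k (sum of all |W l s| + 1).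
-/

namespace Pool.Agent.PPH

open MeasureTheory Set MvPolynomial
open scoped ENNReal Real

theorem vand (k : ℕ) : ∃ K : ℝ, 0 < K ∧ ∀ (f : RR) (y : ℝ × ℝ) (a b : ℕ), a + b = k → ∀ lam : ℝ, 0 ≤ lam →
    lam ≤ |ev (DD a b f) y| → ∃ s ≤ k, lam / K ≤ |ev ((Ds s)^[k] f) y| := by
  set V : Matrix (Fin (k + 1)) (Fin (k + 1)) ℝ :=
    Matrix.vandermonde (fun s : Fin (k + 1) => ((s : ℕ) : ℝ)) with hV
  have hdet : V.det ≠ 0 := by
    rw [hV, Matrix.det_vandermonde_ne_zero_iff]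
    intro s t h
    have h' : ((s : ℕ) : ℝ) = ((t : ℕ) : ℝ) := h
    exact Fin.ext (Nat.cast_injective h')
  have hunit : IsUnit V.det := isUnit_iff_ne_zero.2 hdet
  have hK0 : 0 ≤ ∑ l, ∑ s, |V⁻¹ l s| :=
    Finset.sum_nonneg fun l _ => Finset.sum_nonneg fun s _ => abs_nonneg _
  refine ⟨(∑ l, ∑ s, |V⁻¹ l s|) + 1, by linarith, ?_⟩
  intro f y a b hab lam hlam hle
  set K := (∑ l, ∑ s, |V⁻¹ l s|) + 1 with hK
  have hKpos : 0 < K := by linarith
  rcases hlam.eq_or_lt with h0 | hpos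
  · refine ⟨0, Nat.zero_le _, ?_⟩
    rw [← h0, zero_div]
    exact abs_nonneg _
  by_contra hcon
  push Not at hcon
  set x : Fin (k + 1) → ℝ := fun l => (k.choose l : ℝ) * ev (DD (k - l) l f) y with hx
  set B : Fin (k + 1) → ℝ := fun s => ev ((Ds (s : ℕ))^[k] f) y with hB
  have hmul : V.mulVec x = B := by
    funext s
    simp only [Matrix.mulVec, dotProduct, hx, hB, hV, Matrix.vandermonde_apply]
    rw [Ds_iterate, Dv, ev_sum, Finset.sum_range]
    refine Finset.sum_congr rfl fun l _ => ?_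
    rw [ev_mul, ev_C]
    simp only [one_pow, mul_one]
    ring
  have hinv : x = V⁻¹.mulVec B := by
    rw [← hmul, Matrix.mulVec_mulVec, Matrix.nonsing_inv_mul _ hunit, Matrix.one_mulVec]
  have hb : b < k + 1 := by omega
  have hxb : x ⟨b, hb⟩ = ∑ s, V⁻¹ ⟨b, hb⟩ s * B s := by
    conv_lhs => rw [hinv]
    rfl
  have hlow : lam ≤ |x ⟨b, hb⟩| := by
    simp only [hx]
    have hkb : k - b = a := by omega
    rw [hkb, abs_mul]
    have hch : (1 : ℝ) ≤ |(k.choose b : ℝ)| := by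
      rw [abs_of_nonneg (Nat.cast_nonneg _)]
      exact_mod_cast Nat.choose_pos (by omega : b ≤ k)
    calc lam ≤ |ev (DD a b f) y| := hle
      _ = 1 * |ev (DD a b f) y| := (one_mul _).symm
      _ ≤ _ := mul_le_mul_of_nonneg_right hch (abs_nonneg _)
  have hup : |x ⟨b, hb⟩| ≤ (K - 1) * (lam / K) := by
    rw [hxb]
    calc |∑ s, V⁻¹ ⟨b, hb⟩ s * B s| ≤ ∑ s, |V⁻¹ ⟨b, hb⟩ s * B s| := Finset.abs_sum_le_sum_abs _ _
      _ ≤ ∑ s, |V⁻¹ ⟨b, hb⟩ s| * (lam / K) := by
          refine Finset.sum_le_sum fun s _ => ?_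
          rw [abs_mul]
          refine mul_le_mul_of_nonneg_left ?_ (abs_nonneg _)
          exact (hcon s (by omega)).le
      _ = (∑ s, |V⁻¹ ⟨b, hb⟩ s|) * (lam / K) := by rw [Finset.sum_mul]
      _ ≤ (K - 1) * (lam / K) := by
          refine mul_le_mul_of_nonneg_right ?_ (by positivity)
          rw [hK, add_sub_cancel_right]
          exact Finset.single_le_sum (f := fun l => ∑ s, |V⁻¹ l s|)
            (fun l _ => Finset.sum_nonneg fun s _ => abs_nonneg _) (Finset.mem_univ _)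
  have : (K - 1) * (lam / K) < lam := by
    rw [mul_div_assoc', div_lt_iff₀ hKpos]
    nlinarith
  linarith

end Pool.Agent.PPH
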