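import Pool.Agent.PPH.A0
import Pool.Agent.PPH.A1d

/-!
ROW A6a (0.6 h). The Hessian of psi on BB. psi_11 = -(1/ψ) - y1²/ψ³, psi_12 = -y1 y2/ψ³, psi_22 = -(1/ψ) - y2²/ψ³ (compute DD 2 0 (X 2) etc. in RR with
 Derivation.leibniz, mkDerivation_X, then ev; ψ ∈ [9/10, 1], |y|² ≤ 1/8 on BB).
 So with h = psi_11, k = psi_12, l = psi_22: h ≤ -1, l ≤ -1, (h+1)(l+1) ≥ k² (1/ψ ≥ 1: (h+1)(l+1) = (u + y1²/ψ³)(u + y2²/ψ³) with u = 1/ψ - 1 ≥ 0 minus...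
 = u² + u|y|²/ψ³ + y1²y2²/ψ⁶ ≥ k²), |h|,|k|,|l| ≤ 2, h l - k² ≥ 1 (h l = (h+1)(l+1) - (h+1) - (l+1) + 1 ≥ k² + 1) and h l - k² ≤ 4.
-/

namespace Pool.Agent.PPH

open MeasureTheory Set MvPolynomial
open scoped ENNReal Real

theorem hess_psi {y : ℝ × ℝ} (hy : y ∈ BB) :
    ev (DD 2 0 (X 2)) y ≤ -1 ∧ ev (DD 0 2 (X 2)) y ≤ -1 ∧
    ev (DD 1 1 (X 2)) y ^ 2 ≤ (ev (DD 2 0 (X 2)) y + 1) * (ev (DD 0 2 (X 2)) y + 1) ∧
    |ev (DD 2 0 (X 2)) y| ≤ 2 ∧ |ev (DD 1 1 (X 2)) y| ≤ 2 ∧ |ev (DD 0 2 (X 2)) y| ≤ 2 ∧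
    1 ≤ ev (DD 2 0 (X 2)) y * ev (DD 0 2 (X 2)) y - ev (DD 1 1 (X 2)) y ^ 2 ∧
    ev (DD 2 0 (X 2)) y * ev (DD 0 2 (X 2)) y - ev (DD 1 1 (X 2)) y ^ 2 ≤ 4 := by
  obtain ⟨hp1, hp2⟩ := BB_psi hy
  have hsq := BB_sq hy
  have hpos : 0 < psi y := by linarith
  obtain ⟨v, hv⟩ : ∃ v : ℝ, v = 1 / psi y := ⟨_, rfl⟩
  have hv1 : 1 ≤ v := by
    rw [hv, le_div_iff₀ hpos]
    linarith
  have hv2 : v ≤ 10 / 9 := by
    rw [hv, div_le_iff₀ hpos]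
    linarith
  obtain ⟨w, hw⟩ : ∃ w : ℝ, w = v ^ 3 := ⟨_, rfl⟩
  have hw0 : 0 ≤ w := by
    rw [hw]
    positivity
  have hw1 : w ≤ 2 := by
    rw [hw]
    exact (pow_le_pow_left₀ (by linarith) hv2 3).trans (by norm_num)
  have d10 : D1 (X 0) = 1 := by simp [D1, mkDerivation_X]
  have d11 : D1 (X 1) = 0 := by simp [D1, mkDerivation_X]
  have d12 : D1 (X 2) = -(X 0 * X 3) := by simp [D1, mkDerivation_X]
  have d13 : D1 (X 3) = X 0 * X 3 ^ 3 := by simp [D1, mkDerivation_X]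
  have d21 : D2 (X 1) = 1 := by simp [D2, mkDerivation_X]
  have d22 : D2 (X 2) = -(X 1 * X 3) := by simp [D2, mkDerivation_X]
  have d23 : D2 (X 3) = X 1 * X 3 ^ 3 := by simp [D2, mkDerivation_X]
  have e20 : ev (DD 2 0 (X 2)) y = -v - y.1 ^ 2 * w := by
    show ev (D1 (D1 (X 2))) y = _
    rw [d12, map_neg, Derivation.leibniz, d10, d13, smul_eq_mul, smul_eq_mul, ev_neg, ev_add,
      ev_mul, ev_mul, ev_mul, ev_pow, ev_X0, ev_X3, ← hv, hw]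
    have : ev (1 : RR) y = 1 := by simp [ev]
    rw [this]
    ring
  have e11 : ev (DD 1 1 (X 2)) y = -(y.1 * y.2 * w) := by
    show ev (D1 (D2 (X 2))) y = _
    rw [d22, map_neg, Derivation.leibniz, d11, d13, smul_eq_mul, smul_eq_mul, mul_zero, add_zero,
      ev_neg, ev_mul, ev_mul, ev_pow, ev_X0, ev_X1, ev_X3, ← hv, hw]
    ring
  have e02 : ev (DD 0 2 (X 2)) y = -v - y.2 ^ 2 * w := by
    show ev (D2 (D2 (X 2))) y = _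
    rw [d22, map_neg, Derivation.leibniz, d21, d23, smul_eq_mul, smul_eq_mul, ev_neg, ev_add,
      ev_mul, ev_mul, ev_mul, ev_pow, ev_X1, ev_X3, ← hv, hw]
    have : ev (1 : RR) y = 1 := by simp [ev]
    rw [this]
    ring
  rw [e20, e11, e02]
  obtain ⟨p, hp⟩ : ∃ p : ℝ, p = y.1 ^ 2 := ⟨_, rfl⟩
  obtain ⟨q, hq⟩ : ∃ q : ℝ, q = y.2 ^ 2 := ⟨_, rfl⟩
  have hp0 : 0 ≤ p := by rw [hp]; positivity
  have hq0 : 0 ≤ q := by rw [hq]; positivity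
  rw [← hp, ← hq] at hsq
  have hk : (-(y.1 * y.2 * w)) ^ 2 = p * w * (q * w) := by
    rw [hp, hq]
    ring
  rw [hk, ← hp, ← hq]
  have hpw0 : 0 ≤ p * w := mul_nonneg hp0 hw0
  have hqw0 : 0 ≤ q * w := mul_nonneg hq0 hw0
  have hpw : p * w ≤ 1 / 4 := by
    calc p * w ≤ (1 / 8) * 2 := mul_le_mul (by linarith) hw1 hw0 (by norm_num)
      _ = 1 / 4 := by norm_num
  have hqw : q * w ≤ 1 / 4 := by
    calc q * w ≤ (1 / 8) * 2 := mul_le_mul (by linarith) hw1 hw0 (by norm_num)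
      _ = 1 / 4 := by norm_num
  obtain ⟨P, hP⟩ : ∃ P : ℝ, P = p * w := ⟨_, rfl⟩
  obtain ⟨Q, hQ⟩ : ∃ Q : ℝ, Q = q * w := ⟨_, rfl⟩
  have hk2 : |-(y.1 * y.2 * w)| ≤ 2 := by
    apply abs_le_of_sq_le_sq
    · rw [hk]
      calc p * w * (q * w) ≤ 1 / 4 * (1 / 4) := mul_le_mul hpw hqw hqw0 (by norm_num)
        _ ≤ 2 ^ 2 := by norm_num
    · norm_num
  rw [← hP] at hpw0 hpw ⊢
  rw [← hQ] at hqw0 hqw ⊢
  have hvv : 0 ≤ v - 1 := by linarith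
  refine ⟨by linarith, by linarith, ?_, ?_, hk2, ?_, ?_, ?_⟩
  · have h1 : (-v - P + 1) * (-v - Q + 1) = (v - 1) ^ 2 + (v - 1) * (P + Q) + P * Q := by ring
    rw [h1]
    have h2 : 0 ≤ (v - 1) * (P + Q) := mul_nonneg hvv (by linarith)
    have h3 : 0 ≤ (v - 1) ^ 2 := sq_nonneg _
    linarith
  · rw [abs_le]
    constructor <;> linarith
  · rw [abs_le]
    constructor <;> linarith
  · have h1 : (-v - P) * (-v - Q) - P * Q = v ^ 2 + v * (P + Q) := by ring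
    rw [h1]
    have h2 : 0 ≤ v * (P + Q) := mul_nonneg (by linarith) (by linarith)
    have h3 : 1 ≤ v ^ 2 := one_le_pow₀ hv1
    linarith
  · have h1 : (-v - P) * (-v - Q) - P * Q = v ^ 2 + v * (P + Q) := by ring
    rw [h1]
    have h2 : v * (P + Q) ≤ 10 / 9 * (1 / 2) :=
      mul_le_mul hv2 (by linarith) (by linarith) (by norm_num)
    have h3 : v ^ 2 ≤ (10 / 9) ^ 2 := pow_le_pow_left₀ (by linarith) hv2 2
    norm_num at h2 h3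
    linarith

end Pool.Agent.PPH
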