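import Pool.Agent.PPH.A0
import Pool.Agent.PPH.A1d

/-!
ROW A6b (0.8 h). `leib`: at a point y, let G be bounded: |ev (DD a b g) y| ≤ K for all a+b ≤ n, and |ev (DD a b f) y| ≤ M R^(w + a + b) for a+b ≤ n-1,
 where 1 ≤ R. Then |ev (DD a b (f*g)) y - ev g y * ev (DD a b f) y| ≤ 2^n K M R^(w+n-1) for a+b = n (n ≥ 1).
 Proof: Leibniz DD a b (f g) = Σ_{i≤a, j≤b} choose(a,i) choose(b,j) DD i j f * DD (a-i) (b-j) g, or by induction via two lemmas; the terms other than (i,j) = (a,b) have i+j ≤ n-1,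
 Σ choose·choose = 2^n.
-/

namespace Pool.Agent.PPH

open MeasureTheory Set MvPolynomial
open scoped ENNReal Real

private lemma a6b_iter (D : Derivation ℝ RR RR) (n : ℕ) (f g : RR) :
    D^[n] (f * g) = ∑ p ∈ Finset.HasAntidiagonal.antidiagonal n, (n.choose p.1) • (D^[p.1] f * D^[p.2] g) := by
  induction n with
  | zero => simp
  | succ n ih =>
    rw [Function.iterate_succ_apply', ih, map_sum,
      Finset.sum_antidiagonal_choose_succ_nsmul (fun i j => D^[i] f * D^[j] g),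
      ← Finset.sum_add_distrib]
    apply Finset.sum_congr rfl
    intro p hp
    have hpn : n = p.1 + p.2 := (Finset.HasAntidiagonal.mem_antidiagonal.1 hp).symm
    rw [map_nsmul, D.leibniz, nsmul_add, ← Nat.choose_symm_of_eq_add hpn,
      Function.iterate_succ_apply', Function.iterate_succ_apply']
    simp only [smul_eq_mul]
    rw [mul_comm (D^[p.2] g)]

private lemma a6b_DD (a b : ℕ) (f g : RR) :
    DD a b (f * g) = ∑ p ∈ Finset.HasAntidiagonal.antidiagonal a ×ˢ Finset.HasAntidiagonal.antidiagonal b,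
      (a.choose p.1.1 * b.choose p.2.1) • (DD p.1.1 p.2.1 f * DD p.1.2 p.2.2 g) := by
  unfold DD
  rw [a6b_iter D2, Finset.sum_product_right]
  have hsum : ∀ (s : Finset (ℕ × ℕ)) (F : ℕ × ℕ → RR),
      D1^[a] (∑ i ∈ s, F i) = ∑ i ∈ s, D1^[a] (F i) := by
    intro s F
    have h : ∀ n : ℕ, D1^[n] (∑ i ∈ s, F i) = ∑ i ∈ s, D1^[n] (F i) := by
      intro n
      induction n with
      | zero => rfl
      | succ n ih =>
        rw [Function.iterate_succ_apply', ih, map_sum]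
        simp_rw [Function.iterate_succ_apply']
    exact h a
  have hns : ∀ (c : ℕ) (F : RR), D1^[a] (c • F) = c • D1^[a] F := by
    intro c F
    have h : ∀ n : ℕ, D1^[n] (c • F) = c • D1^[n] F := by
      intro n
      induction n with
      | zero => rfl
      | succ n ih => rw [Function.iterate_succ_apply', ih, map_nsmul, Function.iterate_succ_apply']
    exact h a
  rw [hsum]
  apply Finset.sum_congr rfl
  intro q hq
  rw [hns, a6b_iter D1, Finset.smul_sum]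
  apply Finset.sum_congr rfl
  intro p hp
  rw [smul_smul, mul_comm]

private lemma a6b_choose (a : ℕ) : ∑ p ∈ Finset.HasAntidiagonal.antidiagonal a, ((a.choose p.1 : ℕ) : ℝ) = 2 ^ a := by
  rw [Finset.Nat.sum_antidiagonal_eq_sum_range_succ_mk]
  have := Nat.sum_range_choose a
  exact_mod_cast this

theorem leib (n : ℕ) (hn : 1 ≤ n) (f g : RR) (y : ℝ × ℝ) (K M R : ℝ) (w : ℕ) (hR : 1 ≤ R)
    (hK : 0 ≤ K) (hM : 0 ≤ M)
    (hg : ∀ a b : ℕ, a + b ≤ n → |ev (DD a b g) y| ≤ K)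
    (hf : ∀ a b : ℕ, a + b + 1 ≤ n → |ev (DD a b f) y| ≤ M * R ^ (w + (a + b))) (a b : ℕ)
    (hab : a + b = n) :
    |ev (DD a b (f * g)) y - ev g y * ev (DD a b f) y| ≤ 2 ^ n * K * M * R ^ (w + (n - 1)) := by
  classical
  set S := Finset.HasAntidiagonal.antidiagonal a ×ˢ Finset.HasAntidiagonal.antidiagonal b with hS
  set p0 : (ℕ × ℕ) × (ℕ × ℕ) := ((a, 0), (b, 0)) with hp0
  have hp0S : p0 ∈ S := by
    rw [hS, Finset.mem_product]
    simp [hp0]
  have hev : ev (DD a b (f * g)) y = ∑ p ∈ S, ((a.choose p.1.1 : ℕ) : ℝ) * ((b.choose p.2.1 : ℕ) : ℝ) *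
      (ev (DD p.1.1 p.2.1 f) y * ev (DD p.1.2 p.2.2 g) y) := by
    rw [a6b_DD, ev_sum]
    apply Finset.sum_congr rfl
    intro p hp
    rw [← ev_mul, ← Nat.cast_smul_eq_nsmul ℝ, ev_smul]
    push_cast
    ring
  have h0 : ((a.choose p0.1.1 : ℕ) : ℝ) * ((b.choose p0.2.1 : ℕ) : ℝ) *
      (ev (DD p0.1.1 p0.2.1 f) y * ev (DD p0.1.2 p0.2.2 g) y) = ev g y * ev (DD a b f) y := by
    simp only [hp0, Nat.choose_self, Nat.cast_one, one_mul]
    rw [DD_zero, mul_comm]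
  rw [hev, ← Finset.add_sum_erase S _ hp0S, h0, add_sub_cancel_left]
  have hbound : ∀ p ∈ S.erase p0, |((a.choose p.1.1 : ℕ) : ℝ) * ((b.choose p.2.1 : ℕ) : ℝ) *
      (ev (DD p.1.1 p.2.1 f) y * ev (DD p.1.2 p.2.2 g) y)| ≤
      ((a.choose p.1.1 : ℕ) : ℝ) * ((b.choose p.2.1 : ℕ) : ℝ) * (M * R ^ (w + (n - 1)) * K) := by
    intro p hp
    rw [Finset.mem_erase, hS, Finset.mem_product, Finset.HasAntidiagonal.mem_antidiagonal,
      Finset.HasAntidiagonal.mem_antidiagonal] at hp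
    obtain ⟨hpne, h1, h2⟩ := hp
    have hlt : p.1.1 + p.2.1 + 1 ≤ n := by
      by_contra hcon
      apply hpne
      have e1 : p.1.1 = a := by omega
      have e2 : p.1.2 = 0 := by omega
      have e3 : p.2.1 = b := by omega
      have e4 : p.2.2 = 0 := by omega
      rw [hp0]
      ext <;> simp [e1, e2, e3, e4]
    rw [abs_mul, abs_of_nonneg (by positivity :
      (0:ℝ) ≤ ((a.choose p.1.1 : ℕ) : ℝ) * ((b.choose p.2.1 : ℕ) : ℝ)), abs_mul]
    apply mul_le_mul_of_nonneg_left _ (by positivity)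
    apply mul_le_mul _ (hg _ _ (by omega)) (abs_nonneg _) (by positivity)
    refine (hf _ _ hlt).trans ?_
    apply mul_le_mul_of_nonneg_left _ hM
    exact pow_le_pow_right₀ hR (by omega)
  calc |∑ p ∈ S.erase p0, ((a.choose p.1.1 : ℕ) : ℝ) * ((b.choose p.2.1 : ℕ) : ℝ) *
      (ev (DD p.1.1 p.2.1 f) y * ev (DD p.1.2 p.2.2 g) y)|
      ≤ ∑ p ∈ S.erase p0, |((a.choose p.1.1 : ℕ) : ℝ) * ((b.choose p.2.1 : ℕ) : ℝ) *
      (ev (DD p.1.1 p.2.1 f) y * ev (DD p.1.2 p.2.2 g) y)| := Finset.abs_sum_le_sum_abs _ _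
    _ ≤ ∑ p ∈ S.erase p0, ((a.choose p.1.1 : ℕ) : ℝ) * ((b.choose p.2.1 : ℕ) : ℝ) *
        (M * R ^ (w + (n - 1)) * K) := Finset.sum_le_sum hbound
    _ ≤ ∑ p ∈ S, ((a.choose p.1.1 : ℕ) : ℝ) * ((b.choose p.2.1 : ℕ) : ℝ) *
        (M * R ^ (w + (n - 1)) * K) := by
      apply Finset.sum_le_sum_of_subset_of_nonneg (Finset.erase_subset _ _)
      intro i _ _
      have : (0:ℝ) ≤ R := by linarith
      positivity
    _ = 2 ^ n * K * M * R ^ (w + (n - 1)) := by
      rw [← Finset.sum_mul, hS, Finset.sum_product]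
      simp_rw [← Finset.mul_sum]
      rw [a6b_choose, ← Finset.sum_mul, a6b_choose, ← pow_add, hab]
      ring

end Pool.Agent.PPH
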