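import Mathlib

/-!
ROW A6c (0.5 h). `lin_alg`, pure linear algebra: T_0..T_j the derivatives q_{j-i,i} of order j ≥ 3 (T i = ∂₁^{j-i}∂₂^i q). The hypotheses are, for i = 0..j-2:
 |l T_i - h T_{i+2}| ≤ η, |k T_i - h T_{i+1}| ≤ η. For each i ≤ j-3: h T_{i+1} = k T_i + O(η), h T_{i+2} = l T_i + O(η), h T_{i+2} = k T_{i+1} + O(η), h T_{i+3} = l T_{i+1} + O(η).
 So h² T_{i+2} = h k T_{i+1} + O(2η) = k² T_i + O(4η), h² T_{i+2} = h l T_i + O(2η): |(hl-k²) T_i| ≤ 6η+..., |T_i| ≤ 10 η for i ≤ j-3; then |T_{i+1}| ≤ (2·10+1)η ≤ 21 η·, |T_{i+2}| ≤ 21η·..,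
 |T_{i+3}| ≤ 50 η (use |h| ≥ 1, |k|,|l| ≤ 2).
-/

namespace Pool.Agent.PPH

open MeasureTheory Set MvPolynomial
open scoped ENNReal Real

theorem lin_alg (h k l η : ℝ) (hη : 0 ≤ η) (h1 : h ≤ -1) (h2 : |h| ≤ 2) (h3 : |k| ≤ 2) (h4 : |l| ≤ 2)
    (h5 : 1 ≤ h * l - k ^ 2) (j : ℕ) (hj : 3 ≤ j) (T : ℕ → ℝ)
    (e1 : ∀ i, i + 2 ≤ j → |l * T i - h * T (i + 2)| ≤ η)
    (e2 : ∀ i, i + 2 ≤ j → |k * T i - h * T (i + 1)| ≤ η) :
    ∀ i ≤ j, |T i| ≤ 100 * η := by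
  have hm : ∀ x y : ℝ, |x| ≤ 2 → |y| ≤ η → |x * y| ≤ 2 * η := by
    intro x y hx hy
    rw [abs_mul]
    exact mul_le_mul hx hy (abs_nonneg _) (by norm_num)
  have key : ∀ i, i + 3 ≤ j → |T i| ≤ 6 * η := by
    intro i hi
    have a1 := hm h _ h2 (e1 i (by omega))
    have b1 := hm k _ h3 (e2 i (by omega))
    have b2 := hm h _ h2 (e2 (i + 1) (by omega))
    have hid : (h * l - k ^ 2) * T i = h * (l * T i - h * T (i + 2)) -
        k * (k * T i - h * T (i + 1)) - h * (k * T (i + 1) - h * T (i + 1 + 1)) := by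
      have : T (i + 1 + 1) = T (i + 2) := rfl
      rw [this]
      ring
    have h6 : |(h * l - k ^ 2) * T i| ≤ 6 * η := by
      rw [hid]
      rw [abs_le] at a1 b1 b2 ⊢
      constructor <;> linarith [a1.1, a1.2, b1.1, b1.2, b2.1, b2.2]
    rw [abs_mul, abs_of_pos (by linarith : (0 : ℝ) < h * l - k ^ 2)] at h6
    nlinarith [abs_nonneg (T i)]
  have step : ∀ x t t' M : ℝ, |x| ≤ 2 → |x * t - h * t'| ≤ η → |t| ≤ M → |t'| ≤ 2 * M + η := by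
    intro x t t' M hx he ht
    have h6 : |x * t| ≤ 2 * M := by
      rw [abs_mul]
      exact mul_le_mul hx ht (abs_nonneg _) (by norm_num)
    have h7 : |h * t'| ≤ 2 * M + η := by
      rw [abs_le] at he h6 ⊢
      constructor <;> linarith [he.1, he.2, h6.1, h6.2]
    rw [abs_mul, abs_of_neg (by linarith : h < 0)] at h7
    nlinarith [abs_nonneg t']
  intro i hi
  obtain ⟨m, rfl⟩ : ∃ m, j = m + 3 := ⟨j - 3, by omega⟩
  have k0 := key m le_rfl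
  have k1 : |T (m + 1)| ≤ 2 * (6 * η) + η := step k (T m) (T (m + 1)) _ h3 (e2 m (by omega)) k0
  have k2 : |T (m + 2)| ≤ 2 * (6 * η) + η := step l (T m) (T (m + 2)) _ h4 (e1 m (by omega)) k0
  have k3 : |T (m + 3)| ≤ 2 * (2 * (6 * η) + η) + η :=
    step l (T (m + 1)) (T (m + 3)) _ h4 (e1 (m + 1) (by omega)) k1
  by_cases hi3 : i + 3 ≤ m + 3
  · have := key i hi3
    linarith
  · have : i = m + 1 ∨ i = m + 2 ∨ i = m + 3 := by omega
    rcases this with rfl | rfl | rfl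
    · linarith
    · linarith
    · linarith

end Pool.Agent.PPH
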