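import Pool.Agent.PPH.A6a
import Pool.Agent.PPH.A6b
import Pool.Agent.PPH.A6c

/-!
ROW A6d (0.8 h). `traceless`, the claim, from A6a-c: DD a b (E1 q) with a+b = j-2: E1 q = DD 2 0 q * G22 - DD 0 2 q * G11 with G.. = DD . . (X 2) (bounded on BB with all derivatives of
 order ≤ JJ D: ev_bdd, finitely many), so by leib (f = DD 2 0 q, w = 2, n = j-2, |ev (DD a b (DD 2 0 q)) y| ≤ C1 R^(2+a+b) for a+b ≤ n-1 by hypothesis Bd)
 |ev (DD a b (E1 q)) y - (l T_b - h T_{b+2})| ≤ C5 R^(j-1) with T_b = ev (DD (a+2) b q) y (DD_DD). Same for E2: k T_b - h T_{b+1}.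
 If all |ev (DD a b (E_i q)) y| < eps1 R^j (a+b = j-2): η = eps1 R^j + C5 R^(j-1); lin_alg: all derivatives of order j are ≤ 50 η < eps0 R^j if 100 eps1 ≤ eps0/2.. and 50 C5 < eps0 R0/4.
-/

namespace Pool.Agent.PPH

open MeasureTheory Set MvPolynomial
open scoped ENNReal Real

lemma gg_bdd (J : ℕ) (g : RR) : ∃ K : ℝ, 0 < K ∧ ∀ y ∈ BB, ∀ a b : ℕ, a + b ≤ J →
    |ev (DD a b g) y| ≤ K := by
  choose K hK0 hK using fun p : ℕ × ℕ => ev_bdd (DD p.1 p.2 g)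
  have hs : ∀ p ∈ Finset.range (J + 1) ×ˢ Finset.range (J + 1), 0 ≤ K p :=
    fun p _ => (hK0 p).le
  refine ⟨(∑ p ∈ Finset.range (J + 1) ×ˢ Finset.range (J + 1), K p) + 1, ?_, ?_⟩
  · have := Finset.sum_nonneg hs
    linarith
  · intro y hy a b hab
    have hmem : (a, b) ∈ Finset.range (J + 1) ×ˢ Finset.range (J + 1) := by
      rw [Finset.mem_product, Finset.mem_range, Finset.mem_range]
      constructor
      · change a < J + 1
        omega
      · change b < J + 1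
        omega
    have h1 := Finset.single_le_sum hs hmem
    have h2 := hK (a, b) y hy
    simp only at h2
    linarith

lemma leib_diff (n : ℕ) (hn : 1 ≤ n) (f1 f2 g1 g2 : RR) (y : ℝ × ℝ) (K M R : ℝ) (hR : 1 ≤ R)
    (hK : 0 ≤ K) (hM : 0 ≤ M)
    (hg1 : ∀ a b : ℕ, a + b ≤ n → |ev (DD a b g1) y| ≤ K)
    (hg2 : ∀ a b : ℕ, a + b ≤ n → |ev (DD a b g2) y| ≤ K)
    (hf1 : ∀ a b : ℕ, a + b + 1 ≤ n → |ev (DD a b f1) y| ≤ M * R ^ (2 + (a + b)))
    (hf2 : ∀ a b : ℕ, a + b + 1 ≤ n → |ev (DD a b f2) y| ≤ M * R ^ (2 + (a + b))) (a b : ℕ)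
    (hab : a + b = n) :
    |(ev g1 y * ev (DD a b f1) y - ev g2 y * ev (DD a b f2) y)| ≤
      |ev (DD a b (f1 * g1 - f2 * g2)) y| + 2 * (2 ^ n * K * M * R ^ (2 + (n - 1))) := by
  have h1 := leib n hn f1 g1 y K M R 2 hR hK hM hg1 hf1 a b hab
  have h2 := leib n hn f2 g2 y K M R 2 hR hK hM hg2 hf2 a b hab
  rw [DD_sub, ev_sub]
  have e : ev g1 y * ev (DD a b f1) y - ev g2 y * ev (DD a b f2) y =
      (ev (DD a b (f1 * g1)) y - ev (DD a b (f2 * g2)) y) -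
        (ev (DD a b (f1 * g1)) y - ev g1 y * ev (DD a b f1) y) +
        (ev (DD a b (f2 * g2)) y - ev g2 y * ev (DD a b f2) y) := by ring
  rw [e]
  have h3 := abs_add_le ((ev (DD a b (f1 * g1)) y - ev (DD a b (f2 * g2)) y) -
        (ev (DD a b (f1 * g1)) y - ev g1 y * ev (DD a b f1) y))
        (ev (DD a b (f2 * g2)) y - ev g2 y * ev (DD a b f2) y)
  have h4 := abs_sub (ev (DD a b (f1 * g1)) y - ev (DD a b (f2 * g2)) y)
        (ev (DD a b (f1 * g1)) y - ev g1 y * ev (DD a b f1) y)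
  linarith

theorem traceless (D : ℕ) (C1 eps0 : ℝ) (hC1 : 1 ≤ C1) (heps : 0 < eps0) :
    ∃ R0 eps1 : ℝ, 1 ≤ R0 ∧ 0 < eps1 ∧ ∀ (q : RR) (y : ℝ × ℝ) (R : ℝ), y ∈ BB → R0 ≤ R →
      Bd D C1 R q y →
      ∀ a b : ℕ, 3 ≤ a + b → a + b ≤ JJ D → eps0 * R ^ (a + b) ≤ |ev (DD a b q) y| →
      ∃ a' b' : ℕ, a' + b' + 2 = a + b ∧
        (eps1 * R ^ (a + b) ≤ |ev (DD a' b' (E1 q)) y| ∨
          eps1 * R ^ (a + b) ≤ |ev (DD a' b' (E2 q)) y|) := by
  set J := JJ D with hJ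
  obtain ⟨K1, hK1, hb1⟩ := gg_bdd J (DD 2 0 (X 2))
  obtain ⟨K2, hK2, hb2⟩ := gg_bdd J (DD 1 1 (X 2))
  obtain ⟨K3, hK3, hb3⟩ := gg_bdd J (DD 0 2 (X 2))
  set K := K1 + K2 + K3 with hK
  have hKpos : 0 < K := by positivity
  set C5 : ℝ := 2 * (2 ^ J * K * C1) with hC5
  have hC1' : 0 < C1 := by linarith
  have hC5pos : 0 < C5 := by positivity
  refine ⟨max 1 (200 * C5 / eps0), eps0 / 400, le_max_left _ _, by positivity, ?_⟩
  intro q y R hy hR hB a b h3 hJab hlow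
  have hR1 : 1 ≤ R := (le_max_left _ _).trans hR
  have hR2 : 200 * C5 / eps0 ≤ R := (le_max_right _ _).trans hR
  have hR0 : 0 < R := by linarith
  by_contra hcon
  push Not at hcon
  obtain ⟨g1, g2, -, g4, g5, g6, g7, -⟩ := hess_psi hy
  set h := ev (DD 2 0 (X 2)) y with hh
  set k := ev (DD 1 1 (X 2)) y with hk
  set l := ev (DD 0 2 (X 2)) y with hl
  set j := a + b with hj
  set η : ℝ := eps0 / 400 * R ^ j + C5 * R ^ (j - 1) with hη
  have hη0 : 0 ≤ η := by positivity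
  have hfq : ∀ c d : ℕ, c + d = 2 → ∀ a b : ℕ, a + b + 1 ≤ j - 2 →
      |ev (DD a b (DD c d q)) y| ≤ C1 * R ^ (2 + (a + b)) := by
    intro c d hcd a b hab
    rw [DD_DD]
    have := hB (a + c) (b + d) (by omega) (by omega)
    refine this.trans (le_of_eq ?_)
    congr 2
    omega
  have herr : 2 * (2 ^ (j - 2) * K * C1 * R ^ (2 + (j - 2 - 1))) ≤ C5 * R ^ (j - 1) := by
    have e1 : 2 + (j - 2 - 1) = j - 1 := by omega
    rw [e1, hC5]
    have h2 : (2 : ℝ) ^ (j - 2) ≤ 2 ^ J := pow_le_pow_right₀ (by norm_num) (by omega)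
    have : (2 : ℝ) ^ (j - 2) * K * C1 * R ^ (j - 1) ≤ 2 ^ J * K * C1 * R ^ (j - 1) := by gcongr
    linarith
  have hgK1 : ∀ a b : ℕ, a + b ≤ j - 2 → |ev (DD a b (DD 2 0 (X 2))) y| ≤ K := fun a b hab =>
    (hb1 y hy a b (by omega)).trans (by linarith)
  have hgK2 : ∀ a b : ℕ, a + b ≤ j - 2 → |ev (DD a b (DD 1 1 (X 2))) y| ≤ K := fun a b hab =>
    (hb2 y hy a b (by omega)).trans (by linarith)
  have hgK3 : ∀ a b : ℕ, a + b ≤ j - 2 → |ev (DD a b (DD 0 2 (X 2))) y| ≤ K := fun a b hab =>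
    (hb3 y hy a b (by omega)).trans (by linarith)
  have key := lin_alg h k l η hη0 g1 g4 g5 g6 g7 j h3 (fun i => ev (DD (j - i) i q) y)
    (by
      intro i hi
      have h1 := leib_diff (j - 2) (by omega) (DD 2 0 q) (DD 0 2 q) (DD 0 2 (X 2)) (DD 2 0 (X 2))
        y K C1 R hR1 hKpos.le hC1'.le hgK3 hgK1 (hfq 2 0 rfl) (hfq 0 2 rfl) (j - 2 - i) i (by omega)
      rw [DD_DD, DD_DD] at h1
      have e1 : j - 2 - i + 2 = j - i := by omega
      have e2 : j - 2 - i + 0 = j - (i + 2) := by omega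
      rw [e1, e2, Nat.add_zero] at h1
      have h2 := (hcon (j - 2 - i) i (by omega)).1
      have e3 : E1 q = DD 2 0 q * DD 0 2 (X 2) - DD 0 2 q * DD 2 0 (X 2) := rfl
      rw [e3] at h2
      linarith)
    (by
      intro i hi
      have h1 := leib_diff (j - 2) (by omega) (DD 2 0 q) (DD 1 1 q) (DD 1 1 (X 2)) (DD 2 0 (X 2))
        y K C1 R hR1 hKpos.le hC1'.le hgK2 hgK1 (hfq 2 0 rfl) (hfq 1 1 rfl) (j - 2 - i) i (by omega)
      rw [DD_DD, DD_DD] at h1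
      have e1 : j - 2 - i + 2 = j - i := by omega
      have e2 : j - 2 - i + 1 = j - (i + 1) := by omega
      rw [e1, e2, Nat.add_zero] at h1
      have h2 := (hcon (j - 2 - i) i (by omega)).2
      have e3 : E2 q = DD 2 0 q * DD 1 1 (X 2) - DD 1 1 q * DD 2 0 (X 2) := rfl
      rw [e3] at h2
      linarith)
    b (by omega)
  have eb : j - b = a := by omega
  simp only [eb] at key
  have hfin : 100 * η < eps0 * R ^ j := by
    have e1 : R ^ j = R * R ^ (j - 1) := by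
      rw [← pow_succ']
      congr 1
      omega
    have h1 : 200 * C5 ≤ eps0 * R := by
      rw [div_le_iff₀ heps] at hR2
      linarith
    have hp : 0 < R ^ (j - 1) := by positivity
    have h2 : 200 * C5 * R ^ (j - 1) ≤ eps0 * R * R ^ (j - 1) :=
      mul_le_mul_of_nonneg_right h1 hp.le
    have hp2 : 0 < eps0 * R ^ j := by positivity
    rw [hη]
    have h3' : 100 * (C5 * R ^ (j - 1)) ≤ eps0 * R ^ j / 2 := by
      rw [e1]
      linarith
    linarith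
  linarith

end Pool.Agent.PPH
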