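import Mathlib

/-!
ROW A7a (1 h). WEAK BEZOUT, coprime case (pure algebra, MvPolynomial (Fin 2) ℝ is a UFD: `MvPolynomial.uniqueFactorizationMonoid`).
 F, G ≠ 0 without common factor (IsRelPrime), totalDegree = d1, d2. Z a finite set of common zeros. Let n = d1 + d2 + |Z| and P_k = the space of polynomials of totalDegree ≤ k
 (`MvPolynomial.restrictTotalDegree (Fin 2) ℝ k`, finrank = (k+1)(k+2)/2: you may prove the dimension with the basis of monomials, or avoid the exact dimension:).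
 Evaluation P_n → (Z → ℝ) is onto (for z0 ∈ Z the product over z ≠ z0 of (an affine form vanishing at z, not at z0) has degree |Z|-1 ≤ n) and kills F P_{n-d1} + G P_{n-d2}.
 dim (F P_{n-d1} + G P_{n-d2}) = dim P_{n-d1} + dim P_{n-d2} - dim (F P_{n-d1} ∩ G P_{n-d2}), the intersection is FG P_{n-d1-d2} (coprime; totalDegree_mul_of_isDomain).
 With dim P_k = (k+1)(k+2)/2: |Z| ≤ dim P_n - dim P_{n-d1} - dim P_{n-d2} + dim P_{n-d1-d2} = d1 d2.
 (Any bound depending only on d1, d2 is enough: `∃ N`.)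
-/

namespace Pool.Agent.PPH

open MeasureTheory Set MvPolynomial
open scoped ENNReal Real

private lemma a7a_sum (k : ℕ) : 2 * ∑ j ∈ Finset.range (k + 1), (j + 1) = (k + 1) * (k + 2) := by
  induction k with
  | zero => simp
  | succ k ih =>
    rw [Finset.sum_range_succ, mul_add, ih]
    ring

private lemma a7a_finrank (k : ℕ) :
    2 * Module.finrank ℝ (restrictTotalDegree (Fin 2) ℝ k) = (k + 1) * (k + 2) := by
  have h1 : Module.finrank ℝ (restrictTotalDegree (Fin 2) ℝ k) =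
      Nat.card {n : Fin 2 →₀ ℕ | (n.sum fun _ e => e) ≤ k} :=
    Module.finrank_eq_nat_card_basis (basisRestrictSupport ℝ _)
  have h2 : Function.Injective fun n : Fin 2 →₀ ℕ => (n 0, n 1) := by
    intro m n h
    simp only [Prod.mk.injEq] at h
    ext i
    fin_cases i
    · exact h.1
    · exact h.2
  have h3 : (fun n : Fin 2 →₀ ℕ => (n 0, n 1)) '' {n : Fin 2 →₀ ℕ | (n.sum fun _ e => e) ≤ k} =
      ((Finset.range (k + 1)).biUnion fun j => Finset.HasAntidiagonal.antidiagonal j :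
        Finset (ℕ × ℕ)) := by
    ext ⟨x, y⟩
    simp only [Set.mem_image, Finset.coe_biUnion, Finset.coe_range, Set.mem_iUnion,
      Finset.mem_coe, Finset.HasAntidiagonal.mem_antidiagonal, Prod.mk.injEq, Set.mem_Iio, exists_prop]
    constructor
    · rintro ⟨n, hn, rfl, rfl⟩
      have hn' : (n.sum fun _ e => e) ≤ k := hn
      rw [Finsupp.sum_fintype _ _ (fun _ => rfl), Fin.sum_univ_two] at hn'
      exact ⟨n 0 + n 1, by omega, rfl⟩
    · rintro ⟨j, hj, hxy⟩
      refine ⟨Finsupp.equivFunOnFinite.symm ![x, y], ?_, rfl, rfl⟩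
      show ((Finsupp.equivFunOnFinite.symm ![x, y]).sum fun _ e => e) ≤ k
      rw [Finsupp.sum_fintype _ _ (fun _ => rfl), Fin.sum_univ_two]
      show x + y ≤ k
      omega
  have h4 : Nat.card {n : Fin 2 →₀ ℕ | (n.sum fun _ e => e) ≤ k} =
      ∑ j ∈ Finset.range (k + 1), (j + 1) := by
    rw [Nat.card_coe_set_eq, ← Set.ncard_image_of_injective _ h2, h3, Set.ncard_coe_finset,
      Finset.card_biUnion]
    · exact Finset.sum_congr rfl fun j _ => Finset.Nat.card_antidiagonal j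
    · intro i _ j _ hij
      show Disjoint (Finset.HasAntidiagonal.antidiagonal i) (Finset.HasAntidiagonal.antidiagonal j)
      rw [Finset.disjoint_left]
      intro p hp hp'
      rw [Finset.HasAntidiagonal.mem_antidiagonal] at hp hp'
      exact hij (hp.symm.trans hp')
  rw [h1, h4, a7a_sum]

private lemma a7a_affine (z z0 : Fin 2 → ℝ) (h : z0 ≠ z) : ∃ ℓ : MvPolynomial (Fin 2) ℝ,
    ℓ.totalDegree ≤ 1 ∧ eval z ℓ = 0 ∧ eval z0 ℓ = 1 := by
  obtain ⟨i, hi⟩ := Function.ne_iff.1 h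
  refine ⟨C ((z0 i - z i)⁻¹) * (X i - C (z i)), ?_, ?_, ?_⟩
  · refine (totalDegree_mul _ _).trans ?_
    rw [totalDegree_C, zero_add]
    refine (totalDegree_sub _ _).trans ?_
    rw [totalDegree_C, totalDegree_X]
    simp
  · simp
  · have : z0 i - z i ≠ 0 := sub_ne_zero.2 hi
    simp [this]

private lemma a7a_sep (Z : Finset (Fin 2 → ℝ)) (z0 : Fin 2 → ℝ) :
    ∃ q : MvPolynomial (Fin 2) ℝ, q.totalDegree ≤ Z.card ∧ eval z0 q = 1 ∧
      ∀ z ∈ Z, z0 ≠ z → eval z q = 0 := by
  classical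
  have h1 : ∀ z : Fin 2 → ℝ, ∃ ℓ : MvPolynomial (Fin 2) ℝ,
      ℓ.totalDegree ≤ 1 ∧ (z0 ≠ z → eval z ℓ = 0) ∧ eval z0 ℓ = 1 := by
    intro z
    by_cases h : z0 = z
    · exact ⟨1, by simp, fun h' => absurd h h', by simp⟩
    · obtain ⟨ℓ, h1, h2, h3⟩ := a7a_affine z z0 h
      exact ⟨ℓ, h1, fun _ => h2, h3⟩
  choose ℓ h1 h2 h3 using h1
  refine ⟨∏ z ∈ Z, ℓ z, ?_, ?_, ?_⟩
  · refine (totalDegree_finsetProd Z ℓ).trans ((Finset.sum_le_card_nsmul Z _ 1 fun z _ => h1 z).trans ?_)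
    simp
  · rw [map_prod]
    exact Finset.prod_eq_one fun z _ => h3 z
  · intro z hz hne
    rw [map_prod]
    exact Finset.prod_eq_zero hz (h2 z hne)

theorem bezout_coprime (d1 d2 : ℕ) : ∃ N : ℕ, ∀ F G : MvPolynomial (Fin 2) ℝ, F ≠ 0 → G ≠ 0 →
    IsRelPrime F G → F.totalDegree ≤ d1 → G.totalDegree ≤ d2 →
    ∀ Z : Finset (Fin 2 → ℝ), (∀ z ∈ Z, eval z F = 0 ∧ eval z G = 0) → Z.card ≤ N := by
  classical
  refine ⟨d1 * d2, fun F G hF hG hFG hd1 hd2 Z hZ => ?_⟩
  set a := F.totalDegree with ha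
  set b := G.totalDegree with hb
  set t := Z.card with ht
  let P : ℕ → Submodule ℝ (MvPolynomial (Fin 2) ℝ) := fun k => restrictTotalDegree (Fin 2) ℝ k
  have hfin : ∀ k, Module.Finite ℝ (P k) := fun k =>
    inferInstanceAs (Module.Finite ℝ (restrictTotalDegree (Fin 2) ℝ k))
  have hmem : ∀ k p, p ∈ P k ↔ p.totalDegree ≤ k := fun k p => mem_restrictTotalDegree _ _ _
  let U := (P (b + t)).map (LinearMap.mulLeft ℝ F)
  let W := (P (a + t)).map (LinearMap.mulLeft ℝ G)
  have hinj : ∀ H : MvPolynomial (Fin 2) ℝ, H ≠ 0 → Function.Injective (LinearMap.mulLeft ℝ H) :=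
    fun H hH x y hxy => mul_left_cancel₀ hH hxy
  have hU : Module.finrank ℝ U = Module.finrank ℝ (P (b + t)) :=
    (Submodule.equivMapOfInjective _ (hinj F hF) (P (b + t))).finrank_eq.symm
  have hW : Module.finrank ℝ W = Module.finrank ℝ (P (a + t)) :=
    (Submodule.equivMapOfInjective _ (hinj G hG) (P (a + t))).finrank_eq.symm
  have hUle : U ≤ P (a + b + t) := by
    rintro _ ⟨A, hA, rfl⟩
    rw [SetLike.mem_coe, hmem] at hA
    rw [hmem]
    exact (totalDegree_mul _ _).trans (by omega)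
  have hWle : W ≤ P (a + b + t) := by
    rintro _ ⟨A, hA, rfl⟩
    rw [SetLike.mem_coe, hmem] at hA
    rw [hmem]
    exact (totalDegree_mul _ _).trans (by omega)
  have hinter : U ⊓ W ≤ (P t).map (LinearMap.mulLeft ℝ (F * G)) := by
    rintro x ⟨⟨A, hA, rfl⟩, ⟨B, hB, hAB⟩⟩
    rw [SetLike.mem_coe, hmem] at hA
    have h1 : G ∣ F * A := ⟨B, hAB.symm⟩
    have h2 : G ∣ A := hFG.symm.dvd_of_dvd_mul_left h1
    obtain ⟨C', rfl⟩ := h2
    refine ⟨C', ?_, ?_⟩
    · rw [SetLike.mem_coe, hmem]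
      by_cases hC : C' = 0
      · rw [hC, totalDegree_zero]
        exact Nat.zero_le _
      · rw [totalDegree_mul_of_isDomain hG hC] at hA
        omega
    · show F * G * C' = F * (G * C')
      ring
  have hUfin : Module.Finite ℝ U := inferInstance
  have hWfin : Module.Finite ℝ W := inferInstance
  have hint : Module.finrank ℝ ↥(U ⊓ W) ≤ Module.finrank ℝ (P t) :=
    (Submodule.finrank_mono hinter).trans (Submodule.finrank_map_le _ _)
  have hsum := Submodule.finrank_sup_add_finrank_inf_eq U W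
  -- evaluation
  let L : MvPolynomial (Fin 2) ℝ →ₗ[ℝ] (Z → ℝ) :=
    LinearMap.pi fun z : Z => (aeval (z : Fin 2 → ℝ) : MvPolynomial (Fin 2) ℝ →ₐ[ℝ] ℝ).toLinearMap
  have hL : ∀ p (z : Z), L p z = eval (z : Fin 2 → ℝ) p := fun p z => by
    show (aeval (z : Fin 2 → ℝ) : MvPolynomial (Fin 2) ℝ →ₐ[ℝ] ℝ) p = _
    rw [aeval_eq_eval]
  let L' := L.domRestrict (P (a + b + t))
  have hsurj : LinearMap.range L' = ⊤ := by
    rw [LinearMap.range_eq_top]
    intro f
    choose q hq1 hq2 hq3 using a7a_sep Z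
    refine ⟨⟨∑ z : Z, C (f z) * q z, ?_⟩, ?_⟩
    · rw [hmem]
      refine totalDegree_finsetSum_le fun z _ => ?_
      refine (totalDegree_mul _ _).trans ?_
      rw [totalDegree_C, zero_add]
      exact (hq1 z).trans (by omega)
    · funext z
      show L (∑ z : Z, C (f z) * q z) z = f z
      rw [hL, map_sum, Finset.sum_eq_single z]
      · rw [map_mul, eval_C, hq2, mul_one]
      · intro z' _ hz'
        rw [map_mul, hq3 z' z z.2 (fun h => hz' (Subtype.ext h)), mul_zero]
      · intro h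
        exact absurd (Finset.mem_univ z) h
  have hrank := LinearMap.finrank_range_add_finrank_ker L'
  rw [hsurj, finrank_top, Module.finrank_fintype_fun_eq_card, Fintype.card_coe] at hrank
  have hker : U ⊔ W ≤ (LinearMap.ker L').map (P (a + b + t)).subtype := by
    have hx : ∀ x ∈ P (a + b + t), (∀ z ∈ Z, eval z x = 0) →
        x ∈ (LinearMap.ker L').map (P (a + b + t)).subtype := by
      intro x hx hz
      refine ⟨⟨x, hx⟩, ?_, rfl⟩
      rw [SetLike.mem_coe, LinearMap.mem_ker]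
      funext z
      show L x z = 0
      rw [hL]
      exact hz z z.2
    refine sup_le ?_ ?_
    · intro x hxU
      refine hx x (hUle hxU) fun z hz => ?_
      obtain ⟨A, -, rfl⟩ := hxU
      show eval z (F * A) = 0
      rw [map_mul, (hZ z hz).1, zero_mul]
    · intro x hxW
      refine hx x (hWle hxW) fun z hz => ?_
      obtain ⟨A, -, rfl⟩ := hxW
      show eval z (G * A) = 0
      rw [map_mul, (hZ z hz).2, zero_mul]
  have hker2 : Module.finrank ℝ ↥(U ⊔ W) ≤ Module.finrank ℝ (LinearMap.ker L') :=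
    (Submodule.finrank_mono hker).trans (Submodule.finrank_map_le _ _)
  have e1 : 2 * Module.finrank ℝ (P (a + b + t)) = (a + b + t + 1) * (a + b + t + 2) :=
    a7a_finrank _
  have e2 : 2 * Module.finrank ℝ (P (b + t)) = (b + t + 1) * (b + t + 2) := a7a_finrank _
  have e3 : 2 * Module.finrank ℝ (P (a + t)) = (a + t + 1) * (a + t + 2) := a7a_finrank _
  have e4 : 2 * Module.finrank ℝ (P t) = (t + 1) * (t + 2) := a7a_finrank _
  have key : t ≤ a * b := by
    rw [hU, hW] at hsum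
    have h5 : (a + b + t + 1) * (a + b + t + 2) + (t + 1) * (t + 2) =
        (b + t + 1) * (b + t + 2) + (a + t + 1) * (a + t + 2) + 2 * (a * b) := by ring
    omega
  exact key.trans (Nat.mul_le_mul hd1 hd2)

end Pool.Agent.PPH
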