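import Pool.Agent.PPH.A7a

/-!
ROW A7b (0.7 h). `bezout_nd`: F, G of totalDegree ≤ d, the number of common zeros with nonzero Jacobian is at most N(d). If F = 0 or G = 0 there are none (pderiv = 0).
 Otherwise let H = gcd (GCDMonoid from UFD, or `exists_reduced_factors`-type lemma: F = H F', G = H G', IsRelPrime F' G'); at a common zero z with H(z) = 0:
 pderiv i F = F'(z) pderiv i H, pderiv i G = G'(z) pderiv i H at z, so the Jacobian is 0. Hence H(z) ≠ 0 and z is a common zero of F', G': A7a.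
-/

namespace Pool.Agent.PPH

open MeasureTheory Set MvPolynomial
open scoped ENNReal Real

theorem bezout_nd (d : ℕ) : ∃ N : ℕ, ∀ F G : MvPolynomial (Fin 2) ℝ,
    F.totalDegree ≤ d → G.totalDegree ≤ d →
    ∀ Z : Finset (Fin 2 → ℝ), (∀ z ∈ Z, eval z F = 0 ∧ eval z G = 0 ∧
      eval z (pderiv 0 F) * eval z (pderiv 1 G) - eval z (pderiv 1 F) * eval z (pderiv 0 G) ≠ 0) →
    Z.card ≤ N := by
  obtain ⟨N, hN⟩ := bezout_coprime d d
  refine ⟨N, fun F G hF hG Z hZ => ?_⟩
  rcases Z.eq_empty_or_nonempty with rfl | ⟨z0, hz0⟩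
  · simp
  have hF0 : F ≠ 0 := by
    rintro rfl
    have := (hZ z0 hz0).2.2
    simp at this
  have hG0 : G ≠ 0 := by
    rintro rfl
    have := (hZ z0 hz0).2.2
    simp at this
  obtain ⟨F', G', H, hrel, hHF, hHG⟩ := UniqueFactorizationMonoid.exists_reduced_factors' F G hG0
  have hH0 : H ≠ 0 := by
    rintro rfl
    rw [zero_mul] at hHG
    exact hG0 hHG.symm
  have hF'0 : F' ≠ 0 := by
    rintro rfl
    rw [mul_zero] at hHF
    exact hF0 hHF.symm
  have hG'0 : G' ≠ 0 := by
    rintro rfl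
    rw [mul_zero] at hHG
    exact hG0 hHG.symm
  have hdF : F'.totalDegree ≤ d := by
    rw [← hHF, totalDegree_mul_of_isDomain hH0 hF'0] at hF
    omega
  have hdG : G'.totalDegree ≤ d := by
    rw [← hHG, totalDegree_mul_of_isDomain hH0 hG'0] at hG
    omega
  refine hN F' G' hF'0 hG'0 hrel hdF hdG Z fun z hz => ?_
  obtain ⟨h1, h2, h3⟩ := hZ z hz
  have hHz : eval z H ≠ 0 := by
    intro h0
    apply h3
    rw [← hHF, ← hHG]
    simp only [Derivation.leibniz, smul_eq_mul, map_add, map_mul, h0, zero_mul, zero_add]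
    ring
  rw [← hHF, map_mul] at h1
  rw [← hHG, map_mul] at h2
  exact ⟨(mul_eq_zero.1 h1).resolve_left hHz, (mul_eq_zero.1 h2).resolve_left hHz⟩

end Pool.Agent.PPH
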