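import Pool.Agent.PPH.A0

/-!
ROW A7c (1 h). `stereo`: for f ∈ RR, totalDegree ≤ d, there is F ∈ MvPolynomial (Fin 2) ℝ of totalDegree ≤ 4d with, for all z with |z|² < 1,
 eval z F = ((1+|z|²)(1-|z|²))^d ev f (yz z), where yz z = (2 z1/(1+|z|²), 2 z2/(1+|z|²)), psi (yz z) = (1-|z|²)/(1+|z|²). By linearity for monomials
 X^α, α = (a,b,c,e): F = (2 z1)^a (2 z2)^b (1-|z|²)^(d+c-e) (1+|z|²)^(d+e-a-b-c).
-/

namespace Pool.Agent.PPH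

open MeasureTheory Set MvPolynomial
open scoped ENNReal Real

/-- stereographic projection -/
noncomputable def yz (z : ℝ × ℝ) : ℝ × ℝ :=
  (2 * z.1 / (1 + z.1 ^ 2 + z.2 ^ 2), 2 * z.2 / (1 + z.1 ^ 2 + z.2 ^ 2))

private lemma a7c_psi (z : ℝ × ℝ) (hz : z.1 ^ 2 + z.2 ^ 2 < 1) :
    psi (yz z) = (1 - z.1 ^ 2 - z.2 ^ 2) / (1 + z.1 ^ 2 + z.2 ^ 2) := by
  have hp : (0:ℝ) < 1 + z.1 ^ 2 + z.2 ^ 2 := by positivity
  have hm : (0:ℝ) ≤ (1 - z.1 ^ 2 - z.2 ^ 2) / (1 + z.1 ^ 2 + z.2 ^ 2) :=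
    div_nonneg (by linarith) hp.le
  unfold psi
  rw [← Real.sqrt_sq hm]
  congr 1
  unfold yz
  field_simp
  ring_nf

/-- The polynomial of a monomial. -/
private noncomputable def a7cF (d : ℕ) (s : Fin 4 →₀ ℕ) : MvPolynomial (Fin 2) ℝ :=
  (C 2 * X 0) ^ (s 0) * (C 2 * X 1) ^ (s 1) * (1 - X 0 ^ 2 - X 1 ^ 2) ^ (d + s 2 - s 3) *
    (1 + X 0 ^ 2 + X 1 ^ 2) ^ (d + s 3 - s 0 - s 1 - s 2)

private lemma a7c_deg (d : ℕ) (s : Fin 4 →₀ ℕ) (hs : s 0 + s 1 + s 2 + s 3 ≤ d) :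
    (a7cF d s).totalDegree ≤ 4 * d := by
  have hX : ∀ i : Fin 2, (C (2:ℝ) * X i : MvPolynomial (Fin 2) ℝ).totalDegree ≤ 1 := by
    intro i
    refine (totalDegree_mul _ _).trans ?_
    rw [totalDegree_C, zero_add]
    exact (totalDegree_X i).le
  have hX2 : ∀ i : Fin 2, (X i ^ 2 : MvPolynomial (Fin 2) ℝ).totalDegree ≤ 2 := by
    intro i
    exact (totalDegree_pow _ _).trans (by rw [totalDegree_X])
  have hm : (1 - X 0 ^ 2 - X 1 ^ 2 : MvPolynomial (Fin 2) ℝ).totalDegree ≤ 2 := by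
    refine (totalDegree_sub _ _).trans (max_le ((totalDegree_sub _ _).trans (max_le ?_ (hX2 0))) (hX2 1))
    rw [totalDegree_one]; omega
  have hp : (1 + X 0 ^ 2 + X 1 ^ 2 : MvPolynomial (Fin 2) ℝ).totalDegree ≤ 2 := by
    refine (totalDegree_add _ _).trans (max_le ((totalDegree_add _ _).trans (max_le ?_ (hX2 0))) (hX2 1))
    rw [totalDegree_one]; omega
  unfold a7cF
  refine (totalDegree_mul _ _).trans ?_
  have h1 := (totalDegree_mul (((C (2:ℝ) * X 0 : MvPolynomial (Fin 2) ℝ)) ^ (s 0) * (C 2 * X 1) ^ (s 1))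
    ((1 - X 0 ^ 2 - X 1 ^ 2) ^ (d + s 2 - s 3)))
  have h2 := (totalDegree_mul (((C (2:ℝ) * X 0 : MvPolynomial (Fin 2) ℝ)) ^ (s 0)) ((C 2 * X 1) ^ (s 1)))
  have h3 := totalDegree_pow (C (2:ℝ) * X 0 : MvPolynomial (Fin 2) ℝ) (s 0)
  have h4 := totalDegree_pow (C (2:ℝ) * X 1 : MvPolynomial (Fin 2) ℝ) (s 1)
  have h5 := totalDegree_pow (1 - X 0 ^ 2 - X 1 ^ 2 : MvPolynomial (Fin 2) ℝ) (d + s 2 - s 3)
  have h6 := totalDegree_pow (1 + X 0 ^ 2 + X 1 ^ 2 : MvPolynomial (Fin 2) ℝ) (d + s 3 - s 0 - s 1 - s 2)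
  have g3 : s 0 * (C (2:ℝ) * X 0 : MvPolynomial (Fin 2) ℝ).totalDegree ≤ s 0 * 1 :=
    Nat.mul_le_mul_left _ (hX 0)
  have g4 : s 1 * (C (2:ℝ) * X 1 : MvPolynomial (Fin 2) ℝ).totalDegree ≤ s 1 * 1 :=
    Nat.mul_le_mul_left _ (hX 1)
  have g5 : (d + s 2 - s 3) * (1 - X 0 ^ 2 - X 1 ^ 2 : MvPolynomial (Fin 2) ℝ).totalDegree
      ≤ (d + s 2 - s 3) * 2 := Nat.mul_le_mul_left _ hm
  have g6 : (d + s 3 - s 0 - s 1 - s 2) * (1 + X 0 ^ 2 + X 1 ^ 2 : MvPolynomial (Fin 2) ℝ).totalDegree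
      ≤ (d + s 3 - s 0 - s 1 - s 2) * 2 := Nat.mul_le_mul_left _ hp
  omega

private lemma a7c_eval (d : ℕ) (s : Fin 4 →₀ ℕ) (hs : s 0 + s 1 + s 2 + s 3 ≤ d) (z : ℝ × ℝ)
    (hz : z.1 ^ 2 + z.2 ^ 2 < 1) :
    eval ![z.1, z.2] (a7cF d s) =
      ((1 + z.1 ^ 2 + z.2 ^ 2) * (1 - z.1 ^ 2 - z.2 ^ 2)) ^ d *
        ev (monomial s (1:ℝ)) (yz z) := by
  have hp : (0:ℝ) < 1 + z.1 ^ 2 + z.2 ^ 2 := by positivity
  have hm : (0:ℝ) < 1 - z.1 ^ 2 - z.2 ^ 2 := by linarith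
  have hev : ev (monomial s (1:ℝ)) (yz z) = (yz z).1 ^ (s 0) * (yz z).2 ^ (s 1) *
      psi (yz z) ^ (s 2) * (1 / psi (yz z)) ^ (s 3) := by
    unfold ev
    rw [eval_monomial, Finsupp.prod_fintype _ _ (fun i => pow_zero _), Fin.prod_univ_four]
    simp [pnt]
  rw [hev, a7c_psi z hz]
  unfold a7cF yz
  simp only [map_mul, map_pow, map_sub, map_add, map_one, eval_C, eval_X, Matrix.cons_val_zero,
    Matrix.cons_val_one]
  set p := 1 + z.1 ^ 2 + z.2 ^ 2 with hpdef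
  set m := 1 - z.1 ^ 2 - z.2 ^ 2 with hmdef
  obtain ⟨k, hk⟩ : ∃ k, d = k + (s 0 + s 1 + s 2 + s 3) := ⟨d - (s 0 + s 1 + s 2 + s 3), by omega⟩
  have e1 : d + s 2 - s 3 = k + s 0 + s 1 + 2 * s 2 := by omega
  have e2 : d + s 3 - s 0 - s 1 - s 2 = k + 2 * s 3 := by omega
  rw [e1, e2, hk, one_div_div]
  simp only [div_pow, mul_pow, pow_add, pow_mul]
  have hp0 : p ≠ 0 := hp.ne'
  have hm0 : m ≠ 0 := hm.ne'
  field_simp
  ring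

theorem stereo (d : ℕ) (f : RR) (hf : f.totalDegree ≤ d) :
    ∃ F : MvPolynomial (Fin 2) ℝ, F.totalDegree ≤ 4 * d ∧ ∀ z : ℝ × ℝ, z.1 ^ 2 + z.2 ^ 2 < 1 →
      eval ![z.1, z.2] F =
        ((1 + z.1 ^ 2 + z.2 ^ 2) * (1 - z.1 ^ 2 - z.2 ^ 2)) ^ d * ev f (yz z) := by
  have hsup : ∀ s ∈ f.support, s 0 + s 1 + s 2 + s 3 ≤ d := by
    intro s hs
    have h1 := le_totalDegree hs
    have h2 : (s.sum fun _ e => e) = s 0 + s 1 + s 2 + s 3 := by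
      rw [Finsupp.sum_fintype _ _ (fun i => rfl), Fin.sum_univ_four]
    omega
  refine ⟨∑ s ∈ f.support, C (coeff s f) * a7cF d s, ?_, ?_⟩
  · refine totalDegree_finsetSum_le ?_
    intro s hs
    refine (totalDegree_mul _ _).trans ?_
    rw [totalDegree_C, zero_add]
    exact a7c_deg d s (hsup s hs)
  · intro z hz
    have hfs : ev f (yz z) = ∑ s ∈ f.support, coeff s f * ev (monomial s (1:ℝ)) (yz z) := by
      conv_lhs => rw [f.as_sum]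
      rw [ev_sum]
      apply Finset.sum_congr rfl
      intro s hs
      rw [← ev_smul, smul_monomial, smul_eq_mul, mul_one]
    rw [map_sum, hfs, Finset.mul_sum]
    apply Finset.sum_congr rfl
    intro s hs
    rw [map_mul, eval_C, a7c_eval d s (hsup s hs) z hz]
    ring

end Pool.Agent.PPH
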