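import Pool.Agent.PPH.A1a
import Pool.Agent.PPH.A7b
import Pool.Agent.PPH.A7c

/-!
ROW A7d (1 h). `multiplicity`: for y ∈ BB put z = y/(1+psi y), |z|² < 1, yz z = y (injective). If ev f1 y = ev f2 y = 0 and the Jacobian (D1 f1 D2 f2 - D2 f1 D1 f2)(y) ≠ 0 then z is a common zero of F1, F2
 and its Jacobian is ((1+|z|²)(1-|z|²))^{2d} * (Jacobian of f1,f2 at y) * det(∂y/∂z), det(∂y/∂z) = 4 (1-|z|²)/(1+|z|²)³ ≠ 0 (chain rule along the coordinate lines with the derivative of ev from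
 A1 for a general C¹ curve: HasFDerivAt version of hasDerivAt_ev; at a zero the derivative of the factor does not matter). Then bezout_nd with 4d.
-/

namespace Pool.Agent.PPH

open MeasureTheory Set MvPolynomial
open scoped ENNReal Real

namespace A7d

lemma D1_X0 : D1 (X 0) = 1 := by rw [D1, mkDerivation_X]; rfl
lemma D1_X1 : D1 (X 1) = 0 := by rw [D1, mkDerivation_X]; rfl
lemma D1_X2 : D1 (X 2) = -(X 0 * X 3) := by rw [D1, mkDerivation_X]; rfl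
lemma D1_X3 : D1 (X 3) = X 0 * X 3 ^ 3 := by rw [D1, mkDerivation_X]; rfl
lemma D2_X0 : D2 (X 0) = 0 := by rw [D2, mkDerivation_X]; rfl
lemma D2_X1 : D2 (X 1) = 1 := by rw [D2, mkDerivation_X]; rfl
lemma D2_X2 : D2 (X 2) = -(X 1 * X 3) := by rw [D2, mkDerivation_X]; rfl
lemma D2_X3 : D2 (X 3) = X 1 * X 3 ^ 3 := by rw [D2, mkDerivation_X]; rfl
lemma D1_C (c : ℝ) : D1 (C c) = 0 := by
  rw [← algebraMap_eq]; exact D1.map_algebraMap c
lemma D2_C (c : ℝ) : D2 (C c) = 0 := by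
  rw [← algebraMap_eq]; exact D2.map_algebraMap c

lemma hasDerivAt_psi_curve (g1 g2 : ℝ → ℝ) (a b s : ℝ) (h1 : HasDerivAt g1 a s)
    (h2 : HasDerivAt g2 b s) (hd : g1 s ^ 2 + g2 s ^ 2 < 1) :
    HasDerivAt (fun r => psi (g1 r, g2 r)) (-(a * g1 s + b * g2 s) / psi (g1 s, g2 s)) s := by
  have hp := psi_pos (y := (g1 s, g2 s)) hd
  have hne : (1 - g1 s ^ 2 - g2 s ^ 2) ≠ 0 := by linarith
  have h3 : HasDerivAt (fun r => 1 - g1 r ^ 2 - g2 r ^ 2)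
      (-(2 * g1 s * a) - 2 * g2 s * b) s := by
    refine (((h1.pow 2).const_sub 1).sub (h2.pow 2)).congr_deriv ?_
    norm_num
  have h4 : HasDerivAt (fun r => psi (g1 r, g2 r))
      ((-(2 * g1 s * a) - 2 * g2 s * b) / (2 * √(1 - g1 s ^ 2 - g2 s ^ 2))) s := h3.sqrt hne
  refine h4.congr_deriv ?_
  have e : √(1 - g1 s ^ 2 - g2 s ^ 2) = psi (g1 s, g2 s) := rfl
  rw [e]
  field_simp
  ring

lemma evX_e0 (g1 g2 : ℝ → ℝ) : (fun r => ev (X 0) (g1 r, g2 r)) = g1 := by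
  funext r
  rw [ev_X0]

lemma evX_e1 (g1 g2 : ℝ → ℝ) : (fun r => ev (X 1) (g1 r, g2 r)) = g2 := by
  funext r
  rw [ev_X1]

lemma evX_e2 (g1 g2 : ℝ → ℝ) :
    (fun r => ev (X 2) (g1 r, g2 r)) = fun r => psi (g1 r, g2 r) := by
  funext r
  rw [ev_X2]

lemma evX_e3 (g1 g2 : ℝ → ℝ) :
    (fun r => ev (X 3) (g1 r, g2 r)) = fun r => (psi (g1 r, g2 r))⁻¹ := by
  funext r
  rw [ev_X3, one_div]

lemma ev_one (y : ℝ × ℝ) : ev 1 y = 1 := by simp [ev]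
lemma ev_zero (y : ℝ × ℝ) : ev 0 y = 0 := by simp [ev]

lemma evX_curve0 (g1 g2 : ℝ → ℝ) (a b s : ℝ) (h1 : HasDerivAt g1 a s) :
    HasDerivAt (fun r => ev (X 0) (g1 r, g2 r))
      (a * ev (D1 (X 0)) (g1 s, g2 s) + b * ev (D2 (X 0)) (g1 s, g2 s)) s := by
  rw [evX_e0, D1_X0, D2_X0, ev_one, ev_zero, mul_one, mul_zero, add_zero]
  exact h1

lemma evX_curve1 (g1 g2 : ℝ → ℝ) (a b s : ℝ) (h2 : HasDerivAt g2 b s) :
    HasDerivAt (fun r => ev (X 1) (g1 r, g2 r))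
      (a * ev (D1 (X 1)) (g1 s, g2 s) + b * ev (D2 (X 1)) (g1 s, g2 s)) s := by
  rw [evX_e1, D1_X1, D2_X1, ev_one, ev_zero, mul_one, mul_zero, zero_add]
  exact h2

lemma evX_curve2 (g1 g2 : ℝ → ℝ) (a b s : ℝ) (h1 : HasDerivAt g1 a s)
    (h2 : HasDerivAt g2 b s) (hd : g1 s ^ 2 + g2 s ^ 2 < 1) :
    HasDerivAt (fun r => ev (X 2) (g1 r, g2 r))
      (a * ev (D1 (X 2)) (g1 s, g2 s) + b * ev (D2 (X 2)) (g1 s, g2 s)) s := by
  have hp := psi_pos (y := (g1 s, g2 s)) hd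
  rw [evX_e2, D1_X2, D2_X2, ev_neg, ev_neg, ev_mul, ev_mul, ev_X0, ev_X1, ev_X3]
  refine (hasDerivAt_psi_curve g1 g2 a b s h1 h2 hd).congr_deriv ?_
  field_simp
  ring

lemma evX_curve3 (g1 g2 : ℝ → ℝ) (a b s : ℝ) (h1 : HasDerivAt g1 a s)
    (h2 : HasDerivAt g2 b s) (hd : g1 s ^ 2 + g2 s ^ 2 < 1) :
    HasDerivAt (fun r => ev (X 3) (g1 r, g2 r))
      (a * ev (D1 (X 3)) (g1 s, g2 s) + b * ev (D2 (X 3)) (g1 s, g2 s)) s := by
  have hp := psi_pos (y := (g1 s, g2 s)) hd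
  rw [evX_e3, D1_X3, D2_X3, ev_mul, ev_mul, ev_pow, ev_X0, ev_X1, ev_X3]
  refine ((hasDerivAt_psi_curve g1 g2 a b s h1 h2 hd).inv hp.ne').congr_deriv ?_
  field_simp

lemma evX_curve (i : Fin 4) (g1 g2 : ℝ → ℝ) (a b s : ℝ) (h1 : HasDerivAt g1 a s)
    (h2 : HasDerivAt g2 b s) (hd : g1 s ^ 2 + g2 s ^ 2 < 1) :
    HasDerivAt (fun r => ev (X i) (g1 r, g2 r))
      (a * ev (D1 (X i)) (g1 s, g2 s) + b * ev (D2 (X i)) (g1 s, g2 s)) s := by
  match i with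
  | 0 => exact evX_curve0 g1 g2 a b s h1
  | 1 => exact evX_curve1 g1 g2 a b s h2
  | 2 => exact evX_curve2 g1 g2 a b s h1 h2 hd
  | 3 => exact evX_curve3 g1 g2 a b s h1 h2 hd

/-- the derivative of `ev f` along a curve -/
lemma hasDerivAt_ev_curve (f : RR) (g1 g2 : ℝ → ℝ) (a b s : ℝ) (h1 : HasDerivAt g1 a s)
    (h2 : HasDerivAt g2 b s) (hd : g1 s ^ 2 + g2 s ^ 2 < 1) :
    HasDerivAt (fun r => ev f (g1 r, g2 r))
      (a * ev (D1 f) (g1 s, g2 s) + b * ev (D2 f) (g1 s, g2 s)) s := by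
  induction f using MvPolynomial.induction_on with
  | C c =>
    have e : (fun r => ev (C c) (g1 r, g2 r)) = fun _ => c := by
      funext r
      rw [ev_C]
    rw [e, D1_C, D2_C, ev_zero, mul_zero, mul_zero, add_zero]
    exact hasDerivAt_const s c
  | add p q hp hq =>
    have e : (fun r => ev (p + q) (g1 r, g2 r)) =
        fun r => ev p (g1 r, g2 r) + ev q (g1 r, g2 r) := by
      funext r
      rw [ev_add]
    rw [e, map_add, map_add, ev_add, ev_add]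
    refine (hp.add hq).congr_deriv ?_
    ring
  | mul_X p i hp' =>
    have e : (fun r => ev (p * X i) (g1 r, g2 r)) =
        fun r => ev p (g1 r, g2 r) * ev (X i) (g1 r, g2 r) := by
      funext r
      rw [ev_mul]
    have hX := evX_curve i g1 g2 a b s h1 h2 hd
    rw [e, Derivation.leibniz, Derivation.leibniz, smul_eq_mul, smul_eq_mul, smul_eq_mul,
      smul_eq_mul, ev_add, ev_add, ev_mul, ev_mul, ev_mul, ev_mul]
    refine (hp'.mul hX).congr_deriv ?_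
    ring

/-- the derivative of a polynomial in two variables along a line -/
lemma hasDerivAt_poly (F : MvPolynomial (Fin 2) ℝ) (z v : ℝ × ℝ) :
    HasDerivAt (fun s : ℝ => eval ![z.1 + s * v.1, z.2 + s * v.2] F)
      (v.1 * eval ![z.1, z.2] (pderiv 0 F) + v.2 * eval ![z.1, z.2] (pderiv 1 F)) 0 := by
  induction F using MvPolynomial.induction_on with
  | C c =>
    have e : (fun s : ℝ => eval ![z.1 + s * v.1, z.2 + s * v.2] (C c)) = fun _ => c := by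
      funext s
      rw [eval_C]
    rw [e, pderiv_C, pderiv_C, map_zero, mul_zero, mul_zero, add_zero]
    exact hasDerivAt_const _ _
  | add p q hp hq =>
    have e : (fun s : ℝ => eval ![z.1 + s * v.1, z.2 + s * v.2] (p + q)) =
        fun s => eval ![z.1 + s * v.1, z.2 + s * v.2] p +
          eval ![z.1 + s * v.1, z.2 + s * v.2] q := by
      funext s
      rw [map_add]
    rw [e, map_add, map_add, map_add, map_add]
    refine (hp.add hq).congr_deriv ?_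
    ring
  | mul_X p i hp =>
    have e : (fun s : ℝ => eval ![z.1 + s * v.1, z.2 + s * v.2] (p * X i)) =
        fun s => eval ![z.1 + s * v.1, z.2 + s * v.2] p *
          eval ![z.1 + s * v.1, z.2 + s * v.2] (X i) := by
      funext s
      rw [map_mul]
    have hX : HasDerivAt (fun s : ℝ => eval ![z.1 + s * v.1, z.2 + s * v.2] (X i))
        (v.1 * eval ![z.1, z.2] (pderiv 0 (X i)) + v.2 * eval ![z.1, z.2] (pderiv 1 (X i))) 0 := by
      match i with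
      | 0 =>
        have h := ((hasDerivAt_id (0 : ℝ)).mul_const v.1).const_add z.1
        simpa [pderiv_X] using h
      | 1 =>
        have h := ((hasDerivAt_id (0 : ℝ)).mul_const v.2).const_add z.2
        simpa [pderiv_X] using h
    rw [e, Derivation.leibniz, Derivation.leibniz, smul_eq_mul, smul_eq_mul, smul_eq_mul,
      smul_eq_mul, map_add, map_add, map_mul, map_mul, map_mul, map_mul]
    refine (hp.mul hX).congr_deriv ?_
    simp only [zero_mul, add_zero]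
    ring

lemma lin_hd (p v : ℝ) : HasDerivAt (fun s : ℝ => p + s * v) v 0 := by
  have h := ((hasDerivAt_id (0 : ℝ)).mul_const v).const_add p
  simpa using h

lemma stereo_S (z v : ℝ × ℝ) :
    HasDerivAt (fun s : ℝ => 1 + (z.1 + s * v.1) ^ 2 + (z.2 + s * v.2) ^ 2)
      (2 * z.1 * v.1 + 2 * z.2 * v.2) 0 := by
  refine ((((lin_hd z.1 v.1).pow 2).const_add 1).add ((lin_hd z.2 v.2).pow 2)).congr_deriv ?_
  norm_num

lemma stereo_M (z v : ℝ × ℝ) :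
    HasDerivAt (fun s : ℝ => 1 - (z.1 + s * v.1) ^ 2 - (z.2 + s * v.2) ^ 2)
      (-(2 * z.1 * v.1) - 2 * z.2 * v.2) 0 := by
  refine ((((lin_hd z.1 v.1).pow 2).const_sub 1).sub ((lin_hd z.2 v.2).pow 2)).congr_deriv ?_
  norm_num

lemma stereo_c1 (z v : ℝ × ℝ) :
    HasDerivAt (fun s : ℝ => 2 * (z.1 + s * v.1) /
      (1 + (z.1 + s * v.1) ^ 2 + (z.2 + s * v.2) ^ 2))
      ((v.1 * (2 - 2 * z.1 ^ 2 + 2 * z.2 ^ 2) + v.2 * (-4 * z.1 * z.2)) /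
            (1 + z.1 ^ 2 + z.2 ^ 2) ^ 2) 0 := by
  have hden : (1 + (z.1 + 0 * v.1) ^ 2 + (z.2 + 0 * v.2) ^ 2) ≠ 0 := by positivity
  refine (((lin_hd z.1 v.1).const_mul 2).div (stereo_S z v) hden).congr_deriv ?_
  simp only [zero_mul, add_zero]
  congr 1
  ring

lemma stereo_c2 (z v : ℝ × ℝ) :
    HasDerivAt (fun s : ℝ => 2 * (z.2 + s * v.2) /
      (1 + (z.1 + s * v.1) ^ 2 + (z.2 + s * v.2) ^ 2))
      ((v.1 * (-4 * z.1 * z.2) + v.2 * (2 + 2 * z.1 ^ 2 - 2 * z.2 ^ 2)) /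
            (1 + z.1 ^ 2 + z.2 ^ 2) ^ 2) 0 := by
  have hden : (1 + (z.1 + 0 * v.1) ^ 2 + (z.2 + 0 * v.2) ^ 2) ≠ 0 := by positivity
  refine (((lin_hd z.2 v.2).const_mul 2).div (stereo_S z v) hden).congr_deriv ?_
  simp only [zero_mul, add_zero]
  congr 1
  ring

lemma stereo_ev (f : RR) (z v : ℝ × ℝ) (hy : (yz z).1 ^ 2 + (yz z).2 ^ 2 < 1) :
    HasDerivAt (fun s : ℝ => ev f (yz (z.1 + s * v.1, z.2 + s * v.2)))
      ((v.1 * (2 - 2 * z.1 ^ 2 + 2 * z.2 ^ 2) + v.2 * (-4 * z.1 * z.2)) /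
            (1 + z.1 ^ 2 + z.2 ^ 2) ^ 2 * ev (D1 f) (yz z) +
          (v.1 * (-4 * z.1 * z.2) + v.2 * (2 + 2 * z.1 ^ 2 - 2 * z.2 ^ 2)) /
            (1 + z.1 ^ 2 + z.2 ^ 2) ^ 2 * ev (D2 f) (yz z)) 0 := by
  have e0 : ((2 * (z.1 + 0 * v.1) / (1 + (z.1 + 0 * v.1) ^ 2 + (z.2 + 0 * v.2) ^ 2),
      2 * (z.2 + 0 * v.2) / (1 + (z.1 + 0 * v.1) ^ 2 + (z.2 + 0 * v.2) ^ 2)) : ℝ × ℝ) = yz z := by
    simp [yz]
  have hy' : (2 * (z.1 + 0 * v.1) / (1 + (z.1 + 0 * v.1) ^ 2 + (z.2 + 0 * v.2) ^ 2)) ^ 2 +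
      (2 * (z.2 + 0 * v.2) / (1 + (z.1 + 0 * v.1) ^ 2 + (z.2 + 0 * v.2) ^ 2)) ^ 2 < 1 := by
    have e1 := congrArg Prod.fst e0
    have e2 := congrArg Prod.snd e0
    simp only at e1 e2
    rw [e1, e2]
    exact hy
  have hev := hasDerivAt_ev_curve f _ _ _ _ 0 (stereo_c1 z v) (stereo_c2 z v) hy'

  rw [e0] at hev
  exact hev

/-- chain rule for stereographic coordinates at a zero -/
lemma stereo_deriv (d : ℕ) (f : RR) (F : MvPolynomial (Fin 2) ℝ)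
    (hF : ∀ z : ℝ × ℝ, z.1 ^ 2 + z.2 ^ 2 < 1 →
      eval ![z.1, z.2] F =
        ((1 + z.1 ^ 2 + z.2 ^ 2) * (1 - z.1 ^ 2 - z.2 ^ 2)) ^ d * ev f (yz z))
    (z v : ℝ × ℝ) (hz : z.1 ^ 2 + z.2 ^ 2 < 1) (hy : (yz z).1 ^ 2 + (yz z).2 ^ 2 < 1)
    (h0 : ev f (yz z) = 0) :
    v.1 * eval ![z.1, z.2] (pderiv 0 F) + v.2 * eval ![z.1, z.2] (pderiv 1 F) =
      ((1 + z.1 ^ 2 + z.2 ^ 2) * (1 - z.1 ^ 2 - z.2 ^ 2)) ^ d *
        ((v.1 * (2 - 2 * z.1 ^ 2 + 2 * z.2 ^ 2) + v.2 * (-4 * z.1 * z.2)) /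
            (1 + z.1 ^ 2 + z.2 ^ 2) ^ 2 * ev (D1 f) (yz z) +
          (v.1 * (-4 * z.1 * z.2) + v.2 * (2 + 2 * z.1 ^ 2 - 2 * z.2 ^ 2)) /
            (1 + z.1 ^ 2 + z.2 ^ 2) ^ 2 * ev (D2 f) (yz z)) := by
  have hL := hasDerivAt_poly F z v
  have hG : HasDerivAt (fun s : ℝ => ((1 + (z.1 + s * v.1) ^ 2 + (z.2 + s * v.2) ^ 2) *
        (1 - (z.1 + s * v.1) ^ 2 - (z.2 + s * v.2) ^ 2)) ^ d) _ 0 :=
    ((stereo_S z v).mul (stereo_M z v)).pow d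
  have hR := hG.mul (stereo_ev f z v hy)
  have hEq : (fun s : ℝ => ((1 + (z.1 + s * v.1) ^ 2 + (z.2 + s * v.2) ^ 2) *
        (1 - (z.1 + s * v.1) ^ 2 - (z.2 + s * v.2) ^ 2)) ^ d *
        ev f (yz (z.1 + s * v.1, z.2 + s * v.2))) =ᶠ[nhds 0]
      (fun s : ℝ => eval ![z.1 + s * v.1, z.2 + s * v.2] F) := by
    have hc : Filter.Tendsto (fun s : ℝ => (z.1 + s * v.1) ^ 2 + (z.2 + s * v.2) ^ 2) (nhds 0)
        (nhds (z.1 ^ 2 + z.2 ^ 2)) := by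
      have : Continuous (fun s : ℝ => (z.1 + s * v.1) ^ 2 + (z.2 + s * v.2) ^ 2) := by fun_prop
      have h := this.tendsto 0
      simpa using h
    filter_upwards [hc.eventually (gt_mem_nhds hz)] with s hs
    exact (hF (z.1 + s * v.1, z.2 + s * v.2) hs).symm
  have hfin := (hL.congr_of_eventuallyEq hEq).unique hR
  rw [hfin]
  simp only [zero_mul, add_zero]
  rw [h0, mul_zero, zero_add]

end A7d

open A7d in
theorem multiplicity (d : ℕ) : ∃ N : ℕ, ∀ f1 f2 : RR, f1.totalDegree ≤ d → f2.totalDegree ≤ d →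
    ∀ Z : Finset (ℝ × ℝ), (∀ y ∈ Z, y ∈ BB ∧ ev f1 y = 0 ∧ ev f2 y = 0 ∧
      ev (D1 f1) y * ev (D2 f2) y - ev (D2 f1) y * ev (D1 f2) y ≠ 0) → Z.card ≤ N := by
  classical
  obtain ⟨N, hN⟩ := bezout_nd (4 * d)
  refine ⟨N, fun f1 f2 hd1 hd2 Z hZ => ?_⟩
  obtain ⟨F1, hF1d, hF1⟩ := stereo d f1 hd1
  obtain ⟨F2, hF2d, hF2⟩ := stereo d f2 hd2
  set zz : ℝ × ℝ → ℝ × ℝ := fun y => (y.1 / (1 + psi y), y.2 / (1 + psi y)) with hzz
  have hprop : ∀ y ∈ BB, (zz y).1 ^ 2 + (zz y).2 ^ 2 < 1 ∧ yz (zz y) = y := by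
    intro y hy
    obtain ⟨hp1, hp2⟩ := BB_psi hy
    have hs := psi_sq (y := y) (by linarith [BB_sq hy])
    have h1 : (1 + psi y) ≠ 0 := by linarith
    have hsum : (zz y).1 ^ 2 + (zz y).2 ^ 2 = (1 - psi y) / (1 + psi y) := by
      simp only [hzz]
      rw [div_pow, div_pow, ← add_div]
      rw [div_eq_div_iff (by positivity) h1]
      have : y.1 ^ 2 + y.2 ^ 2 = (1 - psi y) * (1 + psi y) := by linarith
      rw [this]
      ring
    refine ⟨?_, ?_⟩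
    · rw [hsum, div_lt_one (by linarith)]
      linarith
    · have h2 : 1 + (zz y).1 ^ 2 + (zz y).2 ^ 2 = 2 / (1 + psi y) := by
        rw [add_assoc, hsum]
        field_simp
        ring
      unfold yz
      rw [h2]
      simp only [hzz]
      ext
      · field_simp
      · field_simp
  set φ : ℝ × ℝ → (Fin 2 → ℝ) := fun y => ![(zz y).1, (zz y).2] with hφ
  have hinj : Set.InjOn φ Z := by
    intro y hy y' hy' h
    have e1 : (zz y).1 = (zz y').1 := by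
      have := congrFun h 0
      simpa [hφ] using this
    have e2 : (zz y).2 = (zz y').2 := by
      have := congrFun h 1
      simpa [hφ] using this
    rw [← (hprop y (hZ y hy).1).2, ← (hprop y' (hZ y' hy').1).2, Prod.ext e1 e2]
  rw [← Finset.card_image_of_injOn hinj]
  refine hN F1 F2 hF1d hF2d _ ?_
  intro w hw
  obtain ⟨y, hyZ, rfl⟩ := Finset.mem_image.1 hw
  obtain ⟨hyB, h01, h02, hJ⟩ := hZ y hyZ
  obtain ⟨hz1, hz2⟩ := hprop y hyB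
  set z := zz y with hz
  have hydisc : (yz z).1 ^ 2 + (yz z).2 ^ 2 < 1 := by
    rw [hz2]
    exact BB_sub_disc hyB
  have h01' : ev f1 (yz z) = 0 := by rw [hz2]; exact h01
  have h02' : ev f2 (yz z) = 0 := by rw [hz2]; exact h02
  refine ⟨?_, ?_, ?_⟩
  · change eval ![z.1, z.2] F1 = 0
    rw [hF1 z hz1, h01', mul_zero]
  · change eval ![z.1, z.2] F2 = 0
    rw [hF2 z hz1, h02', mul_zero]
  · change eval ![z.1, z.2] (pderiv 0 F1) * eval ![z.1, z.2] (pderiv 1 F2) -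
      eval ![z.1, z.2] (pderiv 1 F1) * eval ![z.1, z.2] (pderiv 0 F2) ≠ 0
    have a1 := stereo_deriv d f1 F1 hF1 z (1, 0) hz1 hydisc h01'
    have a2 := stereo_deriv d f1 F1 hF1 z (0, 1) hz1 hydisc h01'
    have b1 := stereo_deriv d f2 F2 hF2 z (1, 0) hz1 hydisc h02'
    have b2 := stereo_deriv d f2 F2 hF2 z (0, 1) hz1 hydisc h02'
    simp only [one_mul, zero_mul, add_zero, zero_add] at a1 a2 b1 b2
    rw [a1, a2, b1, b2, hz2]
    set G := ((1 + z.1 ^ 2 + z.2 ^ 2) * (1 - z.1 ^ 2 - z.2 ^ 2)) ^ d with hG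
    have hGpos : 0 < G := by
      have : 0 < 1 - z.1 ^ 2 - z.2 ^ 2 := by linarith
      positivity
    set S := 1 + z.1 ^ 2 + z.2 ^ 2 with hS
    have hSpos : 0 < S := by positivity
    have hdet : (2 - 2 * z.1 ^ 2 + 2 * z.2 ^ 2) * (2 + 2 * z.1 ^ 2 - 2 * z.2 ^ 2) -
        (-4 * z.1 * z.2) * (-4 * z.1 * z.2) = 4 * (1 - z.1 ^ 2 - z.2 ^ 2) * S := by
      rw [hS]
      ring
    have e : G * ((2 - 2 * z.1 ^ 2 + 2 * z.2 ^ 2) / S ^ 2 * ev (D1 f1) y +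
          -4 * z.1 * z.2 / S ^ 2 * ev (D2 f1) y) *
        (G * (-4 * z.1 * z.2 / S ^ 2 * ev (D1 f2) y +
          (2 + 2 * z.1 ^ 2 - 2 * z.2 ^ 2) / S ^ 2 * ev (D2 f2) y)) -
        G * (-4 * z.1 * z.2 / S ^ 2 * ev (D1 f1) y +
          (2 + 2 * z.1 ^ 2 - 2 * z.2 ^ 2) / S ^ 2 * ev (D2 f1) y) *
        (G * ((2 - 2 * z.1 ^ 2 + 2 * z.2 ^ 2) / S ^ 2 * ev (D1 f2) y +
          -4 * z.1 * z.2 / S ^ 2 * ev (D2 f2) y)) =
        G ^ 2 / S ^ 4 * ((2 - 2 * z.1 ^ 2 + 2 * z.2 ^ 2) * (2 + 2 * z.1 ^ 2 - 2 * z.2 ^ 2) -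
          (-4 * z.1 * z.2) * (-4 * z.1 * z.2)) *
          (ev (D1 f1) y * ev (D2 f2) y - ev (D2 f1) y * ev (D1 f2) y) := by
      field_simp
      ring
    rw [e, hdet]
    have h1z : 0 < 1 - z.1 ^ 2 - z.2 ^ 2 := by linarith
    refine mul_ne_zero (mul_ne_zero (by positivity) (by positivity)) hJ

end Pool.Agent.PPH
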