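import Mathlib

/-!
ROW B1b (0.8 h). `pieces`: I OrdConnected, F continuous on I, Z finite with at most N points containing all r ∈ I with F r = β or F r = -β — or F ≡ β on I or F ≡ -β on I.
 Let μ(J) ≤ M for every OrdConnected J ⊆ I on which F ≥ β or on which F ≤ -β; then the measure of {r ∈ I : |F r| ≥ β} ∩ S is ≤ (N+1) M (plus the null set Z), where M bounds volume(J ∩ S).
-/

namespace Pool.Agent.PPH

open MeasureTheory Set MvPolynomial
open scoped ENNReal Real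

lemma b1b_base (I : Set ℝ) (F : ℝ → ℝ) (hF : ContinuousOn F I) (β : ℝ)
    (S : Set ℝ) (M : ℝ≥0∞)
    (hM : ∀ J : Set ℝ, J.OrdConnected → J ⊆ I → ((∀ r ∈ J, β ≤ F r) ∨ (∀ r ∈ J, F r ≤ -β)) →
      volume (J ∩ S) ≤ M) (J : Set ℝ) (hJ : J.OrdConnected) (hJI : J ⊆ I)
    (h1 : ∀ r ∈ J, F r ≠ β) (h2 : ∀ r ∈ J, F r ≠ -β) :
    volume ({r ∈ J | β ≤ |F r|} ∩ S) ≤ M := by
  have hpre : IsPreconnected J := hJ.isPreconnected
  have hFJ : ContinuousOn F J := hF.mono hJI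
  by_cases hex : ∃ r ∈ J, β ≤ |F r|
  · obtain ⟨r0, hr0, hr0'⟩ := hex
    refine le_trans (measure_mono ?_) (hM J hJ hJI ?_)
    · rintro x ⟨⟨hx, -⟩, hxS⟩
      exact ⟨hx, hxS⟩
    · rcases le_abs.mp hr0' with h | h
      · left
        intro r hr
        by_contra hlt
        push Not at hlt
        obtain ⟨c, hc, hc'⟩ := hpre.intermediate_value hr hr0 hFJ ⟨hlt.le, h⟩
        exact h1 c hc hc'
      · right
        intro r hr
        by_contra hlt
        push Not at hlt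
        obtain ⟨c, hc, hc'⟩ := hpre.intermediate_value hr0 hr hFJ
          (⟨by linarith, hlt.le⟩ : -β ∈ Icc (F r0) (F r))
        exact h2 c hc hc'
  · push Not at hex
    have : {r ∈ J | β ≤ |F r|} ∩ S = ∅ := by
      ext x
      simp only [mem_inter_iff, mem_ofPred_eq, mem_empty_iff_false, iff_false]
      rintro ⟨⟨hx, hx'⟩, -⟩
      exact absurd hx' (not_le.mpr (hex x hx))
    rw [this]
    simp

lemma b1b_main (I : Set ℝ) (F : ℝ → ℝ) (hF : ContinuousOn F I) (β : ℝ)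
    (S : Set ℝ) (M : ℝ≥0∞)
    (hM : ∀ J : Set ℝ, J.OrdConnected → J ⊆ I → ((∀ r ∈ J, β ≤ F r) ∨ (∀ r ∈ J, F r ≤ -β)) →
      volume (J ∩ S) ≤ M) (Z : Finset ℝ) : ∀ (J : Set ℝ) (_ : J.OrdConnected) (_ : J ⊆ I)
    (_ : ∀ r ∈ J, F r = β → r ∈ Z) (_ : ∀ r ∈ J, F r = -β → r ∈ Z),
    volume ({r ∈ J | β ≤ |F r|} ∩ S) ≤ (Z.card + 1 : ℕ) * M := by
  induction Z using Finset.induction_on_max with
  | empty =>
    intro J hJ hJI h1 h2
    have := b1b_base I F hF β S M hM J hJ hJI (fun r hr h => by simpa using h1 r hr h)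
      (fun r hr h => by simpa using h2 r hr h)
    simpa using this
  | insert a Z hZ ih =>
    intro J hJ hJI h1 h2
    have e1 := ih (J ∩ Iio a) (hJ.inter ordConnected_Iio) (inter_subset_left.trans hJI)
      (fun r hr h => by
        rcases Finset.mem_insert.mp (h1 r hr.1 h) with h' | h'
        · exact absurd h' (ne_of_lt hr.2)
        · exact h')
      (fun r hr h => by
        rcases Finset.mem_insert.mp (h2 r hr.1 h) with h' | h'
        · exact absurd h' (ne_of_lt hr.2)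
        · exact h')
    have e2 := b1b_base I F hF β S M hM (J ∩ Ioi a) (hJ.inter ordConnected_Ioi)
      (inter_subset_left.trans hJI)
      (fun r hr h => by
        rcases Finset.mem_insert.mp (h1 r hr.1 h) with h' | h'
        · exact absurd h' (ne_of_gt hr.2)
        · exact absurd (hZ r h') (not_lt.mpr (le_of_lt hr.2)))
      (fun r hr h => by
        rcases Finset.mem_insert.mp (h2 r hr.1 h) with h' | h'
        · exact absurd h' (ne_of_gt hr.2)
        · exact absurd (hZ r h') (not_lt.mpr (le_of_lt hr.2)))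
    have hsub : {r ∈ J | β ≤ |F r|} ∩ S ⊆ {a} ∪ (({r ∈ J ∩ Iio a | β ≤ |F r|} ∩ S) ∪
        ({r ∈ J ∩ Ioi a | β ≤ |F r|} ∩ S)) := by
      rintro x ⟨⟨hx, hx'⟩, hxS⟩
      rcases lt_trichotomy x a with h | h | h
      · exact Or.inr (Or.inl ⟨⟨⟨hx, h⟩, hx'⟩, hxS⟩)
      · exact Or.inl h
      · exact Or.inr (Or.inr ⟨⟨⟨hx, h⟩, hx'⟩, hxS⟩)
    have hcard : (insert a Z).card = Z.card + 1 :=
      Finset.card_insert_of_notMem (fun h => lt_irrefl a (hZ a h))
    rw [hcard]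
    refine (measure_mono hsub).trans ((measure_union_le _ _).trans ?_)
    rw [Real.volume_singleton, zero_add]
    refine (measure_union_le _ _).trans ((add_le_add e1 e2).trans (le_of_eq ?_))
    push_cast
    ring

theorem pieces (I : Set ℝ) (hI : I.OrdConnected) (F : ℝ → ℝ) (hF : ContinuousOn F I) (β : ℝ)
    (hβ : 0 < β) (N : ℕ) (Z1 Z2 : Finset ℝ) (h1 : (∀ r ∈ I, F r = β) ∨ (Z1.card ≤ N ∧ ∀ r ∈ I, F r = β → r ∈ Z1))
    (h2 : (∀ r ∈ I, F r = -β) ∨ (Z2.card ≤ N ∧ ∀ r ∈ I, F r = -β → r ∈ Z2)) (S : Set ℝ) (M : ℝ≥0∞)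
    (hM : ∀ J : Set ℝ, J.OrdConnected → J ⊆ I → ((∀ r ∈ J, β ≤ F r) ∨ (∀ r ∈ J, F r ≤ -β)) →
      volume (J ∩ S) ≤ M) :
    volume ({r ∈ I | β ≤ |F r|} ∩ S) ≤ (2 * N + 2 : ℕ) * M := by
  have hone : M ≤ (2 * N + 2 : ℕ) * M := by
    calc M = 1 * M := (one_mul M).symm
      _ ≤ (2 * N + 2 : ℕ) * M := by
        refine mul_le_mul_left ?_ M
        exact_mod_cast (by omega : 1 ≤ 2 * N + 2)
  have hsubI : {r ∈ I | β ≤ |F r|} ∩ S ⊆ I ∩ S := fun x hx => ⟨hx.1.1, hx.2⟩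
  rcases h1 with h1 | ⟨hc1, h1⟩
  · exact (measure_mono hsubI).trans ((hM I hI subset_rfl
      (Or.inl fun r hr => (h1 r hr).ge)).trans hone)
  rcases h2 with h2 | ⟨hc2, h2⟩
  · exact (measure_mono hsubI).trans ((hM I hI subset_rfl
      (Or.inr fun r hr => (h2 r hr).le)).trans hone)
  refine (b1b_main I F hF β S M hM (Z1 ∪ Z2) I hI subset_rfl
    (fun r hr h => Finset.mem_union_left _ (h1 r hr h))
    (fun r hr h => Finset.mem_union_right _ (h2 r hr h))).trans ?_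
  have hc := Finset.card_union_le Z1 Z2
  refine mul_le_mul_left ?_ M
  exact_mod_cast (by omega : (Z1 ∪ Z2).card + 1 ≤ 2 * N + 2)

end Pool.Agent.PPH
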