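import Mathlib

/-!
ROW B1c (0.5 h). Two elementary inequalities.
-/

namespace Pool.Agent.PPH

open MeasureTheory Set MvPolynomial
open scoped ENNReal Real

theorem b1c_half (a b c δ lam : ℝ) (hlam : 0 < lam) :
    volume {t : ℝ | |a * t ^ 2 + b * t + c| ≤ δ ∧ lam ≤ 2 * a * t + b} ≤
      ENNReal.ofReal (2 * δ / lam) := by
  refine (Real.volume_le_diam _).trans ?_
  have key : ∀ x ∈ {t : ℝ | |a * t ^ 2 + b * t + c| ≤ δ ∧ lam ≤ 2 * a * t + b},
      ∀ y ∈ {t : ℝ | |a * t ^ 2 + b * t + c| ≤ δ ∧ lam ≤ 2 * a * t + b},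
      x ≤ y → y - x ≤ 2 * δ / lam := by
    rintro x ⟨hx1, hx2⟩ y ⟨hy1, hy2⟩ hxy
    rw [le_div_iff₀ hlam]
    rw [abs_le] at hx1 hy1
    have h1 : (y - x) * lam ≤ (y - x) * (a * (x + y) + b) :=
      mul_le_mul_of_nonneg_left (by linarith) (by linarith)
    have h2 : (y - x) * (a * (x + y) + b) =
        (a * y ^ 2 + b * y + c) - (a * x ^ 2 + b * x + c) := by ring
    linarith [hx1.1, hy1.2]
  apply Metric.ediam_le
  intro x hx y hy
  rw [edist_dist, Real.dist_eq]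
  apply ENNReal.ofReal_le_ofReal
  rcases le_total x y with h | h
  · rw [abs_sub_comm, abs_of_nonneg (by linarith)]
    exact key x hx y hy h
  · rw [abs_of_nonneg (by linarith)]
    exact key y hy x hx h

/-- ROW B1c (0.4 h). For a quadratic polynomial: the set where it is small and its derivative is large. The derivative `L` is affine, so {L ≥ lam} and {L ≤ -lam} are OrdConnected, and
 sublevel1-type argument (k = 1, constant 2): on {L ≥ lam}: the difference quotient of g is ≥ lam, so {|g| ≤ δ} has diameter ≤ 2δ/lam. -/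
theorem quad (a b c δ lam : ℝ) (hδ : 0 ≤ δ) (hlam : 0 < lam) :
    volume {t : ℝ | |a * t ^ 2 + b * t + c| ≤ δ ∧ lam ≤ |2 * a * t + b|} ≤
      ENNReal.ofReal (4 * δ / lam) := by
  have hsub : {t : ℝ | |a * t ^ 2 + b * t + c| ≤ δ ∧ lam ≤ |2 * a * t + b|} ⊆
      {t : ℝ | |a * t ^ 2 + b * t + c| ≤ δ ∧ lam ≤ 2 * a * t + b} ∪
        {t : ℝ | |(-a) * t ^ 2 + (-b) * t + (-c)| ≤ δ ∧ lam ≤ 2 * (-a) * t + (-b)} := by
    rintro t ⟨h1, h2⟩
    rcases le_abs.1 h2 with h | h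
    · exact Or.inl ⟨h1, h⟩
    · refine Or.inr ⟨?_, by linarith⟩
      rw [show (-a) * t ^ 2 + (-b) * t + (-c) = -(a * t ^ 2 + b * t + c) by ring, abs_neg]
      exact h1
  refine (measure_mono hsub).trans ((measure_union_le _ _).trans ?_)
  refine (add_le_add (b1c_half a b c δ lam hlam) (b1c_half (-a) (-b) (-c) δ lam hlam)).trans ?_
  rw [← ENNReal.ofReal_add (by positivity) (by positivity)]
  apply ENNReal.ofReal_le_ofReal
  apply le_of_eq
  ring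

/-- a positive semidefinite form -/
theorem b1c_Q (a k c x y : ℝ) (ha : 0 ≤ a) (hc : 0 ≤ c) (hk : k ^ 2 ≤ a * c) :
    0 ≤ a * x ^ 2 + 2 * k * x * y + c * y ^ 2 := by
  rcases ha.eq_or_lt with h | h
  · have hk0 : k = 0 := by
      rw [← h, zero_mul] at hk
      exact pow_eq_zero_iff (two_ne_zero) |>.1 (le_antisymm hk (sq_nonneg k))
    rw [hk0, ← h]
    have : 0 ≤ c * y ^ 2 := mul_nonneg hc (sq_nonneg y)
    linarith
  · have h1 : 0 ≤ a * (a * x ^ 2 + 2 * k * x * y + c * y ^ 2) := by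
      have : a * (a * x ^ 2 + 2 * k * x * y + c * y ^ 2) =
          (a * x + k * y) ^ 2 + (a * c - k ^ 2) * y ^ 2 := by ring
      rw [this]
      exact add_nonneg (sq_nonneg _) (mul_nonneg (by linarith) (sq_nonneg y))
    exact nonneg_of_mul_nonneg_right h1 h

theorem b1c_T (a k c p r s : ℝ) (ha : 0 ≤ a) (hk : k ^ 2 ≤ a * c) :
    0 ≤ a ^ 2 * p ^ 2 + 2 * a * c * r ^ 2 + c ^ 2 * s ^ 2 + 2 * k ^ 2 * (p * s + r ^ 2) +
      4 * k * r * (a * p + c * s) := by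
  rcases ha.eq_or_lt with h | h
  · have hk0 : k = 0 := by
      rw [← h, zero_mul] at hk
      exact pow_eq_zero_iff (two_ne_zero) |>.1 (le_antisymm hk (sq_nonneg k))
    rw [hk0, ← h]
    have : 0 ≤ c ^ 2 * s ^ 2 := mul_nonneg (sq_nonneg c) (sq_nonneg s)
    linarith
  · have h1 : 0 ≤ a ^ 2 * (a ^ 2 * p ^ 2 + 2 * a * c * r ^ 2 + c ^ 2 * s ^ 2 +
        2 * k ^ 2 * (p * s + r ^ 2) + 4 * k * r * (a * p + c * s)) := by
      have : a ^ 2 * (a ^ 2 * p ^ 2 + 2 * a * c * r ^ 2 + c ^ 2 * s ^ 2 +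
        2 * k ^ 2 * (p * s + r ^ 2) + 4 * k * r * (a * p + c * s)) =
          (a ^ 2 * p + 2 * a * k * r + k ^ 2 * s) ^ 2 +
            2 * (a * c - k ^ 2) * (a * r + k * s) ^ 2 + (a * c - k ^ 2) ^ 2 * s ^ 2 := by ring
      rw [this]
      have h2 : 0 ≤ 2 * (a * c - k ^ 2) := by linarith
      positivity
    exact nonneg_of_mul_nonneg_right h1 (by positivity)

/-- ROW B1c too (same file, same row). Pure inequality. `H = (h, k, l)` with `-H ≥ 1`, `M = (p, r, s)` symmetric. Identity: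
 (h s + l p - 2 k r)² = tr((adj H · M)²) + 2 (p s - r²)(h l - k²) and tr((adj H M)²) ≥ p² + 2 r² + s² (adj(-H) ≥ 1, G := adj(-H) = (g1, g2; g2, g3), g1 = -l, g3 = -h, g2 = k;
 tr(GMGM) = g1² p² + 2 g2² (p s + r²)·.. + g3² s² + 2 (g1 g3) r² + 4 g2 r (g1 p + g3 s); G = 1 + K, K = (a, g2; g2, c) psd: tr(GMGM) = tr(M²) + 2 tr(K M²) + tr(KMKM), and
 tr(KMKM) = tr((√K M √K)²) ≥ 0, tr(K M²) ≥ 0). For K psd 2×2: tr(K M²) = a(p²+r²) + 2 g2 r(p+s) + c(r²+s²) ≥ 0 and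
 tr(KMKM) = a²p² + c²s² + 2acr² + 2g2²(ps + r²) + 4 g2 r(ap + cs)·: write as (a p + 2 g2 r + c s)² - 2 (ac - g2²)(p s - r²) and compare; nlinarith or a direct proof is fine. -/
theorem hess_ineq (h k l p r s : ℝ) (h1 : h ≤ -1) (h2 : l ≤ -1) (h3 : k ^ 2 ≤ (h + 1) * (l + 1)) :
    p ^ 2 + 2 * r ^ 2 + s ^ 2 + 2 * (p * s - r ^ 2) * (h * l - k ^ 2) ≤
      (h * s + l * p - 2 * k * r) ^ 2 := by
  have ha : 0 ≤ -l - 1 := by linarith
  have hc : 0 ≤ -h - 1 := by linarith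
  have hk : k ^ 2 ≤ (-l - 1) * (-h - 1) := by nlinarith
  have q1 := b1c_Q (-l - 1) k (-h - 1) p r ha hc hk
  have q2 := b1c_Q (-l - 1) k (-h - 1) r s ha hc hk
  have q3 := b1c_T (-l - 1) k (-h - 1) p r s ha hk
  have e : (h * s + l * p - 2 * k * r) ^ 2 -
      (p ^ 2 + 2 * r ^ 2 + s ^ 2 + 2 * (p * s - r ^ 2) * (h * l - k ^ 2)) =
      2 * (((-l - 1) * p ^ 2 + 2 * k * p * r + (-h - 1) * r ^ 2) +
        ((-l - 1) * r ^ 2 + 2 * k * r * s + (-h - 1) * s ^ 2)) +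
      ((-l - 1) ^ 2 * p ^ 2 + 2 * (-l - 1) * (-h - 1) * r ^ 2 + (-h - 1) ^ 2 * s ^ 2 +
        2 * k ^ 2 * (p * s + r ^ 2) + 4 * k * r * ((-l - 1) * p + (-h - 1) * s)) := by
    ring
  linarith

end Pool.Agent.PPH
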