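import Pool.Agent.PPH.A1e
import Pool.Agent.PPH.A2c
import Pool.Agent.PPH.B1a
import Pool.Agent.PPH.B1b

/-!
ROW B2 (1 h). Sublevel sets in the square. Fix d, k ≥ 1, s. Let N be the number of `zeros_line (d + 3 * k)`, K1 the constant of `sublevel1 k`.
Let f have totalDegree ≤ d, F := (Ds s)^[k] f = Dv (1,s) k f (Ds_iterate), totalDegree ≤ d + 3k (deg_Ds).
(1) Coordinates y = (r, v + s r): the map Φ (v, r) = (r, v + r s) of ℝ × ℝ is a measurable bijection preserving the volume (swap + shear; e.g. volume E = ∫⁻ r, volume {u | (r,u) ∈ E}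
 = ∫⁻ r, volume {v | (r, v + r s) ∈ E} (translation invariance) = ∫⁻ v, volume {r | (r, v + r s) ∈ E} (lintegral_lintegral_swap)), so
 volume E = ∫⁻ v, volume {r | (0 + r * 1, v + r * s) ∈ E}, for E = the (measurable: measurable_ev, measurableSet_BB) set of the statement.
(2) The sections are empty unless |v| ≤ 1/4 + s/4 (|r| ≤ 1/4), a set of v of measure ≤ 1/2 + s/2.
(3) For fixed v let I = {r | (0 + r * 1, v + r * s) ∈ BB} (OrdConnected: an intersection of preimages of intervals under monotone maps, or convexity), Fr r = ev F (0 + r*1, v + r*s),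
 continuous on I (continuousOn_ev, BB_sub_disc). zeros_line for F - C β and F + C β (totalDegree ≤ d + 3k) on the line with base point (0,v) and direction (1,s) ≠ 0 gives the hypotheses
 h1, h2 of `pieces`; S = {r | |ev f (..)| ≤ α}, M = ofReal (K1 (α/β)^(1/k)): for J OrdConnected in I with Fr ≥ β or Fr ≤ -β on J apply `sublevel1` with h i r = ev (Dv (1,s) i f) (..)
 (hasDerivAt_Dv; Dv_zero). So the section has measure ≤ (2N+2) M.
 Total: (1/2 + s/2) (2N+2) K1 (α/β)^(1/k).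
-/

namespace Pool.Agent.PPH

open MeasureTheory Set MvPolynomial
open scoped ENNReal Real

/-- the sheared Fubini formula -/
theorem b2_fubini (s : ℕ) (E : Set (ℝ × ℝ)) (hE : MeasurableSet E) :
    volume E = ∫⁻ v : ℝ, volume {r : ℝ | (0 + r * 1, v + r * (s : ℝ)) ∈ E} := by
  have h1 : MeasurePreserving (fun p : ℝ × ℝ => (id p.1, p.2 + p.1 * (s : ℝ)))
      ((volume : Measure ℝ).prod volume) ((volume : Measure ℝ).prod volume) := by
    refine (MeasurePreserving.id volume).skew_product (g := fun r v => v + r * (s : ℝ)) ?_ ?_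
    · exact Measurable.add measurable_snd (measurable_fst.mul_const _)
    · exact Filter.Eventually.of_forall fun r => (measurePreserving_add_right volume _).map_eq
  have h2 : MeasurePreserving (Prod.swap : ℝ × ℝ → ℝ × ℝ)
      ((volume : Measure ℝ).prod volume) ((volume : Measure ℝ).prod volume) :=
    Measure.measurePreserving_swap
  have h3 := h1.comp h2
  have h4 := h3.measure_preimage hE.nullMeasurableSet
  rw [Measure.volume_eq_prod, ← h4, Measure.prod_apply (h3.measurable hE)]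
  refine lintegral_congr fun v => ?_
  congr 1
  ext r
  simp [Function.comp]

/-- the section bound -/
theorem b2_section (d k s : ℕ) (hk : 1 ≤ k) : ∃ K : ℝ, 0 < K ∧ ∀ f : RR, f.totalDegree ≤ d →
    ∀ α β : ℝ, 0 ≤ α → 0 < β → ∀ v : ℝ,
    volume {r : ℝ | (0 + r * 1, v + r * (s : ℝ)) ∈ BB ∧
        |ev f (0 + r * 1, v + r * (s : ℝ))| ≤ α ∧
        β ≤ |ev ((Ds s)^[k] f) (0 + r * 1, v + r * (s : ℝ))|} ≤
      ENNReal.ofReal (K * (α / β) ^ (1 / (k : ℝ))) := by
  obtain ⟨N, hN⟩ := zeros_line (d + 3 * k)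
  obtain ⟨K1, hK1, hsub⟩ := sublevel1 k hk
  refine ⟨(2 * N + 2) * K1, by positivity, ?_⟩
  intro f hf α β hα hβ v
  set F : RR := (Ds s)^[k] f with hF
  have hFd : F.totalDegree ≤ d + 3 * k := (deg_Ds s k f).trans (by omega)
  have hdir : ((1 : ℝ), (s : ℝ)) ≠ 0 := by
    intro h
    have := congrArg Prod.fst h
    simp at this
  let I : Set ℝ := {r | (0 + r * 1, v + r * (s : ℝ)) ∈ BB}
  let Fr : ℝ → ℝ := fun r => ev F (0 + r * 1, v + r * (s : ℝ))
  have hI : I.OrdConnected := by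
    refine ⟨fun a ha b hb r hr => ?_⟩
    obtain ⟨⟨a1, a2⟩, ⟨a3, a4⟩⟩ := ha
    obtain ⟨⟨b1, b2⟩, ⟨b3, b4⟩⟩ := hb
    obtain ⟨r1, r2⟩ := hr
    have hs : (0 : ℝ) ≤ s := Nat.cast_nonneg s
    have c1 : a * (s : ℝ) ≤ r * s := mul_le_mul_of_nonneg_right r1 hs
    have c2 : r * (s : ℝ) ≤ b * s := mul_le_mul_of_nonneg_right r2 hs
    simp only at a1 a2 a3 a4 b1 b2 b3 b4
    refine ⟨⟨?_, ?_⟩, ⟨?_, ?_⟩⟩ <;> simp only <;> linarith
  have hcont : ContinuousOn Fr I := by
    refine (continuousOn_ev F).comp (f := fun r : ℝ => (0 + r * 1, v + r * (s : ℝ)))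
      (by fun_prop) ?_
    intro r hr
    exact BB_sub_disc hr
  have hz : ∀ c : ℝ, ∃ Z : Finset ℝ, (∀ r ∈ I, Fr r = c) ∨
      (Z.card ≤ N ∧ ∀ r ∈ I, Fr r = c → r ∈ Z) := by
    intro c
    have hd : (F - C c).totalDegree ≤ d + 3 * k := by
      refine (MvPolynomial.totalDegree_sub F (C c)).trans ?_
      rw [MvPolynomial.totalDegree_C]
      simpa using hFd
    rcases hN (F - C c) hd ((0 : ℝ), v) ((1 : ℝ), (s : ℝ)) hdir with h | ⟨Z, hZ, h⟩
    · refine ⟨∅, Or.inl fun r hr => ?_⟩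
      have h1 := h r hr
      rw [ev_sub, ev_C] at h1
      exact sub_eq_zero.1 h1
    · refine ⟨Z, Or.inr ⟨hZ, fun r hr hc => h r hr ?_⟩⟩
      rw [ev_sub, ev_C]
      exact sub_eq_zero.2 hc
  obtain ⟨Z1, hZ1⟩ := hz β
  obtain ⟨Z2, hZ2⟩ := hz (-β)
  have key := pieces I hI Fr hcont β hβ N Z1 Z2 hZ1 hZ2
    {r | |ev f (0 + r * 1, v + r * (s : ℝ))| ≤ α}
    (ENNReal.ofReal (K1 * (α / β) ^ (1 / (k : ℝ)))) (by
      intro J hJ hJI hJF
      have h1 := hsub J hJ (fun i r => ev (Dv ((1 : ℝ), (s : ℝ)) i f) (0 + r * 1, v + r * (s : ℝ)))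
        (fun i _ r hr => hasDerivAt_Dv f ((0 : ℝ), v) ((1 : ℝ), (s : ℝ)) i r
          (BB_sub_disc (hJI hr))) α β hα hβ (by
          simp only [← Ds_iterate]
          exact hJF)
      simp only [Dv_zero] at h1
      exact h1)
  have hle : volume {r : ℝ | (0 + r * 1, v + r * (s : ℝ)) ∈ BB ∧
        |ev f (0 + r * 1, v + r * (s : ℝ))| ≤ α ∧
        β ≤ |ev F (0 + r * 1, v + r * (s : ℝ))|} ≤
      volume ({r ∈ I | β ≤ |Fr r|} ∩ {r | |ev f (0 + r * 1, v + r * (s : ℝ))| ≤ α}) := by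
    apply measure_mono
    rintro r ⟨h1, h2, h3⟩
    exact ⟨⟨h1, h3⟩, h2⟩
  refine hle.trans (key.trans (le_of_eq ?_))
  rw [← ENNReal.ofReal_natCast, ← ENNReal.ofReal_mul (by positivity)]
  congr 1
  push_cast
  ring

theorem sublevel2 (d k s : ℕ) (hk : 1 ≤ k) : ∃ K : ℝ, 0 < K ∧ ∀ f : RR, f.totalDegree ≤ d →
    ∀ α β : ℝ, 0 ≤ α → 0 < β →
    volume {y : ℝ × ℝ | y ∈ BB ∧ |ev f y| ≤ α ∧ β ≤ |ev ((Ds s)^[k] f) y|} ≤
      ENNReal.ofReal (K * (α / β) ^ (1 / (k : ℝ))) := by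
  obtain ⟨K2, hK2, hsec⟩ := b2_section d k s hk
  have hs : (0 : ℝ) ≤ s := Nat.cast_nonneg s
  refine ⟨K2 * (1 / 2 + s / 2), by positivity, ?_⟩
  intro f hf α β hα hβ
  have hE : MeasurableSet {y : ℝ × ℝ | y ∈ BB ∧ |ev f y| ≤ α ∧ β ≤ |ev ((Ds s)^[k] f) y|} := by
    refine measurableSet_BB.inter (MeasurableSet.inter ?_ ?_)
    · exact measurableSet_le (continuous_abs.measurable.comp (measurable_ev f)) measurable_const
    · exact measurableSet_le measurable_const (continuous_abs.measurable.comp (measurable_ev _))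
  rw [b2_fubini s _ hE]
  set M : ℝ≥0∞ := ENNReal.ofReal (K2 * (α / β) ^ (1 / (k : ℝ))) with hM
  have h1 : ∀ v : ℝ, volume {r : ℝ | (0 + r * 1, v + r * (s : ℝ)) ∈
      {y : ℝ × ℝ | y ∈ BB ∧ |ev f y| ≤ α ∧ β ≤ |ev ((Ds s)^[k] f) y|}} ≤
      (Icc (-(1 / 4 + (s : ℝ) / 4)) (1 / 4 + (s : ℝ) / 4)).indicator (fun _ => M) v := by
    intro v
    by_cases hv : v ∈ Icc (-(1 / 4 + (s : ℝ) / 4)) (1 / 4 + (s : ℝ) / 4)
    · rw [indicator_of_mem hv]
      exact hsec f hf α β hα hβ v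
    · rw [indicator_of_notMem hv]
      refine le_of_eq (measure_mono_null (t := ∅) ?_ measure_empty)
      rintro r ⟨⟨⟨h1, h2⟩, ⟨h3, h4⟩⟩, _⟩
      apply hv
      simp only at h1 h2 h3 h4
      constructor
      · nlinarith
      · nlinarith
  refine (lintegral_mono h1).trans (le_of_eq ?_)
  rw [lintegral_indicator_const measurableSet_Icc, Real.volume_Icc, hM,
    ← ENNReal.ofReal_mul (by positivity)]
  congr 1
  ring

end Pool.Agent.PPH
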