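import Mathlib

/-!
ROW B3a (0.9 h). Area inequality for an at most N-to-one map of the plane.
Proof. Every y ∈ A has an open neighbourhood U_y on which f is injective (HasStrictFDerivAt with invertible derivative, as |det| ≥ δ > 0:
 `HasStrictFDerivAt.toOpenPartialHomeomorph` / `HasStrictFDerivAt.approximates_deriv_on_open_nhds` + injectivity). By the Lindelof property (TopologicalSpace.isOpen_iUnion_countable,
 or `TopologicalSpace.countable_cover_nhds`) countably many U_j cover A; let A_j = A ∩ (disjointed U) j: measurable, pairwise disjoint, union A, f injective on A_j.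
 `MeasureTheory.lintegral_abs_det_fderiv_eq_addHaar_image`: ∫⁻ y in A_j, ofReal |det f'| = volume (f '' A_j), so ofReal δ * volume A_j ≤ volume (f '' A_j), and f '' A_j is measurable
 (MeasureTheory.measurable_image_of_fderivWithin). Sum: ofReal δ * volume A ≤ ∑' j, volume (f '' A_j) = ∫⁻ z, ∑' j, indicator (f '' A_j) 1 z ≤ ∫⁻ z in T, N, because f '' A_j ⊆ T and for every z
 at most N indices j have z ∈ f '' A_j (the preimages lie in disjoint sets A_j, so they are different; if N+1 indices existed we would get a Finset Z of card N+1).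
-/

namespace Pool.Agent.PPH

open MeasureTheory Set
open scoped ENNReal Real

private theorem b3a_loc (f : ℝ × ℝ → ℝ × ℝ) (L : ℝ × ℝ →L[ℝ] ℝ × ℝ) (y : ℝ × ℝ)
    (hf : HasStrictFDerivAt f L y) (hd : L.det ≠ 0) :
    ∃ U : Set (ℝ × ℝ), IsOpen U ∧ y ∈ U ∧ InjOn f U := by
  have h1 : HasStrictFDerivAt f
      ((L.toContinuousLinearEquivOfDetNeZero hd : (ℝ × ℝ) ≃L[ℝ] (ℝ × ℝ)) :
        ℝ × ℝ →L[ℝ] ℝ × ℝ) y := by
    rw [ContinuousLinearMap.coe_toContinuousLinearEquivOfDetNeZero]
    exact hf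
  refine ⟨(h1.toOpenPartialHomeomorph f).source, (h1.toOpenPartialHomeomorph f).open_source,
    h1.mem_toOpenPartialHomeomorph_source, ?_⟩
  have h2 := (h1.toOpenPartialHomeomorph f).injOn
  rwa [h1.toOpenPartialHomeomorph_coe] at h2

private theorem b3a_count (f : ℝ × ℝ → ℝ × ℝ) (A : Set (ℝ × ℝ)) (V : ℕ → Set (ℝ × ℝ))
    (hV : Pairwise fun i j => Disjoint (V i) (V j)) (N : ℕ) (z : ℝ × ℝ)
    (hN : ∀ Z : Finset (ℝ × ℝ), (∀ y ∈ Z, y ∈ A ∧ f y = z) → Z.card ≤ N) :
    ∑' j, (f '' (A ∩ V j)).indicator (fun _ => (1 : ℝ≥0∞)) z ≤ N := by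
  classical
  rw [ENNReal.tsum_eq_iSup_sum]
  refine iSup_le fun s => ?_
  have h1 : ∑ j ∈ s, (f '' (A ∩ V j)).indicator (fun _ => (1 : ℝ≥0∞)) z =
      ((s.filter fun j => z ∈ f '' (A ∩ V j)).card : ℝ≥0∞) := by
    rw [Finset.card_filter]
    push_cast
    refine Finset.sum_congr rfl fun j _ => ?_
    rw [indicator_apply]
  rw [h1]
  have h2 : ∀ j : ℕ, ∃ y : ℝ × ℝ, z ∈ f '' (A ∩ V j) → y ∈ A ∩ V j ∧ f y = z := by
    intro j
    by_cases h : z ∈ f '' (A ∩ V j)
    · obtain ⟨y, hy, hy2⟩ := h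
      exact ⟨y, fun _ => ⟨hy, hy2⟩⟩
    · exact ⟨0, fun h' => absurd h' h⟩
  choose g hg using h2
  have h3 : ((s.filter fun j => z ∈ f '' (A ∩ V j)).image g).card =
      (s.filter fun j => z ∈ f '' (A ∩ V j)).card := by
    apply Finset.card_image_of_injOn
    intro i hi j hj hij
    have hi' := hg i (Finset.mem_filter.1 hi).2
    have hj' := hg j (Finset.mem_filter.1 hj).2
    by_contra hne
    have hij' : g i = g j := hij
    exact Set.disjoint_left.1 (hV hne) hi'.1.2 (hij' ▸ hj'.1.2)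
  have h4 := hN ((s.filter fun j => z ∈ f '' (A ∩ V j)).image g) (by
    intro y hy
    obtain ⟨j, hj, rfl⟩ := Finset.mem_image.1 hy
    have hj' := hg j (Finset.mem_filter.1 hj).2
    exact ⟨hj'.1.1, hj'.2⟩)
  rw [h3] at h4
  exact_mod_cast h4

theorem area_ineq (f : ℝ × ℝ → ℝ × ℝ) (f' : ℝ × ℝ → ℝ × ℝ →L[ℝ] ℝ × ℝ) (A T : Set (ℝ × ℝ)) (N : ℕ)
    (δ : ℝ) (hδ : 0 < δ) (hA : MeasurableSet A) (hT : MeasurableSet T)
    (hf : ∀ y ∈ A, HasStrictFDerivAt f (f' y) y) (hdet : ∀ y ∈ A, δ ≤ |(f' y).det|)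
    (hmaps : MapsTo f A T)
    (hN : ∀ z, ∀ Z : Finset (ℝ × ℝ), (∀ y ∈ Z, y ∈ A ∧ f y = z) → Z.card ≤ N) :
    ENNReal.ofReal δ * volume A ≤ N * volume T := by
  classical
  rcases A.eq_empty_or_nonempty with hAe | hAn
  · rw [hAe, measure_empty, mul_zero]
    exact bot_le
  have hloc : ∀ y : ℝ × ℝ, ∃ U : Set (ℝ × ℝ), y ∈ A → IsOpen U ∧ y ∈ U ∧ InjOn f U := by
    intro y
    by_cases hy : y ∈ A
    · have hd : (f' y).det ≠ 0 := by
        intro h0
        have := hdet y hy
        rw [h0, abs_zero] at this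
        linarith
      obtain ⟨U, hU⟩ := b3a_loc f (f' y) y (hf y hy) hd
      exact ⟨U, fun _ => hU⟩
    · exact ⟨∅, fun h => absurd h hy⟩
  choose U hU using hloc
  obtain ⟨t, htA, htc, htU⟩ := TopologicalSpace.countable_cover_nhdsWithin (f := U) (s := A)
    (fun y hy => mem_nhdsWithin_of_mem_nhds ((hU y hy).1.mem_nhds (hU y hy).2.1))
  have htn : t.Nonempty := by
    obtain ⟨y, hy⟩ := hAn
    obtain ⟨x, hx⟩ := Set.mem_iUnion.1 (htU hy)
    obtain ⟨hx1, -⟩ := Set.mem_iUnion.1 hx
    exact ⟨x, hx1⟩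
  obtain ⟨u, hu⟩ := htc.exists_eq_range htn
  have huA : ∀ j, u j ∈ A := fun j => htA (hu ▸ Set.mem_range_self j)
  have hVm : ∀ j, MeasurableSet (disjointed (fun j => U (u j)) j) := fun j =>
    MeasurableSet.disjointed (fun i => (hU _ (huA i)).1.measurableSet) j
  have hVd : Pairwise fun i j => Disjoint (disjointed (fun j => U (u j)) i)
      (disjointed (fun j => U (u j)) j) := disjoint_disjointed _
  have hVU : ∀ j, disjointed (fun j => U (u j)) j ⊆ U (u j) := fun j => disjointed_subset _ j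
  have hAV : A = ⋃ j, A ∩ disjointed (fun j => U (u j)) j := by
    rw [← Set.inter_iUnion, iUnion_disjointed]
    refine (Set.inter_eq_left.2 ?_).symm
    intro y hy
    obtain ⟨x, hx⟩ := Set.mem_iUnion.1 (htU hy)
    obtain ⟨hx1, hx2⟩ := Set.mem_iUnion.1 hx
    rw [hu] at hx1
    obtain ⟨j, rfl⟩ := hx1
    exact Set.mem_iUnion.2 ⟨j, hx2⟩
  have hAm : ∀ j, MeasurableSet (A ∩ disjointed (fun j => U (u j)) j) := fun j =>
    hA.inter (hVm j)
  have hinj : ∀ j, InjOn f (A ∩ disjointed (fun j => U (u j)) j) := fun j =>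
    (hU _ (huA j)).2.2.mono (inter_subset_right.trans (hVU j))
  have hder : ∀ j, ∀ y ∈ A ∩ disjointed (fun j => U (u j)) j,
      HasFDerivWithinAt f (f' y) (A ∩ disjointed (fun j => U (u j)) j) y := fun j y hy =>
    (hf y hy.1).hasFDerivAt.hasFDerivWithinAt
  have himm : ∀ j, MeasurableSet (f '' (A ∩ disjointed (fun j => U (u j)) j)) := fun j =>
    measurable_image_of_fderivWithin (hAm j) (hder j) (hinj j)
  have hstep : ∀ j, ENNReal.ofReal δ * volume (A ∩ disjointed (fun j => U (u j)) j) ≤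
      volume (f '' (A ∩ disjointed (fun j => U (u j)) j)) := by
    intro j
    rw [← lintegral_abs_det_fderiv_eq_addHaar_image volume (hAm j) (hder j) (hinj j),
      ← setLIntegral_const]
    exact setLIntegral_mono' (hAm j) fun y hy => ENNReal.ofReal_le_ofReal (hdet y hy.1)
  have hvol : volume A = ∑' j, volume (A ∩ disjointed (fun j => U (u j)) j) := by
    conv_lhs => rw [hAV]
    exact measure_iUnion (fun i j hij => (hVd hij).mono inter_subset_right inter_subset_right) hAm
  rw [hvol, ← ENNReal.tsum_mul_left]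
  calc ∑' j, ENNReal.ofReal δ * volume (A ∩ disjointed (fun j => U (u j)) j)
      ≤ ∑' j, volume (f '' (A ∩ disjointed (fun j => U (u j)) j)) :=
        ENNReal.tsum_le_tsum hstep
    _ = ∑' j, ∫⁻ z, (f '' (A ∩ disjointed (fun j => U (u j)) j)).indicator
          (fun _ => (1 : ℝ≥0∞)) z := by
        refine tsum_congr fun j => ?_
        rw [lintegral_indicator (himm j), setLIntegral_one]
    _ = ∫⁻ z, ∑' j, (f '' (A ∩ disjointed (fun j => U (u j)) j)).indicator
          (fun _ => (1 : ℝ≥0∞)) z := by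
        rw [lintegral_tsum]
        intro j
        exact (measurable_const.indicator (himm j)).aemeasurable
    _ ≤ ∫⁻ z, T.indicator (fun _ => (N : ℝ≥0∞)) z := by
        refine lintegral_mono fun z => ?_
        by_cases hz : z ∈ T
        · rw [indicator_of_mem hz]
          exact b3a_count f A _ hVd N z (hN z)
        · rw [indicator_of_notMem hz]
          refine le_of_eq ?_
          rw [ENNReal.tsum_eq_zero]
          intro j
          rw [indicator_of_notMem]
          rintro ⟨y, hy, rfl⟩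
          exact hz (hmaps hy.1)
    _ = N * volume T := by
        rw [lintegral_indicator hT, setLIntegral_const]

end Pool.Agent.PPH
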