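import Pool.Agent.PPH.A1f
import Pool.Agent.PPH.A1d
import Pool.Agent.PPH.A7d
import Pool.Agent.PPH.B3a

/-!
ROW B3b (0.8 h). The area of the set where the gradient lies in a given square and the Hessian determinant is large.
Let N be the number of `multiplicity (d + 3)`. f y = (ev (D1 q) y, ev (D2 q) y), A = the set of the statement (measurable: measurable_ev, measurableSet_BB), T = the closed square with
centre g and half side ρ, volume T = (2ρ)^2. Strict derivative from hasStrictFDerivAt_ev (BB ⊆ disc, HasStrictFDerivAt.prodMk):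
 f' y v = (v.1 ev(D1 D1 q) y + v.2 ev(D2 D1 q) y, v.1 ev(D1 D2 q) y + v.2 ev(D2 D2 q) y); its determinant is ev (hd q) y: D1 (D1 q) = DD 2 0 q (rfl), D2 (D2 q) = DD 0 2 q (rfl),
 D1 (D2 q) = DD 1 1 q (rfl) = D2 (D1 q) (D_comm). [determinant of a continuous linear map of ℝ × ℝ: LinearMap.det_toLin with the basis Basis.finTwoProd, see hint:
 `fSm`, `det_fSm` in origin/main:Pool/Agent/MP_6cbfb8_an/Planar.lean: write f' y as LinearMap.toContinuousLinearMap (Matrix.toLin (Basis.finTwoProd ℝ) (Basis.finTwoProd ℝ) !![..]).]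
 hN: f y = z ∈ ℝ × ℝ means that y is a common zero of f1 = D1 q - C z.1, f2 = D2 q - C z.2 (totalDegree ≤ d + 3), with nonzero Jacobian
 D1 f1 * D2 f2 - D2 f1 * D1 f2 = hd q (D_comm). So area_ineq: δ volume A ≤ N (2ρ)^2. K = 4 N + 1.
-/

namespace Pool.Agent.PPH

open MeasureTheory Set MvPolynomial
open scoped ENNReal Real

lemma b3b_det (a b c d : ℝ) :
    ((a • ContinuousLinearMap.fst ℝ ℝ ℝ + b • ContinuousLinearMap.snd ℝ ℝ ℝ).prod
      (c • ContinuousLinearMap.fst ℝ ℝ ℝ + d • ContinuousLinearMap.snd ℝ ℝ ℝ)).det =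
      a * d - b * c := by
  have h1 : (((a • ContinuousLinearMap.fst ℝ ℝ ℝ + b • ContinuousLinearMap.snd ℝ ℝ ℝ).prod
      (c • ContinuousLinearMap.fst ℝ ℝ ℝ + d • ContinuousLinearMap.snd ℝ ℝ ℝ) :
        ℝ × ℝ →L[ℝ] ℝ × ℝ) : ℝ × ℝ →ₗ[ℝ] ℝ × ℝ) =
      Matrix.toLin (Module.Basis.finTwoProd ℝ) (Module.Basis.finTwoProd ℝ) !![a, b; c, d] := by
    rw [Matrix.toLin_finTwoProd]
    rfl
  unfold ContinuousLinearMap.det
  rw [h1, LinearMap.det_toLin, Matrix.det_fin_two_of]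

lemma b3b_hd (q : RR) (y : ℝ × ℝ) : ev (D1 (D1 q)) y * ev (D2 (D2 q)) y -
    ev (D2 (D1 q)) y * ev (D1 (D2 q)) y = ev (hd q) y := by
  have h1 : hd q = D1 (D1 q) * D2 (D2 q) - D1 (D2 q) ^ 2 := rfl
  rw [h1, ev_sub, ev_mul, ev_pow, ← D_comm]
  ring

lemma b3b_C1 (c : ℝ) : D1 (C c) = 0 := by
  have := D1.map_algebraMap c
  simpa using this

lemma b3b_C2 (c : ℝ) : D2 (C c) = 0 := by
  have := D2.map_algebraMap c
  simpa using this

theorem area2 (d : ℕ) : ∃ K : ℝ, 0 < K ∧ ∀ q : RR, q.totalDegree ≤ d →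
    ∀ (g : ℝ × ℝ) (ρ δ : ℝ), 0 ≤ ρ → 0 < δ →
    volume {y : ℝ × ℝ | y ∈ BB ∧ |ev (D1 q) y - g.1| ≤ ρ ∧ |ev (D2 q) y - g.2| ≤ ρ ∧
      δ ≤ |ev (hd q) y|} ≤ ENNReal.ofReal (K * ρ ^ 2 / δ) := by
  obtain ⟨N, hN⟩ := multiplicity (d + 3)
  refine ⟨4 * N + 1, by positivity, fun q hq g ρ δ hρ hδ => ?_⟩
  set A : Set (ℝ × ℝ) := {y : ℝ × ℝ | y ∈ BB ∧ |ev (D1 q) y - g.1| ≤ ρ ∧
    |ev (D2 q) y - g.2| ≤ ρ ∧ δ ≤ |ev (hd q) y|} with hAdef
  have hA : MeasurableSet A := by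
    have e1 : MeasurableSet {y : ℝ × ℝ | |ev (D1 q) y - g.1| ≤ ρ} :=
      measurableSet_le (measurable_norm.comp ((measurable_ev _).sub_const _)) measurable_const
    have e2 : MeasurableSet {y : ℝ × ℝ | |ev (D2 q) y - g.2| ≤ ρ} :=
      measurableSet_le (measurable_norm.comp ((measurable_ev _).sub_const _)) measurable_const
    have e3 : MeasurableSet {y : ℝ × ℝ | δ ≤ |ev (hd q) y|} :=
      measurableSet_le measurable_const (measurable_norm.comp (measurable_ev _))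
    exact measurableSet_BB.inter (e1.inter (e2.inter e3))
  have hT : MeasurableSet (Icc (g.1 - ρ) (g.1 + ρ) ×ˢ Icc (g.2 - ρ) (g.2 + ρ)) :=
    measurableSet_Icc.prod measurableSet_Icc
  have key := area_ineq (fun y => (ev (D1 q) y, ev (D2 q) y))
    (fun y => (ev (D1 (D1 q)) y • ContinuousLinearMap.fst ℝ ℝ ℝ +
        ev (D2 (D1 q)) y • ContinuousLinearMap.snd ℝ ℝ ℝ).prod
      (ev (D1 (D2 q)) y • ContinuousLinearMap.fst ℝ ℝ ℝ +
        ev (D2 (D2 q)) y • ContinuousLinearMap.snd ℝ ℝ ℝ)) A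
    (Icc (g.1 - ρ) (g.1 + ρ) ×ˢ Icc (g.2 - ρ) (g.2 + ρ)) N δ hδ hA hT ?_ ?_ ?_ ?_
  · have hvol : volume (Icc (g.1 - ρ) (g.1 + ρ) ×ˢ Icc (g.2 - ρ) (g.2 + ρ)) =
        ENNReal.ofReal (4 * ρ ^ 2) := by
      rw [Measure.volume_eq_prod, Measure.prod_prod, Real.volume_Icc, Real.volume_Icc,
        ← ENNReal.ofReal_mul (by linarith)]
      congr 1
      ring
    rw [hvol] at key
    have h1 : (N : ℝ≥0∞) * ENNReal.ofReal (4 * ρ ^ 2) = ENNReal.ofReal (N * (4 * ρ ^ 2)) := by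
      rw [← ENNReal.ofReal_natCast, ← ENNReal.ofReal_mul (by positivity)]
    rw [h1] at key
    have h2 : volume A ≤ ENNReal.ofReal (N * (4 * ρ ^ 2)) / ENNReal.ofReal δ := by
      rw [ENNReal.le_div_iff_mul_le (Or.inl (by simpa using hδ)) (Or.inl ENNReal.ofReal_ne_top),
        mul_comm]
      exact key
    refine h2.trans ?_
    rw [← ENNReal.ofReal_div_of_pos hδ]
    apply ENNReal.ofReal_le_ofReal
    apply div_le_div_of_nonneg_right _ hδ.le
    nlinarith [sq_nonneg ρ]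
  · intro y hy
    have hyd : y ∈ disc := BB_sub_disc hy.1
    exact (hasStrictFDerivAt_ev (D1 q) y hyd).prodMk (hasStrictFDerivAt_ev (D2 q) y hyd)
  · intro y hy
    rw [b3b_det, b3b_hd]
    exact hy.2.2.2
  · intro y hy
    have h1 := abs_le.mp hy.2.1
    have h2 := abs_le.mp hy.2.2.1
    refine ⟨⟨?_, ?_⟩, ⟨?_, ?_⟩⟩
    · show g.1 - ρ ≤ ev (D1 q) y
      linarith [h1.1]
    · show ev (D1 q) y ≤ g.1 + ρ
      linarith [h1.2]
    · show g.2 - ρ ≤ ev (D2 q) y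
      linarith [h2.1]
    · show ev (D2 q) y ≤ g.2 + ρ
      linarith [h2.2]
  · intro z Z hZ
    refine hN (D1 q - C z.1) (D2 q - C z.2) ?_ ?_ Z ?_
    · refine (totalDegree_sub _ _).trans ?_
      rw [totalDegree_C]
      have := deg_D1 q
      omega
    · refine (totalDegree_sub _ _).trans ?_
      rw [totalDegree_C]
      have := deg_D2 q
      omega
    · intro y hy
      obtain ⟨hyA, hyz⟩ := hZ y hy
      have hz1 : ev (D1 q) y = z.1 := congrArg Prod.fst hyz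
      have hz2 : ev (D2 q) y = z.2 := congrArg Prod.snd hyz
      refine ⟨hyA.1, ?_, ?_, ?_⟩
      · rw [ev_sub, ev_C, hz1, sub_self]
      · rw [ev_sub, ev_C, hz2, sub_self]
      · rw [map_sub, map_sub, map_sub, map_sub, b3b_C1, b3b_C1, b3b_C2, b3b_C2, sub_zero,
          sub_zero, sub_zero, sub_zero, b3b_hd]
        intro h0
        have h3 := hyA.2.2.2
        rw [h0, abs_zero] at h3
        linarith

end Pool.Agent.PPH
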