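import Pool.Agent.PPH.A0
import Pool.Agent.PPH.A1d

/-!
ROW C0 (0.6 h). Basic facts about the phases q_t = qt c t = qq c + C t * X 2. All from the lemmas of A1d and A0.
`E1_qt`: E1 is linear (DD_add, DD_C_mul) and E1 (X 2) = DD 2 0 (X 2) * DD 0 2 (X 2) - DD 0 2 (X 2) * DD 2 0 (X 2) = 0 (ring). Same for E2.
`deg_qt`: every monomial X0^i X1^j X2^e of qq c has i, j ≤ D, e ≤ 1 (totalDegree_mul, totalDegree_finset_sum, totalDegree_X_pow ...).
`measurable_DD_qt`: by ev_DD_qt the function is ev (DD a b (qq c)) z.2 + z.1 * ev (DD a b (X 2)) z.2 (measurable_ev).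
-/

namespace Pool.Agent.PPH

open MeasureTheory Set MvPolynomial
open scoped ENNReal Real

theorem ev_DD_qt {D : ℕ} (c : Cf D) (t : ℝ) (a b : ℕ) (y : ℝ × ℝ) :
    ev (DD a b (qt c t)) y = ev (DD a b (qq c)) y + t * ev (DD a b (X 2)) y := by
  unfold qt
  rw [DD_add, DD_C_mul, ev_add, ev_mul, ev_C]

theorem measurable_DD_qt {D : ℕ} (c : Cf D) (a b : ℕ) :
    Measurable (fun z : ℝ × (ℝ × ℝ) => ev (DD a b (qt c z.1)) z.2) := by
  simp only [ev_DD_qt]
  exact ((measurable_ev _).comp measurable_snd).add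
    (measurable_fst.mul ((measurable_ev _).comp measurable_snd))

theorem measurable_hd_qt {D : ℕ} (c : Cf D) :
    Measurable (fun z : ℝ × (ℝ × ℝ) => ev (hd (qt c z.1)) z.2) := by
  have h : (fun z : ℝ × (ℝ × ℝ) => ev (hd (qt c z.1)) z.2) = fun z =>
      ev (DD 2 0 (qt c z.1)) z.2 * ev (DD 0 2 (qt c z.1)) z.2 -
        ev (DD 1 1 (qt c z.1)) z.2 ^ 2 := by
    funext z
    unfold hd
    rw [ev_sub, ev_mul, ev_pow]
  rw [h]
  exact ((measurable_DD_qt c 2 0).mul (measurable_DD_qt c 0 2)).sub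
    ((measurable_DD_qt c 1 1).pow_const 2)

theorem ev_hd_qt {D : ℕ} (c : Cf D) (t : ℝ) (y : ℝ × ℝ) :
    ev (hd (qt c t)) y = ev (DD 2 0 (qt c t)) y * ev (DD 0 2 (qt c t)) y -
      ev (DD 1 1 (qt c t)) y ^ 2 := by
  unfold hd
  rw [ev_sub, ev_mul, ev_pow]

theorem E1_qt {D : ℕ} (c : Cf D) (t : ℝ) : E1 (qt c t) = E1 (qq c) := by
  unfold E1 qt
  rw [DD_add, DD_C_mul, DD_add, DD_C_mul]
  ring

theorem E2_qt {D : ℕ} (c : Cf D) (t : ℝ) : E2 (qt c t) = E2 (qq c) := by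
  unfold E2 qt
  rw [DD_add, DD_C_mul, DD_add, DD_C_mul]
  ring

theorem deg_qq {D : ℕ} (c : Cf D) : (qq c).totalDegree ≤ 2 * D + 1 := by
  unfold qq
  refine totalDegree_finsetSum_le fun p _ => ?_
  have h1 := p.1.2
  have h2 := p.2.1.2
  have h3 := p.2.2.2
  refine (totalDegree_mul _ _).trans ?_
  rw [totalDegree_C, zero_add]
  refine (totalDegree_mul _ _).trans ?_
  have h4 : (X 0 ^ (p.1 : ℕ) * X 1 ^ (p.2.1 : ℕ) : RR).totalDegree ≤ p.1 + p.2.1 := by
    refine (totalDegree_mul _ _).trans ?_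
    rw [totalDegree_X_pow, totalDegree_X_pow]
  have h5 : (X 2 ^ (p.2.2 : ℕ) : RR).totalDegree = p.2.2 := totalDegree_X_pow _ _
  omega

theorem deg_qt {D : ℕ} (c : Cf D) (t : ℝ) : (qt c t).totalDegree ≤ 2 * D + 1 := by
  unfold qt
  refine (totalDegree_add _ _).trans (max_le (deg_qq c) ?_)
  refine (totalDegree_mul _ _).trans ?_
  rw [totalDegree_C, totalDegree_X]
  omega

theorem deg_E1 (f : RR) : (E1 f).totalDegree ≤ f.totalDegree + 13 := by
  unfold E1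
  have h1 := deg_DD 2 0 f
  have h2 := deg_DD 0 2 f
  have h3 := deg_DD 2 0 (X 2)
  have h4 := deg_DD 0 2 (X 2)
  rw [totalDegree_X] at h3 h4
  refine (totalDegree_sub _ _).trans (max_le ?_ ?_)
  · exact (totalDegree_mul _ _).trans (by omega)
  · exact (totalDegree_mul _ _).trans (by omega)

theorem deg_E2 (f : RR) : (E2 f).totalDegree ≤ f.totalDegree + 13 := by
  unfold E2
  have h1 := deg_DD 2 0 f
  have h2 := deg_DD 1 1 f
  have h3 := deg_DD 2 0 (X 2)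
  have h4 := deg_DD 1 1 (X 2)
  rw [totalDegree_X] at h3 h4
  refine (totalDegree_sub _ _).trans (max_le ?_ ?_)
  · exact (totalDegree_mul _ _).trans (by omega)
  · exact (totalDegree_mul _ _).trans (by omega)

/-- the set of `(t, y)` with `Bd` -/
theorem measurableSet_Bd {D : ℕ} (c : Cf D) (ε R : ℝ) :
    MeasurableSet {z : ℝ × (ℝ × ℝ) | Bd D ε R (qt c z.1) z.2} := by
  have h : {z : ℝ × (ℝ × ℝ) | Bd D ε R (qt c z.1) z.2} =
      ⋂ a : ℕ, ⋂ b : ℕ, {z : ℝ × (ℝ × ℝ) | 2 ≤ a + b → a + b ≤ JJ D →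
        |ev (DD a b (qt c z.1)) z.2| ≤ ε * R ^ (a + b)} := by
    ext z
    rw [Set.mem_iInter]
    simp only [Set.mem_iInter]
    exact Iff.rfl
  rw [h]
  refine MeasurableSet.iInter fun a => MeasurableSet.iInter fun b => ?_
  by_cases h1 : 2 ≤ a + b
  · by_cases h2 : a + b ≤ JJ D
    · have h3 : {z : ℝ × (ℝ × ℝ) | 2 ≤ a + b → a + b ≤ JJ D →
          |ev (DD a b (qt c z.1)) z.2| ≤ ε * R ^ (a + b)} =
          {z : ℝ × (ℝ × ℝ) | |ev (DD a b (qt c z.1)) z.2| ≤ ε * R ^ (a + b)} := by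
        ext z
        exact ⟨fun h => h h1 h2, fun h _ _ => h⟩
      rw [h3]
      exact measurableSet_le (measurable_DD_qt c a b).abs measurable_const
    · have h3 : {z : ℝ × (ℝ × ℝ) | 2 ≤ a + b → a + b ≤ JJ D →
          |ev (DD a b (qt c z.1)) z.2| ≤ ε * R ^ (a + b)} = Set.univ :=
        Set.eq_univ_of_forall fun z _ h => absurd h h2
      rw [h3]
      exact MeasurableSet.univ
  · have h3 : {z : ℝ × (ℝ × ℝ) | 2 ≤ a + b → a + b ≤ JJ D →
        |ev (DD a b (qt c z.1)) z.2| ≤ ε * R ^ (a + b)} = Set.univ :=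
      Set.eq_univ_of_forall fun z h => absurd h h1
    rw [h3]
    exact MeasurableSet.univ

end Pool.Agent.PPH
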