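import Pool.Agent.PPH.C0
import Pool.Agent.PPH.C1a

/-!
ROW C1b (1 h). The selected squares.
`Om_disjoint`: say m' < m. y ∈ sq m i, Sel D q m i, i ∈ idx m, and y ∈ sq m' j, Sel D q m' j: by anc_sq y ∈ sq m' (anc (m - m') i) (m - (m - m') = m'), so j = anc (m - m') i (sq_unique), and
 Sel D q m i says ¬ Bd D 1 (2^m') q (cor m' j), while Sel D q m' j gives Bd: contradiction.
`Om_cover`: let K bound |ev (DD a b (qt c t)) y| on BB for all a, b ≤ JJ D (ev_bdd, finitely many), M ≥ 2 with K ≤ 2^M. At level M every corner of a square in idx M is good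
 (|..| ≤ K ≤ 2^M ≤ (2^M)^(a+b)). For y ∈ BB0 let i_m be the square of level m containing y (exists_sq); let m be the least element of [2, M] with Bd D 1 (2^m) q (cor m i_m) (Nat.find); then Sel D q m i_m
 (ancestors of i_m containing y are the i_m': anc_sq, sq_unique). So BB0 = ⋃_{2 ≤ m ≤ M} Om. For m > M: Om m ⊆ BB0 is disjoint from all of these, so empty.
`Om_eq`: definition (filter with the classical decidability).
`measurableSet_OmT`: the set is the finite union over i ∈ idx m of {t | Sel D (qt c t) m i} ×ˢ sq m i, and {t | Bd D ε R (qt c t) y0} is measurable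
 (section of measurableSet_Bd, or t ↦ ev (DD a b (qt c t)) y0 is continuous by ev_DD_qt; countable intersections over a, b).
-/

namespace Pool.Agent.PPH

open MeasureTheory Set MvPolynomial
open scoped ENNReal Real

theorem Om_subset (D : ℕ) (q : RR) {m : ℕ} (hm : 2 ≤ m) : Om D q m ⊆ BB0 := by
  rintro y ⟨i, hi, -, hy⟩
  exact sq_subset hm hi hy

theorem c1b_lt (D : ℕ) (q : RR) {m m' : ℕ} (hm' : 2 ≤ m') (h : m' < m) :
    Disjoint (Om D q m) (Om D q m') := by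
  rw [Set.disjoint_left]
  rintro y ⟨i, hi, hs, hy⟩ ⟨j, hj, hs', hy'⟩
  have h1 : y ∈ sq (m - (m - m')) (anc (m - m') i) := anc_sq (Nat.sub_le _ _) hy
  rw [show m - (m - m') = m' by omega] at h1
  have h2 : j = anc (m - m') i := sq_unique hy' h1
  have h3 := hs.2 m' hm' h
  rw [← h2] at h3
  exact h3 hs'.1

theorem Om_disjoint (D : ℕ) (q : RR) {m m' : ℕ} (hm : 2 ≤ m) (hm' : 2 ≤ m') (h : m ≠ m') :
    Disjoint (Om D q m) (Om D q m') := by
  rcases lt_or_gt_of_ne h with h1 | h1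
  · exact (c1b_lt D q hm h1).symm
  · exact c1b_lt D q hm' h1

theorem c1b_good (D : ℕ) (q : RR) : ∃ M : ℕ, 2 ≤ M ∧ ∀ y ∈ BB, Bd D 1 (2 ^ M) q y := by
  choose K hK0 hK using fun p : ℕ × ℕ => ev_bdd (DD p.1 p.2 q)
  set s : Finset (ℕ × ℕ) := Finset.range (JJ D + 1) ×ˢ Finset.range (JJ D + 1) with hs
  obtain ⟨N, hN⟩ := pow_unbounded_of_one_lt (∑ p ∈ s, K p) (one_lt_two : (1 : ℝ) < 2)
  refine ⟨N + 2, by omega, fun y hy a b h2 hab => ?_⟩
  have h1 : K (a, b) ≤ ∑ p ∈ s, K p := by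
    refine Finset.single_le_sum (f := K) (fun p _ => (hK0 p).le) ?_
    rw [hs, Finset.mem_product, Finset.mem_range, Finset.mem_range]
    constructor <;> omega
  have h3 : (2 : ℝ) ^ N ≤ (2 ^ (N + 2)) ^ (a + b) := by
    rw [← pow_mul]
    refine pow_le_pow_right₀ one_le_two ?_
    nlinarith
  rw [one_mul]
  calc |ev (DD a b q) y| ≤ K (a, b) := hK (a, b) y hy
    _ ≤ ∑ p ∈ s, K p := h1
    _ ≤ 2 ^ N := hN.le
    _ ≤ _ := h3

theorem Om_cover (D : ℕ) (c : Cf D) (t : ℝ) : ∃ M : ℕ, 2 ≤ M ∧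
    (∀ m, M < m → Om D (qt c t) m = ∅) ∧ BB0 = ⋃ m ∈ Finset.Icc 2 M, Om D (qt c t) m := by
  classical
  obtain ⟨M, hM, hgood⟩ := c1b_good D (qt c t)
  have hcov : BB0 = ⋃ m ∈ Finset.Icc 2 M, Om D (qt c t) m := by
    apply Set.Subset.antisymm
    · intro y hy
      let P : ℕ → Prop := fun m => 2 ≤ m ∧ ∃ i ∈ idx m, y ∈ sq m i ∧
        Bd D 1 (2 ^ m) (qt c t) (cor m i)
      have hP : P M := by
        obtain ⟨i, hi, hyi⟩ := exists_sq hM hy
        exact ⟨hM, i, hi, hyi, hgood _ (cor_mem hM hi)⟩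
      have hex : ∃ m, P m := ⟨M, hP⟩
      obtain ⟨h2, i, hi, hyi, hbd⟩ := Nat.find_spec hex
      have hle : Nat.find hex ≤ M := Nat.find_min' hex hP
      refine Set.mem_iUnion₂.2 ⟨Nat.find hex, Finset.mem_Icc.2 ⟨h2, hle⟩, i, hi, ⟨hbd, ?_⟩, hyi⟩
      intro m' hm' hlt hbd'
      refine Nat.find_min hex hlt ⟨hm', anc (Nat.find hex - m') i, ?_, ?_, hbd'⟩
      · have h3 := anc_idx (m := Nat.find hex) (k := Nat.find hex - m') (by omega) hi
        rwa [show Nat.find hex - (Nat.find hex - m') = m' by omega] at h3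
      · have h3 := anc_sq (m := Nat.find hex) (k := Nat.find hex - m') (Nat.sub_le _ _) hyi
        rwa [show Nat.find hex - (Nat.find hex - m') = m' by omega] at h3
    · intro y hy
      obtain ⟨m, hm, hym⟩ := Set.mem_iUnion₂.1 hy
      exact Om_subset D _ (Finset.mem_Icc.1 hm).1 hym
  refine ⟨M, hM, fun m hm => ?_, hcov⟩
  rw [Set.eq_empty_iff_forall_notMem]
  intro y hy
  have h1 := Om_subset D _ (show 2 ≤ m by omega) hy
  rw [hcov] at h1
  obtain ⟨m', hm', hym'⟩ := Set.mem_iUnion₂.1 h1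
  have h2 := Finset.mem_Icc.1 hm'
  exact Set.disjoint_left.1 (Om_disjoint D (qt c t) (show 2 ≤ m by omega) h2.1 (by omega)) hy hym'

open Classical in
theorem Om_eq (D : ℕ) (q : RR) (m : ℕ) :
    Om D q m = ⋃ i ∈ (idx m).filter (fun i => Sel D q m i), sq m i := by
  ext y
  simp only [Set.mem_iUnion, Finset.mem_filter, exists_prop]
  constructor
  · rintro ⟨i, hi, hs, hy⟩
    exact ⟨i, ⟨hi, hs⟩, hy⟩
  · rintro ⟨i, ⟨hi, hs⟩, hy⟩
    exact ⟨i, hi, hs, hy⟩

theorem measurableSet_Om (D : ℕ) (q : RR) (m : ℕ) : MeasurableSet (Om D q m) := by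
  classical
  rw [Om_eq]
  exact Finset.measurableSet_biUnion _ fun i _ => measurableSet_sq m i

theorem c1b_Bd (D : ℕ) (c : Cf D) (ε R : ℝ) (y : ℝ × ℝ) :
    MeasurableSet {t : ℝ | Bd D ε R (qt c t) y} := by
  have h1 : Measurable fun t : ℝ => (t, y) := measurable_id.prodMk measurable_const
  exact h1 (measurableSet_Bd c ε R)

theorem c1b_Sel (D : ℕ) (c : Cf D) (m : ℕ) (i : ℤ × ℤ) :
    MeasurableSet {t : ℝ | Sel D (qt c t) m i} := by
  have h1 : {t : ℝ | Sel D (qt c t) m i} = {t : ℝ | Bd D 1 (2 ^ m) (qt c t) (cor m i)} ∩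
      ⋂ m' : ℕ, ⋂ _ : 2 ≤ m', ⋂ _ : m' < m,
        {t : ℝ | Bd D 1 (2 ^ m') (qt c t) (cor m' (anc (m - m') i))}ᶜ := by
    ext t
    simp only [Sel, Set.mem_inter_iff, Set.mem_iInter, Set.mem_compl_iff, Set.mem_ofPred_eq]
  rw [h1]
  refine (c1b_Bd D c _ _ _).inter (MeasurableSet.iInter fun m' => MeasurableSet.iInter fun _ =>
    MeasurableSet.iInter fun _ => (c1b_Bd D c _ _ _).compl)

theorem measurableSet_OmT (D : ℕ) (c : Cf D) (m : ℕ) :
    MeasurableSet {z : ℝ × (ℝ × ℝ) | z.2 ∈ Om D (qt c z.1) m} := by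
  have h1 : {z : ℝ × (ℝ × ℝ) | z.2 ∈ Om D (qt c z.1) m} =
      ⋃ i ∈ idx m, ({t : ℝ | Sel D (qt c t) m i} ×ˢ sq m i) := by
    ext z
    simp only [Set.mem_iUnion, exists_prop, Set.mem_prod]
    rfl
  rw [h1]
  exact Finset.measurableSet_biUnion _ fun i _ => (c1b_Sel D c m i).prod (measurableSet_sq m i)

end Pool.Agent.PPH
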