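import Pool.Agent.PPH.A4
import Pool.Agent.PPH.C1a

/-!
ROW C1c (0.5 h). The bounds (U) and (L) on the selected squares. Let C1 be the constant of `loc_const`; eps0 = 1 / (2 ^ JJ D * C1).
(U): loc_const with ε = 1, R = 2^m ≥ 1, from the corner (in BB, cor_mem) to y. For y ∈ Om: y ∈ sq m i ⊆ BB0 ⊆ BB, |y - cor| ≤ 1/2^m ≤ 2/2^m (sq_dist).
(L): m ≥ 3, y ∈ sq m i, Sel D q m i. Suppose |ev (DD a b q) y| < eps0 (2^m)^(a+b) for all 2 ≤ a+b ≤ JJ D, so Bd D eps0 (2^m) q y. Let y' = cor (m-1) (anc 1 i), the corner of the parent: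
 y ∈ sq (m-1) (anc 1 i) (anc_sq), so |y' - y| ≤ 1/2^(m-1) = 2/2^m. y' ∈ BB (anc_idx, cor_mem). loc_const: Bd D (C1 * eps0) (2^m) q y', i.e. |ev (DD a b q) y'| ≤ 2^(-JJ D) (2^m)^(a+b) ≤ (2^(m-1))^(a+b)
 (a + b ≤ JJ D): Bd D 1 (2^(m-1)) q y', contradicting the second part of Sel (m' = m - 1 ≥ 2, m - m' = 1).
-/

namespace Pool.Agent.PPH

open MeasureTheory Set MvPolynomial
open scoped ENNReal Real

theorem Om_UL (D : ℕ) : ∃ C1 eps0 : ℝ, 1 ≤ C1 ∧ 0 < eps0 ∧ ∀ (c : Cf D) (t : ℝ) (m : ℕ), 2 ≤ m →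
    (∀ i ∈ idx m, Sel D (qt c t) m i → ∀ y ∈ BB, |y.1 - (cor m i).1| ≤ 2 / 2 ^ m →
      |y.2 - (cor m i).2| ≤ 2 / 2 ^ m → Bd D C1 (2 ^ m) (qt c t) y) ∧
    (∀ y ∈ Om D (qt c t) m, Bd D C1 (2 ^ m) (qt c t) y) ∧
    (3 ≤ m → ∀ y ∈ Om D (qt c t) m, ∃ a b : ℕ, 2 ≤ a + b ∧ a + b ≤ JJ D ∧
      eps0 * (2 ^ m) ^ (a + b) ≤ |ev (DD a b (qt c t)) y|) := by
  obtain ⟨C1, hC1, hloc⟩ := loc_const D
  have hC0 : 0 < C1 := lt_of_lt_of_le one_pos hC1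
  refine ⟨C1, 1 / (2 ^ JJ D * C1), hC1, by positivity, ?_⟩
  intro c t m hm
  have h2m : (1 : ℝ) ≤ 2 ^ m := one_le_pow₀ one_le_two
  have hA : ∀ i ∈ idx m, Sel D (qt c t) m i → ∀ y ∈ BB, |y.1 - (cor m i).1| ≤ 2 / 2 ^ m →
      |y.2 - (cor m i).2| ≤ 2 / 2 ^ m → Bd D C1 (2 ^ m) (qt c t) y := by
    intro i hi hsel y hy h1 h2
    have h := hloc c t (2 ^ m) 1 h2m one_pos (cor m i) y (cor_mem hm hi) hy h1 h2 hsel.1
    rw [mul_one] at h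
    exact h
  have h12 : (1 : ℝ) / 2 ^ m ≤ 2 / 2 ^ m :=
    div_le_div_of_nonneg_right one_le_two (by positivity)
  refine ⟨hA, ?_, ?_⟩
  · rintro y ⟨i, hi, hsel, hy⟩
    obtain ⟨h1, h2⟩ := sq_dist hy
    exact hA i hi hsel y (BB0_subset (sq_subset hm hi hy)) (h1.trans h12) (h2.trans h12)
  · rintro hm3 y ⟨i, hi, hsel, hy⟩
    by_contra hcon
    have hcon' : ∀ a b : ℕ, 2 ≤ a + b → a + b ≤ JJ D →
        |ev (DD a b (qt c t)) y| < 1 / (2 ^ JJ D * C1) * (2 ^ m) ^ (a + b) := by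
      intro a b h1 h2
      by_contra h3
      exact hcon ⟨a, b, h1, h2, not_lt.mp h3⟩
    have hyBB : y ∈ BB := BB0_subset (sq_subset hm hi hy)
    have hanc : y ∈ sq (m - 1) (anc 1 i) := anc_sq (by omega) hy
    have hidx : anc 1 i ∈ idx (m - 1) := anc_idx (by omega) hi
    have hcorBB : cor (m - 1) (anc 1 i) ∈ BB := cor_mem (by omega) hidx
    obtain ⟨h1, h2⟩ := sq_dist hanc
    have hpow : (2 : ℝ) ^ m = 2 * 2 ^ (m - 1) := by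
      rw [← pow_succ']
      congr 1
      omega
    have hdiv : (1 : ℝ) / 2 ^ (m - 1) = 2 / 2 ^ m := by
      rw [hpow]
      field_simp
    rw [hdiv] at h1 h2
    rw [abs_sub_comm] at h1 h2
    have hB := hloc c t (2 ^ m) (1 / (2 ^ JJ D * C1)) h2m (by positivity) y
      (cor (m - 1) (anc 1 i)) hyBB hcorBB h1 h2 (fun a b h3 h4 => (hcon' a b h3 h4).le)
    have hnot := hsel.2 (m - 1) (by omega) (by omega)
    have hm1 : m - (m - 1) = 1 := by omega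
    rw [hm1] at hnot
    refine hnot ?_
    intro a b h3 h4
    refine (hB a b h3 h4).trans ?_
    have e1 : C1 * (1 / (2 ^ JJ D * C1)) = 1 / 2 ^ JJ D := by
      field_simp
    rw [e1, hpow, mul_pow, one_mul, ← mul_assoc]
    have h5 : (1 : ℝ) / 2 ^ JJ D * 2 ^ (a + b) ≤ 1 := by
      rw [div_mul_eq_mul_div, one_mul, div_le_one (by positivity)]
      exact pow_le_pow_right₀ one_le_two h4
    calc (1 : ℝ) / 2 ^ JJ D * 2 ^ (a + b) * (2 ^ (m - 1)) ^ (a + b)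
        ≤ 1 * (2 ^ (m - 1)) ^ (a + b) := mul_le_mul_of_nonneg_right h5 (by positivity)
      _ = (2 ^ (m - 1)) ^ (a + b) := one_mul _

end Pool.Agent.PPH
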