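import Pool.Agent.PPH.A6a
import Pool.Agent.PPH.C1b
import Pool.Agent.PPH.C1c

/-!
ROW C2a (0.5 h). `bd_t`: for y ∈ BB the set {t | Bd D C1 R (qt c t) y} is contained in {t | |p + t h| ≤ C1 R^2}, p = ev (DD 2 0 (qq c)) y, h = ev (DD 2 0 (X 2)) y ≤ -1 (ev_DD_qt, hess_psi; 2 ≤ JJ D),
 an interval of length ≤ 2 C1 R^2 / |h| ≤ 2 C1 R^2.
`om_t`: by Tonelli (measurableSet_OmT; lintegral over t of volume of the section = lintegral over y of the volume of the section) ∫⁻ t, volume (Om ..) = ∫⁻ y, volume {t | y ∈ Om D (qt c t) m} ≤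
 ∫⁻ y in BB, 2 C1 4^m ≤ 2 C1 4^m by (U) of Om_UL, Om_subset, BB0_subset and bd_t; volume BB = 1/4.
-/

namespace Pool.Agent.PPH

open MeasureTheory Set MvPolynomial
open scoped ENNReal Real

theorem bd_t (D : ℕ) (C1 R : ℝ) (hC1 : 0 ≤ C1) (hR : 0 ≤ R) (c : Cf D) (y : ℝ × ℝ) (hy : y ∈ BB) :
    volume {t : ℝ | Bd D C1 R (qt c t) y} ≤ ENNReal.ofReal (2 * C1 * R ^ 2) := by
  have hh := (hess_psi hy).1
  set h : ℝ := ev (DD 2 0 (X 2)) y with hh0
  set p : ℝ := ev (DD 2 0 (qq c)) y with hp0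
  have hne : h ≠ 0 := by
    intro h1
    rw [h1] at hh
    linarith
  have habs : 1 ≤ |h| := by
    rw [abs_of_neg (by linarith)]
    linarith
  have hsub : {t : ℝ | Bd D C1 R (qt c t) y} ⊆ Metric.closedBall (-p / h) (C1 * R ^ 2) := by
    intro t ht
    have h1 := ht 2 0 (le_refl _) (by unfold JJ; omega)
    rw [ev_DD_qt, ← hh0, ← hp0] at h1
    rw [Metric.mem_closedBall, Real.dist_eq]
    have h2 : t - -p / h = (p + t * h) / h := by
      field_simp
      ring
    rw [h2, abs_div]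
    calc |p + t * h| / |h| ≤ |p + t * h| := div_le_self (abs_nonneg _) habs
      _ ≤ C1 * R ^ 2 := h1
  refine (measure_mono hsub).trans ?_
  rw [Real.volume_closedBall]
  exact le_of_eq (by rw [mul_assoc])

theorem om_t (D : ℕ) : ∃ K : ℝ, 0 < K ∧ ∀ (c : Cf D) (m : ℕ), 2 ≤ m →
    ∫⁻ t, volume (Om D (qt c t) m) ≤ ENNReal.ofReal (K * 4 ^ m) := by
  obtain ⟨C1, eps0, hC1, -, hUL⟩ := Om_UL D
  refine ⟨2 * C1, by linarith, fun c m hm => ?_⟩
  have hA := measurableSet_OmT D c m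
  have h1 : ∫⁻ t, volume (Om D (qt c t) m) =
      ∫⁻ y : ℝ × ℝ, volume {t : ℝ | y ∈ Om D (qt c t) m} := by
    have h2 := Measure.prod_apply (μ := (volume : Measure ℝ))
      (ν := (volume : Measure (ℝ × ℝ))) hA
    have h3 := Measure.prod_apply_symm (μ := (volume : Measure ℝ))
      (ν := (volume : Measure (ℝ × ℝ))) hA
    exact h2.symm.trans h3
  rw [h1]
  have h4 : ∀ y : ℝ × ℝ, volume {t : ℝ | y ∈ Om D (qt c t) m} ≤
      BB.indicator (fun _ => ENNReal.ofReal (2 * C1 * (2 ^ m) ^ 2)) y := by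
    intro y
    by_cases hy : y ∈ BB
    · rw [Set.indicator_of_mem hy]
      refine le_trans (measure_mono fun t ht => ?_)
        (bd_t D C1 (2 ^ m) (by linarith) (by positivity) c y hy)
      exact (hUL c t m hm).2.1 y ht
    · rw [Set.indicator_of_notMem hy]
      have h5 : {t : ℝ | y ∈ Om D (qt c t) m} = ∅ := by
        ext t
        constructor
        · intro ht
          exact absurd (BB0_subset (Om_subset D (qt c t) hm ht)) hy
        · intro ht
          exact absurd ht (Set.notMem_empty _)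
      rw [h5, measure_empty]
  refine (lintegral_mono h4).trans ?_
  rw [lintegral_indicator measurableSet_BB, setLIntegral_const, volume_BB,
    ← ENNReal.ofReal_mul (by positivity)]
  apply ENNReal.ofReal_le_ofReal
  have h6 : ((2 : ℝ) ^ m) ^ 2 = 4 ^ m := by
    rw [← pow_mul, mul_comm, pow_mul]
    norm_num
  rw [h6]
  have h7 : (0 : ℝ) < 4 ^ m := by positivity
  nlinarith

end Pool.Agent.PPH
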