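import Pool.Agent.PPH.A5
import Pool.Agent.PPH.B2
import Pool.Agent.PPH.C0

/-!
ROW C2b (0.9 h). The set is contained in the finite union over 2 ≤ j ≤ JJ D, s ≤ j of
 Z(j,s) = {y ∈ BB | |ev f_s y| ≤ (1+s) C3 R ∧ eps0 R^j / K_j ≤ |ev ((Ds s)^[j-1] f_s) y|}, f_s = Ds s q - C (g.1 + s * g.2), q = qt c t, K_j from `vand j`.
-/

namespace Pool.Agent.PPH

open MeasureTheory Set MvPolynomial
open scoped ENNReal Real

/-- the auxiliary polynomial -/
noncomputable def fsup (q : RR) (s : ℕ) (g : ℝ × ℝ) : RR := Ds s q - C (g.1 + s * g.2)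

lemma fsup_iter (q : RR) (s k : ℕ) (g : ℝ × ℝ) :
    (Ds s)^[k + 1] (fsup q s g) = (Ds s)^[k + 2] q := by
  rw [Function.iterate_succ_apply, Function.iterate_succ_apply, Function.iterate_succ_apply]
  congr 1
  unfold fsup
  conv_lhs => unfold Ds
  rw [map_sub, map_sub, derivation_C, derivation_C, sub_zero, sub_zero]
  rfl

lemma fsup_ev (q : RR) (s : ℕ) (g y : ℝ × ℝ) :
    ev (fsup q s g) y = (ev (D1 q) y - g.1) + s * (ev (D2 q) y - g.2) := by
  unfold fsup Ds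
  rw [ev_sub, ev_add, ev_mul, ev_C, ev_C]
  ring

lemma fsup_deg {D : ℕ} (c : Cf D) (t : ℝ) (s : ℕ) (g : ℝ × ℝ) :
    (fsup (qt c t) s g).totalDegree ≤ 2 * D + 4 := by
  unfold fsup
  refine (totalDegree_sub _ _).trans (max_le ?_ ?_)
  · have h1 := deg_Ds s 1 (qt c t)
    have h2 := deg_qt c t
    rw [Function.iterate_one] at h1
    omega
  · rw [totalDegree_C]
    omega

theorem sup_bound (D : ℕ) (C3 eps0 : ℝ) (hC3 : 0 ≤ C3) (heps : 0 < eps0) : ∃ K : ℝ, 0 < K ∧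
    ∀ (c : Cf D) (t R : ℝ), 1 ≤ R → ∀ g : ℝ × ℝ,
    volume {y : ℝ × ℝ | y ∈ BB ∧ |ev (D1 (qt c t)) y - g.1| ≤ C3 * R ∧
      |ev (D2 (qt c t)) y - g.2| ≤ C3 * R ∧
      ∃ a b : ℕ, 2 ≤ a + b ∧ a + b ≤ JJ D ∧ eps0 * R ^ (a + b) ≤ |ev (DD a b (qt c t)) y|} ≤
    ENNReal.ofReal (K / R) := by
  choose Kv hKv0 hKv using vand
  have hsub := fun k s : ℕ => sublevel2 (2 * D + 4) (k + 1) s (by omega)
  choose Ks hKs0 hKs using hsub
  set A : ℕ → ℕ → ℝ := fun k s => (1 + s) * C3 * Kv (k + 2) / eps0 with hA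
  have hA0 : ∀ k s, 0 ≤ A k s := fun k s => by
    have := hKv0 (k + 2)
    simp only [hA]
    positivity
  set K2 : ℕ → ℕ → ℝ := fun k s => Ks k s * A k s ^ (1 / ((k + 1 : ℕ) : ℝ)) with hK2
  have hK20 : ∀ k s, 0 ≤ K2 k s := fun k s => by
    have := hKs0 k s
    have := Real.rpow_nonneg (hA0 k s) (1 / ((k + 1 : ℕ) : ℝ))
    simp only [hK2]
    positivity
  refine ⟨∑ k ∈ Finset.range (JJ D), ∑ s ∈ Finset.range (JJ D + 1), K2 k s + 1, ?_, ?_⟩
  · have : 0 ≤ ∑ k ∈ Finset.range (JJ D), ∑ s ∈ Finset.range (JJ D + 1), K2 k s :=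
      Finset.sum_nonneg fun k _ => Finset.sum_nonneg fun s _ => hK20 k s
    linarith
  intro c t R hR g
  have hR0 : 0 < R := by linarith
  set Z : ℕ → ℕ → Set (ℝ × ℝ) := fun k s => {y : ℝ × ℝ | y ∈ BB ∧
    |ev (fsup (qt c t) s g) y| ≤ (1 + s) * C3 * R ∧
    eps0 * R ^ (k + 2) / Kv (k + 2) ≤ |ev ((Ds s)^[k + 1] (fsup (qt c t) s g)) y|} with hZ
  have hZv : ∀ k s, volume (Z k s) ≤ ENNReal.ofReal (K2 k s / R) := by
    intro k s
    have hKpos := hKv0 (k + 2)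
    refine (hKs k s (fsup (qt c t) s g) (fsup_deg c t s g) ((1 + s) * C3 * R)
      (eps0 * R ^ (k + 2) / Kv (k + 2)) (by positivity) (by positivity)).trans ?_
    apply ENNReal.ofReal_le_ofReal
    have e1 : (1 + (s : ℝ)) * C3 * R / (eps0 * R ^ (k + 2) / Kv (k + 2)) =
        A k s * (R⁻¹) ^ (k + 1) := by
      have hRk : R ^ (k + 1) ≠ 0 := by positivity
      have hKne := hKpos.ne'
      have hene := heps.ne'
      simp only [hA]
      rw [pow_succ R (k + 1), inv_pow]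
      generalize R ^ (k + 1) = u at *
      field_simp
    rw [e1, Real.mul_rpow (hA0 k s) (by positivity)]
    have e2 : ((R⁻¹) ^ (k + 1)) ^ (1 / ((k + 1 : ℕ) : ℝ)) = R⁻¹ := by
      rw [one_div]
      exact Real.pow_rpow_inv_natCast (by positivity) (by omega)
    rw [e2]
    apply le_of_eq
    simp only [hK2]
    rw [div_eq_mul_inv]
    ring
  have hsubset : {y : ℝ × ℝ | y ∈ BB ∧ |ev (D1 (qt c t)) y - g.1| ≤ C3 * R ∧
      |ev (D2 (qt c t)) y - g.2| ≤ C3 * R ∧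
      ∃ a b : ℕ, 2 ≤ a + b ∧ a + b ≤ JJ D ∧ eps0 * R ^ (a + b) ≤ |ev (DD a b (qt c t)) y|} ⊆
      ⋃ k ∈ Finset.range (JJ D), ⋃ s ∈ Finset.range (JJ D + 1), Z k s := by
    rintro y ⟨hy, h1, h2, a, b, hab, hab', hl⟩
    obtain ⟨s, hs, hs'⟩ := hKv (a + b) (qt c t) y a b rfl _ (by positivity) hl
    obtain ⟨k, hk⟩ : ∃ k, a + b = k + 2 := ⟨a + b - 2, by omega⟩
    rw [hk] at hs' hs
    simp only [mem_iUnion, Finset.mem_range]
    refine ⟨k, by omega, s, by omega, hy, ?_, ?_⟩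
    · rw [fsup_ev]
      have hs0 : (0 : ℝ) ≤ s := Nat.cast_nonneg s
      calc |ev (D1 (qt c t)) y - g.1 + s * (ev (D2 (qt c t)) y - g.2)|
          ≤ |ev (D1 (qt c t)) y - g.1| + |s * (ev (D2 (qt c t)) y - g.2)| := abs_add_le _ _
        _ = |ev (D1 (qt c t)) y - g.1| + s * |ev (D2 (qt c t)) y - g.2| := by
            rw [abs_mul, abs_of_nonneg hs0]
        _ ≤ C3 * R + s * (C3 * R) := add_le_add h1 (mul_le_mul_of_nonneg_left h2 hs0)
        _ = (1 + s) * C3 * R := by ring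
    · rw [fsup_iter]
      exact hs'
  refine (measure_mono hsubset).trans ?_
  calc volume (⋃ k ∈ Finset.range (JJ D), ⋃ s ∈ Finset.range (JJ D + 1), Z k s)
      ≤ ∑ k ∈ Finset.range (JJ D), volume (⋃ s ∈ Finset.range (JJ D + 1), Z k s) :=
        measure_biUnion_finset_le _ _
    _ ≤ ∑ k ∈ Finset.range (JJ D), ∑ s ∈ Finset.range (JJ D + 1), volume (Z k s) :=
        Finset.sum_le_sum fun k _ => measure_biUnion_finset_le _ _
    _ ≤ ∑ k ∈ Finset.range (JJ D), ∑ s ∈ Finset.range (JJ D + 1), ENNReal.ofReal (K2 k s / R) :=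
        Finset.sum_le_sum fun k _ => Finset.sum_le_sum fun s _ => hZv k s
    _ = ENNReal.ofReal (∑ k ∈ Finset.range (JJ D), ∑ s ∈ Finset.range (JJ D + 1), K2 k s / R) := by
        rw [ENNReal.ofReal_sum_of_nonneg fun k _ => Finset.sum_nonneg fun s _ =>
          div_nonneg (hK20 k s) hR0.le]
        refine Finset.sum_congr rfl fun k _ => ?_
        rw [ENNReal.ofReal_sum_of_nonneg fun s _ => div_nonneg (hK20 k s) hR0.le]
    _ ≤ _ := by
        apply ENNReal.ofReal_le_ofReal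
        have : ∑ k ∈ Finset.range (JJ D), ∑ s ∈ Finset.range (JJ D + 1), K2 k s / R =
            (∑ k ∈ Finset.range (JJ D), ∑ s ∈ Finset.range (JJ D + 1), K2 k s) / R := by
          rw [Finset.sum_div]
          refine Finset.sum_congr rfl fun k _ => ?_
          rw [Finset.sum_div]
        rw [this]
        gcongr
        linarith

end Pool.Agent.PPH
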