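import Pool.Agent.PPH.A5
import Pool.Agent.PPH.A6d
import Pool.Agent.PPH.B2
import Pool.Agent.PPH.C2a

/-!
ROW C2d (1 h). Points with a large derivative of order ≥ 3. Let R0, eps1 be the constants of `traceless D C1 eps0`.
If R < R0: by Tonelli and bd_t the left side is ≤ ∫⁻ y in BB, 2 C1 R^2 ≤ 2 C1 R^2 ≤ 2 C1 R0 R.
If R ≥ R0: let y be in the set for some t. By `traceless` there are a', b' with k = a' + b' ≥ 1, k + 2 ≤ JJ D, and i ∈ {1,2} with eps1 R^(k+2) ≤ |ev (DD a' b' (E_i (qt c t))) y| and E_i (qt c t) = E_i (qq c)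
 (E1_qt, E2_qt); by `vand k` some s ≤ k has eps1 R^(k+2) / K_k ≤ |ev ((Ds s)^[k] (E_i (qq c))) y|; and |ev (E_i (qq c)) y| = |ev (E_i (qt c t)) y| ≤ 4 C1 R^2 (Bd with order 2, |Hessian of psi| ≤ 2: hess_psi).
 So y ∈ Z := the finite union over i, k, s of {y ∈ BB | |ev f y| ≤ 4 C1 R^2 ∧ eps1 R^(k+2)/K_k ≤ |ev ((Ds s)^[k] f) y|}, f = E_i (qq c), totalDegree ≤ 2D + 14 (deg_qq, deg_E1, deg_E2), and by sublevel2
 volume Z ≤ Σ K' (4 C1 K_k / eps1 * R^(-k))^(1/k) = K'' / R. Z does not depend on t (and is measurable). Tonelli and bd_t: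
 ∫⁻ t, volume {..} ≤ ∫⁻ y in Z, volume {t | Bd ..} ≤ 2 C1 R^2 K''/R = K R.
 (Measurability of the set in (t,y): measurableSet_Bd, measurable_DD_qt, countable unions.)
-/

namespace Pool.Agent.PPH

open MeasureTheory Set MvPolynomial
open scoped ENNReal Real

/-- measurability of the set of the next theorem -/
theorem measurableSet_T3 (D : ℕ) (C1 eps0 R : ℝ) (c : Cf D) :
    MeasurableSet {z : ℝ × (ℝ × ℝ) | z.2 ∈ BB ∧ Bd D C1 R (qt c z.1) z.2 ∧ ∃ a b : ℕ, 3 ≤ a + b ∧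
      a + b ≤ JJ D ∧ eps0 * R ^ (a + b) ≤ |ev (DD a b (qt c z.1)) z.2|} := by
  refine MeasurableSet.inter (measurable_snd measurableSet_BB)
    (MeasurableSet.inter (measurableSet_Bd c C1 R) ?_)
  have : {z : ℝ × (ℝ × ℝ) | ∃ a b : ℕ, 3 ≤ a + b ∧
      a + b ≤ JJ D ∧ eps0 * R ^ (a + b) ≤ |ev (DD a b (qt c z.1)) z.2|} =
      ⋃ a : ℕ, ⋃ b : ℕ, ⋃ _ : 3 ≤ a + b, ⋃ _ : a + b ≤ JJ D,
        {z : ℝ × (ℝ × ℝ) | eps0 * R ^ (a + b) ≤ |ev (DD a b (qt c z.1)) z.2|} := by
    ext z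
    simp only [mem_ofPred_eq, mem_iUnion, exists_prop]
  change MeasurableSet {z : ℝ × (ℝ × ℝ) | ∃ a b : ℕ, 3 ≤ a + b ∧
      a + b ≤ JJ D ∧ eps0 * R ^ (a + b) ≤ |ev (DD a b (qt c z.1)) z.2|}
  rw [this]
  exact MeasurableSet.iUnion fun a => MeasurableSet.iUnion fun b => MeasurableSet.iUnion fun _ =>
    MeasurableSet.iUnion fun _ => measurableSet_le measurable_const (measurable_DD_qt c a b).abs

private lemma volume_BB_le' : volume BB ≤ 1 := by
  rw [BB, Measure.volume_eq_prod, Measure.prod_prod, Real.volume_Icc, ← ENNReal.ofReal_mul (by norm_num)]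
  rw [← ENNReal.ofReal_one]
  exact ENNReal.ofReal_le_ofReal (by norm_num)

private lemma tonelli_sec' (S : Set (ℝ × (ℝ × ℝ))) (hS : MeasurableSet S) (Z : Set (ℝ × ℝ))
    (hZ : MeasurableSet Z) (M : ℝ≥0∞)
    (h0 : ∀ z ∈ S, z.2 ∈ Z) (hM : ∀ y ∈ Z, volume {t : ℝ | (t, y) ∈ S} ≤ M) :
    ∫⁻ t, volume {y : ℝ × ℝ | (t, y) ∈ S} ≤ M * volume Z := by
  have e1 : ∫⁻ t, volume {y : ℝ × ℝ | (t, y) ∈ S} =
      ((volume : Measure ℝ).prod (volume : Measure (ℝ × ℝ))) S := by
    rw [Measure.prod_apply hS]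
    rfl
  have e2 : ((volume : Measure ℝ).prod (volume : Measure (ℝ × ℝ))) S =
      ∫⁻ y, volume {t : ℝ | (t, y) ∈ S} := by
    rw [Measure.prod_apply_symm hS]
    rfl
  rw [e1, e2]
  calc ∫⁻ y, volume {t : ℝ | (t, y) ∈ S} ≤ ∫⁻ y, Z.indicator (fun _ => M) y := by
        refine lintegral_mono fun y => ?_
        by_cases hy : y ∈ Z
        · simp only [indicator_of_mem hy]
          exact hM y hy
        · have : {t : ℝ | (t, y) ∈ S} = ∅ := by
            ext t
            simp only [mem_ofPred_eq, mem_empty_iff_false, iff_false]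
            intro ht
            exact hy (h0 _ ht)
          simp [this]
    _ = M * volume Z := by
        rw [lintegral_indicator hZ, setLIntegral_const]

/-- the exceptional set for one function and one direction -/
private def Zs (A B : ℝ) (f g : RR) : Set (ℝ × ℝ) := {y | y ∈ BB ∧ |ev f y| ≤ A ∧ B ≤ |ev g y|}

private lemma measurableSet_Zs (A B : ℝ) (f g : RR) : MeasurableSet (Zs A B f g) :=
  MeasurableSet.inter measurableSet_BB
    (MeasurableSet.inter (measurableSet_le (measurable_ev f).abs measurable_const)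
      (measurableSet_le measurable_const (measurable_ev g).abs))

private lemma E_bound (D : ℕ) (C1 R : ℝ) (hC : 0 ≤ C1) (q : RR) (y : ℝ × ℝ) (hy : y ∈ BB)
    (hB : Bd D C1 R q y) : |ev (E1 q) y| ≤ 4 * C1 * R ^ 2 ∧ |ev (E2 q) y| ≤ 4 * C1 * R ^ 2 := by
  obtain ⟨-, -, -, h1, h2, h3, -, -⟩ := hess_psi hy
  have hJ : 2 ≤ JJ D := by unfold JJ; omega
  have b1 := hB 2 0 (by norm_num) (by simpa using hJ)
  have b2 := hB 1 1 (by norm_num) (by simpa using hJ)
  have b3 := hB 0 2 (by norm_num) (by simpa using hJ)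
  norm_num at b1 b2 b3
  have hR : 0 ≤ C1 * R ^ 2 := by positivity
  have key : ∀ u v x w : ℝ, |u| ≤ C1 * R ^ 2 → |v| ≤ 2 → |x| ≤ C1 * R ^ 2 → |w| ≤ 2 →
      |u * v - x * w| ≤ 4 * C1 * R ^ 2 := by
    intro u v x w hu hv hx hw
    calc |u * v - x * w| ≤ |u * v| + |x * w| := abs_sub _ _
      _ = |u| * |v| + |x| * |w| := by rw [abs_mul, abs_mul]
      _ ≤ (C1 * R ^ 2) * 2 + (C1 * R ^ 2) * 2 := by gcongr
      _ = 4 * C1 * R ^ 2 := by ring
  constructor
  · rw [E1, ev_sub, ev_mul, ev_mul]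
    exact key _ _ _ _ b1 h3 b3 h1
  · rw [E2, ev_sub, ev_mul, ev_mul]
    exact key _ _ _ _ b1 h2 b2 h1

theorem t3 (D : ℕ) (C1 eps0 : ℝ) (hC1 : 1 ≤ C1) (heps : 0 < eps0) : ∃ K : ℝ, 0 < K ∧
    ∀ (c : Cf D) (R : ℝ), 1 ≤ R →
    ∫⁻ t, volume {y : ℝ × ℝ | y ∈ BB ∧ Bd D C1 R (qt c t) y ∧ ∃ a b : ℕ, 3 ≤ a + b ∧
      a + b ≤ JJ D ∧ eps0 * R ^ (a + b) ≤ |ev (DD a b (qt c t)) y|} ≤ ENNReal.ofReal (K * R) := by
  have hC0 : 0 < C1 := by linarith
  obtain ⟨R0, eps1, hR0, heps1, htr⟩ := traceless D C1 eps0 hC1 heps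
  choose Kv hKv0 hKv using vand
  choose Ks hKs0 hKs using fun j s : ℕ => sublevel2 (2 * D + 14) (j + 1) s (Nat.succ_pos j)
  set KK : ℕ → ℕ → ℝ := fun j s => Ks j s * (4 * C1 * Kv (j + 1) / eps1) ^ (1 / ((j + 1 : ℕ) : ℝ))
    with hKK
  have hKK0 : ∀ j s, 0 ≤ KK j s := by
    intro j s
    have := hKs0 j s
    have := hKv0 (j + 1)
    simp only [hKK]
    positivity
  set K2 : ℝ := ∑ j ∈ Finset.range (JJ D), ∑ s ∈ Finset.range (JJ D + 1), (KK j s + KK j s) with hK2
  have hK20 : 0 ≤ K2 := Finset.sum_nonneg fun j _ => Finset.sum_nonneg fun s _ =>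
    add_nonneg (hKK0 j s) (hKK0 j s)
  refine ⟨2 * C1 * K2 + 2 * C1 * R0, by positivity, ?_⟩
  intro c R hR
  have hRpos : 0 < R := by linarith
  by_cases hcase : R < R0
  · refine (tonelli_sec' _ (measurableSet_T3 D C1 eps0 R c) BB measurableSet_BB
      (ENNReal.ofReal (2 * C1 * R ^ 2)) (fun z hz => hz.1) ?_).trans ?_
    · intro y hy
      refine (measure_mono (t := {t : ℝ | Bd D C1 R (qt c t) y}) ?_).trans
        (bd_t D C1 R hC0.le hRpos.le c y hy)
      rintro t ⟨-, ht, -⟩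
      exact ht
    · calc ENNReal.ofReal (2 * C1 * R ^ 2) * volume BB
          ≤ ENNReal.ofReal (2 * C1 * R ^ 2) * 1 := by gcongr; exact volume_BB_le'
        _ = ENNReal.ofReal (2 * C1 * R ^ 2) := mul_one _
        _ ≤ _ := by
            refine ENNReal.ofReal_le_ofReal ?_
            have h1 : 2 * C1 * R ^ 2 ≤ 2 * C1 * R0 * R := by
              have : 0 ≤ C1 * R := by positivity
              nlinarith
            have h2 : 0 ≤ 2 * C1 * K2 * R := by positivity
            nlinarith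
  · push Not at hcase
    set Z : Set (ℝ × ℝ) := ⋃ j ∈ Finset.range (JJ D), ⋃ s ∈ Finset.range (JJ D + 1),
      (Zs (4 * C1 * R ^ 2) (eps1 * R ^ (j + 3) / Kv (j + 1)) (E1 (qq c))
          ((Ds s)^[j + 1] (E1 (qq c))) ∪
        Zs (4 * C1 * R ^ 2) (eps1 * R ^ (j + 3) / Kv (j + 1)) (E2 (qq c))
          ((Ds s)^[j + 1] (E2 (qq c)))) with hZdef
    have hZm : MeasurableSet Z := by
      refine Finset.measurableSet_biUnion _ fun j _ => Finset.measurableSet_biUnion _ fun s _ => ?_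
      exact (measurableSet_Zs _ _ _ _).union (measurableSet_Zs _ _ _ _)
    have hZ1 : ∀ f : RR, f.totalDegree ≤ 2 * D + 14 → ∀ j s : ℕ,
        volume (Zs (4 * C1 * R ^ 2) (eps1 * R ^ (j + 3) / Kv (j + 1)) f
          ((Ds s)^[j + 1] f)) ≤ ENNReal.ofReal (KK j s / R) := by
      intro f hf j s
      have hkv := hKv0 (j + 1)
      have h1 := hKs j s f hf (4 * C1 * R ^ 2) (eps1 * R ^ (j + 3) / Kv (j + 1)) (by positivity)
        (by positivity)
      refine h1.trans (ENNReal.ofReal_le_ofReal (le_of_eq ?_))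
      have e1 : 4 * C1 * R ^ 2 / (eps1 * R ^ (j + 3) / Kv (j + 1)) =
          (4 * C1 * Kv (j + 1) / eps1) * (R ^ (j + 1))⁻¹ := by
        have : R ^ (j + 3) = R ^ 2 * R ^ (j + 1) := by ring
        rw [this]
        field_simp
      rw [e1, Real.mul_rpow (by positivity) (by positivity), Real.inv_rpow (by positivity),
        one_div, Real.pow_rpow_inv_natCast hRpos.le (Nat.succ_ne_zero j), hKK]
      simp only [one_div]
      rw [← mul_assoc]
      exact (div_eq_mul_inv _ _).symm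
    have hdeg : (qq c).totalDegree ≤ 2 * D + 1 := deg_qq c
    have hd1 : (E1 (qq c)).totalDegree ≤ 2 * D + 14 := (deg_E1 (qq c)).trans (by omega)
    have hd2 : (E2 (qq c)).totalDegree ≤ 2 * D + 14 := (deg_E2 (qq c)).trans (by omega)
    have hZv : volume Z ≤ ENNReal.ofReal (K2 / R) := by
      have hh : K2 / R = ∑ j ∈ Finset.range (JJ D), ∑ s ∈ Finset.range (JJ D + 1),
          (KK j s / R + KK j s / R) := by
        rw [hK2, Finset.sum_div]
        refine Finset.sum_congr rfl fun j _ => ?_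
        rw [Finset.sum_div]
        refine Finset.sum_congr rfl fun s _ => ?_
        rw [add_div]
      have hnn : ∀ j s, 0 ≤ KK j s / R := fun j s => div_nonneg (hKK0 j s) hRpos.le
      rw [hh, ENNReal.ofReal_sum_of_nonneg (fun j _ => Finset.sum_nonneg fun s _ =>
        add_nonneg (hnn j s) (hnn j s))]
      refine (measure_biUnion_finset_le _ _).trans (Finset.sum_le_sum fun j _ => ?_)
      rw [ENNReal.ofReal_sum_of_nonneg (fun s _ => add_nonneg (hnn j s) (hnn j s))]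
      refine (measure_biUnion_finset_le _ _).trans (Finset.sum_le_sum fun s _ => ?_)
      rw [ENNReal.ofReal_add (hnn j s) (hnn j s)]
      exact (measure_union_le _ _).trans (add_le_add (hZ1 _ hd1 j s) (hZ1 _ hd2 j s))
    have hZBB : Z ⊆ BB := by
      intro y hy
      simp only [hZdef, mem_iUnion] at hy
      obtain ⟨j, -, s, -, hy⟩ := hy
      rcases hy with hy | hy
      · exact hy.1
      · exact hy.1
    refine (tonelli_sec' _ (measurableSet_T3 D C1 eps0 R c) Z hZm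
      (ENNReal.ofReal (2 * C1 * R ^ 2)) ?_ ?_).trans ?_
    · rintro ⟨t, y⟩ ⟨hyB, hBd, a, b, h3, hJ, hbig⟩
      simp only at hyB hBd hbig
      obtain ⟨a', b', hab, hor⟩ := htr (qt c t) y R hyB hcase hBd a b h3 hJ hbig
      obtain ⟨hE1, hE2⟩ := E_bound D C1 R hC0.le (qt c t) y hyB hBd
      rw [E1_qt] at hE1 hor
      rw [E2_qt] at hE2 hor
      obtain ⟨j, hj⟩ : ∃ j, a' + b' = j + 1 := ⟨a' + b' - 1, by omega⟩
      have hjJ : j < JJ D := by omega
      have hab3 : a + b = j + 3 := by omega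
      rw [hab3] at hor
      have hkv := hKv0 (j + 1)
      simp only [hZdef, mem_iUnion]
      rcases hor with ho | ho
      · obtain ⟨s, hs, hs'⟩ := hKv (j + 1) (E1 (qq c)) y a' b' hj (eps1 * R ^ (j + 3))
          (by positivity) ho
        exact ⟨j, Finset.mem_range.mpr hjJ, s, Finset.mem_range.mpr (by omega),
          Or.inl ⟨hyB, hE1, hs'⟩⟩
      · obtain ⟨s, hs, hs'⟩ := hKv (j + 1) (E2 (qq c)) y a' b' hj (eps1 * R ^ (j + 3))
          (by positivity) ho
        exact ⟨j, Finset.mem_range.mpr hjJ, s, Finset.mem_range.mpr (by omega),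
          Or.inr ⟨hyB, hE2, hs'⟩⟩
    · intro y hy
      refine (measure_mono (t := {t : ℝ | Bd D C1 R (qt c t) y}) ?_).trans
        (bd_t D C1 R hC0.le hRpos.le c y (hZBB hy))
      rintro t ⟨-, ht, -⟩
      exact ht
    · calc ENNReal.ofReal (2 * C1 * R ^ 2) * volume Z
          ≤ ENNReal.ofReal (2 * C1 * R ^ 2) * ENNReal.ofReal (K2 / R) := by gcongr
        _ = ENNReal.ofReal (2 * C1 * R ^ 2 * (K2 / R)) := by
            rw [← ENNReal.ofReal_mul (by positivity)]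
        _ ≤ _ := by
            refine ENNReal.ofReal_le_ofReal ?_
            have h1 : 2 * C1 * R ^ 2 * (K2 / R) = 2 * C1 * K2 * R := by
              field_simp
            rw [h1]
            have h2 : 0 ≤ 2 * C1 * R0 * R := by positivity
            nlinarith

end Pool.Agent.PPH
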