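import Pool.Agent.PPH.B1c
import Pool.Agent.PPH.C2a

/-!
ROW C2e (0.9 h). Points where the Hessian is large and its determinant is small. K = 8/eps0^? .. explicitly as follows. Fix y ∈ BB, (h,k,l) = the Hessian of psi at y (hess_psi), (p0,r0,s0) = ev (DD 2 0), (DD 1 1), (DD 0 2)
 of qq c at y, and p = p0 + t h, r = r0 + t k, s = s0 + t l those of qt c t (ev_DD_qt). det(t) := p s - r^2 = ev (hd (qt c t)) y (ev_hd_qt) = (h l - k^2) t^2 + (h s0 + l p0 - 2 k r0) t + (p0 s0 - r0^2), and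
 its derivative is L(t) = h s + l p - 2 k r. By `hess_ineq` L^2 ≥ p^2 + 2 r^2 + s^2 + 2 det(t) (h l - k^2), 1 ≤ h l - k^2 ≤ 4.
 Let t be in the section: one of |p|,|r|,|s| is ≥ eps0 R^2, |det(t)| ≤ δ.
 Case 8 δ ≤ eps0^2 R^4 / 2: L^2 ≥ eps0^2 R^4 - 8 δ ≥ eps0^2 R^4 / 2 ≥ (eps0 R^2 / 2)^2, so by `quad` with lam = eps0 R^2/2 the section has measure ≤ 4 δ / (eps0 R^2 / 2) = 8 δ / (eps0 R^2).
 Case 8 δ > eps0^2 R^4 / 2: by bd_t the section has measure ≤ 2 C1 R^2 ≤ 2 C1 * 16 δ / (eps0^2 R^2).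
 So with K = 8/eps0 + 32 C1/eps0^2: section ≤ K δ / R^2; Tonelli over y ∈ BB (volume 1/4 ≤ 1).
-/

namespace Pool.Agent.PPH

open MeasureTheory Set MvPolynomial
open scoped ENNReal Real

/-- measurability of the set of the next theorem -/
theorem measurableSet_T2 (D : ℕ) (C1 eps0 R δ' δ : ℝ) (c : Cf D) :
    MeasurableSet {z : ℝ × (ℝ × ℝ) | z.2 ∈ BB ∧ Bd D C1 R (qt c z.1) z.2 ∧ (∃ a b : ℕ, a + b = 2 ∧
      eps0 * R ^ 2 ≤ |ev (DD a b (qt c z.1)) z.2|) ∧ δ' ≤ |ev (hd (qt c z.1)) z.2| ∧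
      |ev (hd (qt c z.1)) z.2| ≤ δ} := by
  have hhd : Measurable (fun z : ℝ × (ℝ × ℝ) => |ev (hd (qt c z.1)) z.2|) :=
    (measurable_hd_qt c).abs
  refine MeasurableSet.inter (measurable_snd measurableSet_BB)
    (MeasurableSet.inter (measurableSet_Bd c C1 R) (MeasurableSet.inter ?_
      (MeasurableSet.inter (measurableSet_le measurable_const hhd)
        (measurableSet_le hhd measurable_const))))
  have : {z : ℝ × (ℝ × ℝ) | ∃ a b : ℕ, a + b = 2 ∧
      eps0 * R ^ 2 ≤ |ev (DD a b (qt c z.1)) z.2|} =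
      ⋃ a : ℕ, ⋃ b : ℕ, ⋃ _ : a + b = 2,
        {z : ℝ × (ℝ × ℝ) | eps0 * R ^ 2 ≤ |ev (DD a b (qt c z.1)) z.2|} := by
    ext z
    simp only [mem_ofPred_eq, mem_iUnion, exists_prop]
  change MeasurableSet {z : ℝ × (ℝ × ℝ) | ∃ a b : ℕ, a + b = 2 ∧
      eps0 * R ^ 2 ≤ |ev (DD a b (qt c z.1)) z.2|}
  rw [this]
  exact MeasurableSet.iUnion fun a => MeasurableSet.iUnion fun b => MeasurableSet.iUnion fun _ =>
    measurableSet_le measurable_const (measurable_DD_qt c a b).abs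

private lemma volume_BB_le : volume BB ≤ 1 := by
  rw [BB, Measure.volume_eq_prod, Measure.prod_prod, Real.volume_Icc, ← ENNReal.ofReal_mul (by norm_num)]
  rw [← ENNReal.ofReal_one]
  exact ENNReal.ofReal_le_ofReal (by norm_num)

private lemma tonelli_sec (S : Set (ℝ × (ℝ × ℝ))) (hS : MeasurableSet S) (M : ℝ≥0∞)
    (h0 : ∀ z ∈ S, z.2 ∈ BB) (hM : ∀ y ∈ BB, volume {t : ℝ | (t, y) ∈ S} ≤ M) :
    ∫⁻ t, volume {y : ℝ × ℝ | (t, y) ∈ S} ≤ M := by
  have e1 : ∫⁻ t, volume {y : ℝ × ℝ | (t, y) ∈ S} =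
      ((volume : Measure ℝ).prod (volume : Measure (ℝ × ℝ))) S := by
    rw [Measure.prod_apply hS]
    rfl
  have e2 : ((volume : Measure ℝ).prod (volume : Measure (ℝ × ℝ))) S =
      ∫⁻ y, volume {t : ℝ | (t, y) ∈ S} := by
    rw [Measure.prod_apply_symm hS]
    rfl
  rw [e1, e2]
  calc ∫⁻ y, volume {t : ℝ | (t, y) ∈ S} ≤ ∫⁻ y, BB.indicator (fun _ => M) y := by
        refine lintegral_mono fun y => ?_
        by_cases hy : y ∈ BB
        · simp only [indicator_of_mem hy]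
          exact hM y hy
        · have : {t : ℝ | (t, y) ∈ S} = ∅ := by
            ext t
            simp only [mem_ofPred_eq, mem_empty_iff_false, iff_false]
            intro ht
            exact hy (h0 _ ht)
          simp [this]
    _ = M * volume BB := by
        rw [lintegral_indicator measurableSet_BB, setLIntegral_const]
    _ ≤ M * 1 := by gcongr; exact volume_BB_le
    _ = M := mul_one M

theorem t2 (D : ℕ) (C1 eps0 : ℝ) (hC1 : 1 ≤ C1) (heps : 0 < eps0) : ∃ K : ℝ, 0 < K ∧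
    ∀ (c : Cf D) (R : ℝ), 1 ≤ R → ∀ δ' δ : ℝ, 0 ≤ δ →
    ∫⁻ t, volume {y : ℝ × ℝ | y ∈ BB ∧ Bd D C1 R (qt c t) y ∧ (∃ a b : ℕ, a + b = 2 ∧
      eps0 * R ^ 2 ≤ |ev (DD a b (qt c t)) y|) ∧ δ' ≤ |ev (hd (qt c t)) y| ∧
      |ev (hd (qt c t)) y| ≤ δ} ≤ ENNReal.ofReal (K * δ / R ^ 2) := by
  have hC0 : 0 < C1 := by linarith
  refine ⟨8 / eps0 + 32 * C1 / eps0 ^ 2, by positivity, ?_⟩
  intro c R hR δ' δ hδ
  have hR0 : 0 < R := by linarith
  refine tonelli_sec _ (measurableSet_T2 D C1 eps0 R δ' δ c) _ (fun z hz => hz.1) ?_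
  intro y hy
  obtain ⟨h1, h2, h3, -, -, -, h4, h5⟩ := hess_psi hy
  set h := ev (DD 2 0 (X 2)) y with hh
  set k := ev (DD 1 1 (X 2)) y with hk
  set l := ev (DD 0 2 (X 2)) y with hl
  set p0 := ev (DD 2 0 (qq c)) y with hp0
  set r0 := ev (DD 1 1 (qq c)) y with hr0
  set s0 := ev (DD 0 2 (qq c)) y with hs0
  by_cases hcase : 16 * δ ≤ eps0 ^ 2 * R ^ 4
  · have hq := quad (h * l - k ^ 2) (h * s0 + l * p0 - 2 * k * r0) (p0 * s0 - r0 ^ 2) δ
      (eps0 * R ^ 2 / 2) hδ (by positivity)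
    refine (measure_mono ?_).trans (hq.trans (ENNReal.ofReal_le_ofReal ?_))
    · rintro t ⟨-, -, ⟨a, b, hab, hbig⟩, -, hdet⟩
      have hdet' : |(h * l - k ^ 2) * t ^ 2 + (h * s0 + l * p0 - 2 * k * r0) * t +
          (p0 * s0 - r0 ^ 2)| ≤ δ := by
        simp only at hdet
        rw [ev_hd_qt, ev_DD_qt, ev_DD_qt, ev_DD_qt] at hdet
        rw [← hp0, ← hr0, ← hs0, ← hh, ← hk, ← hl] at hdet
        have e : (h * l - k ^ 2) * t ^ 2 + (h * s0 + l * p0 - 2 * k * r0) * t +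
          (p0 * s0 - r0 ^ 2) = (p0 + t * h) * (s0 + t * l) - (r0 + t * k) ^ 2 := by ring
        rw [e]
        exact hdet
      refine ⟨hdet', ?_⟩
      have hin := hess_ineq h k l (p0 + t * h) (r0 + t * k) (s0 + t * l) h1 h2 h3
      have e3 : (p0 + t * h) * (s0 + t * l) - (r0 + t * k) ^ 2 =
          (h * l - k ^ 2) * t ^ 2 + (h * s0 + l * p0 - 2 * k * r0) * t + (p0 * s0 - r0 ^ 2) := by
        ring
      have e4 : h * (s0 + t * l) + l * (p0 + t * h) - 2 * k * (r0 + t * k) =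
          2 * (h * l - k ^ 2) * t + (h * s0 + l * p0 - 2 * k * r0) := by ring
      rw [e3, e4] at hin
      set dt := (h * l - k ^ 2) * t ^ 2 + (h * s0 + l * p0 - 2 * k * r0) * t + (p0 * s0 - r0 ^ 2)
        with hdt
      have hdt8 : -(8 * δ) ≤ 2 * dt * (h * l - k ^ 2) := by
        have h6 : -δ ≤ dt := (abs_le.mp hdet').1
        nlinarith [h6, h4, h5, hδ]
      have hsq : (eps0 * R ^ 2) ^ 2 ≤ (p0 + t * h) ^ 2 + 2 * (r0 + t * k) ^ 2 +
          (s0 + t * l) ^ 2 := by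
        have hpos : 0 ≤ eps0 * R ^ 2 := by positivity
        have hsqq : ∀ x : ℝ, eps0 * R ^ 2 ≤ |x| → (eps0 * R ^ 2) ^ 2 ≤ x ^ 2 := by
          intro x hx
          calc (eps0 * R ^ 2) ^ 2 ≤ |x| ^ 2 := by gcongr
            _ = x ^ 2 := sq_abs x
        simp only at hbig
        rw [ev_DD_qt] at hbig
        have hab3 : (a = 2 ∧ b = 0) ∨ (a = 1 ∧ b = 1) ∨ (a = 0 ∧ b = 2) := by omega
        rcases hab3 with ⟨rfl, rfl⟩ | ⟨rfl, rfl⟩ | ⟨rfl, rfl⟩
        · have := hsqq _ hbig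
          rw [← hp0, ← hh] at this
          nlinarith [sq_nonneg (r0 + t * k), sq_nonneg (s0 + t * l)]
        · have := hsqq _ hbig
          rw [← hr0, ← hk] at this
          nlinarith [sq_nonneg (p0 + t * h), sq_nonneg (s0 + t * l), sq_nonneg (r0 + t * k)]
        · have := hsqq _ hbig
          rw [← hs0, ← hl] at this
          nlinarith [sq_nonneg (r0 + t * k), sq_nonneg (p0 + t * h)]
      have hL : (eps0 * R ^ 2 / 2) ^ 2 ≤
          (2 * (h * l - k ^ 2) * t + (h * s0 + l * p0 - 2 * k * r0)) ^ 2 := by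
        nlinarith [hin, hdt8, hsq, hcase, sq_nonneg (eps0 * R ^ 2)]
      have h8 := sq_le_sq.mp hL
      rwa [abs_of_nonneg (show 0 ≤ eps0 * R ^ 2 / 2 by positivity)] at h8
    · have : 4 * δ / (eps0 * R ^ 2 / 2) = (8 / eps0) * δ / R ^ 2 := by
        field_simp
        ring
      rw [this]
      gcongr
      have : 0 ≤ 32 * C1 / eps0 ^ 2 := by positivity
      linarith
  · push Not at hcase
    refine (measure_mono (t := {t : ℝ | Bd D C1 R (qt c t) y}) ?_).trans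
      ((bd_t D C1 R hC0.le hR0.le c y hy).trans (ENNReal.ofReal_le_ofReal ?_))
    · rintro t ⟨-, ht, -⟩
      exact ht
    · have h7 : 2 * C1 * R ^ 2 ≤ (32 * C1 / eps0 ^ 2) * δ / R ^ 2 := by
        rw [le_div_iff₀ (by positivity), div_mul_eq_mul_div, le_div_iff₀ (by positivity)]
        nlinarith [mul_pos hC0 (pow_pos hR0 4)]
      refine h7.trans ?_
      gcongr
      have : 0 ≤ 8 / eps0 := by positivity
      linarith

end Pool.Agent.PPH
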