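import Mathlib

/-!
ROW C2f (0.8 h). Pure measure theory.
`cells`: ∑' cc, volume {y ∈ A | ..} = ∫⁻ y in A, ∑' cc, indicator.. (lintegral_tsum) and for every y the number of n ∈ ℤ with |g/R - n| ≤ C3 is ≤ 2 C3 + 1 (they lie in Icc ⌈g/R - C3⌉ ⌊g/R + C3⌋,
 Int.card_Icc, Int.floor_le, Int.le_ceil), so the sum over cc is ≤ (2 C3 + 1)^2.
`count_abs`: x_cc := volume {y ∈ A | cell cc} ≤ Σ_{τ<n} x_cc^τ with x_cc^τ = volume {y ∈ T τ | cell cc}. (Σ_{τ<n} a_τ)^2 ≤ n Σ a_τ^2 in ENNReal (ENNReal.inner_le.. or `inner_mul_le_norm_mul_norm`; e.g.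
 ENNReal.rpow_arith_mean.. / Finset.sum power mean `ENNReal.inner_le_Lp_mul_Lq`; or: if some a_τ = ∞ both sides are ∞, otherwise lift to NNReal and use sq_sum_le_card_mul_sum_sq), a_τ^2 ≤ s τ * a_τ, and
 Σ_cc x_cc^τ ≤ (2 C3+1)^2 volume (T τ) by `cells`.
-/

namespace Pool.Agent.PPH

open MeasureTheory Set
open scoped ENNReal Real

private theorem c2f_card {C3 : ℝ} (hC3 : 0 ≤ C3) (u : ℝ) :
    ((Finset.Icc ⌈u - C3⌉ ⌊u + C3⌋).card : ℝ) ≤ 2 * C3 + 1 := by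
  rw [Int.card_Icc]
  have h1 : u - C3 ≤ (⌈u - C3⌉ : ℝ) := Int.le_ceil _
  have h2 : (⌊u + C3⌋ : ℝ) ≤ u + C3 := Int.floor_le _
  have h3 : (((⌊u + C3⌋ + 1 - ⌈u - C3⌉).toNat : ℤ) : ℝ) ≤ 2 * C3 + 1 := by
    rw [Int.toNat_eq_max]
    push_cast
    refine max_le ?_ (by linarith)
    linarith
  exact_mod_cast h3

private theorem c2f_mem {C3 R g : ℝ} (hR : 0 < R) {c : ℤ} (h : |g - R * (c : ℝ)| ≤ C3 * R) :
    c ∈ Finset.Icc ⌈g / R - C3⌉ ⌊g / R + C3⌋ := by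
  have h1 := abs_le.1 h
  have h2 : g / R * R = g := div_mul_cancel₀ g hR.ne'
  rw [Finset.mem_Icc]
  constructor
  · rw [Int.ceil_le]
    have h3 : (g / R - C3) * R ≤ (c : ℝ) * R := by nlinarith
    exact le_of_mul_le_mul_right h3 hR
  · rw [Int.le_floor]
    have h3 : (c : ℝ) * R ≤ (g / R + C3) * R := by nlinarith
    exact le_of_mul_le_mul_right h3 hR

private theorem c2f_sq (n : ℕ) (a : ℕ → ℝ≥0∞) :
    (∑ τ ∈ Finset.range n, a τ) ^ 2 ≤ n * ∑ τ ∈ Finset.range n, a τ ^ 2 := by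
  have h := ENNReal.rpow_sum_le_const_mul_sum_rpow (Finset.range n) a (p := 2) one_le_two
  rw [Finset.card_range] at h
  norm_num at h
  exact h

private theorem c2f_meas {g : ℝ × ℝ → ℝ} (hg : Measurable g) (c : ℝ) (d : ℝ) :
    MeasurableSet {y | |g y - c| ≤ d} := by
  have h1 : Measurable fun y => |g y - c| := (hg.sub_const c).abs
  exact measurableSet_le h1 measurable_const

theorem cells (C3 R : ℝ) (hC3 : 0 ≤ C3) (hR : 0 < R) (g1 g2 : ℝ × ℝ → ℝ) (hg1 : Measurable g1)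
    (hg2 : Measurable g2) (A : Set (ℝ × ℝ)) (hA : MeasurableSet A) :
    ∑' cc : ℤ × ℤ, volume {y | y ∈ A ∧ |g1 y - R * (cc.1 : ℝ)| ≤ C3 * R ∧
      |g2 y - R * (cc.2 : ℝ)| ≤ C3 * R} ≤ ENNReal.ofReal ((2 * C3 + 1) ^ 2) * volume A := by
  classical
  set E : ℤ × ℤ → Set (ℝ × ℝ) := fun cc => {y | y ∈ A ∧ |g1 y - R * (cc.1 : ℝ)| ≤ C3 * R ∧
      |g2 y - R * (cc.2 : ℝ)| ≤ C3 * R} with hE
  have hEm : ∀ cc, MeasurableSet (E cc) := fun cc =>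
    hA.inter ((c2f_meas hg1 _ _).inter (c2f_meas hg2 _ _))
  have h1 : ∀ cc, volume (E cc) = ∫⁻ y, (E cc).indicator (fun _ => (1 : ℝ≥0∞)) y := by
    intro cc
    rw [lintegral_indicator (hEm cc)]
    simp
  show ∑' cc, volume (E cc) ≤ _
  simp_rw [h1]
  rw [← lintegral_tsum fun cc => (measurable_const.indicator (hEm cc)).aemeasurable]
  have h2 : ∀ y, ∑' cc, (E cc).indicator (fun _ => (1 : ℝ≥0∞)) y ≤
      A.indicator (fun _ => ENNReal.ofReal ((2 * C3 + 1) ^ 2)) y := by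
    intro y
    by_cases hy : y ∈ A
    · rw [indicator_of_mem hy]
      set F := (Finset.Icc ⌈g1 y / R - C3⌉ ⌊g1 y / R + C3⌋) ×ˢ
        (Finset.Icc ⌈g2 y / R - C3⌉ ⌊g2 y / R + C3⌋) with hF
      rw [tsum_eq_sum (s := F)]
      · have h3 : ∑ cc ∈ F, (E cc).indicator (fun _ => (1 : ℝ≥0∞)) y ≤ ∑ cc ∈ F, (1 : ℝ≥0∞) := by
          refine Finset.sum_le_sum fun cc _ => ?_
          exact indicator_le_self' (fun _ _ => zero_le_one) y
        refine h3.trans ?_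
        rw [Finset.sum_const, nsmul_eq_mul, mul_one, ← ENNReal.ofReal_natCast]
        refine ENNReal.ofReal_le_ofReal ?_
        rw [hF, Finset.card_product]
        push_cast
        rw [sq]
        exact mul_le_mul (c2f_card hC3 _) (c2f_card hC3 _) (Nat.cast_nonneg _) (by linarith)
      · intro cc hcc
        refine indicator_of_notMem (fun h => hcc ?_) _
        rw [hF, Finset.mem_product]
        exact ⟨c2f_mem hR h.2.1, c2f_mem hR h.2.2⟩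
    · rw [indicator_of_notMem hy]
      have h3 : ∀ cc, (E cc).indicator (fun _ => (1 : ℝ≥0∞)) y = 0 := fun cc =>
        indicator_of_notMem (fun h => hy h.1) _
      simp only [h3, tsum_zero, le_refl]
  refine (lintegral_mono h2).trans ?_
  rw [lintegral_indicator hA, setLIntegral_const]

theorem count_abs (C3 R : ℝ) (hC3 : 0 ≤ C3) (hR : 0 < R) (g1 g2 : ℝ × ℝ → ℝ) (hg1 : Measurable g1)
    (hg2 : Measurable g2) (n : ℕ) (A : Set (ℝ × ℝ)) (T : ℕ → Set (ℝ × ℝ))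
    (hT : ∀ τ < n, MeasurableSet (T τ)) (hA : ∀ y ∈ A, ∃ τ < n, y ∈ T τ) (s : ℕ → ℝ≥0∞)
    (hs : ∀ τ < n, ∀ cc : ℤ × ℤ, volume {y | y ∈ T τ ∧ |g1 y - R * (cc.1 : ℝ)| ≤ C3 * R ∧
      |g2 y - R * (cc.2 : ℝ)| ≤ C3 * R} ≤ s τ) :
    ∑' cc : ℤ × ℤ, volume {y | y ∈ A ∧ |g1 y - R * (cc.1 : ℝ)| ≤ C3 * R ∧
      |g2 y - R * (cc.2 : ℝ)| ≤ C3 * R} ^ 2 ≤
      n * ENNReal.ofReal ((2 * C3 + 1) ^ 2) * ∑ τ ∈ Finset.range n, s τ * volume (T τ) := by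
  classical
  set x : ℕ → ℤ × ℤ → ℝ≥0∞ := fun τ cc => volume {y | y ∈ T τ ∧ |g1 y - R * (cc.1 : ℝ)| ≤ C3 * R ∧
      |g2 y - R * (cc.2 : ℝ)| ≤ C3 * R} with hx
  have h1 : ∀ cc : ℤ × ℤ, volume {y | y ∈ A ∧ |g1 y - R * (cc.1 : ℝ)| ≤ C3 * R ∧
      |g2 y - R * (cc.2 : ℝ)| ≤ C3 * R} ^ 2 ≤ n * ∑ τ ∈ Finset.range n, s τ * x τ cc := by
    intro cc
    have h2 : volume {y | y ∈ A ∧ |g1 y - R * (cc.1 : ℝ)| ≤ C3 * R ∧
      |g2 y - R * (cc.2 : ℝ)| ≤ C3 * R} ≤ ∑ τ ∈ Finset.range n, x τ cc := by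
      refine (measure_mono ?_).trans (measure_biUnion_finset_le (Finset.range n) fun τ =>
        {y | y ∈ T τ ∧ |g1 y - R * (cc.1 : ℝ)| ≤ C3 * R ∧ |g2 y - R * (cc.2 : ℝ)| ≤ C3 * R})
      rintro y ⟨hy, hy2⟩
      obtain ⟨τ, hτ, hyτ⟩ := hA y hy
      rw [mem_iUnion₂]
      exact ⟨τ, Finset.mem_range.2 hτ, hyτ, hy2⟩
    refine (pow_le_pow_left₀ zero_le h2 2).trans ((c2f_sq n _).trans ?_)
    refine mul_le_mul_right (Finset.sum_le_sum fun τ hτ => ?_) _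
    rw [sq]
    exact mul_le_mul_left (hs τ (Finset.mem_range.1 hτ) cc) _
  refine (ENNReal.tsum_le_tsum h1).trans ?_
  rw [ENNReal.tsum_mul_left, mul_assoc]
  refine mul_le_mul_right ?_ _
  have h3 : ∑' cc : ℤ × ℤ, ∑ τ ∈ Finset.range n, s τ * x τ cc =
      ∑ τ ∈ Finset.range n, s τ * ∑' cc : ℤ × ℤ, x τ cc := by
    rw [Summable.tsum_finsetSum fun τ _ => ENNReal.summable]
    exact Finset.sum_congr rfl fun τ _ => ENNReal.tsum_mul_left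
  rw [h3, Finset.mul_sum]
  refine Finset.sum_le_sum fun τ hτ => ?_
  have h4 := cells C3 R hC3 hR g1 g2 hg1 hg2 (T τ) (hT τ (Finset.mem_range.1 hτ))
  calc s τ * ∑' cc : ℤ × ℤ, x τ cc
      ≤ s τ * (ENNReal.ofReal ((2 * C3 + 1) ^ 2) * volume (T τ)) := mul_le_mul_right h4 _
    _ = ENNReal.ofReal ((2 * C3 + 1) ^ 2) * (s τ * volume (T τ)) := by ring

end Pool.Agent.PPH
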