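import Pool.Agent.PPH.B3b
import Pool.Agent.PPH.C2b
import Pool.Agent.PPH.C2d
import Pool.Agent.PPH.C2e
import Pool.Agent.PPH.C2f

/-!
ROW C2h (1 h). Final count. Let C1, eps0 be the constants of Om_UL D, R = 2^m, q = qt c t. Let C' be a natural number with 4 C1^2 ≤ 2^C', L = m + C', n = L + 2. Define
 T 0 = {y ∈ BB | Bd D C1 R q y ∧ ∃ a b, 3 ≤ a+b ≤ JJ D ∧ eps0 R^(a+b) ≤ |..|}                       (as in t3),
 T 1 = {y ∈ BB | Bd D C1 R q y ∧ (∃ a b, a+b = 2 ∧ eps0 R^2 ≤ |..|) ∧ -1 ≤ |hd| ∧ |hd| ≤ R^3}        (as in t2 with δ' = -1, δ = R^3),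
 T (l+1) = {y ∈ BB | Bd .. ∧ (∃ a b, a+b = 2 ..) ∧ 2^(l-1) R^3 ≤ |hd| ∧ |hd| ≤ 2^l R^3}, 1 ≤ l ≤ L     (as in t2).
 They cover Om D q m: (U), (L) of Om_UL; if the (a,b) of (L) has a+b ≥ 3: T 0. Otherwise a+b = 2; by (U) |hd| ≤ 2 C1^2 R^4 ≤ 2^L R^3 (R = 2^m), so |hd| ≤ R^3 or 2^(l-1) R^3 ≤ |hd| ≤ 2^l R^3 for some 1 ≤ l ≤ L.
 (i) sup part: by sup_bound D C3 eps0 with g = (R cc.1, R cc.2): volume (Mu ..) ≤ K/R (Om ⊆ BB and (L)).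
 (ii) s 0 = s 1 = K/R by sup_bound again; s (l+1) = K (C3 R)^2 / (2^(l-1) R^3) = 2 K C3^2 / (2^l R) by area2 (2D+1) (deg_qt) with ρ = C3 R, δ = 2^(l-1) R^3.
 count_abs at every t (g1 = ev (D1 q), g2 = ev (D2 q), measurable_ev; the sets T τ at fixed t are measurable sections; A = Om D q m; Mu D C3 q m cc is the set in count_abs since 2^m * cc.1 = R * cc.1), then integrate in t
 (lintegral_finset_sum / lintegral_const_mul: t ↦ volume (T τ t) is measurable by measurableSet_T3, measurableSet_T2 and measurable_measure_prodMk_left):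
 ∫⁻ t, volume (T 0) ≤ K R (t3), ∫⁻ t, volume (T 1) ≤ K R^3/R^2 = K R, ∫⁻ t, volume (T (l+1)) ≤ K 2^l R^3/R^2 = K 2^l R (t2). All products s τ * ∫⁻ volume (T τ) are ≤ K'. Total ≤ n (2C3+1)^2 n K' and n = m + C' + 2 ≤ K'' m.
-/

namespace Pool.Agent.PPH

open MeasureTheory Set MvPolynomial
open scoped ENNReal Real

/-- the sets of the decomposition -/
private def c2hT (D : ℕ) (C1 eps0 R : ℝ) (c : Cf D) (t : ℝ) : ℕ → Set (ℝ × ℝ)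
  | 0 => {y : ℝ × ℝ | y ∈ BB ∧ Bd D C1 R (qt c t) y ∧ ∃ a b : ℕ, 3 ≤ a + b ∧
      a + b ≤ JJ D ∧ eps0 * R ^ (a + b) ≤ |ev (DD a b (qt c t)) y|}
  | (k + 1) => {y : ℝ × ℝ | y ∈ BB ∧ Bd D C1 R (qt c t) y ∧ (∃ a b : ℕ, a + b = 2 ∧
      eps0 * R ^ 2 ≤ |ev (DD a b (qt c t)) y|) ∧
      (if k = 0 then (-1 : ℝ) else 2 ^ (k - 1) * R ^ 3) ≤ |ev (hd (qt c t)) y| ∧
      |ev (hd (qt c t)) y| ≤ 2 ^ k * R ^ 3}

private noncomputable def c2hs (Ks Ka C3 R : ℝ) : ℕ → ℝ≥0∞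
  | 0 => ENNReal.ofReal (Ks / R)
  | 1 => ENNReal.ofReal (Ks / R)
  | (k + 2) => ENNReal.ofReal (Ka * (C3 * R) ^ 2 / (2 ^ k * R ^ 3))

private lemma c2h_meas2 (D : ℕ) (C1 eps0 R : ℝ) (c : Cf D) (τ : ℕ) :
    MeasurableSet {z : ℝ × (ℝ × ℝ) | z.2 ∈ c2hT D C1 eps0 R c z.1 τ} := by
  cases τ with
  | zero => exact measurableSet_T3 D C1 eps0 R c
  | succ k => exact measurableSet_T2 D C1 eps0 R _ _ c

private lemma c2h_meas (D : ℕ) (C1 eps0 R : ℝ) (c : Cf D) (t : ℝ) (τ : ℕ) :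
    MeasurableSet (c2hT D C1 eps0 R c t τ) :=
  measurable_prodMk_left (x := t) (c2h_meas2 D C1 eps0 R c τ)

private lemma c2h_measv (D : ℕ) (C1 eps0 R : ℝ) (c : Cf D) (τ : ℕ) :
    Measurable (fun t : ℝ => volume (c2hT D C1 eps0 R c t τ)) := by
  have := measurable_measure_prodMk_left (ν := (volume : Measure (ℝ × ℝ)))
    (c2h_meas2 D C1 eps0 R c τ)
  exact this

private lemma c2h_cover (D : ℕ) (C1 eps0 : ℝ) (hC1 : 1 ≤ C1) (C' : ℕ) (hC' : 4 * C1 ^ 2 ≤ 2 ^ C')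
    (c : Cf D) (t : ℝ) (m : ℕ) (y : ℝ × ℝ) (hyB : y ∈ BB)
    (hU : Bd D C1 (2 ^ m) (qt c t) y)
    (hL : ∃ a b : ℕ, 2 ≤ a + b ∧ a + b ≤ JJ D ∧
      eps0 * (2 ^ m) ^ (a + b) ≤ |ev (DD a b (qt c t)) y|) :
    ∃ τ < m + C' + 2, y ∈ c2hT D C1 eps0 (2 ^ m) c t τ := by
  obtain ⟨a, b, h2, hJ, hab⟩ := hL
  by_cases h3 : 3 ≤ a + b
  · exact ⟨0, by omega, hyB, hU, a, b, h3, hJ, hab⟩
  have hab2 : a + b = 2 := by omega
  have hR : (0 : ℝ) < 2 ^ m := by positivity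
  set R : ℝ := 2 ^ m with hRdef
  have hJD : 2 ≤ JJ D := by unfold JJ; omega
  have hb1 := hU 2 0 (by norm_num) hJD
  have hb2 := hU 0 2 (by norm_num) hJD
  have hb3 := hU 1 1 (by norm_num) hJD
  simp only [Nat.add_zero, Nat.zero_add, Nat.reduceAdd] at hb1 hb2 hb3
  have hhd : |ev (hd (qt c t)) y| ≤ 2 * C1 ^ 2 * R ^ 4 := by
    rw [ev_hd_qt]
    have e1 : |ev (DD 2 0 (qt c t)) y * ev (DD 0 2 (qt c t)) y| ≤ (C1 * R ^ 2) * (C1 * R ^ 2) := by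
      rw [abs_mul]
      exact mul_le_mul hb1 hb2 (abs_nonneg _) (by positivity)
    have e2 : |ev (DD 1 1 (qt c t)) y ^ 2| ≤ (C1 * R ^ 2) ^ 2 := by
      rw [abs_pow]
      exact pow_le_pow_left₀ (abs_nonneg _) hb3 2
    calc |ev (DD 2 0 (qt c t)) y * ev (DD 0 2 (qt c t)) y - ev (DD 1 1 (qt c t)) y ^ 2|
        ≤ |ev (DD 2 0 (qt c t)) y * ev (DD 0 2 (qt c t)) y| + |ev (DD 1 1 (qt c t)) y ^ 2| :=
          abs_sub _ _
      _ ≤ (C1 * R ^ 2) * (C1 * R ^ 2) + (C1 * R ^ 2) ^ 2 := add_le_add e1 e2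
      _ = 2 * C1 ^ 2 * R ^ 4 := by ring
  have hex : ∃ k : ℕ, |ev (hd (qt c t)) y| ≤ 2 ^ k * R ^ 3 := by
    refine ⟨m + C', hhd.trans ?_⟩
    have e3 : (2 : ℝ) ^ (m + C') = 2 ^ C' * R := by rw [hRdef, pow_add]; ring
    rw [e3]
    calc 2 * C1 ^ 2 * R ^ 4 ≤ 4 * C1 ^ 2 * R ^ 4 := by
          have : 0 ≤ C1 ^ 2 * R ^ 4 := by positivity
          linarith
      _ ≤ 2 ^ C' * R ^ 4 := by gcongr
      _ = 2 ^ C' * R * R ^ 3 := by ring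
  classical
  let k := Nat.find hex
  have hk : |ev (hd (qt c t)) y| ≤ 2 ^ k * R ^ 3 := Nat.find_spec hex
  have hkle : k ≤ m + C' := by
    refine Nat.find_min' hex ?_
    have e3 : (2 : ℝ) ^ (m + C') = 2 ^ C' * R := by rw [hRdef, pow_add]; ring
    refine hhd.trans ?_
    rw [e3]
    calc 2 * C1 ^ 2 * R ^ 4 ≤ 4 * C1 ^ 2 * R ^ 4 := by
          have : 0 ≤ C1 ^ 2 * R ^ 4 := by positivity
          linarith
      _ ≤ 2 ^ C' * R ^ 4 := by gcongr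
      _ = 2 ^ C' * R * R ^ 3 := by ring
  refine ⟨k + 1, by omega, hyB, hU, ⟨a, b, hab2, ?_⟩, ?_, hk⟩
  · rw [hab2] at hab
    exact hab
  · by_cases h0 : k = 0
    · rw [if_pos h0]
      linarith [abs_nonneg (ev (hd (qt c t)) y)]
    · rw [if_neg h0]
      have := Nat.find_min hex (m := k - 1) (by
        change k - 1 < k
        omega)
      exact (not_le.1 this).le

private lemma c2h_s (D : ℕ) (C1 eps0 C3 Ks Ka R : ℝ) (hC3 : 0 ≤ C3) (hR : 1 ≤ R) (c : Cf D) (t : ℝ)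
    (hsup : ∀ g : ℝ × ℝ,
      volume {y : ℝ × ℝ | y ∈ BB ∧ |ev (D1 (qt c t)) y - g.1| ≤ C3 * R ∧
        |ev (D2 (qt c t)) y - g.2| ≤ C3 * R ∧
        ∃ a b : ℕ, 2 ≤ a + b ∧ a + b ≤ JJ D ∧ eps0 * R ^ (a + b) ≤ |ev (DD a b (qt c t)) y|} ≤
      ENNReal.ofReal (Ks / R))
    (harea : ∀ (g : ℝ × ℝ) (ρ δ : ℝ), 0 ≤ ρ → 0 < δ →
      volume {y : ℝ × ℝ | y ∈ BB ∧ |ev (D1 (qt c t)) y - g.1| ≤ ρ ∧
        |ev (D2 (qt c t)) y - g.2| ≤ ρ ∧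
        δ ≤ |ev (hd (qt c t)) y|} ≤ ENNReal.ofReal (Ka * ρ ^ 2 / δ)) (τ : ℕ) (cc : ℤ × ℤ) :
    volume {y | y ∈ c2hT D C1 eps0 R c t τ ∧ |ev (D1 (qt c t)) y - R * (cc.1 : ℝ)| ≤ C3 * R ∧
      |ev (D2 (qt c t)) y - R * (cc.2 : ℝ)| ≤ C3 * R} ≤ c2hs Ks Ka C3 R τ := by
  have hJD : 2 ≤ JJ D := by unfold JJ; omega
  match τ with
  | 0 =>
    refine (measure_mono ?_).trans (hsup (R * (cc.1 : ℝ), R * (cc.2 : ℝ)))
    rintro y ⟨⟨hyB, -, a, b, h3, hJ, hab⟩, h1, h2⟩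
    exact ⟨hyB, h1, h2, a, b, by omega, hJ, hab⟩
  | 1 =>
    refine (measure_mono ?_).trans (hsup (R * (cc.1 : ℝ), R * (cc.2 : ℝ)))
    rintro y ⟨⟨hyB, -, ⟨a, b, hab2, hab⟩, -⟩, h1, h2⟩
    exact ⟨hyB, h1, h2, a, b, by omega, by omega, by rw [hab2]; exact hab⟩
  | (k + 2) =>
    have hR0 : 0 < R := by linarith
    refine (measure_mono ?_).trans (harea (R * (cc.1 : ℝ), R * (cc.2 : ℝ)) (C3 * R)
      (2 ^ k * R ^ 3) (by positivity) (by positivity))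
    rintro y ⟨⟨hyB, -, -, hd1, -⟩, h1, h2⟩
    refine ⟨hyB, h1, h2, ?_⟩
    rw [if_neg (by omega)] at hd1
    exact hd1

private lemma c2h_prod (D : ℕ) (C1 eps0 C3 Ks Ka K3 K2 R : ℝ) (hKs : 0 < Ks) (hKa : 0 < Ka)
    (hK3 : 0 < K3) (hK2 : 0 < K2) (hR : 1 ≤ R) (c : Cf D)
    (ht3 : ∫⁻ t, volume {y : ℝ × ℝ | y ∈ BB ∧ Bd D C1 R (qt c t) y ∧ ∃ a b : ℕ, 3 ≤ a + b ∧
      a + b ≤ JJ D ∧ eps0 * R ^ (a + b) ≤ |ev (DD a b (qt c t)) y|} ≤ ENNReal.ofReal (K3 * R))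
    (ht2 : ∀ δ' δ : ℝ, 0 ≤ δ →
      ∫⁻ t, volume {y : ℝ × ℝ | y ∈ BB ∧ Bd D C1 R (qt c t) y ∧ (∃ a b : ℕ, a + b = 2 ∧
        eps0 * R ^ 2 ≤ |ev (DD a b (qt c t)) y|) ∧ δ' ≤ |ev (hd (qt c t)) y| ∧
        |ev (hd (qt c t)) y| ≤ δ} ≤ ENNReal.ofReal (K2 * δ / R ^ 2)) (τ : ℕ) :
    c2hs Ks Ka C3 R τ * ∫⁻ t, volume (c2hT D C1 eps0 R c t τ) ≤
      ENNReal.ofReal (Ks * K3 + Ks * K2 + 2 * Ka * C3 ^ 2 * K2) := by
  have hR0 : 0 < R := by linarith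
  match τ with
  | 0 =>
    calc c2hs Ks Ka C3 R 0 * ∫⁻ t, volume (c2hT D C1 eps0 R c t 0)
        ≤ ENNReal.ofReal (Ks / R) * ENNReal.ofReal (K3 * R) := mul_le_mul_right ht3 _
      _ = ENNReal.ofReal (Ks / R * (K3 * R)) := (ENNReal.ofReal_mul (by positivity)).symm
      _ ≤ _ := by
        refine ENNReal.ofReal_le_ofReal ?_
        have e : Ks / R * (K3 * R) = Ks * K3 := by field_simp
        rw [e]
        have : 0 ≤ Ks * K2 + 2 * Ka * C3 ^ 2 * K2 := by positivity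
        linarith
  | 1 =>
    have h := ht2 (-1) (2 ^ 0 * R ^ 3) (by positivity)
    calc c2hs Ks Ka C3 R 1 * ∫⁻ t, volume (c2hT D C1 eps0 R c t 1)
        ≤ ENNReal.ofReal (Ks / R) * ENNReal.ofReal (K2 * (2 ^ 0 * R ^ 3) / R ^ 2) := by
          refine mul_le_mul_right ?_ _
          refine le_trans (le_of_eq ?_) h
          refine lintegral_congr fun t => ?_
          simp only [c2hT, if_true]
      _ = ENNReal.ofReal (Ks / R * (K2 * (2 ^ 0 * R ^ 3) / R ^ 2)) :=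
          (ENNReal.ofReal_mul (by positivity)).symm
      _ ≤ _ := by
        refine ENNReal.ofReal_le_ofReal ?_
        have e : Ks / R * (K2 * (2 ^ 0 * R ^ 3) / R ^ 2) = Ks * K2 := by
          rw [pow_zero]
          field_simp
        rw [e]
        have : 0 ≤ Ks * K3 + 2 * Ka * C3 ^ 2 * K2 := by positivity
        linarith
  | (k + 2) =>
    have h := ht2 (2 ^ k * R ^ 3) (2 ^ (k + 1) * R ^ 3) (by positivity)
    calc c2hs Ks Ka C3 R (k + 2) * ∫⁻ t, volume (c2hT D C1 eps0 R c t (k + 2))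
        ≤ ENNReal.ofReal (Ka * (C3 * R) ^ 2 / (2 ^ k * R ^ 3)) *
          ENNReal.ofReal (K2 * (2 ^ (k + 1) * R ^ 3) / R ^ 2) := by
          refine mul_le_mul_right ?_ _
          refine le_trans (le_of_eq ?_) h
          refine lintegral_congr fun t => ?_
          simp only [c2hT, if_neg (Nat.succ_ne_zero k), Nat.add_sub_cancel]
      _ = ENNReal.ofReal (Ka * (C3 * R) ^ 2 / (2 ^ k * R ^ 3) *
          (K2 * (2 ^ (k + 1) * R ^ 3) / R ^ 2)) :=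
          (ENNReal.ofReal_mul (by positivity)).symm
      _ ≤ _ := by
        refine ENNReal.ofReal_le_ofReal ?_
        have e : Ka * (C3 * R) ^ 2 / (2 ^ k * R ^ 3) * (K2 * (2 ^ (k + 1) * R ^ 3) / R ^ 2) =
            2 * Ka * C3 ^ 2 * K2 := by
          field_simp
          ring
        rw [e]
        have : 0 ≤ Ks * K3 + Ks * K2 := by positivity
        linarith

theorem count (D : ℕ) (C3 : ℝ) (hC3 : 0 ≤ C3) : ∃ K : ℝ, 0 < K ∧ ∀ (c : Cf D) (m : ℕ), 3 ≤ m →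
    (∀ (t : ℝ) (cc : ℤ × ℤ), volume (Mu D C3 (qt c t) m cc) ≤ ENNReal.ofReal (K / 2 ^ m)) ∧
    ∫⁻ t, ∑' cc : ℤ × ℤ, volume (Mu D C3 (qt c t) m cc) ^ 2 ≤ ENNReal.ofReal (K * m ^ 2) := by
  obtain ⟨C1, eps0, hC1, heps0, hUL⟩ := Om_UL D
  obtain ⟨Ks, hKs, hsup⟩ := sup_bound D C3 eps0 hC3 heps0
  obtain ⟨K3, hK3, ht3⟩ := t3 D C1 eps0 hC1 heps0
  obtain ⟨K2, hK2, ht2⟩ := t2 D C1 eps0 hC1 heps0
  obtain ⟨Ka, hKa, harea⟩ := area2 (2 * D + 1)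
  obtain ⟨C', hC'⟩ : ∃ C' : ℕ, 4 * C1 ^ 2 ≤ 2 ^ C' := by
    obtain ⟨n, hn⟩ := pow_unbounded_of_one_lt (4 * C1 ^ 2) (one_lt_two : (1 : ℝ) < 2)
    exact ⟨n, hn.le⟩
  set K' : ℝ := Ks * K3 + Ks * K2 + 2 * Ka * C3 ^ 2 * K2 with hK'
  have hK'0 : 0 < K' := by positivity
  refine ⟨Ks + (C' + 3) ^ 2 * (2 * C3 + 1) ^ 2 * K', by positivity, fun c m hm => ⟨?_, ?_⟩⟩
  · intro t cc
    have hR1 : (1 : ℝ) ≤ 2 ^ m := one_le_pow₀ (by norm_num)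
    have h1 := hsup c t (2 ^ m) hR1 (2 ^ m * (cc.1 : ℝ), 2 ^ m * (cc.2 : ℝ))
    refine (measure_mono ?_).trans (h1.trans (ENNReal.ofReal_le_ofReal ?_))
    · rintro y ⟨hyO, h2, h3⟩
      obtain ⟨a, b, h4, h5, h6⟩ := (hUL c t m (by omega)).2.2 hm y hyO
      exact ⟨BB0_subset (Om_subset D _ (by omega) hyO), h2, h3, a, b, h4, h5, h6⟩
    · gcongr
      have : 0 ≤ ((C' : ℝ) + 3) ^ 2 * (2 * C3 + 1) ^ 2 * K' := by positivity
      linarith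
  · have hR1 : (1 : ℝ) ≤ 2 ^ m := one_le_pow₀ (by norm_num)
    have hR0 : (0 : ℝ) < 2 ^ m := by positivity
    have hpt : ∀ t : ℝ, ∑' cc : ℤ × ℤ, volume (Mu D C3 (qt c t) m cc) ^ 2 ≤
        ((m + C' + 2 : ℕ) : ℝ≥0∞) * ENNReal.ofReal ((2 * C3 + 1) ^ 2) *
          ∑ τ ∈ Finset.range (m + C' + 2), c2hs Ks Ka C3 (2 ^ m) τ *
            volume (c2hT D C1 eps0 (2 ^ m) c t τ) := by
      intro t
      refine count_abs C3 (2 ^ m) hC3 hR0 (ev (D1 (qt c t))) (ev (D2 (qt c t)))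
        (measurable_ev _) (measurable_ev _) (m + C' + 2) (Om D (qt c t) m)
        (c2hT D C1 eps0 (2 ^ m) c t) (fun τ _ => c2h_meas D C1 eps0 _ c t τ) ?_
        (c2hs Ks Ka C3 (2 ^ m)) ?_
      · intro y hy
        exact c2h_cover D C1 eps0 hC1 C' hC' c t m y
          (BB0_subset (Om_subset D _ (by omega) hy)) ((hUL c t m (by omega)).2.1 y hy)
          ((hUL c t m (by omega)).2.2 hm y hy)
      · intro τ _ cc
        exact c2h_s D C1 eps0 C3 Ks Ka (2 ^ m) hC3 hR1 c t (fun g => hsup c t _ hR1 g)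
          (fun g ρ δ h1 h2 => harea _ (deg_qt c t) g ρ δ h1 h2) τ cc
    have hsne : ∀ τ, c2hs Ks Ka C3 (2 ^ m) τ ≠ ∞ := by
      intro τ
      match τ with
      | 0 => exact ENNReal.ofReal_ne_top
      | 1 => exact ENNReal.ofReal_ne_top
      | (k + 2) => exact ENNReal.ofReal_ne_top
    have hm1 : (1 : ℝ) ≤ m := by exact_mod_cast (by omega : 1 ≤ m)
    calc ∫⁻ t, ∑' cc : ℤ × ℤ, volume (Mu D C3 (qt c t) m cc) ^ 2
        ≤ ∫⁻ t, ((m + C' + 2 : ℕ) : ℝ≥0∞) * ENNReal.ofReal ((2 * C3 + 1) ^ 2) *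
          ∑ τ ∈ Finset.range (m + C' + 2), c2hs Ks Ka C3 (2 ^ m) τ *
            volume (c2hT D C1 eps0 (2 ^ m) c t τ) := lintegral_mono hpt
      _ = ((m + C' + 2 : ℕ) : ℝ≥0∞) * ENNReal.ofReal ((2 * C3 + 1) ^ 2) *
          ∑ τ ∈ Finset.range (m + C' + 2), c2hs Ks Ka C3 (2 ^ m) τ *
            ∫⁻ t, volume (c2hT D C1 eps0 (2 ^ m) c t τ) := by
          rw [lintegral_const_mul' _ _ (ENNReal.mul_ne_top (ENNReal.natCast_ne_top _)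
            ENNReal.ofReal_ne_top), lintegral_finsetSum _ (fun τ _ =>
              (c2h_measv D C1 eps0 _ c τ).const_mul _)]
          congr 1
          refine Finset.sum_congr rfl fun τ _ => ?_
          rw [lintegral_const_mul' _ _ (hsne τ)]
      _ ≤ ((m + C' + 2 : ℕ) : ℝ≥0∞) * ENNReal.ofReal ((2 * C3 + 1) ^ 2) *
          ∑ τ ∈ Finset.range (m + C' + 2), ENNReal.ofReal K' := by
          refine mul_le_mul_right (Finset.sum_le_sum fun τ _ => ?_) _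
          exact c2h_prod D C1 eps0 C3 Ks Ka K3 K2 (2 ^ m) hKs hKa hK3 hK2 hR1 c
            (ht3 c _ hR1) (fun δ' δ hδ => ht2 c _ hR1 δ' δ hδ) τ
      _ = ENNReal.ofReal (((m + C' + 2 : ℕ) : ℝ) * (2 * C3 + 1) ^ 2 *
          (((m + C' + 2 : ℕ) : ℝ) * K')) := by
          rw [Finset.sum_const, Finset.card_range, nsmul_eq_mul, ENNReal.ofReal_mul (by positivity),
            ENNReal.ofReal_mul (by positivity), ENNReal.ofReal_mul (by positivity),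
            ENNReal.ofReal_natCast]
      _ ≤ ENNReal.ofReal ((Ks + (C' + 3) ^ 2 * (2 * C3 + 1) ^ 2 * K') * m ^ 2) := by
          refine ENNReal.ofReal_le_ofReal ?_
          have hn : ((m + C' + 2 : ℕ) : ℝ) ≤ (C' + 3) * m := by
            push_cast
            have : 0 ≤ (C' : ℝ) := Nat.cast_nonneg _
            nlinarith
          have hn0 : (0 : ℝ) ≤ ((m + C' + 2 : ℕ) : ℝ) := Nat.cast_nonneg _
          calc ((m + C' + 2 : ℕ) : ℝ) * (2 * C3 + 1) ^ 2 * (((m + C' + 2 : ℕ) : ℝ) * K')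
              = ((m + C' + 2 : ℕ) : ℝ) ^ 2 * ((2 * C3 + 1) ^ 2 * K') := by ring
            _ ≤ ((C' + 3) * m) ^ 2 * ((2 * C3 + 1) ^ 2 * K') := by
              gcongr
            _ = ((C' + 3) ^ 2 * (2 * C3 + 1) ^ 2 * K') * m ^ 2 := by ring
            _ ≤ (Ks + (C' + 3) ^ 2 * (2 * C3 + 1) ^ 2 * K') * m ^ 2 := by
              gcongr
              linarith

end Pool.Agent.PPH
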