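import Mathlib

/-!
Definitions for the restriction theorem for polynomial phases.
-/

namespace Pool.Agent.PPH

open MeasureTheory Set MvPolynomial
open scoped ENNReal Real

/-- The height of the point of the unit sphere of `R^3` over `y`. -/
noncomputable def psi (y : ℝ × ℝ) : ℝ := √(1 - y.1 ^ 2 - y.2 ^ 2)

/-- The closed square with centre `0` and side `1/2`. -/
def BB : Set (ℝ × ℝ) := Icc (-(1/4)) (1/4) ×ˢ Icc (-(1/4)) (1/4)

/-- Polynomials in `y₁, y₂, ψ, 1/ψ`. -/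
abbrev RR : Type := MvPolynomial (Fin 4) ℝ

/-- The values of the four variables at `y`. -/
noncomputable def pnt (y : ℝ × ℝ) : Fin 4 → ℝ := ![y.1, y.2, psi y, 1 / psi y]

/-- The function on the disc defined by an element of `RR`. -/
noncomputable def ev (f : RR) (y : ℝ × ℝ) : ℝ := eval (pnt y) f

/-- The derivation `∂/∂y₁`. -/
noncomputable def D1 : Derivation ℝ RR RR :=
  mkDerivation ℝ ![1, 0, -(X 0 * X 3), X 0 * X 3 ^ 3]

/-- The derivation `∂/∂y₂`. -/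
noncomputable def D2 : Derivation ℝ RR RR :=
  mkDerivation ℝ ![0, 1, -(X 1 * X 3), X 1 * X 3 ^ 3]

/-- `∂₁^a ∂₂^b`. -/
noncomputable def DD (a b : ℕ) (f : RR) : RR := D1^[a] (D2^[b] f)

/-- The derivative in the direction `(1, s)`. -/
noncomputable def Ds (s : ℕ) (f : RR) : RR := D1 f + C (s : ℝ) * D2 f

/-- Coefficients. -/
abbrev Cf (D : ℕ) : Type := Fin (D + 1) × Fin (D + 1) × Fin 2 → ℝ

/-- The phase with given coefficients: `∑ c_{ije} y₁^i y₂^j ψ^e`. -/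
noncomputable def qq {D : ℕ} (c : Cf D) : RR :=
  ∑ p : Fin (D + 1) × Fin (D + 1) × Fin 2, C (c p) *
    (X 0 ^ (p.1 : ℕ) * X 1 ^ (p.2.1 : ℕ) * X 2 ^ (p.2.2 : ℕ))

/-- The phase at time `t`. -/
noncomputable def qt {D : ℕ} (c : Cf D) (t : ℝ) : RR := qq c + C t * X 2

/-- The number of derivatives which are used. -/
def JJ (D : ℕ) : ℕ := 4 * D + 2

/-- All derivatives of order `2 ≤ j ≤ JJ D` are at most `ε * R ^ j` at `y`. -/
def Bd (D : ℕ) (ε R : ℝ) (q : RR) (y : ℝ × ℝ) : Prop :=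
  ∀ a b : ℕ, 2 ≤ a + b → a + b ≤ JJ D → |ev (DD a b q) y| ≤ ε * R ^ (a + b)

/-- The lower left corner of a dyadic square. -/
noncomputable def cor (m : ℕ) (i : ℤ × ℤ) : ℝ × ℝ := ((i.1 : ℝ) / 2 ^ m, (i.2 : ℝ) / 2 ^ m)

/-- The dyadic squares of side `2^{-m}`. -/
def sq (m : ℕ) (i : ℤ × ℤ) : Set (ℝ × ℝ) :=
  Ico ((i.1 : ℝ) / 2 ^ m) (((i.1 : ℝ) + 1) / 2 ^ m) ×ˢ
    Ico ((i.2 : ℝ) / 2 ^ m) (((i.2 : ℝ) + 1) / 2 ^ m)

/-- The squares of side `2^{-m}` which are contained in `[-1/4, 1/4)²` (for `m ≥ 2`). -/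
noncomputable def idx (m : ℕ) : Finset (ℤ × ℤ) :=
  Finset.Ico (-2 ^ (m - 2)) (2 ^ (m - 2)) ×ˢ Finset.Ico (-2 ^ (m - 2)) (2 ^ (m - 2))

/-- The index of the square of level `m - k` containing the square `i` of level `m`. -/
def anc (k : ℕ) (i : ℤ × ℤ) : ℤ × ℤ := (i.1 / 2 ^ k, i.2 / 2 ^ k)

/-- The selected squares: good, and no larger square containing it is good. -/
def Sel (D : ℕ) (q : RR) (m : ℕ) (i : ℤ × ℤ) : Prop :=
  Bd D 1 (2 ^ m) q (cor m i) ∧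
    ∀ m' : ℕ, 2 ≤ m' → m' < m → ¬ Bd D 1 (2 ^ m') q (cor m' (anc (m - m') i))

/-- The union of the selected squares of level `m`. -/
def Om (D : ℕ) (q : RR) (m : ℕ) : Set (ℝ × ℝ) :=
  {y | ∃ i ∈ idx m, Sel D q m i ∧ y ∈ sq m i}

/-- Amplitude and phase. -/
noncomputable def am (al q : RR) (x y : ℝ × ℝ) : ℂ :=
  ((ev al y : ℝ) : ℂ) * Complex.exp (((ev q y - x.1 * y.1 - x.2 * y.2 : ℝ) : ℂ) * Complex.I)

/-- The oscillatory integral over a set. -/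
noncomputable def uI (E : Set (ℝ × ℝ)) (al q : RR) (x : ℝ × ℝ) : ℂ := ∫ y in E, am al q x y

/-- Bounded amplitudes. -/
def Amp (A : ℝ) (al : RR) : Prop :=
  ∀ a b : ℕ, a ≤ 1 → b ≤ 1 → ∀ y ∈ BB, |ev (DD a b al) y| ≤ A

/-- The weight on `Z²`. -/
noncomputable def ww (n : ℤ × ℤ) : ℝ := 1 / ((1 + |(n.1 : ℝ)|) * (1 + |(n.2 : ℝ)|))

/-- The gradient at the corner of the square `i` of level `m`. -/
noncomputable def gr (q : RR) (m : ℕ) (i : ℤ × ℤ) : ℝ × ℝ :=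
  (ev (D1 q) (cor m i), ev (D2 q) (cor m i))

/-- The cell of side `2^m` containing `x`. -/
noncomputable def cell (m : ℕ) (x : ℝ × ℝ) : ℤ × ℤ := (⌊x.1 / 2 ^ m⌋, ⌊x.2 / 2 ^ m⌋)

open Classical in
/-- The normalised number of selected squares of level `m` whose gradient lies in the cell `c`. -/
noncomputable def NN (D : ℕ) (q : RR) (m : ℕ) (c : ℤ × ℤ) : ℝ :=
  (((idx m).filter fun i => Sel D q m i ∧ cell m (gr q m i) = c).card : ℝ) / 4 ^ m

/-- The points of `Om` with gradient near the cell `c`. -/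
def Mu (D : ℕ) (C3 : ℝ) (q : RR) (m : ℕ) (c : ℤ × ℤ) : Set (ℝ × ℝ) :=
  {y | y ∈ Om D q m ∧ |ev (D1 q) y - 2 ^ m * (c.1 : ℝ)| ≤ C3 * 2 ^ m ∧
    |ev (D2 q) y - 2 ^ m * (c.2 : ℝ)| ≤ C3 * 2 ^ m}

/-- The determinant of the Hessian. -/
noncomputable def hd (q : RR) : RR := DD 2 0 q * DD 0 2 q - DD 1 1 q ^ 2

/-- The parts of the Hessian not proportional to the Hessian of the sphere. -/
noncomputable def E1 (f : RR) : RR := DD 2 0 f * DD 0 2 (X 2) - DD 0 2 f * DD 2 0 (X 2)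
/-- The parts of the Hessian not proportional to the Hessian of the sphere. -/
noncomputable def E2 (f : RR) : RR := DD 2 0 f * DD 1 1 (X 2) - DD 1 1 f * DD 2 0 (X 2)

end Pool.Agent.PPH
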