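import Pool.Agent.PPH.A0

/-!
Definitions for the extension operator in the chart and polynomial cuts.
-/

namespace Pool.Agent.PPH

open MeasureTheory Set MvPolynomial
open scoped ENNReal Real

/-- The extension operator in the chart. -/
noncomputable def VV (G : ℝ × ℝ → ℂ) (z : ℝ × (ℝ × ℝ)) : ℂ :=
  ∫ y in BB, G y *
    Complex.exp (((z.1 * psi y - z.2.1 * y.1 - z.2.2 * y.2 : ℝ) : ℂ) * Complex.I)

/-- The phase `e^{i q_c}`. -/
noncomputable def phs {D : ℕ} (c : Cf D) (y : ℝ × ℝ) : ℂ :=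
  Complex.exp (((ev (qq c) y : ℝ) : ℂ) * Complex.I)

/-- The indicator of `q_c > 0`. -/
noncomputable def cut {D : ℕ} (c : Cf D) (y : ℝ × ℝ) : ℂ := if 0 < ev (qq c) y then 1 else 0

/-- The densities in the chart: `(1/ψ) e^{i q_c} ∏ 1_{q_{c_i} > 0}`. -/
noncomputable def GG {D N : ℕ} (c : Cf D) (cs : Fin N → Cf D) (y : ℝ × ℝ) : ℂ :=
  ((1 / psi y : ℝ) : ℂ) * phs c y * ∏ i, cut (cs i) y

end Pool.Agent.PPH
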