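import Pool.Agent.MST.CH
import Pool.Agent.PPH.Defs2

/-!
Densities on the unit sphere of `R^3` given by polynomials.
-/

namespace Pool.Agent.PPH

open MeasureTheory Set MvPolynomial Pool.Agent.MP_6cbfb8_an
open scoped ENNReal Real

/-- The function `e^{iP} ∏ 1_{Q_i > 0}` on `R^3`. -/
noncomputable def pol (P : MvPolynomial (Fin 3) ℝ) {N : ℕ} (Q : Fin N → MvPolynomial (Fin 3) ℝ)
    (x : E 3) : ℂ :=
  Complex.exp (((eval (fun i => x i) P : ℝ) : ℂ) * Complex.I) *
    ∏ i, if 0 < eval (fun j => x j) (Q i) then 1 else 0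

/-- The open set `|x_1|, |x_2| < 1/4, x_3 > 0`. -/
def UU : Set (E 3) := {x | |x 0| < 1 / 4 ∧ |x 1| < 1 / 4 ∧ 0 < x 2}

open Classical in
/-- The indicator of the rotated set. -/
noncomputable def chi (R : E 3 ≃ₗᵢ[ℝ] E 3) (x : E 3) : ℂ := if R x ∈ UU then 1 else 0

open Classical in
/-- The indicator of a finite union of rotated sets. -/
noncomputable def unn (L : List (E 3 ≃ₗᵢ[ℝ] E 3)) (x : E 3) : ℂ := if ∃ R ∈ L, R x ∈ UU then 1 else 0

end Pool.Agent.PPH
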