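import Mathlib

/-!
Pure analysis: integration by parts.

ROW H1a (0.8 h). `ibp1`: the integral over Ico a b is the interval integral (a ≤ b). Trivial bound A (b - a) ≤ A ρ. For ξ ≠ 0 integrate by parts
 (intervalIntegral.integral_mul_deriv_eq_deriv_mul with u = G, v y = exp(-i ξ y)/(-i ξ)): ≤ (2 A + (A/ρ) (b-a)) / |ξ| ≤ 3 A / |ξ|. With s = ρ |ξ|: min(1, 3/s) ≤ 4/(1+s).
`ibp2`: G(y1) = ∫ y2 in Ico a.2 b.2, F(y1,y2) e^{-i ξ.2 y2}, G'(y1) = ∫ y2 .. F1(y1,y2) e^{..} (differentiation under the integral: hasDerivAt_integral_of_dominated_loc_of_deriv_le needs the derivative in a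
 neighbourhood of y1; therefore the hypotheses are made on an open set U containing the closed rectangle. F1 is bounded near the compact rectangle by continuity on U). `ibp1` in y2 for F(y1,·) (bounds A, A/ρ) and
 for F1(y1,·) (bounds A/ρ, A/ρ²) gives |G| ≤ A', |G'| ≤ A'/ρ with A' = 4 A ρ/(1 + ρ |ξ.2|); then `ibp1` for G. Fubini: integral_prod / setIntegral_prod (exp of a sum = product of exps).
-/

namespace Pool.Agent.PPH

open MeasureTheory Set
open scoped ENNReal Real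

private lemma h1a_norm (t : ℝ) : ‖Complex.exp (((-t : ℝ) : ℂ) * Complex.I)‖ = 1 :=
  Complex.norm_exp_ofReal_mul_I _

private lemma h1a_cont (ξ : ℝ) :
    Continuous (fun y : ℝ => Complex.exp (((-(ξ * y) : ℝ) : ℂ) * Complex.I)) := by
  fun_prop

private lemma h1a_deriv (ξ : ℝ) (hξ : ξ ≠ 0) (y : ℝ) :
    HasDerivAt (fun y : ℝ => Complex.exp (((-(ξ * y) : ℝ) : ℂ) * Complex.I) /
      (-(ξ : ℂ) * Complex.I)) (Complex.exp (((-(ξ * y) : ℝ) : ℂ) * Complex.I)) y := by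
  have hc : (-(ξ : ℂ) * Complex.I) ≠ 0 :=
    mul_ne_zero (neg_ne_zero.2 (Complex.ofReal_ne_zero.2 hξ)) Complex.I_ne_zero
  have h1 : HasDerivAt (fun y : ℝ => (((-(ξ * y) : ℝ) : ℂ) * Complex.I))
      (-(ξ : ℂ) * Complex.I) y := by
    have h2 : HasDerivAt (fun y : ℝ => (-(ξ * y) : ℝ)) (-ξ) y := by
      have h := (hasDerivAt_id' y).const_mul (-ξ)
      rw [mul_one] at h
      have e : (fun y : ℝ => (-(ξ * y) : ℝ)) = fun y => -ξ * y := by
        funext y
        ring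
      rw [e]
      exact h
    have h3 := (h2.ofReal_comp).mul_const Complex.I
    simpa using h3
  have h4 := (h1.cexp).div_const (-(ξ : ℂ) * Complex.I)
  rwa [mul_div_assoc, div_self hc, mul_one] at h4

theorem ibp1 (G G' : ℝ → ℂ) (a b ρ A ξ : ℝ) (hab : a ≤ b) (hρ : 0 < ρ) (hb : b - a ≤ ρ) (hA : 0 ≤ A)
    (hG : ∀ y ∈ Icc a b, HasDerivAt G (G' y) y) (hG' : ContinuousOn G' (Icc a b))
    (h0 : ∀ y ∈ Icc a b, ‖G y‖ ≤ A) (h1 : ∀ y ∈ Icc a b, ‖G' y‖ ≤ A / ρ) :
    ‖∫ y in Ico a b, G y * Complex.exp (((-(ξ * y) : ℝ) : ℂ) * Complex.I)‖ ≤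
      4 * A * ρ / (1 + ρ * |ξ|) := by
  set e : ℝ → ℂ := fun y => Complex.exp (((-(ξ * y) : ℝ) : ℂ) * Complex.I) with he
  have hen : ∀ y, ‖e y‖ = 1 := fun y => h1a_norm _
  have hec : Continuous e := h1a_cont ξ
  rw [integral_Ico_eq_integral_Ioc, ← intervalIntegral.integral_of_le hab]
  change ‖∫ y in a..b, G y * e y‖ ≤ _
  have hGc : ContinuousOn G (Icc a b) := fun y hy => (hG y hy).continuousAt.continuousWithinAt
  have huIcc : uIcc a b = Icc a b := uIcc_of_le hab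
  have hba : 0 ≤ b - a := sub_nonneg.2 hab
  -- trivial bound
  have hN1 : ‖∫ y in a..b, G y * e y‖ ≤ A * ρ := by
    have h := intervalIntegral.norm_integral_le_of_norm_le_const (a := a) (b := b)
      (f := fun y => G y * e y) (C := A) (by
        intro y hy
        rw [uIoc_of_le hab] at hy
        rw [norm_mul, hen, mul_one]
        exact h0 y ⟨hy.1.le, hy.2⟩)
    refine h.trans ?_
    rw [abs_of_nonneg hba]
    exact mul_le_mul_of_nonneg_left hb hA
  -- integration by parts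
  have hN2 : ‖∫ y in a..b, G y * e y‖ * |ξ| ≤ 3 * A := by
    by_cases hξ : ξ = 0
    · rw [hξ, abs_zero, mul_zero]
      positivity
    · have hξ' : 0 < |ξ| := abs_pos.2 hξ
      set v : ℝ → ℂ := fun y => e y / (-(ξ : ℂ) * Complex.I) with hv
      have hvn : ∀ y, ‖v y‖ = 1 / |ξ| := by
        intro y
        simp only [hv, norm_div, hen, norm_mul, norm_neg, Complex.norm_real, Complex.norm_I,
          mul_one, Real.norm_eq_abs]
      have hvc : Continuous v := hec.div_const _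
      have hparts := intervalIntegral.integral_mul_deriv_eq_deriv_mul (a := a) (b := b)
        (u := G) (v := v) (u' := G') (v' := e)
        (fun y hy => hG y (huIcc ▸ hy)) (fun y _ => h1a_deriv ξ hξ y)
        (ContinuousOn.intervalIntegrable (by rw [huIcc]; exact hG'))
        (hec.intervalIntegrable a b)
      rw [hparts]
      have hA1 : ‖G b * v b‖ ≤ A / |ξ| := by
        rw [norm_mul, hvn, mul_one_div]
        exact div_le_div_of_nonneg_right (h0 b ⟨hab, le_rfl⟩) hξ'.le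
      have hA2 : ‖G a * v a‖ ≤ A / |ξ| := by
        rw [norm_mul, hvn, mul_one_div]
        exact div_le_div_of_nonneg_right (h0 a ⟨le_rfl, hab⟩) hξ'.le
      have hA3 : ‖∫ y in a..b, G' y * v y‖ ≤ A / |ξ| := by
        have h := intervalIntegral.norm_integral_le_of_norm_le_const (a := a) (b := b)
          (f := fun y => G' y * v y) (C := A / ρ * (1 / |ξ|)) (by
            intro y hy
            rw [uIoc_of_le hab] at hy
            rw [norm_mul, hvn]
            exact mul_le_mul_of_nonneg_right (h1 y ⟨hy.1.le, hy.2⟩) (by positivity))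
        refine h.trans ?_
        rw [abs_of_nonneg hba]
        have h2 : A / ρ * (1 / |ξ|) * (b - a) ≤ A / ρ * (1 / |ξ|) * ρ :=
          mul_le_mul_of_nonneg_left hb (by positivity)
        refine h2.trans (le_of_eq ?_)
        field_simp
      have h3 : ‖G b * v b - G a * v a - ∫ y in a..b, G' y * v y‖ ≤ 3 * A / |ξ| := by
        have h4 := norm_sub_le (G b * v b - G a * v a) (∫ y in a..b, G' y * v y)
        have h5 := norm_sub_le (G b * v b) (G a * v a)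
        have h6 : 3 * A / |ξ| = A / |ξ| + A / |ξ| + A / |ξ| := by ring
        rw [h6]
        linarith
      calc _ ≤ 3 * A / |ξ| * |ξ| := mul_le_mul_of_nonneg_right h3 hξ'.le
        _ = 3 * A := div_mul_cancel₀ _ hξ'.ne'
  have hpos : 0 < 1 + ρ * |ξ| := by positivity
  rw [le_div_iff₀ hpos]
  have h7 : ρ * (‖∫ y in a..b, G y * e y‖ * |ξ|) ≤ ρ * (3 * A) :=
    mul_le_mul_of_nonneg_left hN2 hρ.le
  nlinarith

theorem ibp2 (F F1 F2 F12 : ℝ × ℝ → ℂ) (U : Set (ℝ × ℝ)) (hU : IsOpen U) (a b : ℝ × ℝ) (ρ A : ℝ)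
    (ξ : ℝ × ℝ) (hab1 : a.1 ≤ b.1) (hab2 : a.2 ≤ b.2) (hρ : 0 < ρ) (hb1 : b.1 - a.1 ≤ ρ)
    (hb2 : b.2 - a.2 ≤ ρ) (hA : 0 ≤ A) (hsub : Icc a.1 b.1 ×ˢ Icc a.2 b.2 ⊆ U)
    (hF1 : ∀ y ∈ U, HasDerivAt (fun s => F (s, y.2)) (F1 y) y.1)
    (hF2 : ∀ y ∈ U, HasDerivAt (fun s => F (y.1, s)) (F2 y) y.2)
    (hF12 : ∀ y ∈ U, HasDerivAt (fun s => F1 (y.1, s)) (F12 y) y.2)
    (hc : ContinuousOn F U) (hc1 : ContinuousOn F1 U) (hc2 : ContinuousOn F2 U)
    (hc12 : ContinuousOn F12 U)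
    (h0 : ∀ y ∈ Icc a.1 b.1 ×ˢ Icc a.2 b.2, ‖F y‖ ≤ A)
    (h1 : ∀ y ∈ Icc a.1 b.1 ×ˢ Icc a.2 b.2, ‖F1 y‖ ≤ A / ρ)
    (h2 : ∀ y ∈ Icc a.1 b.1 ×ˢ Icc a.2 b.2, ‖F2 y‖ ≤ A / ρ)
    (h12 : ∀ y ∈ Icc a.1 b.1 ×ˢ Icc a.2 b.2, ‖F12 y‖ ≤ A / ρ ^ 2) :
    ‖∫ y in Ico a.1 b.1 ×ˢ Ico a.2 b.2,
        F y * Complex.exp (((-(ξ.1 * y.1 + ξ.2 * y.2) : ℝ) : ℂ) * Complex.I)‖ ≤
      16 * A * ρ ^ 2 / ((1 + ρ * |ξ.1|) * (1 + ρ * |ξ.2|)) := by
  set e1 : ℝ → ℂ := fun y => Complex.exp (((-(ξ.1 * y) : ℝ) : ℂ) * Complex.I) with he1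
  set e2 : ℝ → ℂ := fun y => Complex.exp (((-(ξ.2 * y) : ℝ) : ℂ) * Complex.I) with he2
  have hen1 : ∀ y, ‖e1 y‖ = 1 := fun y => h1a_norm _
  have hen2 : ∀ y, ‖e2 y‖ = 1 := fun y => h1a_norm _
  have hec1 : Continuous e1 := h1a_cont ξ.1
  have hec2 : Continuous e2 := h1a_cont ξ.2
  have hsplit : ∀ y : ℝ × ℝ, Complex.exp (((-(ξ.1 * y.1 + ξ.2 * y.2) : ℝ) : ℂ) * Complex.I) =
      e1 y.1 * e2 y.2 := by
    intro y
    simp only [he1, he2, ← Complex.exp_add]
    congr 1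
    push_cast
    ring
  simp only [hsplit]
  set R : Set (ℝ × ℝ) := Icc a.1 b.1 ×ˢ Icc a.2 b.2 with hR
  have hRc : IsCompact R := isCompact_Icc.prod isCompact_Icc
  set G : ℝ → ℂ := fun s => ∫ y in Ico a.2 b.2, F (s, y) * e2 y with hG
  set G' : ℝ → ℂ := fun s => ∫ y in Ico a.2 b.2, F1 (s, y) * e2 y with hG'
  -- Fubini
  have hint : IntegrableOn (fun y : ℝ × ℝ => F y * (e1 y.1 * e2 y.2))
      (Ico a.1 b.1 ×ˢ Ico a.2 b.2) ((volume : Measure ℝ).prod volume) := by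
    have hcont : ContinuousOn (fun y : ℝ × ℝ => F y * (e1 y.1 * e2 y.2)) R :=
      (hc.mono hsub).mul ((hec1.comp continuous_fst).mul (hec2.comp continuous_snd)).continuousOn
    have h3 := hcont.integrableOn_compact hRc (μ := (volume : Measure (ℝ × ℝ)))
    exact h3.mono_set (prod_mono Ico_subset_Icc_self Ico_subset_Icc_self)
  have hfub : ∫ y in Ico a.1 b.1 ×ˢ Ico a.2 b.2, F y * (e1 y.1 * e2 y.2) =
      ∫ s in Ico a.1 b.1, G s * e1 s := by
    rw [Measure.volume_eq_prod, setIntegral_prod _ hint]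
    congr 1
    funext s
    rw [hG, ← integral_mul_const]
    congr 1
    funext y
    ring
  rw [hfub]
  -- slices
  have hslice : ∀ (H : ℝ × ℝ → ℂ), ContinuousOn H U → ∀ s, (∀ y ∈ Icc a.2 b.2, (s, y) ∈ U) →
      ContinuousOn (fun y => H (s, y)) (Icc a.2 b.2) := by
    intro H hH s hs
    exact hH.comp (Continuous.continuousOn (by fun_prop)) hs
  have hin : ∀ s ∈ Icc a.1 b.1, ∀ y ∈ Icc a.2 b.2, (s, y) ∈ U := fun s hs y hy => hsub ⟨hs, hy⟩
  set A' : ℝ := 4 * A * ρ / (1 + ρ * |ξ.2|) with hA'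
  have hGb : ∀ s ∈ Icc a.1 b.1, ‖G s‖ ≤ A' := by
    intro s hs
    exact ibp1 (fun y => F (s, y)) (fun y => F2 (s, y)) a.2 b.2 ρ A ξ.2 hab2 hρ hb2 hA
      (fun y hy => hF2 (s, y) (hin s hs y hy)) (hslice F2 hc2 s (hin s hs))
      (fun y hy => h0 (s, y) ⟨hs, hy⟩) (fun y hy => h2 (s, y) ⟨hs, hy⟩)
  have hGb' : ∀ s ∈ Icc a.1 b.1, ‖G' s‖ ≤ A' / ρ := by
    intro s hs
    have h := ibp1 (fun y => F1 (s, y)) (fun y => F12 (s, y)) a.2 b.2 ρ (A / ρ) ξ.2 hab2 hρ hb2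
      (by positivity)
      (fun y hy => hF12 (s, y) (hin s hs y hy)) (hslice F12 hc12 s (hin s hs))
      (fun y hy => h1 (s, y) ⟨hs, hy⟩) (fun y hy => by
        have := h12 (s, y) ⟨hs, hy⟩
        rwa [div_div, ← sq])
    refine h.trans (le_of_eq ?_)
    rw [hA']
    have : 0 < 1 + ρ * |ξ.2| := by positivity
    field_simp
  have hmeas : ∀ (H : ℝ × ℝ → ℂ), ContinuousOn H U → ∀ s, (∀ y ∈ Icc a.2 b.2, (s, y) ∈ U) →
      ContinuousOn (fun y => H (s, y) * e2 y) (Icc a.2 b.2) := fun H hH s hs =>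
    (hslice H hH s hs).mul hec2.continuousOn
  have hGc' : ContinuousOn G' (Icc a.1 b.1) := by
    refine continuousOn_of_dominated (F := fun s y => F1 (s, y) * e2 y)
      (bound := fun _ => A / ρ) ?_ ?_ ?_ ?_
    · intro s hs
      exact ((hmeas F1 hc1 s (hin s hs)).mono Ico_subset_Icc_self).aestronglyMeasurable
        measurableSet_Ico
    · intro s hs
      filter_upwards [ae_restrict_mem measurableSet_Ico] with y hy
      rw [norm_mul, hen2, mul_one]
      exact h1 (s, y) ⟨hs, Ico_subset_Icc_self hy⟩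
    · exact integrableOn_const (by rw [Real.volume_Ico]; exact ENNReal.ofReal_ne_top)
    · filter_upwards [ae_restrict_mem measurableSet_Ico] with y hy
      refine ContinuousOn.mul ?_ continuousOn_const
      exact hc1.comp (Continuous.continuousOn (by fun_prop)) fun s hs =>
        hin s hs y (Ico_subset_Icc_self hy)
  have hGd : ∀ s ∈ Icc a.1 b.1, HasDerivAt G (G' s) s := by
    intro s0 hs0
    obtain ⟨u, v, hu, _, hsu, htv, huv⟩ := generalized_tube_lemma isCompact_Icc isCompact_Icc hU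
      hsub
    obtain ⟨ε, hε, hball⟩ := Metric.nhds_basis_closedBall.mem_iff.1 (hu.mem_nhds (hsu hs0))
    have hinb : ∀ s ∈ Metric.closedBall s0 ε, ∀ y ∈ Icc a.2 b.2, (s, y) ∈ U :=
      fun s hs y hy => huv ⟨hball hs, htv hy⟩
    have hK : IsCompact (Metric.closedBall s0 ε ×ˢ Icc a.2 b.2) :=
      (isCompact_closedBall s0 ε).prod isCompact_Icc
    obtain ⟨M, hM⟩ := hK.exists_bound_of_continuousOn (hc1.mono fun p hp => hinb p.1 hp.1 p.2 hp.2)
    have h := hasDerivAt_integral_of_dominated_loc_of_deriv_le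
      (μ := volume.restrict (Ico a.2 b.2)) (x₀ := s0) (s := Metric.closedBall s0 ε)
      (F := fun s y => F (s, y) * e2 y) (F' := fun s y => F1 (s, y) * e2 y)
      (bound := fun _ => M) (Metric.closedBall_mem_nhds s0 hε) ?_ ?_ ?_ ?_ ?_ ?_
    · exact h.2
    · filter_upwards [Metric.closedBall_mem_nhds s0 hε] with s hs
      exact ((hmeas F hc s (hinb s hs)).mono Ico_subset_Icc_self).aestronglyMeasurable
        measurableSet_Ico
    · exact ((hmeas F hc s0 (hin s0 hs0)).integrableOn_compact isCompact_Icc).mono_set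
        Ico_subset_Icc_self
    · exact ((hmeas F1 hc1 s0 (hin s0 hs0)).mono Ico_subset_Icc_self).aestronglyMeasurable
        measurableSet_Ico
    · filter_upwards [ae_restrict_mem measurableSet_Ico] with y hy
      intro s hs
      rw [norm_mul, hen2, mul_one]
      exact hM (s, y) ⟨hs, Ico_subset_Icc_self hy⟩
    · exact integrableOn_const (by rw [Real.volume_Ico]; exact ENNReal.ofReal_ne_top)
    · filter_upwards [ae_restrict_mem measurableSet_Ico] with y hy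
      intro s hs
      exact (hF1 (s, y) (hinb s hs y (Ico_subset_Icc_self hy))).mul_const _
  have hA'0 : 0 ≤ A' := by positivity
  have hfin := ibp1 G G' a.1 b.1 ρ A' ξ.1 hab1 hρ hb1 hA'0 hGd hGc' hGb hGb'
  refine hfin.trans (le_of_eq ?_)
  rw [hA']
  have hp1 : 0 < 1 + ρ * |ξ.1| := by positivity
  have hp2 : 0 < 1 + ρ * |ξ.2| := by positivity
  field_simp
  ring

end Pool.Agent.PPH
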