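import Pool.Agent.PPH.A1a
import Pool.Agent.PPH.C1b
import Pool.Agent.PPH.C1c
import Pool.Agent.PPH.H1a

/-!
ROW H1b (1 h). Packet estimate. C1 from Om_UL D; q = qt c t; R = 2^m, ρ = 1/R. K = 64 * 10 * C1^2.
If the rectangle is empty (a.1 ≥ b.1 or a.2 ≥ b.2) the integral is 0. Otherwise, as Ico a.1 b.1 ×ˢ Ico a.2 b.2 ⊆ sq m i, we have i.1/2^m ≤ a.1 < b.1 ≤ (i.1+1)/2^m etc., and the closed rectangle
 lies in BB (sq_subset and closedness) and within 1/2^m of cor m i; so (U') of Om_UL: Bd D C1 R q y for all y in the closed rectangle and for y on the segment from the corner.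
With g = gr q m i, y_S = cor m i, ξ = x - g let F y = ev al y * exp(i (ev q y - ev q y_S - g.1 (y.1 - y_S.1) - g.2 (y.2 - y_S.2))). Then
 am al q x y = exp(i (ev q y_S - g.1 y_S.1 - g.2 y_S.2)) * F y * exp(-i (ξ.1 y.1 + ξ.2 y.2)), the first factor is unimodular and constant.
Derivatives (hasDerivAt_ev' with v = (1,0), (0,1), base point moved; U = disc): write e = the exponential, p_j = ev (D_j q) y - g.j,
 F1 = (ev (D1 al) + i ev al p_1) e, F2 = (ev (D2 al) + i ev al p_2) e, F12 = (ev (D1 D2 al) + i ev (D1 al) p_2 + i ev (D2 al) p_1 + i ev al ev (D1 D2 q) - ev al p_1 p_2) e.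
Bounds on the closed rectangle: |p_j| ≤ 2 C1 R: ev (D_j q) along the segment from y_S to y (length ≤ 1/R in each coordinate) has derivative ≤ 2 (1/R) C1 R^2 (Bd with a+b = 2, 2 ≤ JJ D; mean value
 inequality; convexity). So |F| ≤ A, |F_j| ≤ A + 2 C1 A R ≤ 10 C1^2 A R, |F12| ≤ A (1 + 4 C1 R + C1 R^2 + 4 C1^2 R^2) ≤ 10 C1^2 A R^2 (R ≥ 1, C1 ≥ 1).
`ibp2` with A' = 10 C1^2 A: ≤ 16 A' ρ^2 / ((1+|ξ.1|/R)(1+|ξ.2|/R)), and 1 + |ξ.j|/R ≥ (1 + |n.j|)/2 for n = cell m g - cell m x (|n.j| ≤ |ξ.j|/R + 1: floors). ρ^2 = 1/4^m.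
-/

namespace Pool.Agent.PPH

open MeasureTheory Set MvPolynomial
open scoped ENNReal Real

theorem h1b_d1 (f : RR) (y : ℝ × ℝ) (hy : y ∈ disc) :
    HasDerivAt (fun s : ℝ => ev f (s, y.2)) (ev (D1 f) y) y.1 := by
  have h := hasDerivAt_ev' f (0, y.2) (1, 0) y.1 (by simpa using hy)
  simpa using h

theorem h1b_d2 (f : RR) (y : ℝ × ℝ) (hy : y ∈ disc) :
    HasDerivAt (fun s : ℝ => ev f (y.1, s)) (ev (D2 f) y) y.2 := by
  have h := hasDerivAt_ev' f (y.1, 0) (0, 1) y.2 (by simpa using hy)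
  simpa using h

/-- the exponential factor -/
noncomputable def h1b_e (q : RR) (g y : ℝ × ℝ) : ℂ :=
  Complex.exp (((ev q y - g.1 * y.1 - g.2 * y.2 : ℝ) : ℂ) * Complex.I)

theorem h1b_norm_e (q : RR) (g y : ℝ × ℝ) : ‖h1b_e q g y‖ = 1 := by
  unfold h1b_e
  rw [Complex.norm_exp_ofReal_mul_I]

theorem h1b_e1 (q : RR) (g y : ℝ × ℝ) (hy : y ∈ disc) :
    HasDerivAt (fun s : ℝ => h1b_e q g (s, y.2))
      (h1b_e q g y * (((ev (D1 q) y - g.1 : ℝ) : ℂ) * Complex.I)) y.1 := by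
  have h1 : HasDerivAt (fun s : ℝ => ev q (s, y.2) - g.1 * s - g.2 * y.2)
      (ev (D1 q) y - g.1) y.1 := by
    have := ((h1b_d1 q y hy).sub ((hasDerivAt_id' y.1).const_mul g.1)).sub_const (g.2 * y.2)
    simpa using this
  have h2 := (h1.ofReal_comp.mul_const Complex.I).cexp
  exact h2

theorem h1b_e2 (q : RR) (g y : ℝ × ℝ) (hy : y ∈ disc) :
    HasDerivAt (fun s : ℝ => h1b_e q g (y.1, s))
      (h1b_e q g y * (((ev (D2 q) y - g.2 : ℝ) : ℂ) * Complex.I)) y.2 := by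
  have h1 : HasDerivAt (fun s : ℝ => ev q (y.1, s) - g.1 * y.1 - g.2 * s)
      (ev (D2 q) y - g.2) y.2 := by
    have := ((h1b_d2 q y hy).sub_const (g.1 * y.1)).sub ((hasDerivAt_id' y.2).const_mul g.2)
    rw [mul_one] at this
    exact this
  have h2 := (h1.ofReal_comp.mul_const Complex.I).cexp
  exact h2

theorem h1b_cont_e (q : RR) (g : ℝ × ℝ) : ContinuousOn (h1b_e q g) disc := by
  have h := continuousOn_ev q
  have h1 : ContinuousOn (fun y : ℝ × ℝ => ev q y - g.1 * y.1 - g.2 * y.2) disc := by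
    fun_prop
  exact Complex.continuous_exp.comp_continuousOn
    ((Complex.continuous_ofReal.comp_continuousOn h1).mul continuousOn_const)

/-- the function `F` -/
noncomputable def h1b_F (al q : RR) (g y : ℝ × ℝ) : ℂ := ((ev al y : ℝ) : ℂ) * h1b_e q g y

/-- its first derivative in the first variable -/
noncomputable def h1b_F1 (al q : RR) (g y : ℝ × ℝ) : ℂ :=
  ((ev (D1 al) y : ℝ) : ℂ) * h1b_e q g y + ((ev al y : ℝ) : ℂ) *
    (h1b_e q g y * (((ev (D1 q) y - g.1 : ℝ) : ℂ) * Complex.I))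

/-- its first derivative in the second variable -/
noncomputable def h1b_F2 (al q : RR) (g y : ℝ × ℝ) : ℂ :=
  ((ev (D2 al) y : ℝ) : ℂ) * h1b_e q g y + ((ev al y : ℝ) : ℂ) *
    (h1b_e q g y * (((ev (D2 q) y - g.2 : ℝ) : ℂ) * Complex.I))

/-- the mixed derivative -/
noncomputable def h1b_F12 (al q : RR) (g y : ℝ × ℝ) : ℂ :=
  (((ev (D2 (D1 al)) y : ℝ) : ℂ) * h1b_e q g y + ((ev (D1 al) y : ℝ) : ℂ) *
    (h1b_e q g y * (((ev (D2 q) y - g.2 : ℝ) : ℂ) * Complex.I))) +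
  (((ev (D2 al) y : ℝ) : ℂ) * (h1b_e q g y * (((ev (D1 q) y - g.1 : ℝ) : ℂ) * Complex.I)) +
    ((ev al y : ℝ) : ℂ) *
      (h1b_e q g y * (((ev (D2 q) y - g.2 : ℝ) : ℂ) * Complex.I) *
        (((ev (D1 q) y - g.1 : ℝ) : ℂ) * Complex.I) +
      h1b_e q g y * (((ev (D2 (D1 q)) y : ℝ) : ℂ) * Complex.I)))

theorem h1b_hF1 (al q : RR) (g y : ℝ × ℝ) (hy : y ∈ disc) :
    HasDerivAt (fun s : ℝ => h1b_F al q g (s, y.2)) (h1b_F1 al q g y) y.1 :=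
  (h1b_d1 al y hy).ofReal_comp.mul (h1b_e1 q g y hy)

theorem h1b_hF2 (al q : RR) (g y : ℝ × ℝ) (hy : y ∈ disc) :
    HasDerivAt (fun s : ℝ => h1b_F al q g (y.1, s)) (h1b_F2 al q g y) y.2 :=
  (h1b_d2 al y hy).ofReal_comp.mul (h1b_e2 q g y hy)

theorem h1b_hF12 (al q : RR) (g y : ℝ × ℝ) (hy : y ∈ disc) :
    HasDerivAt (fun s : ℝ => h1b_F1 al q g (y.1, s)) (h1b_F12 al q g y) y.2 := by
  have h3 : HasDerivAt (fun s : ℝ => (((ev (D1 q) (y.1, s) - g.1 : ℝ) : ℂ) * Complex.I))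
      (((ev (D2 (D1 q)) y : ℝ) : ℂ) * Complex.I) y.2 :=
    (((h1b_d2 (D1 q) y hy).sub_const g.1).ofReal_comp).mul_const Complex.I
  exact ((h1b_d2 (D1 al) y hy).ofReal_comp.mul (h1b_e2 q g y hy)).add
    ((h1b_d2 al y hy).ofReal_comp.mul ((h1b_e2 q g y hy).mul h3))

theorem h1b_cont_ev (f : RR) : ContinuousOn (fun y : ℝ × ℝ => ((ev f y : ℝ) : ℂ)) disc :=
  Complex.continuous_ofReal.comp_continuousOn (continuousOn_ev f)

theorem h1b_cont_p (f : RR) (c : ℝ) :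
    ContinuousOn (fun y : ℝ × ℝ => (((ev f y - c : ℝ) : ℂ) * Complex.I)) disc :=
  (Complex.continuous_ofReal.comp_continuousOn ((continuousOn_ev f).sub continuousOn_const)).mul
    continuousOn_const

theorem h1b_cont_F (al q : RR) (g : ℝ × ℝ) : ContinuousOn (h1b_F al q g) disc :=
  (h1b_cont_ev al).mul (h1b_cont_e q g)

theorem h1b_cont_F1 (al q : RR) (g : ℝ × ℝ) : ContinuousOn (h1b_F1 al q g) disc :=
  ((h1b_cont_ev _).mul (h1b_cont_e q g)).add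
    ((h1b_cont_ev al).mul ((h1b_cont_e q g).mul (h1b_cont_p _ _)))

theorem h1b_cont_F2 (al q : RR) (g : ℝ × ℝ) : ContinuousOn (h1b_F2 al q g) disc :=
  ((h1b_cont_ev _).mul (h1b_cont_e q g)).add
    ((h1b_cont_ev al).mul ((h1b_cont_e q g).mul (h1b_cont_p _ _)))

theorem h1b_cont_F12 (al q : RR) (g : ℝ × ℝ) : ContinuousOn (h1b_F12 al q g) disc :=
  (((h1b_cont_ev _).mul (h1b_cont_e q g)).add
    ((h1b_cont_ev _).mul ((h1b_cont_e q g).mul (h1b_cont_p _ _)))).add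
  (((h1b_cont_ev _).mul ((h1b_cont_e q g).mul (h1b_cont_p _ _))).add
    ((h1b_cont_ev al).mul
      ((((h1b_cont_e q g).mul (h1b_cont_p _ _)).mul (h1b_cont_p _ _)).add
        ((h1b_cont_e q g).mul ((h1b_cont_ev _).mul continuousOn_const)))))

theorem h1b_nI (r : ℝ) : ‖((r : ℝ) : ℂ) * Complex.I‖ = |r| := by
  rw [norm_mul, Complex.norm_I, mul_one, Complex.norm_real, Real.norm_eq_abs]

theorem h1b_nr (r : ℝ) : ‖((r : ℝ) : ℂ)‖ = |r| := by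
  rw [Complex.norm_real, Real.norm_eq_abs]

theorem h1b_bF (al q : RR) (g y : ℝ × ℝ) (A : ℝ) (h : |ev al y| ≤ A) :
    ‖h1b_F al q g y‖ ≤ A := by
  unfold h1b_F
  rw [norm_mul, h1b_norm_e, mul_one, h1b_nr]
  exact h

theorem h1b_bF1 (al q : RR) (g y : ℝ × ℝ) (A P : ℝ) (h : |ev al y| ≤ A)
    (h' : |ev (D1 al) y| ≤ A) (hp : |ev (D1 q) y - g.1| ≤ P) :
    ‖h1b_F1 al q g y‖ ≤ A + A * P := by
  unfold h1b_F1
  refine (norm_add_le _ _).trans ?_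
  rw [norm_mul, norm_mul, norm_mul, h1b_norm_e, h1b_nI, h1b_nr, h1b_nr, mul_one, one_mul]
  have hA : 0 ≤ A := (abs_nonneg _).trans h
  exact add_le_add h' (mul_le_mul h hp (abs_nonneg _) hA)

theorem h1b_bF2 (al q : RR) (g y : ℝ × ℝ) (A P : ℝ) (h : |ev al y| ≤ A)
    (h' : |ev (D2 al) y| ≤ A) (hp : |ev (D2 q) y - g.2| ≤ P) :
    ‖h1b_F2 al q g y‖ ≤ A + A * P := by
  unfold h1b_F2
  refine (norm_add_le _ _).trans ?_
  rw [norm_mul, norm_mul, norm_mul, h1b_norm_e, h1b_nI, h1b_nr, h1b_nr, mul_one, one_mul]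
  have hA : 0 ≤ A := (abs_nonneg _).trans h
  exact add_le_add h' (mul_le_mul h hp (abs_nonneg _) hA)

theorem h1b_bF12 (al q : RR) (g y : ℝ × ℝ) (A P Q : ℝ) (h : |ev al y| ≤ A)
    (h1 : |ev (D1 al) y| ≤ A) (h2 : |ev (D2 al) y| ≤ A) (h12 : |ev (D2 (D1 al)) y| ≤ A)
    (hp1 : |ev (D1 q) y - g.1| ≤ P) (hp2 : |ev (D2 q) y - g.2| ≤ P)
    (hq : |ev (D2 (D1 q)) y| ≤ Q) :
    ‖h1b_F12 al q g y‖ ≤ (A + A * P) + (A * P + A * (P * P + Q)) := by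
  have hA : 0 ≤ A := (abs_nonneg _).trans h
  have hP : 0 ≤ P := (abs_nonneg _).trans hp1
  unfold h1b_F12
  refine (norm_add_le _ _).trans (add_le_add ?_ ?_)
  · refine (norm_add_le _ _).trans ?_
    rw [norm_mul, norm_mul, norm_mul, h1b_norm_e, h1b_nI, h1b_nr, h1b_nr, mul_one, one_mul]
    exact add_le_add h12 (mul_le_mul h1 hp2 (abs_nonneg _) hA)
  · refine (norm_add_le _ _).trans (add_le_add ?_ ?_)
    · rw [norm_mul, norm_mul, h1b_norm_e, h1b_nI, h1b_nr, one_mul]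
      exact mul_le_mul h2 hp1 (abs_nonneg _) hA
    · rw [norm_mul, h1b_nr]
      refine mul_le_mul h ?_ (norm_nonneg _) hA
      refine (norm_add_le _ _).trans (add_le_add ?_ ?_)
      · rw [norm_mul, norm_mul, h1b_norm_e, h1b_nI, h1b_nI, one_mul]
        exact mul_le_mul hp2 hp1 (abs_nonneg _) hP
      · rw [norm_mul, h1b_norm_e, h1b_nI, one_mul]
        exact hq

/-- mean value inequality for `ev f` in `BB` -/
theorem h1b_mv (f : RR) (y0 y : ℝ × ℝ) (S : Set (ℝ × ℝ)) (hS : Convex ℝ S) (hSd : S ⊆ disc)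
    (hy0 : y0 ∈ S) (hy : y ∈ S) (δ M : ℝ) (hM : 0 ≤ M) (h1 : |y.1 - y0.1| ≤ δ)
    (h2 : |y.2 - y0.2| ≤ δ) (hb1 : ∀ z ∈ S, |ev (D1 f) z| ≤ M)
    (hb2 : ∀ z ∈ S, |ev (D2 f) z| ≤ M) : |ev f y - ev f y0| ≤ 2 * δ * M := by
  have hδ : 0 ≤ δ := (abs_nonneg _).trans h1
  set v : ℝ × ℝ := (y.1 - y0.1, y.2 - y0.2) with hv
  have hseg : ∀ r ∈ Icc (0 : ℝ) 1, (y0.1 + r * v.1, y0.2 + r * v.2) ∈ S := by
    intro r hr
    have := hS hy0 hy (by linarith [hr.2] : 0 ≤ 1 - r) hr.1 (by ring)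
    have e : (1 - r) • y0 + r • y = (y0.1 + r * v.1, y0.2 + r * v.2) := by
      ext
      · simp only [Prod.fst_add, Prod.smul_fst, smul_eq_mul, hv]
        ring
      · simp only [Prod.snd_add, Prod.smul_snd, smul_eq_mul, hv]
        ring
    rw [← e]
    exact this
  have hd : ∀ r ∈ Icc (0 : ℝ) 1, HasDerivWithinAt
      (fun r : ℝ => ev f (y0.1 + r * v.1, y0.2 + r * v.2))
      (v.1 * ev (D1 f) (y0.1 + r * v.1, y0.2 + r * v.2) +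
        v.2 * ev (D2 f) (y0.1 + r * v.1, y0.2 + r * v.2)) (Icc 0 1) r := fun r hr =>
    (hasDerivAt_ev' f y0 v r (hSd (hseg r hr))).hasDerivWithinAt
  have hbd : ∀ r ∈ Ico (0 : ℝ) 1,
      ‖v.1 * ev (D1 f) (y0.1 + r * v.1, y0.2 + r * v.2) +
        v.2 * ev (D2 f) (y0.1 + r * v.1, y0.2 + r * v.2)‖ ≤ 2 * δ * M := by
    intro r hr
    have hr' : r ∈ Icc (0 : ℝ) 1 := ⟨hr.1, hr.2.le⟩
    refine (norm_add_le _ _).trans ?_
    rw [norm_mul, norm_mul, Real.norm_eq_abs, Real.norm_eq_abs, Real.norm_eq_abs,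
      Real.norm_eq_abs]
    have e1 := mul_le_mul h1 (hb1 _ (hseg r hr')) (abs_nonneg _) hδ
    have e2 := mul_le_mul h2 (hb2 _ (hseg r hr')) (abs_nonneg _) hδ
    have := add_le_add e1 e2
    refine this.trans ?_
    linarith
  have := norm_image_sub_le_of_norm_deriv_le_segment_01' hd hbd
  simpa [hv, Real.norm_eq_abs] using this

theorem h1b_floor (u v : ℝ) : |((⌊u⌋ - ⌊v⌋ : ℤ) : ℝ)| ≤ |v - u| + 1 := by
  have a1 := Int.floor_le u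
  have a2 := Int.lt_floor_add_one u
  have b1 := Int.floor_le v
  have b2 := Int.lt_floor_add_one v
  push_cast
  rw [abs_le]
  have c1 := neg_abs_le (v - u)
  have c2 := le_abs_self (v - u)
  constructor <;> linarith

/-- `ibp2` for the function `h1b_F` -/
theorem h1b_apply (al q : RR) (g a b x : ℝ × ℝ) (ρ A : ℝ) (ξ : ℝ × ℝ) (hab1 : a.1 ≤ b.1)
    (hab2 : a.2 ≤ b.2) (hρ : 0 < ρ) (hb1 : b.1 - a.1 ≤ ρ) (hb2 : b.2 - a.2 ≤ ρ) (hA : 0 ≤ A)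
    (hsub : Icc a.1 b.1 ×ˢ Icc a.2 b.2 ⊆ disc)
    (h0 : ∀ y ∈ Icc a.1 b.1 ×ˢ Icc a.2 b.2, ‖h1b_F al q g y‖ ≤ A)
    (h1 : ∀ y ∈ Icc a.1 b.1 ×ˢ Icc a.2 b.2, ‖h1b_F1 al q g y‖ ≤ A / ρ)
    (h2 : ∀ y ∈ Icc a.1 b.1 ×ˢ Icc a.2 b.2, ‖h1b_F2 al q g y‖ ≤ A / ρ)
    (h12 : ∀ y ∈ Icc a.1 b.1 ×ˢ Icc a.2 b.2, ‖h1b_F12 al q g y‖ ≤ A / ρ ^ 2) :
    ‖∫ y in Ico a.1 b.1 ×ˢ Ico a.2 b.2,
        h1b_F al q g y * Complex.exp (((-(ξ.1 * y.1 + ξ.2 * y.2) : ℝ) : ℂ) * Complex.I)‖ ≤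
      16 * A * ρ ^ 2 / ((1 + ρ * |ξ.1|) * (1 + ρ * |ξ.2|)) :=
  ibp2 (h1b_F al q g) (h1b_F1 al q g) (h1b_F2 al q g) (h1b_F12 al q g) disc isOpen_disc a b ρ A ξ
    hab1 hab2 hρ hb1 hb2 hA hsub (h1b_hF1 al q g) (h1b_hF2 al q g) (h1b_hF12 al q g)
    (h1b_cont_F al q g) (h1b_cont_F1 al q g) (h1b_cont_F2 al q g) (h1b_cont_F12 al q g) h0 h1 h2 h12

theorem packet (D : ℕ) : ∃ K : ℝ, 0 < K ∧ ∀ (c : Cf D) (t A : ℝ) (al : RR) (m : ℕ), 2 ≤ m → 0 ≤ A →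
    Amp A al → ∀ i ∈ idx m, Sel D (qt c t) m i → ∀ a b : ℝ × ℝ,
    Ico a.1 b.1 ×ˢ Ico a.2 b.2 ⊆ sq m i → ∀ x : ℝ × ℝ,
    ‖∫ y in Ico a.1 b.1 ×ˢ Ico a.2 b.2, am al (qt c t) x y‖ ≤
      K * A / 4 ^ m * ww (cell m (gr (qt c t) m i) - cell m x) := by
  obtain ⟨C1, eps0, hC1, -, hUL⟩ := Om_UL D
  refine ⟨64 * 10 * C1 ^ 2, by positivity, ?_⟩
  intro c t A al m hm hA hal i hi hsel a b hsub x
  set q := qt c t with hq
  set g := gr q m i with hg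
  have hR : (0 : ℝ) < 2 ^ m := by positivity
  have hR1 : (1 : ℝ) ≤ 2 ^ m := one_le_pow₀ (by norm_num)
  have hww : 0 ≤ ww (cell m g - cell m x) := by
    unfold ww
    positivity
  have hrhs : 0 ≤ 64 * 10 * C1 ^ 2 * A / 4 ^ m * ww (cell m g - cell m x) := by positivity
  by_cases hab1 : a.1 < b.1
  swap
  · rw [Ico_eq_empty hab1, empty_prod, setIntegral_empty, norm_zero]
    exact hrhs
  by_cases hab2 : a.2 < b.2
  swap
  · rw [Ico_eq_empty hab2, prod_empty, setIntegral_empty, norm_zero]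
    exact hrhs
  have hs1 : ∀ s ∈ Ico a.1 b.1, (i.1 : ℝ) / 2 ^ m ≤ s ∧ s < ((i.1 : ℝ) + 1) / 2 ^ m := by
    intro s hs
    have : ((s, a.2) : ℝ × ℝ) ∈ Ico a.1 b.1 ×ˢ Ico a.2 b.2 := ⟨hs, ⟨le_refl _, hab2⟩⟩
    exact (hsub this).1
  have hs2 : ∀ s ∈ Ico a.2 b.2, (i.2 : ℝ) / 2 ^ m ≤ s ∧ s < ((i.2 : ℝ) + 1) / 2 ^ m := by
    intro s hs
    have : ((a.1, s) : ℝ × ℝ) ∈ Ico a.1 b.1 ×ˢ Ico a.2 b.2 := ⟨⟨le_refl _, hab1⟩, hs⟩
    exact (hsub this).2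
  have ha1 := (hs1 a.1 ⟨le_refl _, hab1⟩).1
  have ha2 := (hs2 a.2 ⟨le_refl _, hab2⟩).1
  have hbb : ∀ (u w z : ℝ), u < w → (∀ s ∈ Ico u w, s < z) → w ≤ z := by
    intro u w z huw h
    by_contra hc
    push Not at hc
    have := h (max u z) ⟨le_max_left _ _, max_lt huw hc⟩
    exact absurd this (not_lt.2 (le_max_right _ _))
  have hb1 := hbb _ _ _ hab1 (fun s hs => (hs1 s hs).2)
  have hb2 := hbb _ _ _ hab2 (fun s hs => (hs2 s hs).2)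
  -- the closed square
  set S : Set (ℝ × ℝ) := Icc ((i.1 : ℝ) / 2 ^ m) (((i.1 : ℝ) + 1) / 2 ^ m) ×ˢ
    Icc ((i.2 : ℝ) / 2 ^ m) (((i.2 : ℝ) + 1) / 2 ^ m) with hSdef
  have hSconv : Convex ℝ S := (convex_Icc _ _).prod (convex_Icc _ _)
  have h4 : (2 : ℝ) ^ m = 4 * 2 ^ (m - 2) := by
    obtain ⟨k, rfl⟩ := Nat.exists_eq_add_of_le hm
    rw [Nat.add_sub_cancel_left, pow_add]
    norm_num
  have hidx := hi
  unfold idx at hidx
  rw [Finset.mem_product, Finset.mem_Ico, Finset.mem_Ico] at hidx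
  obtain ⟨⟨i1, i2⟩, ⟨i3, i4⟩⟩ := hidx
  have j1 : (-2 ^ (m - 2) : ℝ) ≤ i.1 := by exact_mod_cast i1
  have j2 : (i.1 : ℝ) + 1 ≤ 2 ^ (m - 2) := by exact_mod_cast i2
  have j3 : (-2 ^ (m - 2) : ℝ) ≤ i.2 := by exact_mod_cast i3
  have j4 : (i.2 : ℝ) + 1 ≤ 2 ^ (m - 2) := by exact_mod_cast i4
  have hSBB : S ⊆ BB := by
    rintro y ⟨⟨y1, y2⟩, ⟨y3, y4⟩⟩
    rw [div_le_iff₀ hR] at y1 y3
    rw [le_div_iff₀ hR] at y2 y4
    have hR2 : (0 : ℝ) < 2 ^ (m - 2) := by positivity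
    rw [h4] at y1 y2 y3 y4
    refine ⟨⟨?_, ?_⟩, ⟨?_, ?_⟩⟩
    · by_contra hc
      push Not at hc
      nlinarith
    · by_contra hc
      push Not at hc
      nlinarith
    · by_contra hc
      push Not at hc
      nlinarith
    · by_contra hc
      push Not at hc
      nlinarith
  have hSd : S ⊆ disc := hSBB.trans BB_sub_disc
  have hdiff : ∀ u : ℝ, (u + 1) / 2 ^ m = u / 2 ^ m + 1 / 2 ^ m := fun u => add_div _ _ _
  have hρ0 : (0 : ℝ) < 1 / 2 ^ m := by positivity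
  have hS1 : ∀ y ∈ S, |y.1 - (cor m i).1| ≤ 1 / 2 ^ m := by
    rintro y ⟨⟨y1, y2⟩, -⟩
    rw [hdiff] at y2
    have : (cor m i).1 = (i.1 : ℝ) / 2 ^ m := rfl
    rw [this, abs_le]
    constructor <;> linarith
  have hS2 : ∀ y ∈ S, |y.2 - (cor m i).2| ≤ 1 / 2 ^ m := by
    rintro y ⟨-, ⟨y1, y2⟩⟩
    rw [hdiff] at y2
    have : (cor m i).2 = (i.2 : ℝ) / 2 ^ m := rfl
    rw [this, abs_le]
    constructor <;> linarith
  have h12 : (1 : ℝ) / 2 ^ m ≤ 2 / 2 ^ m := by gcongr; norm_num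
  have hBd : ∀ y ∈ S, Bd D C1 (2 ^ m) q y := fun y hy =>
    (hUL c t m hm).1 i hi hsel y (hSBB hy) ((hS1 y hy).trans h12) ((hS2 y hy).trans h12)
  have hJ : 2 ≤ JJ D := by unfold JJ; omega
  have hq20 : ∀ y ∈ S, |ev (D1 (D1 q)) y| ≤ C1 * (2 ^ m) ^ 2 := fun y hy =>
    hBd y hy 2 0 (by norm_num) (by simpa using hJ)
  have hq02 : ∀ y ∈ S, |ev (D2 (D2 q)) y| ≤ C1 * (2 ^ m) ^ 2 := fun y hy =>
    hBd y hy 0 2 (by norm_num) (by simpa using hJ)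
  have hq11 : ∀ y ∈ S, |ev (D1 (D2 q)) y| ≤ C1 * (2 ^ m) ^ 2 := fun y hy =>
    hBd y hy 1 1 (by norm_num) (by simpa using hJ)
  have hq11' : ∀ y ∈ S, |ev (D2 (D1 q)) y| ≤ C1 * (2 ^ m) ^ 2 := fun y hy => by
    rw [← D_comm]
    exact hq11 y hy
  have hcS : cor m i ∈ S := by
    refine ⟨⟨le_refl _, ?_⟩, ⟨le_refl _, ?_⟩⟩
    · change (i.1 : ℝ) / 2 ^ m ≤ _
      rw [hdiff]; linarith
    · change (i.2 : ℝ) / 2 ^ m ≤ _
      rw [hdiff]; linarith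
  have hM0 : 0 ≤ C1 * (2 ^ m) ^ 2 := by positivity
  have hsimp : 2 * (1 / 2 ^ m) * (C1 * (2 ^ m) ^ 2) = 2 * C1 * 2 ^ m := by
    field_simp
  have hp1 : ∀ y ∈ S, |ev (D1 q) y - g.1| ≤ 2 * C1 * 2 ^ m := fun y hy => by
    have := h1b_mv (D1 q) (cor m i) y S hSconv hSd hcS hy (1 / 2 ^ m) _ hM0 (hS1 y hy)
      (hS2 y hy) hq20 hq11'
    rw [hsimp] at this
    exact this
  have hp2 : ∀ y ∈ S, |ev (D2 q) y - g.2| ≤ 2 * C1 * 2 ^ m := fun y hy => by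
    have := h1b_mv (D2 q) (cor m i) y S hSconv hSd hcS hy (1 / 2 ^ m) _ hM0 (hS1 y hy)
      (hS2 y hy) hq11 hq02
    rw [hsimp] at this
    exact this
  have hsubS : Icc a.1 b.1 ×ˢ Icc a.2 b.2 ⊆ S := by
    rintro y ⟨⟨y1, y2⟩, ⟨y3, y4⟩⟩
    exact ⟨⟨ha1.trans y1, y2.trans hb1⟩, ⟨ha2.trans y3, y4.trans hb2⟩⟩
  have hal0 : ∀ y ∈ S, |ev al y| ≤ A := fun y hy =>
    hal 0 0 (by norm_num) (by norm_num) y (hSBB hy)
  have hal1 : ∀ y ∈ S, |ev (D1 al) y| ≤ A := fun y hy =>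
    hal 1 0 (by norm_num) (by norm_num) y (hSBB hy)
  have hal2 : ∀ y ∈ S, |ev (D2 al) y| ≤ A := fun y hy =>
    hal 0 1 (by norm_num) (by norm_num) y (hSBB hy)
  have hal12 : ∀ y ∈ S, |ev (D2 (D1 al)) y| ≤ A := fun y hy => by
    rw [← D_comm]
    exact hal 1 1 (by norm_num) (by norm_num) y (hSBB hy)
  set ξ : ℝ × ℝ := (x.1 - g.1, x.2 - g.2) with hξ
  have hint : ∀ y : ℝ × ℝ, am al q x y =
      h1b_F al q g y * Complex.exp (((-(ξ.1 * y.1 + ξ.2 * y.2) : ℝ) : ℂ) * Complex.I) := by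
    intro y
    unfold am h1b_F h1b_e
    rw [mul_assoc, ← Complex.exp_add]
    congr 2
    rw [← add_mul]
    congr 1
    rw [← Complex.ofReal_add]
    congr 1
    simp only [hξ]
    ring
  have hA10 : 0 ≤ 10 * C1 ^ 2 * A := by positivity
  have hC2 : 1 ≤ C1 ^ 2 := one_le_pow₀ hC1
  have hCC : C1 ≤ C1 ^ 2 := by nlinarith
  have hCR : (1 : ℝ) ≤ C1 ^ 2 * 2 ^ m := by nlinarith
  have hmain := h1b_apply al q g a b x (1 / 2 ^ m) (10 * C1 ^ 2 * A) ξ hab1.le hab2.le hρ0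
    (by have := hdiff (i.1 : ℝ); linarith) (by have := hdiff (i.2 : ℝ); linarith) hA10
    (hsubS.trans hSd) ?_ ?_ ?_ ?_
  · have hset : ∫ y in Ico a.1 b.1 ×ˢ Ico a.2 b.2, am al q x y =
        ∫ y in Ico a.1 b.1 ×ˢ Ico a.2 b.2,
          h1b_F al q g y * Complex.exp (((-(ξ.1 * y.1 + ξ.2 * y.2) : ℝ) : ℂ) * Complex.I) := by
      simp_rw [hint]
    rw [hset]
    refine hmain.trans ?_
    -- comparison of the weights
    have hn1 : |(((cell m g - cell m x).1 : ℤ) : ℝ)| ≤ 1 / 2 ^ m * |ξ.1| + 1 := by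
      have := h1b_floor (g.1 / 2 ^ m) (x.1 / 2 ^ m)
      have e : |x.1 / 2 ^ m - g.1 / 2 ^ m| = 1 / 2 ^ m * |ξ.1| := by
        rw [← sub_div, abs_div, abs_of_pos hR]
        simp only [hξ]
        ring
      rw [e] at this
      exact this
    have hn2 : |(((cell m g - cell m x).2 : ℤ) : ℝ)| ≤ 1 / 2 ^ m * |ξ.2| + 1 := by
      have := h1b_floor (g.2 / 2 ^ m) (x.2 / 2 ^ m)
      have e : |x.2 / 2 ^ m - g.2 / 2 ^ m| = 1 / 2 ^ m * |ξ.2| := by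
        rw [← sub_div, abs_div, abs_of_pos hR]
        simp only [hξ]
        ring
      rw [e] at this
      exact this
    unfold ww
    set n := cell m g - cell m x
    have p1 : 0 ≤ 1 / 2 ^ m * |ξ.1| := by positivity
    have p2 : 0 ≤ 1 / 2 ^ m * |ξ.2| := by positivity
    have k1 : 1 + |(n.1 : ℝ)| ≤ 2 * (1 + 1 / 2 ^ m * |ξ.1|) := by linarith
    have k2 : 1 + |(n.2 : ℝ)| ≤ 2 * (1 + 1 / 2 ^ m * |ξ.2|) := by linarith
    have k3 : (1 + |(n.1 : ℝ)|) * (1 + |(n.2 : ℝ)|) ≤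
        4 * ((1 + 1 / 2 ^ m * |ξ.1|) * (1 + 1 / 2 ^ m * |ξ.2|)) := by
      have := mul_le_mul k1 k2 (by positivity) (by positivity)
      linarith
    have k4 : (1 : ℝ) / 4 ^ m = (1 / 2 ^ m) ^ 2 := by
      rw [one_div_pow, ← pow_mul, mul_comm m 2, pow_mul]
      norm_num
    have hdp : 0 < (1 + 1 / 2 ^ m * |ξ.1|) * (1 + 1 / 2 ^ m * |ξ.2|) := by positivity
    have hnp : 0 < (1 + |(n.1 : ℝ)|) * (1 + |(n.2 : ℝ)|) := by positivity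
    have k5 : 64 * 10 * C1 ^ 2 * A / 4 ^ m * (1 / ((1 + |(n.1 : ℝ)|) * (1 + |(n.2 : ℝ)|))) =
        (64 * (10 * C1 ^ 2 * A) * (1 / 2 ^ m) ^ 2) / ((1 + |(n.1 : ℝ)|) * (1 + |(n.2 : ℝ)|)) := by
      rw [← k4]
      ring
    rw [k5, div_le_div_iff₀ hdp hnp]
    have hB : 0 ≤ 16 * (10 * C1 ^ 2 * A) * (1 / 2 ^ m) ^ 2 := by positivity
    calc 16 * (10 * C1 ^ 2 * A) * (1 / 2 ^ m) ^ 2 * ((1 + |(n.1 : ℝ)|) * (1 + |(n.2 : ℝ)|))
        ≤ 16 * (10 * C1 ^ 2 * A) * (1 / 2 ^ m) ^ 2 *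
          (4 * ((1 + 1 / 2 ^ m * |ξ.1|) * (1 + 1 / 2 ^ m * |ξ.2|))) :=
          mul_le_mul_of_nonneg_left k3 hB
      _ = _ := by ring
  · intro y hy
    refine (h1b_bF al q g y A (hal0 y (hsubS hy))).trans ?_
    nlinarith
  · intro y hy
    refine (h1b_bF1 al q g y A _ (hal0 y (hsubS hy)) (hal1 y (hsubS hy))
      (hp1 y (hsubS hy))).trans ?_
    rw [div_div_eq_mul_div, div_one]
    have e : A + A * (2 * C1 * 2 ^ m) = A * (1 + 2 * C1 * 2 ^ m) := by ring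
    have e' : 10 * C1 ^ 2 * A * 2 ^ m = A * (10 * C1 ^ 2 * 2 ^ m) := by ring
    rw [e, e']
    refine mul_le_mul_of_nonneg_left ?_ hA
    nlinarith
  · intro y hy
    refine (h1b_bF2 al q g y A _ (hal0 y (hsubS hy)) (hal2 y (hsubS hy))
      (hp2 y (hsubS hy))).trans ?_
    rw [div_div_eq_mul_div, div_one]
    have e : A + A * (2 * C1 * 2 ^ m) = A * (1 + 2 * C1 * 2 ^ m) := by ring
    have e' : 10 * C1 ^ 2 * A * 2 ^ m = A * (10 * C1 ^ 2 * 2 ^ m) := by ring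
    rw [e, e']
    refine mul_le_mul_of_nonneg_left ?_ hA
    nlinarith
  · intro y hy
    refine (h1b_bF12 al q g y A _ _ (hal0 y (hsubS hy)) (hal1 y (hsubS hy))
      (hal2 y (hsubS hy)) (hal12 y (hsubS hy)) (hp1 y (hsubS hy)) (hp2 y (hsubS hy))
      (hq11' y (hsubS hy))).trans ?_
    have e0 : 10 * C1 ^ 2 * A / (1 / 2 ^ m) ^ 2 = A * (10 * C1 ^ 2 * (2 ^ m) ^ 2) := by
      rw [one_div_pow, div_div_eq_mul_div, div_one]
      ring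
    have e : A + A * (2 * C1 * 2 ^ m) + (A * (2 * C1 * 2 ^ m) +
        A * (2 * C1 * 2 ^ m * (2 * C1 * 2 ^ m) + C1 * (2 ^ m) ^ 2)) =
        A * (1 + 4 * (C1 * 2 ^ m) + 4 * (C1 * 2 ^ m) ^ 2 + C1 * (2 ^ m) ^ 2) := by ring
    rw [e0, e]
    refine mul_le_mul_of_nonneg_left ?_ hA
    have f1 : 1 ≤ C1 * 2 ^ m := by nlinarith
    have f2 : C1 * 2 ^ m ≤ (C1 * 2 ^ m) ^ 2 := by nlinarith
    have f3 : C1 * (2 ^ m) ^ 2 ≤ (C1 * 2 ^ m) ^ 2 := by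
      rw [mul_pow]
      exact mul_le_mul_of_nonneg_right hCC (by positivity)
    have f4 : 10 * C1 ^ 2 * (2 ^ m) ^ 2 = 10 * (C1 * 2 ^ m) ^ 2 := by ring
    rw [f4]
    linarith

end Pool.Agent.PPH
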