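import Pool.Agent.MP_6cbfb8_an.Bessel

/-!
ROW H2a (0.6 h). Plancherel inequality on ℝ × ℝ, from the library theorem `bessel` (Pool/Agent/MP_6cbfb8_an/Bessel.lean) with Ω = ℝ × ℝ, μ = volume, V = E 2 = EuclideanSpace ℝ (Fin 2),
 Ψ y = (2π)⁻¹ • !₂[y.1, y.2], A = (2π)^2: then 2π ⟨Ψ y, ξ⟩ = y.1 ξ 0 + y.2 ξ 1, and ∫⁻ φ(Ψ y) = (2π)^2 ∫⁻ φ (the map ℝ × ℝ → E 2, y ↦ !₂[y.1,y.2] preserves the volume:
 EuclideanSpace.volume_preserving_symm_measurableEquiv_toLp / PiLp.volume_preserving_ofLp composed with MeasureTheory.volume_preserving_finTwoArrow; and dilation by (2π)⁻¹ in dimension 2: Measure.addHaar_smul /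
 lintegral_comp_smul...). The left side: ∫⁻ ξ : E 2 of a function of (ξ 0, ξ 1) equals ∫⁻ x : ℝ × ℝ by the same measure preserving map.
-/

namespace Pool.Agent.PPH

open MeasureTheory Set
open scoped ENNReal Real

/-- the measurable equivalence of the plane with Euclidean 2-space -/
private noncomputable def h2aJ : ℝ × ℝ ≃ᵐ EuclideanSpace ℝ (Fin 2) :=
  (MeasurableEquiv.finTwoArrow (α := ℝ)).symm.trans (MeasurableEquiv.toLp 2 (Fin 2 → ℝ))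

private theorem h2aJ_zero (y : ℝ × ℝ) : h2aJ y 0 = y.1 := rfl

private theorem h2aJ_one (y : ℝ × ℝ) : h2aJ y 1 = y.2 := rfl

private theorem h2a_mp : MeasurePreserving h2aJ volume volume :=
  ((volume_preserving_finTwoArrow ℝ).symm _).trans (PiLp.volume_preserving_toLp (Fin 2))

private theorem h2a_inner (x y : ℝ × ℝ) :
    inner ℝ (h2aJ y) (h2aJ x) = x.1 * y.1 + x.2 * y.2 := by
  rw [PiLp.inner_apply, Fin.sum_univ_two]
  simp only [h2aJ_zero, h2aJ_one]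
  simp

theorem bes2 (G : ℝ × ℝ → ℂ) (hG : Integrable G) :
    ∫⁻ x : ℝ × ℝ, ‖∫ y, G y *
        Complex.exp (((-(x.1 * y.1 + x.2 * y.2) : ℝ) : ℂ) * Complex.I)‖ₑ ^ (2:ℝ) ≤
      ENNReal.ofReal ((2 * π) ^ 2) * ∫⁻ y, ‖G y‖ₑ ^ (2:ℝ) := by
  have hπ : (2 * π) ≠ 0 := by positivity
  have hmeas : Measurable (fun y : ℝ × ℝ => (2 * π)⁻¹ • h2aJ y) :=
    (measurable_const_smul (2 * π)⁻¹).comp h2aJ.measurable
  have hA : ∀ φ : EuclideanSpace ℝ (Fin 2) → ℝ≥0∞, Measurable φ →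
      ∫⁻ y : ℝ × ℝ, φ ((2 * π)⁻¹ • h2aJ y) ≤ ENNReal.ofReal ((2 * π) ^ 2) * ∫⁻ x, φ x := by
    intro φ hφ
    have h1 : ∫⁻ y : ℝ × ℝ, φ ((2 * π)⁻¹ • h2aJ y) =
        ∫⁻ x : EuclideanSpace ℝ (Fin 2), φ ((2 * π)⁻¹ • x) :=
      h2a_mp.lintegral_comp_emb h2aJ.measurableEmbedding
        (fun x : EuclideanSpace ℝ (Fin 2) => φ ((2 * π)⁻¹ • x))
    have h2 : ∫⁻ x : EuclideanSpace ℝ (Fin 2), φ ((2 * π)⁻¹ • x) =
        ∫⁻ x, φ x ∂(Measure.map (fun x : EuclideanSpace ℝ (Fin 2) => (2 * π)⁻¹ • x) volume) :=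
      (lintegral_map hφ (measurable_const_smul _)).symm
    rw [h1, h2, Measure.map_addHaar_smul volume (inv_ne_zero hπ), lintegral_smul_measure]
    refine le_of_eq ?_
    rw [smul_eq_mul]
    congr 2
    rw [finrank_euclideanSpace, Fintype.card_fin, inv_pow, inv_inv, abs_of_nonneg (by positivity)]
  have key := Pool.Agent.MP_6cbfb8_an.bessel (volume : Measure (ℝ × ℝ))
    (fun y : ℝ × ℝ => (2 * π)⁻¹ • h2aJ y) hmeas (ENNReal.ofReal ((2 * π) ^ 2))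
    ENNReal.ofReal_ne_top hA G hG
  refine le_trans (le_of_eq ?_) key
  rw [← h2a_mp.lintegral_comp_emb h2aJ.measurableEmbedding]
  refine lintegral_congr fun x => ?_
  congr 2
  refine integral_congr_ae (Filter.Eventually.of_forall fun y => ?_)
  show G y * Complex.exp (((-(x.1 * y.1 + x.2 * y.2) : ℝ) : ℂ) * Complex.I) =
    G y * Complex.exp (((-(2 * π * inner ℝ ((2 * π)⁻¹ • h2aJ y) (h2aJ x)) : ℝ) : ℂ) * Complex.I)
  rw [real_inner_smul_left, h2a_inner, mul_inv_cancel_left₀ hπ]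

end Pool.Agent.PPH
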