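import Mathlib

/-!
ROW H2b (0.6 h). Pure analysis: a lower bound for the Fourier transform of the indicator of a small square.
`zeta1`: for |θ| ≤ 1/2 (scaled: ρ |τ| ≤ 1/2): the real part of ρ⁻¹ ∫_{0}^{ρ} e^{-i τ s} ds is ρ⁻¹ ∫ cos(τ s) ds ≥ 1 - (τ ρ)^2/2 ≥ 7/8 (cos x ≥ 1 - x²/2, |τ s| ≤ 1/2), so the norm is ≥ 7/8 ρ.
`zeta2`: product (Fubini: integral_prod_mul), (7/8)^2 ≥ 3/4.
-/

namespace Pool.Agent.PPH

open MeasureTheory Set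
open scoped ENNReal Real

theorem zeta1 (ρ τ : ℝ) (hρ : 0 < ρ) (hτ : ρ * |τ| ≤ 1 / 2) :
    7 / 8 * ρ ≤ ‖∫ s in Ioc 0 ρ, Complex.exp (((-(τ * s) : ℝ) : ℂ) * Complex.I)‖ := by
  have hc : Continuous fun s : ℝ => Complex.exp (((-(τ * s) : ℝ) : ℂ) * Complex.I) := by
    fun_prop
  have hi : IntegrableOn (fun s : ℝ => Complex.exp (((-(τ * s) : ℝ) : ℂ) * Complex.I))
      (Ioc 0 ρ) := (hc.integrableOn_Icc (a := 0) (b := ρ)).mono_set Ioc_subset_Icc_self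
  have h1 := Complex.reCLM.integral_comp_comm hi
  have h2 : (∫ s in Ioc 0 ρ, Complex.exp (((-(τ * s) : ℝ) : ℂ) * Complex.I)).re =
      ∫ s in Ioc 0 ρ, Real.cos (-(τ * s)) := by
    rw [← Complex.reCLM_apply, ← h1]
    refine setIntegral_congr_fun measurableSet_Ioc fun s _ => ?_
    show (Complex.exp (((-(τ * s) : ℝ) : ℂ) * Complex.I)).re = Real.cos (-(τ * s))
    exact Complex.exp_ofReal_mul_I_re _
  have h3 : ∫ s in Ioc 0 ρ, (7 / 8 : ℝ) ≤ ∫ s in Ioc 0 ρ, Real.cos (-(τ * s)) := by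
    refine setIntegral_mono_on (integrableOn_const (by simp)) ?_ measurableSet_Ioc ?_
    · have hc2 : Continuous fun s : ℝ => Real.cos (-(τ * s)) := by fun_prop
      exact (hc2.integrableOn_Icc (a := 0) (b := ρ)).mono_set Ioc_subset_Icc_self
    · intro s hs
      have h4 := Real.one_sub_sq_div_two_le_cos (x := -(τ * s))
      have h5 : |τ * s| ≤ 1 / 2 := by
        rw [abs_mul, abs_of_pos hs.1]
        have h6 : |τ| * s ≤ |τ| * ρ := mul_le_mul_of_nonneg_left hs.2 (abs_nonneg τ)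
        linarith
      have h7 : (-(τ * s)) ^ 2 ≤ 1 / 4 := by
        rw [neg_sq, ← sq_abs]
        nlinarith [abs_nonneg (τ * s)]
      linarith
  have h4 : ∫ s in Ioc 0 ρ, (7 / 8 : ℝ) = 7 / 8 * ρ := by
    rw [setIntegral_const]
    simp [Measure.real, Real.volume_Ioc, hρ.le, mul_comm]
  rw [h4, ← h2] at h3
  exact h3.trans (Complex.re_le_norm _)

theorem zeta2 (ρ : ℝ) (τ : ℝ × ℝ) (hρ : 0 < ρ) (h1 : ρ * |τ.1| ≤ 1 / 2) (h2 : ρ * |τ.2| ≤ 1 / 2) :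
    3 / 4 * ρ ^ 2 ≤ ‖∫ z in Ioc 0 ρ ×ˢ Ioc 0 ρ,
      Complex.exp (((-(τ.1 * z.1 + τ.2 * z.2) : ℝ) : ℂ) * Complex.I)‖ := by
  have h3 : ∫ z in Ioc 0 ρ ×ˢ Ioc 0 ρ,
      Complex.exp (((-(τ.1 * z.1 + τ.2 * z.2) : ℝ) : ℂ) * Complex.I) =
      (∫ s in Ioc 0 ρ, Complex.exp (((-(τ.1 * s) : ℝ) : ℂ) * Complex.I)) *
        ∫ s in Ioc 0 ρ, Complex.exp (((-(τ.2 * s) : ℝ) : ℂ) * Complex.I) := by
    rw [← setIntegral_prod_mul]
    refine setIntegral_congr_fun (measurableSet_Ioc.prod measurableSet_Ioc) fun z _ => ?_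
    show _ = Complex.exp (((-(τ.1 * z.1) : ℝ) : ℂ) * Complex.I) *
      Complex.exp (((-(τ.2 * z.2) : ℝ) : ℂ) * Complex.I)
    rw [← Complex.exp_add]
    congr 1
    push_cast
    ring
  rw [h3, norm_mul]
  have h4 := zeta1 ρ τ.1 hρ h1
  have h5 := zeta1 ρ τ.2 hρ h2
  have h6 : 7 / 8 * ρ * (7 / 8 * ρ) ≤
      ‖∫ s in Ioc 0 ρ, Complex.exp (((-(τ.1 * s) : ℝ) : ℂ) * Complex.I)‖ *
        ‖∫ s in Ioc 0 ρ, Complex.exp (((-(τ.2 * s) : ℝ) : ℂ) * Complex.I)‖ :=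
    mul_le_mul h4 h5 (by positivity) (norm_nonneg _)
  nlinarith [sq_nonneg ρ]

end Pool.Agent.PPH
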