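import Pool.Agent.PPH.C1a

/-!
Local L² estimate (abstract). Notation R = 2^m, ρ = 1/R, x0 = R (c' + (1/2,1/2)), Ω = ⋃_{i ∈ I} sq m i, g = indicator Ω h, Q = Ioc 0 ρ ×ˢ Ioc 0 ρ.
 G(y) = R² ∫_{z ∈ Q} g(y - z) e^{i x0·z} dz.

ROW H2c1 (0.8 h). `conv_id`: (∫ g(y') e^{-i x·y'} dy') (∫_{z ∈ Q} e^{-i (x - x0)·z} dz) = ∫ e^{-i x·y} (∫_{z∈Q} g(y-z) e^{i x0·z} dz) dy for bounded measurable g with bounded support. Fubini for
 (y', z) ↦ g(y') e^{-i x·(y'+z)} e^{i x0·z} 1_Q(z) and translation invariance y = y' + z (integral_integral_swap, integral_sub_right_eq_self ...).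
-/

namespace Pool.Agent.PPH

open MeasureTheory Set
open scoped ENNReal Real

theorem h2c1_norm_exp (t : ℝ) : ‖Complex.exp ((t : ℂ) * Complex.I)‖ = 1 :=
  Complex.norm_exp_ofReal_mul_I t

theorem h2c1_measurable_exp {α : Type*} [MeasurableSpace α] {f : α → ℝ} (hf : Measurable f) :
    Measurable fun a => Complex.exp (((f a : ℝ) : ℂ) * Complex.I) :=
  Complex.measurable_exp.comp ((Complex.measurable_ofReal.comp hf).mul_const _)

theorem h2c1_integrable (g : ℝ × ℝ → ℂ) (hg : Measurable g) (B : ℝ) (hB : ∀ y, ‖g y‖ ≤ B)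
    (hs : ∀ y, y ∉ BB → g y = 0) (ρ : ℝ) (x x0 : ℝ × ℝ) :
    Integrable (fun p : (ℝ × ℝ) × (ℝ × ℝ) => g (p.1 - p.2) *
        Complex.exp (((x0.1 * p.2.1 + x0.2 * p.2.2 : ℝ) : ℂ) * Complex.I) *
      Complex.exp (((-(x.1 * p.1.1 + x.2 * p.1.2) : ℝ) : ℂ) * Complex.I))
      ((volume : Measure (ℝ × ℝ)).prod
        ((volume : Measure (ℝ × ℝ)).restrict (Ioc 0 ρ ×ˢ Ioc 0 ρ))) := by
  have hQm : MeasurableSet (Ioc (0 : ℝ) ρ ×ˢ Ioc (0 : ℝ) ρ) := measurableSet_Ioc.prod measurableSet_Ioc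
  set Q : Set (ℝ × ℝ) := Ioc (0 : ℝ) ρ ×ˢ Ioc (0 : ℝ) ρ with hQ
  set K : Set (ℝ × ℝ) := Icc (-(1/4)) (1/4 + ρ) ×ˢ Icc (-(1/4)) (1/4 + ρ) with hK
  have hKm : MeasurableSet K := measurableSet_Icc.prod measurableSet_Icc
  have hmeas : ((volume : Measure (ℝ × ℝ)).prod ((volume : Measure (ℝ × ℝ)).restrict Q)) =
      ((volume : Measure (ℝ × ℝ)).prod (volume : Measure (ℝ × ℝ))).restrict (univ ×ˢ Q) := by
    rw [← Measure.prod_restrict, Measure.restrict_univ]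
  rw [hmeas]
  have hF : Measurable (fun p : (ℝ × ℝ) × (ℝ × ℝ) => g (p.1 - p.2) *
        Complex.exp (((x0.1 * p.2.1 + x0.2 * p.2.2 : ℝ) : ℂ) * Complex.I) *
      Complex.exp (((-(x.1 * p.1.1 + x.2 * p.1.2) : ℝ) : ℂ) * Complex.I)) := by
    apply Measurable.mul
    · apply Measurable.mul
      · exact hg.comp (measurable_fst.sub measurable_snd)
      · exact h2c1_measurable_exp (by fun_prop)
    · exact h2c1_measurable_exp (by fun_prop)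
  have hfin : ((volume : Measure (ℝ × ℝ)).prod (volume : Measure (ℝ × ℝ))) (K ×ˢ Q) ≠ ∞ := by
    rw [Measure.prod_prod]
    apply ENNReal.mul_ne_top
    · rw [hK, Measure.volume_eq_prod, Measure.prod_prod]
      apply ENNReal.mul_ne_top <;> (rw [Real.volume_Icc]; exact ENNReal.ofReal_ne_top)
    · rw [hQ, Measure.volume_eq_prod, Measure.prod_prod]
      apply ENNReal.mul_ne_top <;> (rw [Real.volume_Ioc]; exact ENNReal.ofReal_ne_top)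
  have h1 : IntegrableOn (fun p : (ℝ × ℝ) × (ℝ × ℝ) => g (p.1 - p.2) *
        Complex.exp (((x0.1 * p.2.1 + x0.2 * p.2.2 : ℝ) : ℂ) * Complex.I) *
      Complex.exp (((-(x.1 * p.1.1 + x.2 * p.1.2) : ℝ) : ℂ) * Complex.I)) (K ×ˢ Q)
      ((volume : Measure (ℝ × ℝ)).prod (volume : Measure (ℝ × ℝ))) := by
    apply Measure.integrableOn_of_bounded (M := B) hfin hF.aestronglyMeasurable
    filter_upwards with p
    rw [norm_mul, norm_mul, h2c1_norm_exp, h2c1_norm_exp, mul_one, mul_one]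
    exact hB _
  refine IntegrableOn.of_forall_sdiff_eq_zero h1 (MeasurableSet.univ.prod hQm) ?_
  rintro ⟨y, z⟩ ⟨hyz, hyz'⟩
  have hz : z ∈ Q := hyz.2
  have hy : y ∉ K := fun h => hyz' ⟨h, hz⟩
  have hg0 : g (y - z) = 0 := by
    apply hs
    intro hmem
    apply hy
    rw [hQ] at hz
    rw [BB, mem_prod, mem_Icc, mem_Icc] at hmem
    rw [mem_prod, mem_Ioc, mem_Ioc] at hz
    rw [hK, mem_prod, mem_Icc, mem_Icc]
    simp only [Prod.fst_sub, Prod.snd_sub] at hmem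
    refine ⟨⟨?_, ?_⟩, ⟨?_, ?_⟩⟩ <;> linarith [hmem.1.1, hmem.1.2, hmem.2.1, hmem.2.2, hz.1.1, hz.1.2, hz.2.1, hz.2.2]
  simp only [hg0, zero_mul]

theorem h2c1_inner (g : ℝ × ℝ → ℂ) (x x0 z : ℝ × ℝ) :
    ∫ y : ℝ × ℝ, g (y - z) *
        Complex.exp (((x0.1 * z.1 + x0.2 * z.2 : ℝ) : ℂ) * Complex.I) *
      Complex.exp (((-(x.1 * y.1 + x.2 * y.2) : ℝ) : ℂ) * Complex.I) =
    (∫ y, g y * Complex.exp (((-(x.1 * y.1 + x.2 * y.2) : ℝ) : ℂ) * Complex.I)) *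
      Complex.exp (((-((x.1 - x0.1) * z.1 + (x.2 - x0.2) * z.2) : ℝ) : ℂ) * Complex.I) := by
  rw [← integral_mul_const, ← integral_sub_right_eq_self (μ := (volume : Measure (ℝ × ℝ)))
    (fun y => g y * Complex.exp (((-(x.1 * y.1 + x.2 * y.2) : ℝ) : ℂ) * Complex.I) *
      Complex.exp (((-((x.1 - x0.1) * z.1 + (x.2 - x0.2) * z.2) : ℝ) : ℂ) * Complex.I)) z]
  apply integral_congr_ae
  filter_upwards with y
  rw [mul_assoc, mul_assoc, ← Complex.exp_add, ← Complex.exp_add]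
  congr 2
  simp only [Prod.fst_sub, Prod.snd_sub]
  push_cast
  ring

theorem conv_id (g : ℝ × ℝ → ℂ) (hg : Measurable g) (B : ℝ) (hB : ∀ y, ‖g y‖ ≤ B)
    (hs : ∀ y, y ∉ BB → g y = 0) (ρ : ℝ) (hρ : 0 < ρ) (x x0 : ℝ × ℝ) :
    (∫ y, g y * Complex.exp (((-(x.1 * y.1 + x.2 * y.2) : ℝ) : ℂ) * Complex.I)) *
      (∫ z in Ioc 0 ρ ×ˢ Ioc 0 ρ,
        Complex.exp (((-((x.1 - x0.1) * z.1 + (x.2 - x0.2) * z.2) : ℝ) : ℂ) * Complex.I)) =
    ∫ y : ℝ × ℝ, (∫ z in Ioc 0 ρ ×ˢ Ioc 0 ρ, g (y - z) *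
        Complex.exp (((x0.1 * z.1 + x0.2 * z.2 : ℝ) : ℂ) * Complex.I)) *
      Complex.exp (((-(x.1 * y.1 + x.2 * y.2) : ℝ) : ℂ) * Complex.I) := by
  have h1 : ∀ y : ℝ × ℝ, (∫ z in Ioc 0 ρ ×ˢ Ioc 0 ρ, g (y - z) *
        Complex.exp (((x0.1 * z.1 + x0.2 * z.2 : ℝ) : ℂ) * Complex.I)) *
      Complex.exp (((-(x.1 * y.1 + x.2 * y.2) : ℝ) : ℂ) * Complex.I) =
      ∫ z in Ioc 0 ρ ×ˢ Ioc 0 ρ, g (y - z) *
        Complex.exp (((x0.1 * z.1 + x0.2 * z.2 : ℝ) : ℂ) * Complex.I) *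
      Complex.exp (((-(x.1 * y.1 + x.2 * y.2) : ℝ) : ℂ) * Complex.I) := fun y =>
    (integral_mul_const _ _).symm
  simp only [h1]
  rw [integral_integral_swap (h2c1_integrable g hg B hB hs ρ x x0)]
  simp only [h2c1_inner]
  rw [integral_const_mul]

end Pool.Agent.PPH
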