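import Pool.Agent.PPH.H2a
import Pool.Agent.PPH.H2b
import Pool.Agent.PPH.H2c1

/-!
Local L² estimate (abstract). Notation R = 2^m, ρ = 1/R, x0 = R (c' + (1/2,1/2)), Ω = ⋃_{i ∈ I} sq m i, g = indicator Ω h, Q = Ioc 0 ρ ×ˢ Ioc 0 ρ.
 G(y) = R² ∫_{z ∈ Q} g(y - z) e^{i x0·z} dz.

ROW H2c2 (1 h). `local_l2`. With G as above (integrable: bounded, bounded support, measurable).
 (1) G(y) = R² ∫_{y' ∈ Ico (y.1-ρ) y.1 ×ˢ Ico (y.2-ρ) y.2} g(y') e^{i x0·(y-y')} dy' (substitution y' = y - z maps Ioc 0 ρ to Ico (y-ρ) y), so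
   |G(y)| ≤ R² Σ_{i∈I} |∫_{Ico.. ∩ sq m i} h e^{-i x0·y'}| ≤ Σ_{i ∈ I} W i 1[y ∈ N_i] by hW (the intersection of the two Ico-rectangles is an Ico-rectangle, Ico_inter_Ico, contained in sq m i; if it is empty the
   integral is 0), N_i = Icc (i.1/R) ((i.1+2)/R) ×ˢ Icc (i.2/R) ((i.2+2)/R); R² = 4^m.
   To be safe with the number of overlaps use the half open version: y.j - ρ < (i.j+1)/R and y.j > i.j/R when the intersection is non-empty, so i.j/R < y.j < (i.j+2)/R: for given y at most 2 values of i.j, so at most 4 indices i.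
 (2) |G(y)|² ≤ 4 Σ_i W i² 1[y ∈ N_i] (Cauchy-Schwarz with at most 4 nonzero terms), so ∫⁻ ‖G‖² ≤ 4 Σ W i² (2ρ)² = 16 Σ W i² / 4^m.
 (3) for cell m x = c' we have |x_j - x0_j| ≤ R/2, so by zeta2 (τ = x - x0, ρ) R² |∫_{z∈Q} e^{-i(x-x0)·z}| ≥ 3/4 and by conv_id 3/4 |∫_Ω h e^{-i x·y}| ≤ |∫ G(y) e^{-i x·y} dy|.
 bes2 for G: ∫⁻_{cell} ‖..‖² ≤ (16/9) (2π)² 16 Σ W i²/4^m ≤ 2000 Σ W i² / 4^m ((2π)² ≤ 40: 16/9*40*16 = 1137.8).
-/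

namespace Pool.Agent.PPH

open MeasureTheory Set
open scoped ENNReal Real

/-- the small square of side `1/2^m` with upper right corner `y` -/
def h2c2_Q (m : ℕ) (y : ℝ × ℝ) : Set (ℝ × ℝ) :=
  Ico (y.1 - 1 / 2 ^ m) y.1 ×ˢ Ico (y.2 - 1 / 2 ^ m) y.2

/-- neighbourhood of a dyadic square -/
def h2c2_N (m : ℕ) (i : ℤ × ℤ) : Set (ℝ × ℝ) :=
  Ioo ((i.1 : ℝ) / 2 ^ m) (((i.1 : ℝ) + 2) / 2 ^ m) ×ˢ
    Ioo ((i.2 : ℝ) / 2 ^ m) (((i.2 : ℝ) + 2) / 2 ^ m)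

/-- character -/
noncomputable def h2c2_E (t : ℝ) : ℂ := Complex.exp ((t : ℂ) * Complex.I)

theorem h2c2_E_norm (t : ℝ) : ‖h2c2_E t‖ = 1 := Complex.norm_exp_ofReal_mul_I t

theorem h2c2_E_add (s t : ℝ) : h2c2_E (s + t) = h2c2_E s * h2c2_E t := by
  unfold h2c2_E
  rw [← Complex.exp_add]
  congr 1
  push_cast
  ring

theorem h2c2_E_cont : Continuous h2c2_E := by
  unfold h2c2_E
  fun_prop

theorem h2c2_Q_meas (m : ℕ) (y : ℝ × ℝ) : MeasurableSet (h2c2_Q m y) :=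
  measurableSet_Ico.prod measurableSet_Ico

theorem h2c2_N_meas (m : ℕ) (i : ℤ × ℤ) : MeasurableSet (h2c2_N m i) :=
  measurableSet_Ioo.prod measurableSet_Ioo

theorem h2c2_N_vol (m : ℕ) (i : ℤ × ℤ) : volume (h2c2_N m i) = ENNReal.ofReal (4 / 4 ^ m) := by
  unfold h2c2_N
  rw [Measure.volume_eq_prod, Measure.prod_prod, Real.volume_Ioo, Real.volume_Ioo,
    ← ENNReal.ofReal_mul]
  · congr 1
    have h4 : (4 : ℝ) ^ m = 2 ^ m * 2 ^ m := by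
      rw [← mul_pow]
      norm_num
    rw [h4]
    field_simp
    ring
  · have : ((i.1 : ℝ) + 2) / 2 ^ m - (i.1 : ℝ) / 2 ^ m = 2 / 2 ^ m := by ring
    rw [this]
    positivity

theorem h2c2_empty (m : ℕ) (i : ℤ × ℤ) (y : ℝ × ℝ) (hy : y ∉ h2c2_N m i) :
    h2c2_Q m y ∩ sq m i = ∅ := by
  rw [Set.eq_empty_iff_forall_notMem]
  rintro z ⟨⟨⟨h1, h2⟩, ⟨h3, h4⟩⟩, ⟨⟨h5, h6⟩, ⟨h7, h8⟩⟩⟩
  apply hy
  have e1 : ((i.1 : ℝ) + 2) / 2 ^ m = ((i.1 : ℝ) + 1) / 2 ^ m + 1 / 2 ^ m := by ring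
  have e2 : ((i.2 : ℝ) + 2) / 2 ^ m = ((i.2 : ℝ) + 1) / 2 ^ m + 1 / 2 ^ m := by ring
  refine ⟨⟨?_, ?_⟩, ⟨?_, ?_⟩⟩
  · exact lt_of_le_of_lt h5 h2
  · rw [e1]
    linarith
  · exact lt_of_le_of_lt h7 h4
  · rw [e2]
    linarith

theorem h2c2_card (m : ℕ) (I : Finset (ℤ × ℤ)) (y : ℝ × ℝ) [DecidablePred (fun i => y ∈ h2c2_N m i)] :
    (I.filter (fun i => y ∈ h2c2_N m i)).card ≤ 4 := by
  have hsub : I.filter (fun i => y ∈ h2c2_N m i) ⊆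
      Finset.Icc (⌈2 ^ m * y.1⌉ - 2) (⌈2 ^ m * y.1⌉ - 1) ×ˢ
        Finset.Icc (⌈2 ^ m * y.2⌉ - 2) (⌈2 ^ m * y.2⌉ - 1) := by
    intro i hi
    rw [Finset.mem_filter] at hi
    obtain ⟨_, ⟨⟨h1, h2⟩, ⟨h3, h4⟩⟩⟩ := hi
    have hp : (0 : ℝ) < 2 ^ m := by positivity
    rw [div_lt_iff₀ hp] at h1 h3
    rw [lt_div_iff₀ hp] at h2 h4
    rw [mul_comm] at h1 h2 h3 h4
    have k1 : i.1 < ⌈2 ^ m * y.1⌉ := Int.lt_ceil.mpr h1
    have k3 : i.2 < ⌈2 ^ m * y.2⌉ := Int.lt_ceil.mpr h3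
    have k2 : ⌈2 ^ m * y.1⌉ ≤ i.1 + 2 := by
      rw [Int.ceil_le]
      push_cast
      exact h2.le
    have k4 : ⌈2 ^ m * y.2⌉ ≤ i.2 + 2 := by
      rw [Int.ceil_le]
      push_cast
      exact h4.le
    rw [Finset.mem_product, Finset.mem_Icc, Finset.mem_Icc]
    omega
  refine (Finset.card_le_card hsub).trans ?_
  rw [Finset.card_product, Int.card_Icc, Int.card_Icc]
  have e1 : (⌈2 ^ m * y.1⌉ - 1 + 1 - (⌈2 ^ m * y.1⌉ - 2)).toNat = 2 := by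
    have : (⌈2 ^ m * y.1⌉ - 1 + 1 - (⌈2 ^ m * y.1⌉ - 2)) = 2 := by ring
    rw [this]
    rfl
  have e2 : (⌈2 ^ m * y.2⌉ - 1 + 1 - (⌈2 ^ m * y.2⌉ - 2)).toNat = 2 := by
    have : (⌈2 ^ m * y.2⌉ - 1 + 1 - (⌈2 ^ m * y.2⌉ - 2)) = 2 := by ring
    rw [this]
    rfl
  rw [e1, e2]

theorem h2c2_subst (m : ℕ) (g : ℝ × ℝ → ℂ) (x0 y : ℝ × ℝ) :
    ∫ z in Ioc 0 (1 / 2 ^ m) ×ˢ Ioc 0 (1 / 2 ^ m), g (y - z) * h2c2_E (x0.1 * z.1 + x0.2 * z.2) =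
      h2c2_E (x0.1 * y.1 + x0.2 * y.2) *
        ∫ z in h2c2_Q m y, g z * h2c2_E (-(x0.1 * z.1 + x0.2 * z.2)) := by
  rw [← integral_indicator (measurableSet_Ioc.prod measurableSet_Ioc),
    ← integral_indicator (h2c2_Q_meas m y), ← integral_const_mul]
  rw [← integral_sub_left_eq_self (fun z => h2c2_E (x0.1 * y.1 + x0.2 * y.2) *
    (h2c2_Q m y).indicator (fun z => g z * h2c2_E (-(x0.1 * z.1 + x0.2 * z.2))) z) volume y]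
  refine integral_congr_ae (Filter.Eventually.of_forall ?_)
  intro z
  show (Ioc 0 (1 / 2 ^ m) ×ˢ Ioc 0 (1 / 2 ^ m)).indicator
      (fun z : ℝ × ℝ => g (y - z) * h2c2_E (x0.1 * z.1 + x0.2 * z.2)) z =
    h2c2_E (x0.1 * y.1 + x0.2 * y.2) *
      (h2c2_Q m y).indicator (fun z => g z * h2c2_E (-(x0.1 * z.1 + x0.2 * z.2))) (y - z)
  by_cases hz : z ∈ Ioc (0 : ℝ) (1 / 2 ^ m) ×ˢ Ioc (0 : ℝ) (1 / 2 ^ m)
  · have hz' : y - z ∈ h2c2_Q m y := by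
      obtain ⟨⟨h1, h2⟩, ⟨h3, h4⟩⟩ := hz
      refine ⟨⟨?_, ?_⟩, ⟨?_, ?_⟩⟩
      · show y.1 - 1 / 2 ^ m ≤ y.1 - z.1
        linarith
      · show y.1 - z.1 < y.1
        linarith
      · show y.2 - 1 / 2 ^ m ≤ y.2 - z.2
        linarith
      · show y.2 - z.2 < y.2
        linarith
    rw [indicator_of_mem hz, indicator_of_mem hz']
    have e1 : x0.1 * z.1 + x0.2 * z.2 = (x0.1 * y.1 + x0.2 * y.2) +
        (-(x0.1 * (y - z).1 + x0.2 * (y - z).2)) := by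
      rw [Prod.fst_sub, Prod.snd_sub]
      ring
    rw [e1, h2c2_E_add]
    ring
  · have hz' : y - z ∉ h2c2_Q m y := by
      intro hz'
      apply hz
      obtain ⟨⟨h1, h2⟩, ⟨h3, h4⟩⟩ := hz'
      rw [Prod.fst_sub] at h1 h2
      rw [Prod.snd_sub] at h3 h4
      refine ⟨⟨?_, ?_⟩, ⟨?_, ?_⟩⟩ <;> linarith
    rw [indicator_of_notMem hz, indicator_of_notMem hz', mul_zero]

theorem h2c2_om_meas (m : ℕ) (I : Finset (ℤ × ℤ)) : MeasurableSet (⋃ i ∈ I, sq m i) :=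
  Finset.measurableSet_biUnion I (fun i _ => measurableSet_sq m i)

theorem h2c2_int (m : ℕ) (hm : 2 ≤ m) (i : ℤ × ℤ) (hi : i ∈ idx m) (h : ℝ × ℝ → ℂ)
    (hh : Measurable h) (B : ℝ) (hB : ∀ y ∈ BB, ‖h y‖ ≤ B) (x0 y : ℝ × ℝ) :
    IntegrableOn (fun z : ℝ × ℝ => h z * h2c2_E (-(x0.1 * z.1 + x0.2 * z.2)))
      (h2c2_Q m y ∩ sq m i) := by
  have hvol : volume (h2c2_Q m y ∩ sq m i) < ⊤ := by
    refine lt_of_le_of_lt (measure_mono inter_subset_right) ?_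
    rw [volume_sq]
    exact ENNReal.ofReal_lt_top
  refine Measure.integrableOn_of_bounded (M := B) hvol.ne ?_ ?_
  · refine (hh.mul ?_).aestronglyMeasurable
    refine h2c2_E_cont.measurable.comp ?_
    fun_prop
  · rw [ae_restrict_iff' ((h2c2_Q_meas m y).inter (measurableSet_sq m i))]
    refine Filter.Eventually.of_forall ?_
    intro z hz
    rw [norm_mul, h2c2_E_norm, mul_one]
    exact hB z (BB0_subset (sq_subset hm hi hz.2))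

theorem h2c2_decomp (m : ℕ) (hm : 2 ≤ m) (I : Finset (ℤ × ℤ)) (hI : I ⊆ idx m) (h : ℝ × ℝ → ℂ)
    (hh : Measurable h) (B : ℝ) (hB : ∀ y ∈ BB, ‖h y‖ ≤ B) (x0 y : ℝ × ℝ) :
    ‖∫ z in h2c2_Q m y, (⋃ i ∈ I, sq m i).indicator h z *
      h2c2_E (-(x0.1 * z.1 + x0.2 * z.2))‖ ≤
    ∑ i ∈ I, ‖∫ z in h2c2_Q m y ∩ sq m i, h z * h2c2_E (-(x0.1 * z.1 + x0.2 * z.2))‖ := by
  have e1 : (fun z : ℝ × ℝ => (⋃ i ∈ I, sq m i).indicator h z *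
      h2c2_E (-(x0.1 * z.1 + x0.2 * z.2))) =
      (⋃ i ∈ I, sq m i).indicator (fun z => h z * h2c2_E (-(x0.1 * z.1 + x0.2 * z.2))) := by
    funext z
    by_cases hz : z ∈ ⋃ i ∈ I, sq m i
    · rw [indicator_of_mem hz, indicator_of_mem hz]
    · rw [indicator_of_notMem hz, indicator_of_notMem hz, zero_mul]
  rw [e1, setIntegral_indicator (h2c2_om_meas m I)]
  have e2 : h2c2_Q m y ∩ (⋃ i ∈ I, sq m i) = ⋃ i ∈ I, (h2c2_Q m y ∩ sq m i) := by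
    rw [inter_iUnion₂]
  rw [e2, integral_biUnion_finset I
    (fun i _ => (h2c2_Q_meas m y).inter (measurableSet_sq m i)) ?_
    (fun i hi => h2c2_int m hm i (hI hi) h hh B hB x0 y)]
  · exact norm_sum_le _ _
  · intro i _ j _ hij
    show Disjoint (h2c2_Q m y ∩ sq m i) (h2c2_Q m y ∩ sq m j)
    rw [Set.disjoint_left]
    intro z hz1 hz2
    exact hij (sq_unique hz1.2 hz2.2)

theorem h2c2_inter (m : ℕ) (i : ℤ × ℤ) (y : ℝ × ℝ) : ∃ a b : ℝ × ℝ,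
    h2c2_Q m y ∩ sq m i = Ico a.1 b.1 ×ˢ Ico a.2 b.2 := by
  unfold h2c2_Q sq
  rw [Set.prod_inter_prod, Ico_inter_Ico, Ico_inter_Ico]
  exact ⟨(_, _), (_, _), rfl⟩

/-- the bound for the averaged function -/
theorem h2c2_bound (m : ℕ) (hm : 2 ≤ m) (I : Finset (ℤ × ℤ)) (hI : I ⊆ idx m) (h : ℝ × ℝ → ℂ)
    (hh : Measurable h) (B : ℝ) (hB : ∀ y ∈ BB, ‖h y‖ ≤ B) (x0 : ℝ × ℝ) (W : ℤ × ℤ → ℝ)
    (hW : ∀ i ∈ I, ∀ a b : ℝ × ℝ, Ico a.1 b.1 ×ˢ Ico a.2 b.2 ⊆ sq m i →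
      ‖∫ y in Ico a.1 b.1 ×ˢ Ico a.2 b.2, h y * h2c2_E (-(x0.1 * y.1 + x0.2 * y.2))‖ ≤
        W i / 4 ^ m) (y : ℝ × ℝ) :
    ‖∫ z in Ioc 0 (1 / 2 ^ m) ×ˢ Ioc 0 (1 / 2 ^ m), (⋃ i ∈ I, sq m i).indicator h (y - z) *
      h2c2_E (x0.1 * z.1 + x0.2 * z.2)‖ ≤
    ∑ i ∈ I, (h2c2_N m i).indicator (fun _ => W i / 4 ^ m) y := by
  rw [h2c2_subst, norm_mul, h2c2_E_norm, one_mul]
  refine (h2c2_decomp m hm I hI h hh B hB x0 y).trans ?_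
  refine Finset.sum_le_sum ?_
  intro i hi
  by_cases hy : y ∈ h2c2_N m i
  · rw [indicator_of_mem hy]
    obtain ⟨a, b, hab⟩ := h2c2_inter m i y
    rw [hab]
    refine hW i hi a b ?_
    rw [← hab]
    exact inter_subset_right
  · rw [indicator_of_notMem hy, h2c2_empty m i y hy]
    simp

theorem h2c2_sq (m : ℕ) (I : Finset (ℤ × ℤ)) (W : ℤ × ℤ → ℝ) (y : ℝ × ℝ) :
    (∑ i ∈ I, (h2c2_N m i).indicator (fun _ => W i / 4 ^ m) y) ^ 2 ≤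
      ∑ i ∈ I, (h2c2_N m i).indicator (fun _ => 4 * (W i / 4 ^ m) ^ 2) y := by
  classical
  have e1 : ∑ i ∈ I, (h2c2_N m i).indicator (fun _ => W i / 4 ^ m) y =
      ∑ i ∈ I.filter (fun i => y ∈ h2c2_N m i), W i / 4 ^ m := by
    rw [Finset.sum_filter]
    refine Finset.sum_congr rfl ?_
    intro i _
    by_cases hy : y ∈ h2c2_N m i
    · rw [indicator_of_mem hy, if_pos hy]
    · rw [indicator_of_notMem hy, if_neg hy]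
  have e2 : ∑ i ∈ I, (h2c2_N m i).indicator (fun _ => 4 * (W i / 4 ^ m) ^ 2) y =
      4 * ∑ i ∈ I.filter (fun i => y ∈ h2c2_N m i), (W i / 4 ^ m) ^ 2 := by
    rw [Finset.mul_sum, Finset.sum_filter]
    refine Finset.sum_congr rfl ?_
    intro i _
    by_cases hy : y ∈ h2c2_N m i
    · rw [indicator_of_mem hy, if_pos hy]
    · rw [indicator_of_notMem hy, if_neg hy]
  rw [e1, e2]
  refine sq_sum_le_card_mul_sum_sq.trans ?_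
  have h1 : ((I.filter (fun i => y ∈ h2c2_N m i)).card : ℝ) ≤ 4 := by
    exact_mod_cast h2c2_card m I y
  exact mul_le_mul_of_nonneg_right h1 (Finset.sum_nonneg (fun i _ => sq_nonneg _))

theorem h2c2_l2 (m : ℕ) (I : Finset (ℤ × ℤ)) (W : ℤ × ℤ → ℝ) (hW0 : ∀ i, 0 ≤ W i)
    (G : ℝ × ℝ → ℂ)
    (hG : ∀ y, ‖G y‖ ≤ ∑ i ∈ I, (h2c2_N m i).indicator (fun _ => W i / 4 ^ m) y) :
    ∫⁻ y, ‖G y‖ₑ ^ (2 : ℝ) ≤ ENNReal.ofReal (16 * ∑ i ∈ I, W i ^ 2 / (16 ^ m * 4 ^ m)) := by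
  have h1 : ∀ y, ‖G y‖ₑ ^ (2 : ℝ) ≤
      ∑ i ∈ I, (h2c2_N m i).indicator (fun _ => ENNReal.ofReal (4 * (W i / 4 ^ m) ^ 2)) y := by
    intro y
    have h2 : ‖G y‖ ^ 2 ≤
        ∑ i ∈ I, (h2c2_N m i).indicator (fun _ => 4 * (W i / 4 ^ m) ^ 2) y := by
      refine le_trans ?_ (h2c2_sq m I W y)
      exact pow_le_pow_left₀ (norm_nonneg _) (hG y) 2
    have h3 : ‖G y‖ₑ ^ (2 : ℝ) = ENNReal.ofReal (‖G y‖ ^ 2) := by
      rw [← ofReal_norm, ENNReal.rpow_two, ENNReal.ofReal_pow (norm_nonneg _)]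
    rw [h3]
    refine (ENNReal.ofReal_le_ofReal h2).trans ?_
    rw [ENNReal.ofReal_sum_of_nonneg]
    · refine Finset.sum_le_sum ?_
      intro i _
      by_cases hy : y ∈ h2c2_N m i
      · rw [indicator_of_mem hy, indicator_of_mem hy]
      · rw [indicator_of_notMem hy, indicator_of_notMem hy, ENNReal.ofReal_zero]
    · intro i _
      refine indicator_nonneg ?_ y
      intro z _
      positivity
  refine (lintegral_mono h1).trans ?_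
  rw [lintegral_finsetSum]
  · have h4 : ∀ i ∈ I, ∫⁻ y, (h2c2_N m i).indicator
        (fun _ => ENNReal.ofReal (4 * (W i / 4 ^ m) ^ 2)) y =
        ENNReal.ofReal (16 * (W i ^ 2 / (16 ^ m * 4 ^ m))) := by
      intro i _
      rw [lintegral_indicator (h2c2_N_meas m i), setLIntegral_const, h2c2_N_vol,
        ← ENNReal.ofReal_mul (by positivity)]
      congr 1
      have h16 : (16 : ℝ) ^ m = 4 ^ m * 4 ^ m := by
        rw [← mul_pow]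
        norm_num
      rw [h16]
      field_simp
      ring
    rw [Finset.sum_congr rfl h4, ← ENNReal.ofReal_sum_of_nonneg, Finset.mul_sum]
    intro i _
    positivity
  · intro i _
    exact measurable_const.indicator (h2c2_N_meas m i)

theorem h2c2_bd_int (m : ℕ) (I : Finset (ℤ × ℤ)) (W : ℤ × ℤ → ℝ) :
    Integrable (fun y => ∑ i ∈ I, (h2c2_N m i).indicator (fun _ => W i / 4 ^ m) y) := by
  refine integrable_finsetSum I ?_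
  intro i _
  rw [integrable_indicator_iff (h2c2_N_meas m i)]
  refine integrableOn_const ?_
  rw [h2c2_N_vol]
  exact ENNReal.ofReal_ne_top

theorem h2c2_G_meas (m : ℕ) (g : ℝ × ℝ → ℂ) (hg : Measurable g) (x0 : ℝ × ℝ) :
    AEStronglyMeasurable (fun y : ℝ × ℝ => ∫ z in Ioc 0 (1 / 2 ^ m) ×ˢ Ioc 0 (1 / 2 ^ m),
      g (y - z) * h2c2_E (x0.1 * z.1 + x0.2 * z.2)) := by
  have h1 : StronglyMeasurable (fun p : (ℝ × ℝ) × (ℝ × ℝ) =>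
      g (p.1 - p.2) * h2c2_E (x0.1 * p.2.1 + x0.2 * p.2.2)) := by
    refine Measurable.stronglyMeasurable ?_
    refine (hg.comp ?_).mul (h2c2_E_cont.measurable.comp ?_)
    · fun_prop
    · fun_prop
  exact (h1.integral_prod_right' (ν := volume.restrict
    (Ioc (0 : ℝ) (1 / 2 ^ m) ×ˢ Ioc (0 : ℝ) (1 / 2 ^ m)))).aestronglyMeasurable

theorem h2c2_cell (m : ℕ) (c' : ℤ × ℤ) (x : ℝ × ℝ) (hx : cell m x = c') :
    1 / 2 ^ m * |x.1 - 2 ^ m * ((c'.1 : ℝ) + 1 / 2)| ≤ 1 / 2 ∧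
    1 / 2 ^ m * |x.2 - 2 ^ m * ((c'.2 : ℝ) + 1 / 2)| ≤ 1 / 2 := by
  have hp : (0 : ℝ) < 2 ^ m := by positivity
  have key : ∀ (u : ℝ) (k : ℤ), ⌊u / 2 ^ m⌋ = k →
      1 / 2 ^ m * |u - 2 ^ m * ((k : ℝ) + 1 / 2)| ≤ 1 / 2 := by
    intro u k hk
    rw [Int.floor_eq_iff] at hk
    obtain ⟨h1, h2⟩ := hk
    have e1 : (1 : ℝ) / 2 ^ m * |u - 2 ^ m * ((k : ℝ) + 1 / 2)| =
        |u / 2 ^ m - ((k : ℝ) + 1 / 2)| := by
      have hpos : (0 : ℝ) < 1 / 2 ^ m := by positivity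
      have e2 : u / 2 ^ m - ((k : ℝ) + 1 / 2) = 1 / 2 ^ m * (u - 2 ^ m * ((k : ℝ) + 1 / 2)) := by
        field_simp
      rw [e2, abs_mul, abs_of_pos hpos]
    rw [e1, abs_le]
    constructor <;> linarith
  unfold cell at hx
  rw [Prod.ext_iff] at hx
  exact ⟨key _ _ hx.1, key _ _ hx.2⟩

theorem local_l2 (m : ℕ) (hm : 2 ≤ m) (I : Finset (ℤ × ℤ)) (hI : I ⊆ idx m) (h : ℝ × ℝ → ℂ)
    (hh : Measurable h) (B : ℝ) (hB : ∀ y ∈ BB, ‖h y‖ ≤ B) (c' : ℤ × ℤ) (W : ℤ × ℤ → ℝ)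
    (hW0 : ∀ i, 0 ≤ W i)
    (hW : ∀ i ∈ I, ∀ a b : ℝ × ℝ, Ico a.1 b.1 ×ˢ Ico a.2 b.2 ⊆ sq m i →
      ‖∫ y in Ico a.1 b.1 ×ˢ Ico a.2 b.2, h y *
        Complex.exp (((-(2 ^ m * ((c'.1 : ℝ) + 1 / 2) * y.1 + 2 ^ m * ((c'.2 : ℝ) + 1 / 2) * y.2) : ℝ)
          : ℂ) * Complex.I)‖ ≤ W i / 4 ^ m) :
    ∫⁻ x in {x : ℝ × ℝ | cell m x = c'}, ‖∫ y in ⋃ i ∈ I, sq m i, h y *
        Complex.exp (((-(x.1 * y.1 + x.2 * y.2) : ℝ) : ℂ) * Complex.I)‖ₑ ^ (2:ℝ) ≤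
      ENNReal.ofReal (2000 * ∑ i ∈ I, W i ^ 2 / 4 ^ m) := by
  have hB0 : 0 ≤ B := by
    have h0 : ((0 : ℝ), (0 : ℝ)) ∈ BB := by
      unfold BB
      refine ⟨⟨?_, ?_⟩, ⟨?_, ?_⟩⟩ <;> norm_num
    exact (norm_nonneg _).trans (hB _ h0)
  set x0 : ℝ × ℝ := (2 ^ m * ((c'.1 : ℝ) + 1 / 2), 2 ^ m * ((c'.2 : ℝ) + 1 / 2)) with hx0
  have hW' : ∀ i ∈ I, ∀ a b : ℝ × ℝ, Ico a.1 b.1 ×ˢ Ico a.2 b.2 ⊆ sq m i →
      ‖∫ y in Ico a.1 b.1 ×ˢ Ico a.2 b.2, h y * h2c2_E (-(x0.1 * y.1 + x0.2 * y.2))‖ ≤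
        W i / 4 ^ m := hW
  have hOm : MeasurableSet (⋃ i ∈ I, sq m i) := h2c2_om_meas m I
  have hOmBB : (⋃ i ∈ I, sq m i) ⊆ BB := by
    intro z hz
    rw [mem_iUnion₂] at hz
    obtain ⟨i, hi, hz⟩ := hz
    exact BB0_subset (sq_subset hm (hI hi) hz)
  have hg : Measurable ((⋃ i ∈ I, sq m i).indicator h) := hh.indicator hOm
  have hgB : ∀ y, ‖(⋃ i ∈ I, sq m i).indicator h y‖ ≤ B := by
    intro y
    by_cases hy : y ∈ ⋃ i ∈ I, sq m i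
    · rw [indicator_of_mem hy]
      exact hB y (hOmBB hy)
    · rw [indicator_of_notMem hy, norm_zero]
      exact hB0
  have hgs : ∀ y, y ∉ BB → (⋃ i ∈ I, sq m i).indicator h y = 0 := by
    intro y hy
    exact indicator_of_notMem (fun h2 => hy (hOmBB h2)) _
  let G : ℝ × ℝ → ℂ := fun y => ∫ z in Ioc 0 (1 / 2 ^ m) ×ˢ Ioc 0 (1 / 2 ^ m),
    (⋃ i ∈ I, sq m i).indicator h (y - z) * h2c2_E (x0.1 * z.1 + x0.2 * z.2)
  have hGb : ∀ y, ‖G y‖ ≤ ∑ i ∈ I, (h2c2_N m i).indicator (fun _ => W i / 4 ^ m) y :=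
    h2c2_bound m hm I hI h hh B hB x0 W hW'
  have hGi : Integrable G := (h2c2_bd_int m I W).mono' (h2c2_G_meas m _ hg x0)
    (Filter.Eventually.of_forall hGb)
  have hbes := bes2 G hGi
  have hl2 := h2c2_l2 m I W hW0 G hGb
  have hpt : ∀ x : ℝ × ℝ, cell m x = c' →
      ‖∫ y in ⋃ i ∈ I, sq m i, h y *
        Complex.exp (((-(x.1 * y.1 + x.2 * y.2) : ℝ) : ℂ) * Complex.I)‖ₑ ^ (2:ℝ) ≤
      ENNReal.ofReal (16 / 9 * 16 ^ m) * ‖∫ y, G y *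
        Complex.exp (((-(x.1 * y.1 + x.2 * y.2) : ℝ) : ℂ) * Complex.I)‖ₑ ^ (2:ℝ) := by
    intro x hx
    obtain ⟨c1, c2⟩ := h2c2_cell m c' x hx
    have hz := zeta2 (1 / 2 ^ m) (x.1 - x0.1, x.2 - x0.2) (by positivity) c1 c2
    have hc := conv_id _ hg B hgB hgs (1 / 2 ^ m) (by positivity) x x0
    have e1 : ∫ y in ⋃ i ∈ I, sq m i, h y *
        Complex.exp (((-(x.1 * y.1 + x.2 * y.2) : ℝ) : ℂ) * Complex.I) =
        ∫ y, (⋃ i ∈ I, sq m i).indicator h y *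
          Complex.exp (((-(x.1 * y.1 + x.2 * y.2) : ℝ) : ℂ) * Complex.I) := by
      rw [← integral_indicator hOm]
      refine integral_congr_ae (Filter.Eventually.of_forall ?_)
      intro y
      by_cases hy : y ∈ ⋃ i ∈ I, sq m i
      · simp only [indicator_of_mem hy]
      · simp only [indicator_of_notMem hy, zero_mul]
    rw [e1]
    have hc' : (∫ y, (⋃ i ∈ I, sq m i).indicator h y *
          Complex.exp (((-(x.1 * y.1 + x.2 * y.2) : ℝ) : ℂ) * Complex.I)) *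
        (∫ z in Ioc 0 (1 / 2 ^ m) ×ˢ Ioc 0 (1 / 2 ^ m),
          Complex.exp (((-((x.1 - x0.1) * z.1 + (x.2 - x0.2) * z.2) : ℝ) : ℂ) * Complex.I)) =
        ∫ y, G y * Complex.exp (((-(x.1 * y.1 + x.2 * y.2) : ℝ) : ℂ) * Complex.I) := hc
    rw [← hc']
    generalize (∫ y, (⋃ i ∈ I, sq m i).indicator h y *
          Complex.exp (((-(x.1 * y.1 + x.2 * y.2) : ℝ) : ℂ) * Complex.I)) = P
    have hz' : 3 / 4 * (1 / 2 ^ m) ^ 2 ≤ ‖∫ z in Ioc 0 (1 / 2 ^ m) ×ˢ Ioc 0 (1 / 2 ^ m),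
        Complex.exp (((-((x.1 - x0.1) * z.1 + (x.2 - x0.2) * z.2) : ℝ) : ℂ) * Complex.I)‖ := hz
    generalize (∫ z in Ioc 0 (1 / 2 ^ m) ×ˢ Ioc 0 (1 / 2 ^ m),
        Complex.exp (((-((x.1 - x0.1) * z.1 + (x.2 - x0.2) * z.2) : ℝ) : ℂ) * Complex.I)) = Z
      at hz'
    have h3 : ‖P‖ₑ ^ (2 : ℝ) = ENNReal.ofReal (‖P‖ ^ 2) := by
      rw [← ofReal_norm, ENNReal.rpow_two, ENNReal.ofReal_pow (norm_nonneg _)]
    have h4 : ‖P * Z‖ₑ ^ (2 : ℝ) = ENNReal.ofReal (‖P * Z‖ ^ 2) := by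
      rw [← ofReal_norm, ENNReal.rpow_two, ENNReal.ofReal_pow (norm_nonneg _)]
    rw [h3, h4, ← ENNReal.ofReal_mul (by positivity)]
    refine ENNReal.ofReal_le_ofReal ?_
    rw [norm_mul, mul_pow]
    have h5 : (3 / 4 * (1 / 2 ^ m) ^ 2) ^ 2 ≤ ‖Z‖ ^ 2 :=
      pow_le_pow_left₀ (by positivity) hz' 2
    have h6 : (3 / 4 * (1 / (2:ℝ) ^ m) ^ 2) ^ 2 = 9 / 16 * (1 / 16 ^ m) := by
      have h16 : (16 : ℝ) ^ m = (2 ^ m) ^ 4 := by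
        rw [← pow_mul, mul_comm, pow_mul]
        norm_num
      rw [h16]
      field_simp
      norm_num
    rw [h6] at h5
    have h7 : 1 ≤ 16 / 9 * 16 ^ m * ‖Z‖ ^ 2 := by
      calc (1 : ℝ) = 16 / 9 * 16 ^ m * (9 / 16 * (1 / 16 ^ m)) := by
            field_simp
        _ ≤ 16 / 9 * 16 ^ m * ‖Z‖ ^ 2 := mul_le_mul_of_nonneg_left h5 (by positivity)
    calc ‖P‖ ^ 2 = ‖P‖ ^ 2 * 1 := by ring
      _ ≤ ‖P‖ ^ 2 * (16 / 9 * 16 ^ m * ‖Z‖ ^ 2) :=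
          mul_le_mul_of_nonneg_left h7 (sq_nonneg _)
      _ = 16 / 9 * 16 ^ m * (‖P‖ ^ 2 * ‖Z‖ ^ 2) := by ring
  have hcellm : MeasurableSet {x : ℝ × ℝ | cell m x = c'} := by
    have hcm : Measurable (fun x : ℝ × ℝ => cell m x) := by
      unfold cell
      refine Measurable.prodMk ?_ ?_
      · exact Int.measurable_floor.comp (measurable_fst.div_const _)
      · exact Int.measurable_floor.comp (measurable_snd.div_const _)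
    exact hcm (measurableSet_singleton c')
  calc ∫⁻ x in {x : ℝ × ℝ | cell m x = c'}, ‖∫ y in ⋃ i ∈ I, sq m i, h y *
        Complex.exp (((-(x.1 * y.1 + x.2 * y.2) : ℝ) : ℂ) * Complex.I)‖ₑ ^ (2:ℝ)
      ≤ ∫⁻ x in {x : ℝ × ℝ | cell m x = c'}, ENNReal.ofReal (16 / 9 * 16 ^ m) * ‖∫ y, G y *
        Complex.exp (((-(x.1 * y.1 + x.2 * y.2) : ℝ) : ℂ) * Complex.I)‖ₑ ^ (2:ℝ) :=
        setLIntegral_mono' hcellm (fun x hx => hpt x hx)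
    _ ≤ ∫⁻ x : ℝ × ℝ, ENNReal.ofReal (16 / 9 * 16 ^ m) * ‖∫ y, G y *
        Complex.exp (((-(x.1 * y.1 + x.2 * y.2) : ℝ) : ℂ) * Complex.I)‖ₑ ^ (2:ℝ) :=
        setLIntegral_le_lintegral _ _
    _ = ENNReal.ofReal (16 / 9 * 16 ^ m) * ∫⁻ x : ℝ × ℝ, ‖∫ y, G y *
        Complex.exp (((-(x.1 * y.1 + x.2 * y.2) : ℝ) : ℂ) * Complex.I)‖ₑ ^ (2:ℝ) :=
        lintegral_const_mul' _ _ ENNReal.ofReal_ne_top
    _ ≤ ENNReal.ofReal (16 / 9 * 16 ^ m) * (ENNReal.ofReal ((2 * π) ^ 2) *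
        ENNReal.ofReal (16 * ∑ i ∈ I, W i ^ 2 / (16 ^ m * 4 ^ m))) :=
        mul_le_mul_right (hbes.trans (mul_le_mul_right hl2 _)) _
    _ ≤ ENNReal.ofReal (2000 * ∑ i ∈ I, W i ^ 2 / 4 ^ m) := by
        rw [← ENNReal.ofReal_mul (by positivity), ← ENNReal.ofReal_mul (by positivity)]
        refine ENNReal.ofReal_le_ofReal ?_
        have e2 : ∑ i ∈ I, W i ^ 2 / (16 ^ m * 4 ^ m) =
            1 / 16 ^ m * ∑ i ∈ I, W i ^ 2 / 4 ^ m := by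
          rw [Finset.mul_sum]
          refine Finset.sum_congr rfl ?_
          intro i _
          field_simp
        rw [e2]
        have hS : 0 ≤ ∑ i ∈ I, W i ^ 2 / 4 ^ m := Finset.sum_nonneg (fun i _ => by positivity)
        generalize (∑ i ∈ I, W i ^ 2 / 4 ^ m) = S at hS
        have e3 : 16 / 9 * 16 ^ m * ((2 * π) ^ 2 * (16 * (1 / 16 ^ m * S))) =
            1024 / 9 * π ^ 2 * S := by
          field_simp
          ring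
        rw [e3]
        refine mul_le_mul_of_nonneg_right ?_ hS
        have hpi : π < 3.15 := Real.pi_lt_d2
        have hpi0 : 0 < π := Real.pi_pos
        nlinarith

end Pool.Agent.PPH
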