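import Pool.Agent.PPH.H1c
import Pool.Agent.PPH.H2c2

/-!
ROW H2d (0.6 h). `uI_local`, from `packet` and `local_l2`. With h y = ev al y * exp(i ev q y) (measurable: measurable_ev; bounded on BB: |h| = |ev al| ≤ A, Amp with a = b = 0), am al q x y = h y * exp(-i (x.1 y.1 + x.2 y.2)).
 I = the selected squares (filter of idx m), Om = ⋃ i ∈ I, sq m i (Om_eq). For x0 = (2^m (c'.1+1/2), 2^m (c'.2+1/2)) we have cell m x0 = c', so `packet` gives hW with W i = K A ww (cell m (gr q m i) - c') ≥ 0.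
 local_l2: ≤ ofReal (2000 Σ (K A)^2 ww^2 / 4^m) = ofReal (2000 K^2 A^2) * Σ_{i} ofReal (1/4^m) ofReal (ww ..)^2 and sum_NN with F cc = ofReal (ww (cc - c'))^2.
-/

namespace Pool.Agent.PPH

open MeasureTheory Set MvPolynomial
open scoped ENNReal Real

theorem uI_local (D : ℕ) : ∃ K : ℝ, 0 < K ∧ ∀ (c : Cf D) (t A : ℝ) (al : RR) (m : ℕ), 2 ≤ m →
    0 ≤ A → Amp A al → ∀ c' : ℤ × ℤ,
    ∫⁻ x in {x : ℝ × ℝ | cell m x = c'}, ‖uI (Om D (qt c t) m) al (qt c t) x‖ₑ ^ (2:ℝ) ≤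
      ENNReal.ofReal (K * A ^ 2) * ∑' cc : ℤ × ℤ, ENNReal.ofReal (NN D (qt c t) m cc) *
        ENNReal.ofReal (ww (cc - c')) ^ 2 := by
  classical
  obtain ⟨K, hK, hpack⟩ := packet D
  refine ⟨2000 * K ^ 2, by positivity, fun c t A al m hm hA hAmp c' => ?_⟩
  set q := qt c t with hq
  set x0 : ℝ × ℝ := (2 ^ m * ((c'.1 : ℝ) + 1 / 2), 2 ^ m * ((c'.2 : ℝ) + 1 / 2)) with hx0
  have h2 : (2 : ℝ) ^ m ≠ 0 := by positivity
  have hcell : cell m x0 = c' := by
    refine Prod.ext ?_ ?_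
    · show ⌊2 ^ m * ((c'.1 : ℝ) + 1 / 2) / 2 ^ m⌋ = c'.1
      rw [mul_div_cancel_left₀ _ h2, Int.floor_eq_iff]
      constructor <;> linarith
    · show ⌊2 ^ m * ((c'.2 : ℝ) + 1 / 2) / 2 ^ m⌋ = c'.2
      rw [mul_div_cancel_left₀ _ h2, Int.floor_eq_iff]
      constructor <;> linarith
  set h : ℝ × ℝ → ℂ := fun y => ((ev al y : ℝ) : ℂ) * Complex.exp (((ev q y : ℝ) : ℂ) * Complex.I)
    with hh
  have hmeas : Measurable h :=
    (Complex.measurable_ofReal.comp (measurable_ev al)).mul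
      (((Complex.measurable_ofReal.comp (measurable_ev q)).mul_const _).cexp)
  have hB : ∀ y ∈ BB, ‖h y‖ ≤ A := by
    intro y hy
    have h1 := hAmp 0 0 (by norm_num) (by norm_num) y hy
    show ‖((ev al y : ℝ) : ℂ) * Complex.exp (((ev q y : ℝ) : ℂ) * Complex.I)‖ ≤ A
    rw [norm_mul, Complex.norm_exp_ofReal_mul_I, mul_one, Complex.norm_real, Real.norm_eq_abs]
    exact h1
  have ham : ∀ x y, am al q x y =
      h y * Complex.exp (((-(x.1 * y.1 + x.2 * y.2) : ℝ) : ℂ) * Complex.I) := by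
    intro x y
    show ((ev al y : ℝ) : ℂ) * Complex.exp (((ev q y - x.1 * y.1 - x.2 * y.2 : ℝ) : ℂ) * Complex.I) =
      ((ev al y : ℝ) : ℂ) * Complex.exp (((ev q y : ℝ) : ℂ) * Complex.I) *
        Complex.exp (((-(x.1 * y.1 + x.2 * y.2) : ℝ) : ℂ) * Complex.I)
    rw [mul_assoc, ← Complex.exp_add]
    congr 2
    push_cast
    ring
  have hww : ∀ n, 0 ≤ ww n := fun n => by
    unfold ww
    positivity
  set W : ℤ × ℤ → ℝ := fun i => K * A * ww (cell m (gr q m i) - c') with hW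
  have hW0 : ∀ i, 0 ≤ W i := fun i => mul_nonneg (mul_nonneg hK.le hA) (hww _)
  have hloc := local_l2 m hm ((idx m).filter (fun i => Sel D q m i)) (Finset.filter_subset _ _)
    h hmeas A hB c' W hW0 (by
      intro i hi a b hab
      rw [Finset.mem_filter] at hi
      have h1 := hpack c t A al m hm hA hAmp i hi.1 hi.2 a b hab x0
      rw [hcell] at h1
      have h3 : ∫ y in Ico a.1 b.1 ×ˢ Ico a.2 b.2, h y *
          Complex.exp (((-(2 ^ m * ((c'.1 : ℝ) + 1 / 2) * y.1 +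
            2 ^ m * ((c'.2 : ℝ) + 1 / 2) * y.2) : ℝ) : ℂ) * Complex.I) =
          ∫ y in Ico a.1 b.1 ×ˢ Ico a.2 b.2, am al q x0 y := by
        refine integral_congr_ae (Filter.Eventually.of_forall fun y => ?_)
        exact (ham x0 y).symm
      rw [h3]
      refine h1.trans (le_of_eq ?_)
      show K * A / 4 ^ m * ww (cell m (gr q m i) - c') = K * A * ww (cell m (gr q m i) - c') / 4 ^ m
      ring)
  have hleft : ∫⁻ x in {x : ℝ × ℝ | cell m x = c'}, ‖uI (Om D q m) al q x‖ₑ ^ (2:ℝ) =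
      ∫⁻ x in {x : ℝ × ℝ | cell m x = c'},
        ‖∫ y in ⋃ i ∈ (idx m).filter (fun i => Sel D q m i), sq m i, h y *
        Complex.exp (((-(x.1 * y.1 + x.2 * y.2) : ℝ) : ℂ) * Complex.I)‖ₑ ^ (2:ℝ) := by
    refine lintegral_congr fun x => ?_
    congr 2
    unfold uI
    have h5 : Om D q m = ⋃ i ∈ (idx m).filter (fun i => Sel D q m i), sq m i := by
      convert! Om_eq D q m
    rw [h5]
    exact integral_congr_ae (Filter.Eventually.of_forall fun y => ham x y)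
  rw [hleft]
  refine hloc.trans (le_of_eq ?_)
  have hs : ∑ i ∈ (idx m).filter (fun i => Sel D q m i), ENNReal.ofReal (1 / 4 ^ m) *
      ENNReal.ofReal (ww (cell m (gr q m i) - c')) ^ 2 =
      ∑' cc : ℤ × ℤ, ENNReal.ofReal (NN D q m cc) * ENNReal.ofReal (ww (cc - c')) ^ 2 := by
    convert! sum_NN D q m (fun cc => ENNReal.ofReal (ww (cc - c')) ^ 2)
  rw [← hs, Finset.mul_sum, Finset.mul_sum,
    ENNReal.ofReal_sum_of_nonneg fun i _ => by positivity]
  refine Finset.sum_congr rfl fun i _ => ?_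
  rw [← ENNReal.ofReal_pow (hww _), ← ENNReal.ofReal_mul (by positivity),
    ← ENNReal.ofReal_mul (by positivity)]
  congr 1
  show 2000 * ((K * A * ww (cell m (gr q m i) - c')) ^ 2 / 4 ^ m) = _
  ring

end Pool.Agent.PPH
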