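import Pool.Agent.PPH.Defs

/-!
Weights on ℤ². ww n = 1/((1+|n.1|)(1+|n.2|)), W n = ofReal (ww n).

ROW H3a (0.7 h). `sum_ww_sq`: ∑' W² = (∑'_{k∈ℤ} (1+|k|)^(-2))² < ∞ (ENNReal.tsum_prod, summability of 1/(1+|k|)^2).
`sum_ww_box`: over the box |n.1|, |n.2| ≤ 16^m the sum of W is ≤ (1 + 2 Σ_{k=1}^{16^m} 1/(1+k))² ≤ (1 + 2 log(1 + 16^m))² ≤ K m² (m ≥ 1), (Σ_{k=1}^{n} 1/(1+k) ≤ log(1+n); harmonic bounds in Mathlib: `harmonic_le_one_add_log`;
 or dyadic blocks: 4m blocks of sum ≤ 1 each).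
`ww_out`: outside of the box W ≤ 1/16^m.
-/

namespace Pool.Agent.PPH

open MeasureTheory Set
open scoped ENNReal Real

private theorem h3a_mul (n : ℤ × ℤ) : ENNReal.ofReal (ww n) =
    ENNReal.ofReal (1 / (1 + |(n.1 : ℝ)|)) * ENNReal.ofReal (1 / (1 + |(n.2 : ℝ)|)) := by
  rw [← ENNReal.ofReal_mul (by positivity)]
  congr 1
  unfold ww
  rw [one_div_mul_one_div]

private theorem h3a_prod (f : ℤ → ℝ≥0∞) : ∑' n : ℤ × ℤ, f n.1 * f n.2 = (∑' a : ℤ, f a) ^ 2 := by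
  rw [ENNReal.tsum_prod (f := fun a b => f a * f b), pow_two, ← ENNReal.tsum_mul_right]
  refine tsum_congr fun a => ?_
  rw [ENNReal.tsum_mul_left]

theorem sum_ww_sq : ∑' n : ℤ × ℤ, ENNReal.ofReal (ww n) ^ 2 < ∞ := by
  have h1 : ∀ n : ℤ × ℤ, ENNReal.ofReal (ww n) ^ 2 =
      ENNReal.ofReal (1 / (1 + |(n.1 : ℝ)|)) ^ 2 * ENNReal.ofReal (1 / (1 + |(n.2 : ℝ)|)) ^ 2 := by
    intro n
    rw [h3a_mul, mul_pow]
  rw [tsum_congr h1, h3a_prod (fun a => ENNReal.ofReal (1 / (1 + |(a : ℝ)|)) ^ 2)]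
  have hs : Summable (fun a : ℤ => (1 / (1 + |(a : ℝ)|)) ^ 2) := by
    have hnat : Summable (fun n : ℕ => (1 / (1 + (n : ℝ))) ^ 2) := by
      have h2 := (summable_nat_add_iff 1).2 (Real.summable_one_div_nat_pow.2 (by norm_num : 1 < 2))
      refine h2.congr fun n => ?_
      push_cast
      rw [one_div_pow, add_comm]
    refine Summable.of_nat_of_neg ?_ ?_
    · refine hnat.congr fun n => ?_
      push_cast
      rw [abs_of_nonneg (by positivity)]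
    · refine hnat.congr fun n => ?_
      push_cast
      rw [abs_neg, abs_of_nonneg (by positivity)]
  have h3 : ∑' a : ℤ, ENNReal.ofReal (1 / (1 + |(a : ℝ)|)) ^ 2 =
      ENNReal.ofReal (∑' a : ℤ, (1 / (1 + |(a : ℝ)|)) ^ 2) := by
    rw [ENNReal.ofReal_tsum_of_nonneg (fun a => by positivity) hs]
    refine tsum_congr fun a => ?_
    rw [ENNReal.ofReal_pow (by positivity)]
  rw [h3]
  exact ENNReal.pow_lt_top ENNReal.ofReal_lt_top

private theorem h3a_harm (N : ℕ) : ∑ a ∈ Finset.Icc (-(N : ℤ)) N, 1 / (1 + |(a : ℝ)|) ≤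
    2 * (1 + Real.log ((N + 1 : ℕ) : ℝ)) := by
  have hsub : Finset.Icc (-(N : ℤ)) N ⊆ (Finset.range (N + 1)).image (fun n : ℕ => (n : ℤ)) ∪
      (Finset.range (N + 1)).image (fun n : ℕ => -(n : ℤ)) := by
    intro a ha
    rw [Finset.mem_Icc] at ha
    rw [Finset.mem_union, Finset.mem_image, Finset.mem_image]
    rcases le_total 0 a with h | h
    · left
      refine ⟨a.toNat, ?_, ?_⟩
      · rw [Finset.mem_range]; omega
      · omega
    · right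
      refine ⟨(-a).toNat, ?_, ?_⟩
      · rw [Finset.mem_range]; omega
      · omega
  have hnn : ∀ a : ℤ, 0 ≤ 1 / (1 + |(a : ℝ)|) := fun a => by positivity
  have h1 : ∑ a ∈ Finset.Icc (-(N : ℤ)) N, 1 / (1 + |(a : ℝ)|) ≤
      ∑ a ∈ (Finset.range (N + 1)).image (fun n : ℕ => (n : ℤ)), 1 / (1 + |(a : ℝ)|) +
      ∑ a ∈ (Finset.range (N + 1)).image (fun n : ℕ => -(n : ℤ)), 1 / (1 + |(a : ℝ)|) := by
    refine (Finset.sum_le_sum_of_subset_of_nonneg hsub (fun a _ _ => hnn a)).trans ?_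
    rw [← Finset.sum_union_inter]
    have h2 : 0 ≤ ∑ a ∈ (Finset.range (N + 1)).image (fun n : ℕ => (n : ℤ)) ∩
      (Finset.range (N + 1)).image (fun n : ℕ => -(n : ℤ)), 1 / (1 + |(a : ℝ)|) :=
      Finset.sum_nonneg fun a _ => hnn a
    linarith
  have hh : ((harmonic (N + 1) : ℚ) : ℝ) = ∑ i ∈ Finset.range (N + 1), 1 / (1 + (i : ℝ)) := by
    unfold harmonic
    push_cast
    refine Finset.sum_congr rfl fun i _ => ?_
    rw [one_div, add_comm]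
  have h2 : ∑ a ∈ (Finset.range (N + 1)).image (fun n : ℕ => (n : ℤ)), 1 / (1 + |(a : ℝ)|) =
      ((harmonic (N + 1) : ℚ) : ℝ) := by
    rw [Finset.sum_image (fun a _ b _ h => by simpa using h), hh]
    refine Finset.sum_congr rfl fun i _ => ?_
    push_cast
    rw [abs_of_nonneg (by positivity)]
  have h3 : ∑ a ∈ (Finset.range (N + 1)).image (fun n : ℕ => -(n : ℤ)), 1 / (1 + |(a : ℝ)|) =
      ((harmonic (N + 1) : ℚ) : ℝ) := by
    rw [Finset.sum_image (fun a _ b _ h => by simpa using h), hh]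
    refine Finset.sum_congr rfl fun i _ => ?_
    push_cast
    rw [abs_neg, abs_of_nonneg (by positivity)]
  have h4 := harmonic_le_one_add_log (N + 1)
  rw [h2, h3] at h1
  linarith

private theorem h3a_log (m : ℕ) (hm : 1 ≤ m) :
    2 * (1 + Real.log ((16 ^ m + 1 : ℕ) : ℝ)) ≤ 10 * m := by
  have hm' : (1 : ℝ) ≤ m := by exact_mod_cast hm
  have h1 : ((16 ^ m + 1 : ℕ) : ℝ) ≤ 2 ^ (5 * m) := by
    have h2 : 16 ^ m + 1 ≤ 2 ^ (5 * m) := by
      have h3 : 2 ^ (5 * m) = 2 ^ m * 16 ^ m := by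
        rw [pow_mul, ← mul_pow]
        norm_num
      have h4 : 2 ≤ 2 ^ m := by
        calc 2 = 2 ^ 1 := by norm_num
          _ ≤ 2 ^ m := Nat.pow_le_pow_right (by norm_num) hm
      have h5 : 1 ≤ 16 ^ m := Nat.one_le_pow _ _ (by norm_num)
      rw [h3]
      nlinarith
    exact_mod_cast h2
  have h6 : Real.log ((16 ^ m + 1 : ℕ) : ℝ) ≤ (5 * m) * Real.log 2 := by
    have h7 := Real.log_le_log (by positivity) h1
    rw [Real.log_pow] at h7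
    push_cast at h7 ⊢
    exact h7
  have h8 := Real.log_two_lt_d9
  have h9 : (5 * (m : ℝ)) * Real.log 2 ≤ 4 * m := by nlinarith
  linarith

theorem sum_ww_box : ∃ K : ℝ, 0 < K ∧ ∀ m : ℕ, 1 ≤ m →
    ∑' n : ℤ × ℤ, (if |n.1| ≤ 16 ^ m ∧ |n.2| ≤ 16 ^ m then ENNReal.ofReal (ww n) else 0) ≤
      ENNReal.ofReal (K * m ^ 2) := by
  refine ⟨100, by norm_num, ?_⟩
  intro m hm
  have h1 : ∀ n : ℤ × ℤ, (if |n.1| ≤ 16 ^ m ∧ |n.2| ≤ 16 ^ m then ENNReal.ofReal (ww n) else 0) =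
      (if |n.1| ≤ 16 ^ m then ENNReal.ofReal (1 / (1 + |(n.1 : ℝ)|)) else 0) *
      (if |n.2| ≤ 16 ^ m then ENNReal.ofReal (1 / (1 + |(n.2 : ℝ)|)) else 0) := by
    intro n
    by_cases ha : |n.1| ≤ 16 ^ m
    · by_cases hb : |n.2| ≤ 16 ^ m
      · rw [if_pos ⟨ha, hb⟩, if_pos ha, if_pos hb, h3a_mul]
      · rw [if_neg (fun h => hb h.2), if_neg hb, mul_zero]
    · rw [if_neg (fun h => ha h.1), if_neg ha, zero_mul]
  rw [tsum_congr h1, h3a_prod (fun a => if |a| ≤ 16 ^ m then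
    ENNReal.ofReal (1 / (1 + |(a : ℝ)|)) else 0)]
  have h2 : ∑' a : ℤ, (if |a| ≤ 16 ^ m then ENNReal.ofReal (1 / (1 + |(a : ℝ)|)) else 0) =
      ENNReal.ofReal (∑ a ∈ Finset.Icc (-((16 ^ m : ℕ) : ℤ)) (16 ^ m : ℕ), 1 / (1 + |(a : ℝ)|)) := by
    rw [ENNReal.ofReal_sum_of_nonneg (fun a _ => by positivity),
      tsum_eq_sum (s := Finset.Icc (-((16 ^ m : ℕ) : ℤ)) (16 ^ m : ℕ))]
    · refine Finset.sum_congr rfl fun a ha => ?_
      rw [Finset.mem_Icc] at ha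
      rw [if_pos]
      rw [abs_le]
      push_cast at ha
      exact ha
    · intro a ha
      rw [if_neg]
      intro h
      apply ha
      rw [abs_le] at h
      rw [Finset.mem_Icc]
      push_cast
      exact h
  have h3 := (h3a_harm (16 ^ m)).trans (h3a_log m hm)
  rw [h2, ← ENNReal.ofReal_pow (Finset.sum_nonneg fun a _ => by positivity)]
  apply ENNReal.ofReal_le_ofReal
  have h4 : 0 ≤ ∑ a ∈ Finset.Icc (-((16 ^ m : ℕ) : ℤ)) (16 ^ m : ℕ), 1 / (1 + |(a : ℝ)|) :=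
    Finset.sum_nonneg fun a _ => by positivity
  have h5 := pow_le_pow_left₀ h4 h3 2
  have h6 : (10 * (m : ℝ)) ^ 2 = 100 * (m : ℝ) ^ 2 := by ring
  rw [h6] at h5
  exact h5

theorem ww_out (m : ℕ) (n : ℤ × ℤ) (h : ¬ (|n.1| ≤ 16 ^ m ∧ |n.2| ≤ 16 ^ m)) :
    ENNReal.ofReal (ww n) ≤ ENNReal.ofReal (1 / 16 ^ m) := by
  apply ENNReal.ofReal_le_ofReal
  have hcase : (16 : ℝ) ^ m ≤ |(n.1 : ℝ)| ∨ (16 : ℝ) ^ m ≤ |(n.2 : ℝ)| := by
    by_cases ha : |n.1| ≤ 16 ^ m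
    · right
      have hb : ¬ |n.2| ≤ 16 ^ m := fun hb => h ⟨ha, hb⟩
      have hb' : (16 : ℤ) ^ m ≤ |n.2| := (not_le.1 hb).le
      exact_mod_cast hb'
    · left
      have ha' : (16 : ℤ) ^ m ≤ |n.1| := (not_le.1 ha).le
      exact_mod_cast ha'
  unfold ww
  have h1 : 0 ≤ |(n.1 : ℝ)| := abs_nonneg _
  have h2 : 0 ≤ |(n.2 : ℝ)| := abs_nonneg _
  apply one_div_le_one_div_of_le (by positivity)
  rcases hcase with hc | hc <;> nlinarith [mul_nonneg h1 h2]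

end Pool.Agent.PPH
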