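import Pool.Agent.PPH.H3a

/-!
ROW H3b (0.8 h), from H3a (sum_ww_sq, sum_ww_box, ww_out). W n = ofReal (ww n).
`weights_sup`: ∑'_c N c W(c - c'): split c - c' in the box or not: ≤ (⨆ N) ∑_{box} W + 16^(-m) ∑' N (translation c = c' + a: Equiv.addRight, tsum reindexing).
`weights_cube`: LHS = ∑'_{c'} ∑'_a ∑'_b W a W b² N(c'+a) N(c'+b) = ∑'_a ∑'_b W a W b² (∑'_{c'} N(c'+a) N(c'+b)) (ENNReal.tsum_comm, tsum_mul_left). For all a, b: ∑'_{c'} N(c'+a) N(c'+b) ≤ ∑' N² (2xy ≤ x² + y²),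
 used for a in the box: ≤ K m² K (∑' N²). For a outside the box W a ≤ 16^(-m): ∑'_a ∑'_b W b² ∑'_{c'} N(c'+a)N(c'+b) = ∑'_b W b² (∑' N)² ≤ K (∑' N)².
-/

namespace Pool.Agent.PPH

open MeasureTheory Set
open scoped ENNReal Real

theorem h3b_mul_le (x y : ℝ≥0∞) : x * y ≤ x ^ 2 + y ^ 2 := by
  rcases le_total x y with h | h
  · calc x * y ≤ y * y := mul_le_mul' h le_rfl
      _ = y ^ 2 := (_root_.sq y).symm
      _ ≤ x ^ 2 + y ^ 2 := le_add_self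
  · calc x * y ≤ x * x := mul_le_mul' le_rfl h
      _ = x ^ 2 := (_root_.sq x).symm
      _ ≤ x ^ 2 + y ^ 2 := le_self_add

theorem h3b_shift (F : ℤ × ℤ → ℝ≥0∞) (a : ℤ × ℤ) : ∑' c, F (a + c) = ∑' c, F c :=
  (Equiv.addLeft a).tsum_eq F

theorem h3b_shift' (F : ℤ × ℤ → ℝ≥0∞) (a : ℤ × ℤ) : ∑' c, F (c + a) = ∑' c, F c :=
  (Equiv.addRight a).tsum_eq F

theorem h3b_sub (F : ℤ × ℤ → ℝ≥0∞) (a : ℤ × ℤ) : ∑' c, F (c - a) = ∑' c, F c :=
  (Equiv.subRight a).tsum_eq F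

theorem h3b_corr (N : ℤ × ℤ → ℝ≥0∞) (a b : ℤ × ℤ) :
    ∑' c, N (a + c) * N (b + c) ≤ 2 * ∑' c, N c ^ 2 := by
  calc ∑' c, N (a + c) * N (b + c) ≤ ∑' c, (N (a + c) ^ 2 + N (b + c) ^ 2) :=
        ENNReal.tsum_le_tsum fun c => h3b_mul_le _ _
    _ = ∑' c, N (a + c) ^ 2 + ∑' c, N (b + c) ^ 2 := ENNReal.tsum_add
    _ = ∑' c, N c ^ 2 + ∑' c, N c ^ 2 := by
      rw [h3b_shift (fun c => N c ^ 2) a, h3b_shift (fun c => N c ^ 2) b]
    _ = 2 * ∑' c, N c ^ 2 := by rw [two_mul]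

theorem h3b_conv (N f g : ℤ × ℤ → ℝ≥0∞) :
    ∑' c' : ℤ × ℤ, (∑' a : ℤ × ℤ, N (a + c') * f a) * (∑' b : ℤ × ℤ, N (b + c') * g b) ≤
      ((∑' a, f a) * ∑' b, g b) * (2 * ∑' c, N c ^ 2) := by
  calc ∑' c' : ℤ × ℤ, (∑' a : ℤ × ℤ, N (a + c') * f a) * (∑' b : ℤ × ℤ, N (b + c') * g b)
      = ∑' c' : ℤ × ℤ, ∑' a : ℤ × ℤ, ∑' b : ℤ × ℤ, (f a * g b) * (N (a + c') * N (b + c')) := by
        refine tsum_congr fun c' => ?_
        rw [← ENNReal.tsum_mul_right]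
        refine tsum_congr fun a => ?_
        rw [← ENNReal.tsum_mul_left]
        refine tsum_congr fun b => ?_
        ring
    _ = ∑' a : ℤ × ℤ, ∑' c' : ℤ × ℤ, ∑' b : ℤ × ℤ, (f a * g b) * (N (a + c') * N (b + c')) :=
        ENNReal.tsum_comm
    _ = ∑' a : ℤ × ℤ, ∑' b : ℤ × ℤ, ∑' c' : ℤ × ℤ, (f a * g b) * (N (a + c') * N (b + c')) :=
        tsum_congr fun a => ENNReal.tsum_comm
    _ = ∑' a : ℤ × ℤ, ∑' b : ℤ × ℤ, (f a * g b) * ∑' c' : ℤ × ℤ, N (a + c') * N (b + c') :=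
        tsum_congr fun a => tsum_congr fun b => ENNReal.tsum_mul_left
    _ ≤ ∑' a : ℤ × ℤ, ∑' b : ℤ × ℤ, (f a * g b) * (2 * ∑' c, N c ^ 2) :=
        ENNReal.tsum_le_tsum fun a => ENNReal.tsum_le_tsum fun b =>
          mul_le_mul' le_rfl (h3b_corr N a b)
    _ = ∑' a : ℤ × ℤ, f a * ((∑' b, g b) * (2 * ∑' c, N c ^ 2)) := by
        refine tsum_congr fun a => ?_
        rw [ENNReal.tsum_mul_right, ENNReal.tsum_mul_left, mul_assoc]
    _ = ((∑' a, f a) * ∑' b, g b) * (2 * ∑' c, N c ^ 2) := by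
        rw [ENNReal.tsum_mul_right, mul_assoc]

/-- the weight in the box -/
noncomputable def h3b_box (m : ℕ) (n : ℤ × ℤ) : ℝ≥0∞ :=
  if |n.1| ≤ 16 ^ m ∧ |n.2| ≤ 16 ^ m then ENNReal.ofReal (ww n) else 0

theorem h3b_le (m : ℕ) (n : ℤ × ℤ) :
    ENNReal.ofReal (ww n) ≤ h3b_box m n + ENNReal.ofReal (1 / 16 ^ m) := by
  unfold h3b_box
  split_ifs with h
  · exact le_self_add
  · rw [zero_add]
    exact ww_out m n h

theorem weights_sup : ∃ K : ℝ, 0 < K ∧ ∀ m : ℕ, 1 ≤ m → ∀ (N : ℤ × ℤ → ℝ≥0∞) (M : ℝ≥0∞),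
    (∀ c, N c ≤ M) → ∀ c' : ℤ × ℤ, ∑' c : ℤ × ℤ, N c * ENNReal.ofReal (ww (c - c')) ≤
      ENNReal.ofReal (K * m ^ 2) * M + ENNReal.ofReal (1 / 16 ^ m) * ∑' c, N c := by
  obtain ⟨K, hK, hbox⟩ := sum_ww_box
  refine ⟨K, hK, fun m hm N M hM c' => ?_⟩
  calc ∑' c : ℤ × ℤ, N c * ENNReal.ofReal (ww (c - c'))
      ≤ ∑' c : ℤ × ℤ, (M * h3b_box m (c - c') + ENNReal.ofReal (1 / 16 ^ m) * N c) := by
        refine ENNReal.tsum_le_tsum fun c => ?_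
        calc N c * ENNReal.ofReal (ww (c - c'))
            ≤ N c * (h3b_box m (c - c') + ENNReal.ofReal (1 / 16 ^ m)) :=
              mul_le_mul' le_rfl (h3b_le m _)
          _ = N c * h3b_box m (c - c') + ENNReal.ofReal (1 / 16 ^ m) * N c := by ring
          _ ≤ M * h3b_box m (c - c') + ENNReal.ofReal (1 / 16 ^ m) * N c := by
              gcongr
              exact hM c
    _ = M * ∑' c : ℤ × ℤ, h3b_box m (c - c') + ENNReal.ofReal (1 / 16 ^ m) * ∑' c, N c := by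
        rw [ENNReal.tsum_add, ENNReal.tsum_mul_left, ENNReal.tsum_mul_left]
    _ = M * ∑' c : ℤ × ℤ, h3b_box m c + ENNReal.ofReal (1 / 16 ^ m) * ∑' c, N c := by
        rw [h3b_sub (h3b_box m) c']
    _ ≤ M * ENNReal.ofReal (K * m ^ 2) + ENNReal.ofReal (1 / 16 ^ m) * ∑' c, N c := by
        gcongr
        exact hbox m hm
    _ = ENNReal.ofReal (K * m ^ 2) * M + ENNReal.ofReal (1 / 16 ^ m) * ∑' c, N c := by
        rw [mul_comm M]

theorem weights_cube : ∃ K : ℝ, 0 < K ∧ ∀ m : ℕ, 1 ≤ m → ∀ N : ℤ × ℤ → ℝ≥0∞,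
    ∑' c' : ℤ × ℤ, (∑' c : ℤ × ℤ, N c * ENNReal.ofReal (ww (c - c'))) *
        (∑' c : ℤ × ℤ, N c * ENNReal.ofReal (ww (c - c')) ^ 2) ≤
      ENNReal.ofReal (K * m ^ 2) * ∑' c, N c ^ 2 +
        ENNReal.ofReal (K / 16 ^ m) * (∑' c, N c) ^ 2 := by
  obtain ⟨K, hK, hbox⟩ := sum_ww_box
  set S : ℝ≥0∞ := ∑' n : ℤ × ℤ, ENNReal.ofReal (ww n) ^ 2 with hS
  have hSfin : S ≠ ∞ := sum_ww_sq.ne
  have hSr : ENNReal.ofReal S.toReal = S := ENNReal.ofReal_toReal hSfin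
  have hS0 : 0 ≤ S.toReal := ENNReal.toReal_nonneg
  refine ⟨2 * K * S.toReal + S.toReal + 1, by positivity, fun m hm N => ?_⟩
  have h1 : ∀ c' : ℤ × ℤ, ∑' c : ℤ × ℤ, N c * ENNReal.ofReal (ww (c - c')) =
      ∑' a : ℤ × ℤ, N (a + c') * ENNReal.ofReal (ww a) := by
    intro c'
    rw [← h3b_shift' (fun c => N c * ENNReal.ofReal (ww (c - c'))) c']
    refine tsum_congr fun a => ?_
    simp only [add_sub_cancel_right]
  have h2 : ∀ c' : ℤ × ℤ, ∑' c : ℤ × ℤ, N c * ENNReal.ofReal (ww (c - c')) ^ 2 =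
      ∑' a : ℤ × ℤ, N (a + c') * ENNReal.ofReal (ww a) ^ 2 := by
    intro c'
    rw [← h3b_shift' (fun c => N c * ENNReal.ofReal (ww (c - c')) ^ 2) c']
    refine tsum_congr fun a => ?_
    simp only [add_sub_cancel_right]
  have h3 : ∀ c' : ℤ × ℤ, ∑' a : ℤ × ℤ, N (a + c') * ENNReal.ofReal (ww a) ≤
      ∑' a : ℤ × ℤ, N (a + c') * h3b_box m a + ENNReal.ofReal (1 / 16 ^ m) * ∑' c, N c := by
    intro c'
    rw [← h3b_shift' N c', ← ENNReal.tsum_mul_left, ← ENNReal.tsum_add]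
    refine ENNReal.tsum_le_tsum fun a => ?_
    calc N (a + c') * ENNReal.ofReal (ww a)
        ≤ N (a + c') * (h3b_box m a + ENNReal.ofReal (1 / 16 ^ m)) :=
          mul_le_mul' le_rfl (h3b_le m _)
      _ = N (a + c') * h3b_box m a + ENNReal.ofReal (1 / 16 ^ m) * N (a + c') := by ring
  have h4 : ∑' c' : ℤ × ℤ, ∑' a : ℤ × ℤ, N (a + c') * ENNReal.ofReal (ww a) ^ 2 =
      (∑' c, N c) * S := by
    rw [ENNReal.tsum_comm, hS, ← ENNReal.tsum_mul_left]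
    refine tsum_congr fun a => ?_
    rw [ENNReal.tsum_mul_right, h3b_shift N a]
  have h5 := h3b_conv N (h3b_box m) (fun b => ENNReal.ofReal (ww b) ^ 2)
  have h6 : (∑' a, h3b_box m a) ≤ ENNReal.ofReal (K * m ^ 2) := hbox m hm
  calc ∑' c' : ℤ × ℤ, (∑' c : ℤ × ℤ, N c * ENNReal.ofReal (ww (c - c'))) *
        (∑' c : ℤ × ℤ, N c * ENNReal.ofReal (ww (c - c')) ^ 2)
      = ∑' c' : ℤ × ℤ, (∑' a : ℤ × ℤ, N (a + c') * ENNReal.ofReal (ww a)) *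
        (∑' a : ℤ × ℤ, N (a + c') * ENNReal.ofReal (ww a) ^ 2) :=
        tsum_congr fun c' => by rw [h1, h2]
    _ ≤ ∑' c' : ℤ × ℤ, ((∑' a : ℤ × ℤ, N (a + c') * h3b_box m a) *
          (∑' a : ℤ × ℤ, N (a + c') * ENNReal.ofReal (ww a) ^ 2) +
          (ENNReal.ofReal (1 / 16 ^ m) * ∑' c, N c) *
          (∑' a : ℤ × ℤ, N (a + c') * ENNReal.ofReal (ww a) ^ 2)) := by
        refine ENNReal.tsum_le_tsum fun c' => ?_
        rw [← add_mul]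
        exact mul_le_mul' (h3 c') le_rfl
    _ = ∑' c' : ℤ × ℤ, (∑' a : ℤ × ℤ, N (a + c') * h3b_box m a) *
          (∑' a : ℤ × ℤ, N (a + c') * ENNReal.ofReal (ww a) ^ 2) +
          (ENNReal.ofReal (1 / 16 ^ m) * ∑' c, N c) * ((∑' c, N c) * S) := by
        rw [ENNReal.tsum_add, ENNReal.tsum_mul_left, h4]
    _ ≤ (ENNReal.ofReal (K * m ^ 2) * S) * (2 * ∑' c, N c ^ 2) +
          (ENNReal.ofReal (1 / 16 ^ m) * ∑' c, N c) * ((∑' c, N c) * S) := by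
        refine add_le_add (h5.trans ?_) le_rfl
        exact mul_le_mul' (mul_le_mul' h6 le_rfl) le_rfl
    _ = ENNReal.ofReal (2 * K * S.toReal * m ^ 2) * ∑' c, N c ^ 2 +
          ENNReal.ofReal (S.toReal / 16 ^ m) * (∑' c, N c) ^ 2 := by
        have e1 : ENNReal.ofReal (2 * K * S.toReal * m ^ 2) =
            2 * (ENNReal.ofReal (K * m ^ 2) * S) := by
          rw [show 2 * K * S.toReal * m ^ 2 = 2 * ((K * m ^ 2) * S.toReal) by ring,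
            ENNReal.ofReal_mul (by norm_num), ENNReal.ofReal_mul (by positivity), hSr,
            ENNReal.ofReal_ofNat]
        have e2 : ENNReal.ofReal (S.toReal / 16 ^ m) = ENNReal.ofReal (1 / 16 ^ m) * S := by
          rw [show S.toReal / 16 ^ m = (1 / 16 ^ m) * S.toReal by ring,
            ENNReal.ofReal_mul (by positivity), hSr]
        rw [e1, e2]
        ring
    _ ≤ ENNReal.ofReal ((2 * K * S.toReal + S.toReal + 1) * m ^ 2) * ∑' c, N c ^ 2 +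
          ENNReal.ofReal ((2 * K * S.toReal + S.toReal + 1) / 16 ^ m) * (∑' c, N c) ^ 2 := by
        refine add_le_add (mul_le_mul' (ENNReal.ofReal_le_ofReal ?_) le_rfl)
          (mul_le_mul' (ENNReal.ofReal_le_ofReal ?_) le_rfl)
        · have h7 : (0 : ℝ) ≤ (m : ℝ) ^ 2 := by positivity
          nlinarith
        · have h8 : 0 ≤ 2 * K * S.toReal := by positivity
          gcongr
          linarith

end Pool.Agent.PPH
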