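import Pool.Agent.PPH.C2a
import Pool.Agent.PPH.C2h
import Pool.Agent.PPH.H2d
import Pool.Agent.PPH.H3b
import Pool.Agent.PPH.H4a

/-!
ROW H4b (1 h). One level m ≥ 3. N cc := ofReal (NN D (qt c t) m cc) ≤ volume (Mu D C3 (qt c t) m cc) ≤ K/2^m (NN_le_Mu, count), ∑' N = volume (Om) ≤ 1/4 ≤ 1 (tsum_NN, Om_subset, BB0_subset, volume_BB).
`um_sup`: uI_pointwise and weights_sup (M = ofReal (K/2^m)): ‖u_m‖ ≤ K A (K' m² K/2^m + 16^(-m)) ≤ K'' A m²/2^m.
`um_cube` (fixed t): the cells {x | cell m x = c'}, c' ∈ ℤ², are measurable, disjoint and cover ℝ²: ∫⁻ x, ‖u_m‖³ = ∑'_{c'} ∫⁻ x in cell c', ‖u_m‖ ‖u_m‖² ≤ ∑'_{c'} (K A ∑' N W(c - c')) (K A² ∑' N W(c-c')²)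
 (uI_pointwise: the bound is constant on the cell; uI_local) ≤ K A³ (K m² ∑' N² + K 16^(-m) (∑' N)²) (weights_cube), and (∑' N)² ≤ ∑' N = volume Om.
`um_cube_t`: integrate in t: ∑' N² ≤ ∑' volume(Mu)², `count`, `om_t` (K 16^(-m) K 4^m ≤ K'): ≤ ofReal (K A³ m⁴) (lintegral_add_right with the measurable function volume Om: measurable_vol_Om; lintegral_const_mul' with finite constants).
-/

namespace Pool.Agent.PPH

open MeasureTheory Set MvPolynomial
open scoped ENNReal Real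

lemma h4b_tsum_le_one (D : ℕ) (q : RR) (m : ℕ) (hm : 2 ≤ m) :
    ∑' cc : ℤ × ℤ, ENNReal.ofReal (NN D q m cc) ≤ 1 := by
  rw [tsum_NN D q m hm]
  calc volume (Om D q m) ≤ volume BB := measure_mono ((Om_subset D q hm).trans BB0_subset)
    _ = ENNReal.ofReal (1 / 4) := volume_BB
    _ ≤ 1 := by
      rw [← ENNReal.ofReal_one]
      exact ENNReal.ofReal_le_ofReal (by norm_num)

lemma h4b_measurable_cell (m : ℕ) : Measurable (cell m) := by
  unfold cell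
  exact ((measurable_fst.div_const _).floor).prodMk ((measurable_snd.div_const _).floor)

lemma h4b_cells (m : ℕ) (f : ℝ × ℝ → ℝ≥0∞) :
    ∫⁻ x, f x = ∑' c' : ℤ × ℤ, ∫⁻ x in {x : ℝ × ℝ | cell m x = c'}, f x := by
  have h1 : ∀ c' : ℤ × ℤ, MeasurableSet {x : ℝ × ℝ | cell m x = c'} := fun c' =>
    h4b_measurable_cell m (measurableSet_singleton c')
  have h2 : Pairwise (Function.onFun Disjoint fun c' : ℤ × ℤ => {x : ℝ × ℝ | cell m x = c'}) := by
    intro i j hij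
    rw [Function.onFun, Set.disjoint_left]
    intro x hx hx'
    exact hij (hx.symm.trans hx')
  rw [← lintegral_iUnion h1 h2]
  have h3 : (⋃ c' : ℤ × ℤ, {x : ℝ × ℝ | cell m x = c'}) = univ := by
    ext x
    simp
  rw [h3, Measure.restrict_univ]

lemma h4b_pow3 (u : ℝ≥0∞) : u ^ (3:ℝ) = u * u ^ (2:ℝ) := by
  have h3 : u ^ (3:ℝ) = u ^ (3:ℕ) := by
    rw [← ENNReal.rpow_natCast]
    norm_num
  have h2 : u ^ (2:ℝ) = u ^ (2:ℕ) := by
    rw [← ENNReal.rpow_natCast]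
    norm_num
  rw [h3, h2]
  ring

lemma h4b_one_le (m : ℕ) (hm : 3 ≤ m) : (1:ℝ) ≤ m := by
  have : (3:ℝ) ≤ m := by exact_mod_cast hm
  linarith

lemma h4b_16 (m : ℕ) (hm : 3 ≤ m) : (1:ℝ) / 16 ^ m ≤ m ^ 2 / 2 ^ m := by
  have h1 := h4b_one_le m hm
  have h2 : (2:ℝ) ^ m ≤ 16 ^ m := pow_le_pow_left₀ (by norm_num) (by norm_num) m
  have h3 : (1:ℝ) ≤ m ^ 2 := one_le_pow₀ h1
  have h4 : (0:ℝ) < 2 ^ m := by positivity
  exact div_le_div₀ (by positivity) h3 h4 h2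

/-- the cubic bound at a fixed time -/
lemma h4b_cube (D : ℕ) : ∃ K : ℝ, 0 < K ∧ ∀ (c : Cf D) (t A : ℝ) (al : RR) (m : ℕ), 2 ≤ m →
    0 ≤ A → Amp A al →
    ∫⁻ x : ℝ × ℝ, ‖uI (Om D (qt c t) m) al (qt c t) x‖ₑ ^ (3:ℝ) ≤
      ENNReal.ofReal (K * A ^ 3) * (ENNReal.ofReal (K * m ^ 2) *
        ∑' cc : ℤ × ℤ, ENNReal.ofReal (NN D (qt c t) m cc) ^ 2 +
        ENNReal.ofReal (K / 16 ^ m) * volume (Om D (qt c t) m)) := by
  obtain ⟨Kp, hKp, hpt⟩ := uI_pointwise D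
  obtain ⟨Kl, hKl, hloc⟩ := uI_local D
  obtain ⟨Kv, hKv, hwc⟩ := weights_cube
  refine ⟨Kp * Kl + Kv, by positivity, fun c t A al m hm hA hal => ?_⟩
  set N : ℤ × ℤ → ℝ≥0∞ := fun cc => ENNReal.ofReal (NN D (qt c t) m cc) with hN
  set u : ℝ × ℝ → ℝ≥0∞ := fun x => ‖uI (Om D (qt c t) m) al (qt c t) x‖ₑ with hu
  set S1 : ℤ × ℤ → ℝ≥0∞ := fun c' => ∑' cc : ℤ × ℤ, N cc * ENNReal.ofReal (ww (cc - c')) with hS1
  set S2 : ℤ × ℤ → ℝ≥0∞ := fun c' => ∑' cc : ℤ × ℤ, N cc * ENNReal.ofReal (ww (cc - c')) ^ 2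
    with hS2
  have hcell : ∀ c' : ℤ × ℤ, ∫⁻ x in {x : ℝ × ℝ | cell m x = c'}, u x ^ (3:ℝ) ≤
      ENNReal.ofReal (Kp * Kl * A ^ 3) * (S1 c' * S2 c') := by
    intro c'
    have hms : MeasurableSet {x : ℝ × ℝ | cell m x = c'} :=
      h4b_measurable_cell m (measurableSet_singleton c')
    by_cases hfin : ENNReal.ofReal (Kp * A) * S1 c' = ∞
    · -- impossible, the sum is finite
      exfalso
      have h1 : S1 c' ≤ ∑' cc, N cc := by
        apply ENNReal.tsum_le_tsum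
        intro cc
        have hw : ENNReal.ofReal (ww (cc - c')) ≤ 1 := by
          rw [← ENNReal.ofReal_one]
          apply ENNReal.ofReal_le_ofReal
          unfold ww
          rw [div_le_one (by positivity)]
          have a1 : (1:ℝ) ≤ 1 + |(((cc - c').1 : ℤ) : ℝ)| := by
            have := abs_nonneg (((cc - c').1 : ℤ) : ℝ)
            linarith
          have a2 : (1:ℝ) ≤ 1 + |(((cc - c').2 : ℤ) : ℝ)| := by
            have := abs_nonneg (((cc - c').2 : ℤ) : ℝ)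
            linarith
          nlinarith
        calc N cc * ENNReal.ofReal (ww (cc - c')) ≤ N cc * 1 := by gcongr
          _ = N cc := mul_one _
      have h2 : S1 c' ≤ 1 := h1.trans (h4b_tsum_le_one D (qt c t) m hm)
      have h3 : S1 c' ≠ ∞ := (h2.trans_lt ENNReal.one_lt_top).ne
      exact ENNReal.mul_ne_top ENNReal.ofReal_ne_top h3 hfin
    · calc ∫⁻ x in {x : ℝ × ℝ | cell m x = c'}, u x ^ (3:ℝ)
          ≤ ∫⁻ x in {x : ℝ × ℝ | cell m x = c'}, (ENNReal.ofReal (Kp * A) * S1 c') * u x ^ (2:ℝ) := by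
            apply setLIntegral_mono' hms
            intro x hx
            rw [h4b_pow3]
            have h := hpt c t A al m hm hA hal x
            have hx' : cell m x = c' := hx
            rw [hx'] at h
            gcongr
        _ = (ENNReal.ofReal (Kp * A) * S1 c') * ∫⁻ x in {x : ℝ × ℝ | cell m x = c'}, u x ^ (2:ℝ) :=
            lintegral_const_mul' _ _ hfin
        _ ≤ (ENNReal.ofReal (Kp * A) * S1 c') * (ENNReal.ofReal (Kl * A ^ 2) * S2 c') := by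
            exact mul_le_mul' le_rfl (hloc c t A al m hm hA hal c')
        _ = ENNReal.ofReal (Kp * Kl * A ^ 3) * (S1 c' * S2 c') := by
            have e : Kp * Kl * A ^ 3 = (Kp * A) * (Kl * A ^ 2) := by ring
            have e2 : ENNReal.ofReal ((Kp * A) * (Kl * A ^ 2)) =
                ENNReal.ofReal (Kp * A) * ENNReal.ofReal (Kl * A ^ 2) :=
              ENNReal.ofReal_mul (by positivity)
            rw [e, e2]
            ring
  have hsum : ∑' c' : ℤ × ℤ, S1 c' * S2 c' ≤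
      ENNReal.ofReal (Kv * m ^ 2) * ∑' cc, N cc ^ 2 + ENNReal.ofReal (Kv / 16 ^ m) * (∑' cc, N cc) ^ 2 :=
    hwc m (by omega) N
  have hsq : (∑' cc, N cc) ^ 2 ≤ volume (Om D (qt c t) m) := by
    have h1 := h4b_tsum_le_one D (qt c t) m hm
    have h2 := tsum_NN D (qt c t) m hm
    rw [← h2]
    calc (∑' cc, N cc) ^ 2 = (∑' cc, N cc) * (∑' cc, N cc) := pow_two _
      _ ≤ (∑' cc, N cc) * 1 := by
        gcongr
      _ = _ := mul_one _
  calc ∫⁻ x, u x ^ (3:ℝ) = ∑' c' : ℤ × ℤ, ∫⁻ x in {x : ℝ × ℝ | cell m x = c'}, u x ^ (3:ℝ) :=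
        h4b_cells m _
    _ ≤ ∑' c' : ℤ × ℤ, ENNReal.ofReal (Kp * Kl * A ^ 3) * (S1 c' * S2 c') :=
        ENNReal.tsum_le_tsum hcell
    _ = ENNReal.ofReal (Kp * Kl * A ^ 3) * ∑' c' : ℤ × ℤ, S1 c' * S2 c' := ENNReal.tsum_mul_left
    _ ≤ ENNReal.ofReal ((Kp * Kl + Kv) * A ^ 3) * (ENNReal.ofReal ((Kp * Kl + Kv) * m ^ 2) *
        ∑' cc, N cc ^ 2 + ENNReal.ofReal ((Kp * Kl + Kv) / 16 ^ m) * volume (Om D (qt c t) m)) := by
        have k0 : 0 ≤ A ^ 3 := by positivity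
        have k1 : Kp * Kl * A ^ 3 ≤ (Kp * Kl + Kv) * A ^ 3 := by nlinarith
        have hpl : 0 < Kp * Kl := by positivity
        have k2 : Kv * (m:ℝ) ^ 2 ≤ (Kp * Kl + Kv) * (m:ℝ) ^ 2 := by
          have : (0:ℝ) ≤ (m:ℝ) ^ 2 := by positivity
          nlinarith
        have k3 : Kv / 16 ^ m ≤ (Kp * Kl + Kv) / 16 ^ m := by
          apply div_le_div_of_nonneg_right _ (by positivity)
          linarith
        apply mul_le_mul' (ENNReal.ofReal_le_ofReal k1)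
        refine hsum.trans ?_
        apply add_le_add
        · exact mul_le_mul' (ENNReal.ofReal_le_ofReal k2) le_rfl
        · exact mul_le_mul' (ENNReal.ofReal_le_ofReal k3) hsq

theorem um_sup (D : ℕ) : ∃ K : ℝ, 0 < K ∧ ∀ (c : Cf D) (t A : ℝ) (al : RR) (m : ℕ), 3 ≤ m →
    0 ≤ A → Amp A al → ∀ x : ℝ × ℝ, ‖uI (Om D (qt c t) m) al (qt c t) x‖ₑ ≤
      ENNReal.ofReal (K * A * (m ^ 2 / 2 ^ m)) := by
  obtain ⟨C3, hC3, hNN⟩ := NN_le_Mu D
  obtain ⟨Kc, hKc, hcount⟩ := count D C3 hC3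
  obtain ⟨Kp, hKp, hpt⟩ := uI_pointwise D
  obtain ⟨Kw, hKw, hws⟩ := weights_sup
  refine ⟨Kp * (Kw * Kc + 1), by positivity, fun c t A al m hm hA hal x => ?_⟩
  have hN : ∀ cc : ℤ × ℤ, ENNReal.ofReal (NN D (qt c t) m cc) ≤ ENNReal.ofReal (Kc / 2 ^ m) :=
    fun cc => (hNN c t m (by omega) cc).trans ((hcount c m hm).1 t cc)
  have h1 := hws m (by omega) (fun cc => ENNReal.ofReal (NN D (qt c t) m cc)) _ hN (cell m x)
  have h2 := h4b_tsum_le_one D (qt c t) m (by omega)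
  have hb := h4b_16 m hm
  calc ‖uI (Om D (qt c t) m) al (qt c t) x‖ₑ
      ≤ ENNReal.ofReal (Kp * A) * ∑' cc : ℤ × ℤ, ENNReal.ofReal (NN D (qt c t) m cc) *
        ENNReal.ofReal (ww (cc - cell m x)) := hpt c t A al m (by omega) hA hal x
    _ ≤ ENNReal.ofReal (Kp * A) * (ENNReal.ofReal (Kw * m ^ 2) * ENNReal.ofReal (Kc / 2 ^ m) +
        ENNReal.ofReal (1 / 16 ^ m) * 1) := by
        apply mul_le_mul' le_rfl
        exact h1.trans (add_le_add le_rfl (mul_le_mul' le_rfl h2))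
    _ = ENNReal.ofReal (Kp * A * (Kw * m ^ 2 * (Kc / 2 ^ m) + 1 / 16 ^ m)) := by
        rw [mul_one, ← ENNReal.ofReal_mul (by positivity), ← ENNReal.ofReal_add (by positivity)
          (by positivity), ← ENNReal.ofReal_mul (by positivity)]
    _ ≤ ENNReal.ofReal (Kp * (Kw * Kc + 1) * A * (m ^ 2 / 2 ^ m)) := by
        apply ENNReal.ofReal_le_ofReal
        have e : Kp * (Kw * Kc + 1) * A * ((m:ℝ) ^ 2 / 2 ^ m) =
            Kp * A * (Kw * m ^ 2 * (Kc / 2 ^ m) + m ^ 2 / 2 ^ m) := by ring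
        rw [e]
        apply mul_le_mul_of_nonneg_left _ (by positivity)
        linarith

theorem um_cube_t (D : ℕ) : ∃ K : ℝ, 0 < K ∧ ∀ (c : Cf D) (A : ℝ) (al : RR) (m : ℕ), 3 ≤ m →
    0 ≤ A → Amp A al →
    ∫⁻ t, ∫⁻ x : ℝ × ℝ, ‖uI (Om D (qt c t) m) al (qt c t) x‖ₑ ^ (3:ℝ) ≤
      ENNReal.ofReal (K * A ^ 3 * m ^ 4) := by
  obtain ⟨C3, hC3, hNN⟩ := NN_le_Mu D
  obtain ⟨Kc, hKc, hcount⟩ := count D C3 hC3
  obtain ⟨Ko, hKo, hom⟩ := om_t D
  obtain ⟨K, hK, hcube⟩ := h4b_cube D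
  refine ⟨K * (K * Kc + K * Ko), by positivity, fun c A al m hm hA hal => ?_⟩
  have h1m := h4b_one_le m hm
  calc ∫⁻ t, ∫⁻ x : ℝ × ℝ, ‖uI (Om D (qt c t) m) al (qt c t) x‖ₑ ^ (3:ℝ)
      ≤ ∫⁻ t, ENNReal.ofReal (K * A ^ 3) * (ENNReal.ofReal (K * m ^ 2) *
        ∑' cc : ℤ × ℤ, volume (Mu D C3 (qt c t) m cc) ^ 2 +
        ENNReal.ofReal (K / 16 ^ m) * volume (Om D (qt c t) m)) := by
        apply lintegral_mono
        intro t
        refine (hcube c t A al m (by omega) hA hal).trans ?_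
        apply mul_le_mul' le_rfl
        apply add_le_add _ le_rfl
        apply mul_le_mul' le_rfl
        apply ENNReal.tsum_le_tsum
        intro cc
        exact pow_le_pow_left' (hNN c t m (by omega) cc) 2
    _ = ENNReal.ofReal (K * A ^ 3) * (ENNReal.ofReal (K * m ^ 2) *
        (∫⁻ t, ∑' cc : ℤ × ℤ, volume (Mu D C3 (qt c t) m cc) ^ 2) +
        ENNReal.ofReal (K / 16 ^ m) * ∫⁻ t, volume (Om D (qt c t) m)) := by
        rw [lintegral_const_mul' _ _ ENNReal.ofReal_ne_top,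
          lintegral_add_right _ ((measurable_vol_Om D c m).const_mul _),
          lintegral_const_mul' _ _ ENNReal.ofReal_ne_top,
          lintegral_const_mul' _ _ ENNReal.ofReal_ne_top]
    _ ≤ ENNReal.ofReal (K * A ^ 3) * (ENNReal.ofReal (K * m ^ 2) * ENNReal.ofReal (Kc * m ^ 2) +
        ENNReal.ofReal (K / 16 ^ m) * ENNReal.ofReal (Ko * 4 ^ m)) := by
        apply mul_le_mul' le_rfl
        exact add_le_add (mul_le_mul' le_rfl (hcount c m hm).2)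
          (mul_le_mul' le_rfl (hom c m (by omega)))
    _ = ENNReal.ofReal (K * A ^ 3 * (K * m ^ 2 * (Kc * m ^ 2) + K / 16 ^ m * (Ko * 4 ^ m))) := by
        rw [← ENNReal.ofReal_mul (by positivity), ← ENNReal.ofReal_mul (by positivity),
          ← ENNReal.ofReal_add (by positivity) (by positivity), ← ENNReal.ofReal_mul (by positivity)]
    _ ≤ ENNReal.ofReal (K * (K * Kc + K * Ko) * A ^ 3 * m ^ 4) := by
        apply ENNReal.ofReal_le_ofReal
        have h4 : (4:ℝ) ^ m ≤ 16 ^ m := pow_le_pow_left₀ (by norm_num) (by norm_num) m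
        have h5 : (1:ℝ) ≤ m ^ 4 := one_le_pow₀ h1m
        have h6 : K / 16 ^ m * (Ko * 4 ^ m) ≤ K * Ko * (m:ℝ) ^ 4 := by
          have e1 : K / 16 ^ m * (Ko * 4 ^ m) = K * Ko * (4 ^ m / 16 ^ m) := by ring
          rw [e1]
          apply mul_le_mul_of_nonneg_left _ (by positivity)
          have : (4:ℝ) ^ m / 16 ^ m ≤ 1 := by
            rw [div_le_one (by positivity)]
            exact h4
          linarith
        have e : K * (K * Kc + K * Ko) * A ^ 3 * (m:ℝ) ^ 4 =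
            K * A ^ 3 * (K * m ^ 2 * (Kc * m ^ 2) + K * Ko * m ^ 4) := by ring
        rw [e]
        apply mul_le_mul_of_nonneg_left _ (by positivity)
        linarith

end Pool.Agent.PPH
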