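import Pool.Agent.PPH.C2a
import Pool.Agent.PPH.H2a
import Pool.Agent.PPH.H4a

/-!
ROW H4c (0.6 h). The level m = 2. |u_2| ≤ ∫_{Om} |ev al| ≤ A volume BB ≤ A. bes2 with G = indicator Om (ev al y exp(i ev q y)): ∫⁻ x ‖u_2‖² ≤ (2π)² ∫⁻_{Om} |ev al|² ≤ (2π)² A² volume (Om D (qt c t) 2), and om_t with m = 2:
 ∫⁻ t ∫⁻ x ‖u_2‖² ≤ K A². Then ‖u‖^p ≤ A^(p-2) ‖u‖² (p ≥ 2).
-/

namespace Pool.Agent.PPH

open MeasureTheory Set MvPolynomial
open scoped ENNReal Real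

theorem h4c_norm (al q : RR) (x y : ℝ × ℝ) : ‖am al q x y‖ = |ev al y| := by
  unfold am
  rw [norm_mul, Complex.norm_exp_ofReal_mul_I, mul_one, Complex.norm_real, Real.norm_eq_abs]

theorem h4c_enorm (al q : RR) (x y : ℝ × ℝ) : ‖am al q x y‖ₑ = ENNReal.ofReal |ev al y| := by
  rw [← ofReal_norm, h4c_norm]

theorem h4c_split (al q : RR) (x y : ℝ × ℝ) :
    am al q (0, 0) y * Complex.exp (((-(x.1 * y.1 + x.2 * y.2) : ℝ) : ℂ) * Complex.I) =
      am al q x y := by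
  unfold am
  rw [mul_assoc, ← Complex.exp_add, ← add_mul, ← Complex.ofReal_add]
  congr 4
  ring

/-- pointwise bound -/
theorem h4c_sup (A : ℝ) (hA : 0 ≤ A) (al q : RR) (hAl : Amp A al) (E : Set (ℝ × ℝ)) (hE : E ⊆ BB)
    (hEm : MeasurableSet E) (x : ℝ × ℝ) : ‖uI E al q x‖ₑ ≤ ENNReal.ofReal A := by
  unfold uI
  calc ‖∫ y in E, am al q x y‖ₑ ≤ ∫⁻ y in E, ‖am al q x y‖ₑ := enorm_integral_le_lintegral_enorm _
    _ ≤ ∫⁻ _ in E, ENNReal.ofReal A := by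
        refine setLIntegral_mono' hEm fun y hy => ?_
        rw [h4c_enorm]
        have h1 := hAl 0 0 (by norm_num) (by norm_num) y (hE hy)
        rw [DD_zero] at h1
        exact ENNReal.ofReal_le_ofReal h1
    _ = ENNReal.ofReal A * volume E := setLIntegral_const _ _
    _ ≤ ENNReal.ofReal A * volume BB := mul_le_mul' le_rfl (measure_mono hE)
    _ ≤ ENNReal.ofReal A * 1 := by
        refine mul_le_mul' le_rfl ?_
        rw [volume_BB, ← ENNReal.ofReal_one]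
        exact ENNReal.ofReal_le_ofReal (by norm_num)
    _ = ENNReal.ofReal A := mul_one _

/-- `L²` bound -/
theorem h4c_L2 (A : ℝ) (hA : 0 ≤ A) (al q : RR) (hAl : Amp A al) (E : Set (ℝ × ℝ)) (hE : E ⊆ BB)
    (hEm : MeasurableSet E) : ∫⁻ x : ℝ × ℝ, ‖uI E al q x‖ₑ ^ (2:ℝ) ≤
      ENNReal.ofReal ((2 * π) ^ 2) * (ENNReal.ofReal A ^ (2:ℝ) * volume E) := by
  have hG : Integrable (E.indicator fun y => am al q (0, 0) y) := by
    rw [integrable_indicator_iff hEm]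
    exact (integrableOn_am al q (0, 0)).mono_set hE
  have h1 := bes2 _ hG
  have h2 : ∀ x : ℝ × ℝ, ∫ y, (E.indicator fun y => am al q (0, 0) y) y *
      Complex.exp (((-(x.1 * y.1 + x.2 * y.2) : ℝ) : ℂ) * Complex.I) = uI E al q x := by
    intro x
    unfold uI
    rw [← integral_indicator hEm]
    refine integral_congr_ae (Filter.Eventually.of_forall fun y => ?_)
    by_cases hy : y ∈ E
    · simp only [Set.indicator_of_mem hy]
      exact h4c_split al q x y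
    · simp only [Set.indicator_of_notMem hy, zero_mul]
  simp only [h2] at h1
  refine h1.trans (mul_le_mul' le_rfl ?_)
  have h3 : ∀ y : ℝ × ℝ, ‖(E.indicator fun y => am al q (0, 0) y) y‖ₑ ^ (2:ℝ) ≤
      E.indicator (fun _ => ENNReal.ofReal A ^ (2:ℝ)) y := by
    intro y
    by_cases hy : y ∈ E
    · rw [Set.indicator_of_mem hy, Set.indicator_of_mem hy, h4c_enorm]
      have h4 := hAl 0 0 (by norm_num) (by norm_num) y (hE hy)
      rw [DD_zero] at h4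
      exact ENNReal.rpow_le_rpow (ENNReal.ofReal_le_ofReal h4) (by norm_num)
    · rw [Set.indicator_of_notMem hy, Set.indicator_of_notMem hy, enorm_zero,
        ENNReal.zero_rpow_of_pos (by norm_num)]
  calc ∫⁻ y, ‖(E.indicator fun y => am al q (0, 0) y) y‖ₑ ^ (2:ℝ)
      ≤ ∫⁻ y, E.indicator (fun _ => ENNReal.ofReal A ^ (2:ℝ)) y := lintegral_mono h3
    _ = ENNReal.ofReal A ^ (2:ℝ) * volume E := by
        rw [lintegral_indicator hEm, setLIntegral_const]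

theorem u2_bound (D : ℕ) (A p : ℝ) (hA : 0 ≤ A) (hp : 2 ≤ p) : ∃ K : ℝ, 0 < K ∧
    ∀ (c : Cf D) (al : RR), Amp A al →
    ∫⁻ t, ∫⁻ x : ℝ × ℝ, ‖uI (Om D (qt c t) 2) al (qt c t) x‖ₑ ^ p ≤ ENNReal.ofReal K := by
  obtain ⟨K0, hK0, hom⟩ := om_t D
  set Cst : ℝ≥0∞ := ENNReal.ofReal A ^ (p - 2) * (ENNReal.ofReal ((2 * π) ^ 2) *
    (ENNReal.ofReal A ^ (2:ℝ) * ENNReal.ofReal (K0 * 4 ^ 2))) with hC
  have h1 : ENNReal.ofReal A ^ (p - 2) ≠ ∞ :=
    ENNReal.rpow_ne_top_of_nonneg (by linarith) ENNReal.ofReal_ne_top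
  have h2 : ENNReal.ofReal A ^ (2:ℝ) ≠ ∞ :=
    ENNReal.rpow_ne_top_of_nonneg (by norm_num) ENNReal.ofReal_ne_top
  have hCfin : Cst ≠ ∞ := by
    rw [hC]
    exact ENNReal.mul_ne_top h1 (ENNReal.mul_ne_top ENNReal.ofReal_ne_top
      (ENNReal.mul_ne_top h2 ENNReal.ofReal_ne_top))
  refine ⟨Cst.toReal + 1, by positivity, fun c al hAl => ?_⟩
  have h3 : ∀ t : ℝ, ∫⁻ x : ℝ × ℝ, ‖uI (Om D (qt c t) 2) al (qt c t) x‖ₑ ^ p ≤
      ENNReal.ofReal A ^ (p - 2) * (ENNReal.ofReal ((2 * π) ^ 2) *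
        (ENNReal.ofReal A ^ (2:ℝ) * volume (Om D (qt c t) 2))) := by
    intro t
    have hE : Om D (qt c t) 2 ⊆ BB := (Om_subset D (qt c t) le_rfl).trans BB0_subset
    have hEm := measurableSet_Om D (qt c t) 2
    calc ∫⁻ x : ℝ × ℝ, ‖uI (Om D (qt c t) 2) al (qt c t) x‖ₑ ^ p
        ≤ ∫⁻ x : ℝ × ℝ, ENNReal.ofReal A ^ (p - 2) *
            ‖uI (Om D (qt c t) 2) al (qt c t) x‖ₑ ^ (2:ℝ) := by
          refine lintegral_mono fun x => ?_
          have h4 : ‖uI (Om D (qt c t) 2) al (qt c t) x‖ₑ ^ p =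
              ‖uI (Om D (qt c t) 2) al (qt c t) x‖ₑ ^ (p - 2) *
                ‖uI (Om D (qt c t) 2) al (qt c t) x‖ₑ ^ (2:ℝ) := by
            rw [← ENNReal.rpow_add_of_nonneg _ _ (by linarith) (by norm_num)]
            congr 1
            ring
          show ‖uI (Om D (qt c t) 2) al (qt c t) x‖ₑ ^ p ≤ _
          rw [h4]
          exact mul_le_mul' (ENNReal.rpow_le_rpow (h4c_sup A hA al _ hAl _ hE hEm x)
            (by linarith)) le_rfl
      _ = ENNReal.ofReal A ^ (p - 2) *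
            ∫⁻ x : ℝ × ℝ, ‖uI (Om D (qt c t) 2) al (qt c t) x‖ₑ ^ (2:ℝ) :=
          lintegral_const_mul' _ _ h1
      _ ≤ _ := mul_le_mul' le_rfl (h4c_L2 A hA al _ hAl _ hE hEm)
  calc ∫⁻ t, ∫⁻ x : ℝ × ℝ, ‖uI (Om D (qt c t) 2) al (qt c t) x‖ₑ ^ p
      ≤ ∫⁻ t, ENNReal.ofReal A ^ (p - 2) * (ENNReal.ofReal ((2 * π) ^ 2) *
        (ENNReal.ofReal A ^ (2:ℝ) * volume (Om D (qt c t) 2))) := lintegral_mono h3
    _ = ENNReal.ofReal A ^ (p - 2) * (ENNReal.ofReal ((2 * π) ^ 2) *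
        (ENNReal.ofReal A ^ (2:ℝ) * ∫⁻ t, volume (Om D (qt c t) 2))) := by
        rw [lintegral_const_mul' _ _ h1, lintegral_const_mul' _ _ ENNReal.ofReal_ne_top,
          lintegral_const_mul' _ _ h2]
    _ ≤ Cst := by
        rw [hC]
        exact mul_le_mul' le_rfl (mul_le_mul' le_rfl (mul_le_mul' le_rfl (hom c 2 le_rfl)))
    _ = ENNReal.ofReal Cst.toReal := (ENNReal.ofReal_toReal hCfin).symm
    _ ≤ ENNReal.ofReal (Cst.toReal + 1) := ENNReal.ofReal_le_ofReal (by linarith)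

end Pool.Agent.PPH
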