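import Mathlib

/-!
ROW H4d (0.6 h). Pure measure theory: a weighted sum of functions whose L^p norms decay. For a sequence of measurable functions f m : Z → ℝ≥0∞ with ∫⁻ (f m)^p ≤ B m and weights: with lam = (1/2)^ε,
 ε = (p-3)/(2(p-1)) > 0: (Σ' f m)^p ≤ (Σ' lam^m)^(p-1) Σ' lam^(-(p-1) m) (f m)^p (Hoelder for tsum; see origin/main:Pool/Agent/MP_6cbfb8_an/Planar.lean `tsum_rpow_le`), and
 lam^(-(p-1)m) = 2^(m(p-3)/2). With B m = K (m²/2^m)^(p-3) m⁴ (for m ≥ 3, B m arbitrary finite for m < 3): Σ' 2^(m(p-3)/2) B m ≤ K Σ' m^(2(p-3)+4) 2^(-m(p-3)/2) < ∞.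
-/

namespace Pool.Agent.PPH

open MeasureTheory Set
open scoped ENNReal Real

theorem h4d_tsum_rpow_le (a w : ℕ → ℝ≥0∞) (hw0 : ∀ k, w k ≠ 0) (hwt : ∀ k, w k ≠ ∞) {t : ℝ}
    (ht : 0 < t) :
    (∑' k, a k) ^ t ≤ (∑' k, w k) ^ t * ∑' k, a k ^ t / w k ^ t := by
  set S := ∑' k, a k ^ t / w k ^ t with hS
  have h1 : ∀ k, a k ≤ w k * S ^ (1 / t) := by
    intro k
    have h2 : (a k / w k) ^ t ≤ S := by
      rw [ENNReal.div_rpow_of_nonneg _ _ ht.le]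
      exact ENNReal.le_tsum k
    have h3 : a k / w k ≤ S ^ (1 / t) := by
      rw [one_div]
      exact (ENNReal.le_rpow_inv_iff ht).2 h2
    calc a k = w k * (a k / w k) := (ENNReal.mul_div_cancel (hw0 k) (hwt k)).symm
      _ ≤ _ := by gcongr
  calc (∑' k, a k) ^ t ≤ (∑' k, w k * S ^ (1 / t)) ^ t := by
        gcongr with k
        exact h1 k
    _ = ((∑' k, w k) * S ^ (1 / t)) ^ t := by rw [ENNReal.tsum_mul_right]
    _ = (∑' k, w k) ^ t * S := by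
        rw [ENNReal.mul_rpow_of_nonneg _ _ ht.le, ← ENNReal.rpow_mul, one_div,
          inv_mul_cancel₀ ht.ne', ENNReal.rpow_one]

theorem h4d_pow_rpow {x : ℝ} (hx : 0 ≤ x) (k : ℕ) (t : ℝ) : (x ^ k) ^ t = (x ^ t) ^ k := by
  rw [← Real.rpow_natCast, ← Real.rpow_natCast, ← Real.rpow_mul hx, ← Real.rpow_mul hx, mul_comm]

theorem h4d_term {p : ℝ} (hp : 3 < p) {σ : ℝ} (hσ0 : 0 < σ) (hσ1 : σ < 1)
    (hσσ : ((1:ℝ) / 2) ^ (p - 3) = σ * σ) {N : ℕ} (hN : 2 * (p - 3) ≤ N) (m : ℕ) :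
    (((m : ℝ) + 2) ^ 2 / 2 ^ (m + 2)) ^ (p - 3) * ((m : ℝ) + 2) ^ 4 ≤
      (((m : ℝ) + 2) ^ (N + 4) * σ ^ (m + 2)) * σ ^ m := by
  obtain ⟨x, hx⟩ : ∃ x : ℝ, x = (m : ℝ) + 2 := ⟨_, rfl⟩
  rw [← hx]
  have hx1 : 1 ≤ x := by
    have : (0 : ℝ) ≤ m := Nat.cast_nonneg m
    linarith
  have hx0 : 0 < x := by linarith
  have h1 : (x ^ 2 / 2 ^ (m + 2)) ^ (p - 3) = (x ^ 2) ^ (p - 3) * (σ * σ) ^ (m + 2) := by
    have h2 : x ^ 2 / 2 ^ (m + 2) = x ^ 2 * ((1 : ℝ) / 2) ^ (m + 2) := by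
      rw [one_div, inv_pow, div_eq_mul_inv]
    rw [h2, Real.mul_rpow (by positivity) (by positivity),
      h4d_pow_rpow (x := (1 : ℝ) / 2) (by norm_num), hσσ]
  have h2 : (x ^ 2) ^ (p - 3) ≤ x ^ N := by
    rw [← Real.rpow_natCast x 2, ← Real.rpow_mul hx0.le, ← Real.rpow_natCast x N]
    refine Real.rpow_le_rpow_of_exponent_le hx1 ?_
    push_cast
    exact hN
  have h3 : σ ^ (m + 2) ≤ σ ^ m := pow_le_pow_of_le_one hσ0.le hσ1.le (by omega)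
  rw [h1]
  calc (x ^ 2) ^ (p - 3) * (σ * σ) ^ (m + 2) * x ^ 4
      ≤ x ^ N * (σ * σ) ^ (m + 2) * x ^ 4 := by gcongr
    _ = (x ^ (N + 4) * σ ^ (m + 2)) * σ ^ (m + 2) := by
        rw [mul_pow]
        ring
    _ ≤ (x ^ (N + 4) * σ ^ (m + 2)) * σ ^ m := by gcongr

theorem sum_levels (p K : ℝ) (hp : 3 < p) (hK : 0 ≤ K) : ∃ C : ℝ≥0∞, C ≠ ∞ ∧
    ∀ (Z : Type) [MeasurableSpace Z] (μ : Measure Z) (f : ℕ → Z → ℝ≥0∞), (∀ m, Measurable (f m)) →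
    (∫⁻ z, f 0 z ^ p ∂μ ≤ ENNReal.ofReal K) → (∀ m : ℕ, 1 ≤ m → ∫⁻ z, f m z ^ p ∂μ ≤
      ENNReal.ofReal (K * ((((m : ℝ) + 2) ^ 2 / 2 ^ (m + 2)) ^ (p - 3) * ((m : ℝ) + 2) ^ 4))) →
    ∫⁻ z, (∑' m, f m z) ^ p ∂μ ≤ C := by
  obtain ⟨σ, hσ⟩ : ∃ σ : ℝ, σ = (1 / 2) ^ ((p - 3) / 2) := ⟨_, rfl⟩
  obtain ⟨ρ, hρ⟩ : ∃ ρ : ℝ, ρ = (1 / 2) ^ ((p - 3) / (2 * p)) := ⟨_, rfl⟩
  have hp0 : 0 < p := by linarith
  have hρ0 : 0 < ρ := by rw [hρ]; positivity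
  have hρ1 : ρ < 1 := by
    rw [hρ]
    exact Real.rpow_lt_one (by norm_num) (by norm_num) (div_pos (by linarith) (by linarith))
  have hσ0 : 0 < σ := by rw [hσ]; positivity
  have hσ1 : σ < 1 := by
    rw [hσ]
    exact Real.rpow_lt_one (by norm_num) (by norm_num) (by linarith)
  have hρσ : ρ ^ p = σ := by
    rw [hρ, hσ, ← Real.rpow_mul (by norm_num)]
    congr 1
    field_simp
  have hσσ : ((1:ℝ) / 2) ^ (p - 3) = σ * σ := by
    rw [hσ, ← Real.rpow_add (by norm_num)]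
    congr 1
    ring
  obtain ⟨w, hw⟩ : ∃ w : ℕ → ℝ≥0∞, w = fun k : ℕ => ENNReal.ofReal (ρ ^ k) := ⟨_, rfl⟩
  have hw0 : ∀ k, w k ≠ 0 := fun k => by
    have h : 0 < ρ ^ k := by positivity
    rw [hw]
    exact (ENNReal.ofReal_pos.2 h).ne'
  have hwt : ∀ k, w k ≠ ∞ := fun k => by
    rw [hw]
    exact ENNReal.ofReal_ne_top
  have hwp : ∀ k, w k ^ p = ENNReal.ofReal (σ ^ k) := by
    intro k
    rw [hw]
    change ENNReal.ofReal (ρ ^ k) ^ p = _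
    rw [ENNReal.ofReal_rpow_of_pos (by positivity), h4d_pow_rpow hρ0.le, hρσ]
  have hW : ∑' k, w k ≠ ∞ := by
    have h1 : Summable fun k : ℕ => ρ ^ k := summable_geometric_of_lt_one hρ0.le hρ1
    rw [hw, ← ENNReal.ofReal_tsum_of_nonneg (fun k => by positivity) h1]
    exact ENNReal.ofReal_ne_top
  obtain ⟨N, hN⟩ : ∃ N : ℕ, 2 * (p - 3) ≤ N := exists_nat_ge _
  obtain ⟨g, hg⟩ : ∃ g : ℕ → ℝ, g = fun m : ℕ => K * (((m : ℝ) + 2) ^ (N + 4) * σ ^ (m + 2)) :=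
    ⟨_, rfl⟩
  have hgs : Summable g := by
    have h1 : Summable fun n : ℕ => (n : ℝ) ^ (N + 4) * σ ^ n :=
      summable_pow_mul_geometric_of_norm_lt_one (N + 4) (by
        rw [Real.norm_of_nonneg hσ0.le]
        exact hσ1)
    have h2 := (summable_nat_add_iff 2).2 h1
    rw [hg]
    refine Summable.mul_left K (h2.congr fun m => ?_)
    push_cast
    rfl
  have hg0 : ∀ m, 0 ≤ g m := by
    intro m
    rw [hg]
    positivity
  have hG : ∑' m, ENNReal.ofReal (g m) ≠ ∞ := by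
    rw [← ENNReal.ofReal_tsum_of_nonneg hg0 hgs]
    exact ENNReal.ofReal_ne_top
  refine ⟨(∑' k, w k) ^ p * (ENNReal.ofReal K + ∑' m, ENNReal.ofReal (g m)),
    ENNReal.mul_ne_top (ENNReal.rpow_ne_top_of_nonneg hp0.le hW)
      (ENNReal.add_ne_top.2 ⟨ENNReal.ofReal_ne_top, hG⟩), ?_⟩
  intro Z _ μ f hf h0 hm
  have hterm : ∀ m, (∫⁻ z, f m z ^ p ∂μ) / w m ^ p ≤
      (if m = 0 then ENNReal.ofReal K else 0) + ENNReal.ofReal (g m) := by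
    intro m
    rw [hwp]
    rcases Nat.eq_zero_or_pos m with rfl | hpos
    · rw [if_pos rfl, pow_zero, ENNReal.ofReal_one, div_one]
      exact h0.trans le_self_add
    · rw [if_neg (by omega), zero_add]
      have hsm : 0 < σ ^ m := by positivity
      refine (ENNReal.div_le_div_right (hm m hpos) _).trans ?_
      rw [← ENNReal.ofReal_div_of_pos hsm]
      refine ENNReal.ofReal_le_ofReal ?_
      rw [div_le_iff₀ hsm, hg]
      have h2 := mul_le_mul_of_nonneg_left (h4d_term hp hσ0 hσ1 hσσ hN m) hK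
      linarith
  calc ∫⁻ z, (∑' m, f m z) ^ p ∂μ
      ≤ ∫⁻ z, (∑' k, w k) ^ p * ∑' k, f k z ^ p / w k ^ p ∂μ :=
        lintegral_mono fun z => h4d_tsum_rpow_le _ w hw0 hwt hp0
    _ = (∑' k, w k) ^ p * ∑' k, (∫⁻ z, f k z ^ p ∂μ) / w k ^ p := by
        rw [lintegral_const_mul' _ _ (ENNReal.rpow_ne_top_of_nonneg hp0.le hW),
          lintegral_tsum fun k => (((hf k).pow_const p).div_const _).aemeasurable]
        congr 1
        refine tsum_congr fun k => ?_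
        simp_rw [div_eq_mul_inv]
        rw [lintegral_mul_const _ ((hf k).pow_const p)]
    _ ≤ (∑' k, w k) ^ p * (ENNReal.ofReal K + ∑' m, ENNReal.ofReal (g m)) := by
        gcongr
        refine (ENNReal.tsum_le_tsum hterm).trans ?_
        rw [ENNReal.tsum_add, tsum_ite_eq]

end Pool.Agent.PPH
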