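import Pool.Agent.PPH.H4b
import Pool.Agent.PPH.H4c
import Pool.Agent.PPH.H4d

/-!
ROW H4e (0.9 h). CORE THEOREM. q = qt c t.
(1) uI BB al q x = uI BB0 al q x (volume_BB_diff) = Σ_{m=2}^{M} uI (Om D q m) al q x (Om_cover, Om_disjoint, integrableOn_am; setIntegral over a finite disjoint union), so
 ‖uI BB al q x‖ₑ ≤ ∑' m, ‖uI (Om D q (m+2)) al q x‖ₑ.
(2) f m z = ‖uI (Om D (qt c z.1) (m+2)) al (qt c z.1) z.2‖ₑ on Z = ℝ × (ℝ × ℝ), measurable (measurable_uI). ∫⁻ z = ∫⁻ t ∫⁻ x (lintegral_prod / volume_eq_prod, measurable).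
 m = 0: u2_bound. m ≥ 1: with m' = m + 2 ≥ 3: ‖u‖^p ≤ (ofReal (K A m'²/2^m'))^(p-3) ‖u‖^3 (um_sup; p > 3; library lemma `lintegral_rpow_le_sup` in MP_6cbfb8_an/Tools.lean is available through H2a's import of Bessel? if not, prove it:
 x^p = x^(p-3) x^3), um_cube_t: ∫∫ ‖u‖^3 ≤ ofReal(K A³ m'⁴). So ∫⁻ f m ^p ≤ ofReal ((K A)^(p-3) K A³ (m'²/2^m')^(p-3) m'⁴). sum_levels with the maximum of the constants.
-/

namespace Pool.Agent.PPH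

open MeasureTheory Set MvPolynomial
open scoped ENNReal Real

theorem h4e_uI_le (D : ℕ) (c : Cf D) (al : RR) (t : ℝ) (x : ℝ × ℝ) :
    ‖uI BB al (qt c t) x‖ₑ ≤ ∑' m : ℕ, ‖uI (Om D (qt c t) (m + 2)) al (qt c t) x‖ₑ := by
  obtain ⟨M, hM, hM1, hM2⟩ := Om_cover D c t
  have hae : (BB : Set (ℝ × ℝ)) =ᵐ[volume] BB0 := by
    rw [MeasureTheory.ae_eq_set]
    refine ⟨volume_BB_diff, ?_⟩
    rw [Set.sdiff_eq_empty.2 BB0_subset, measure_empty]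
  have h1 : uI BB al (qt c t) x = uI BB0 al (qt c t) x := by
    unfold uI
    exact setIntegral_congr_set hae
  have h2 : uI BB0 al (qt c t) x =
      ∑ m ∈ Finset.Icc 2 M, uI (Om D (qt c t) m) al (qt c t) x := by
    unfold uI
    rw [hM2]
    refine integral_biUnion_finset (Finset.Icc 2 M) (fun m _ => measurableSet_Om D _ m) ?_ ?_
    · intro i hi j hj hij
      exact Om_disjoint D _ (Finset.mem_Icc.1 (Finset.mem_coe.1 hi)).1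
        (Finset.mem_Icc.1 (Finset.mem_coe.1 hj)).1 hij
    · intro i hi
      exact (integrableOn_am al (qt c t) x).mono_set
        ((Om_subset D _ (Finset.mem_Icc.1 hi).1).trans BB0_subset)
  rw [h1, h2]
  refine (enorm_sum_le _ _).trans ?_
  have h3 : ∑ m ∈ Finset.Icc 2 M, ‖uI (Om D (qt c t) m) al (qt c t) x‖ₑ =
      ∑ k ∈ Finset.range (M + 1 - 2), ‖uI (Om D (qt c t) (k + 2)) al (qt c t) x‖ₑ := by
    rw [← Finset.Ico_add_one_right_eq_Icc, Finset.sum_Ico_eq_sum_range]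
    refine Finset.sum_congr rfl fun k _ => ?_
    rw [add_comm 2 k]
  rw [h3]
  exact ENNReal.sum_le_tsum _

theorem h4e_level (D : ℕ) (A p : ℝ) (hA : 0 ≤ A) (hp : 3 < p) (K1 K2 : ℝ) (hK1 : 0 < K1)
    (_hK2 : 0 < K2)
    (h1 : ∀ (c : Cf D) (t A : ℝ) (al : RR) (m : ℕ), 3 ≤ m →
      0 ≤ A → Amp A al → ∀ x : ℝ × ℝ, ‖uI (Om D (qt c t) m) al (qt c t) x‖ₑ ≤
      ENNReal.ofReal (K1 * A * (m ^ 2 / 2 ^ m)))
    (h2 : ∀ (c : Cf D) (A : ℝ) (al : RR) (m : ℕ), 3 ≤ m →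
      0 ≤ A → Amp A al →
      ∫⁻ t, ∫⁻ x : ℝ × ℝ, ‖uI (Om D (qt c t) m) al (qt c t) x‖ₑ ^ (3:ℝ) ≤
      ENNReal.ofReal (K2 * A ^ 3 * m ^ 4))
    (c : Cf D) (al : RR) (hal : Amp A al) (m : ℕ) (hm : 3 ≤ m) :
    ∫⁻ t, ∫⁻ x : ℝ × ℝ, ‖uI (Om D (qt c t) m) al (qt c t) x‖ₑ ^ p ≤
      ENNReal.ofReal (((K1 * A) ^ (p - 3) * (K2 * A ^ 3)) *
        (((m : ℝ) ^ 2 / 2 ^ m) ^ (p - 3) * (m : ℝ) ^ 4)) := by
  have hb0 : 0 ≤ K1 * A * ((m : ℝ) ^ 2 / 2 ^ m) := by positivity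
  have hp3 : 0 ≤ p - 3 := by linarith
  set b : ℝ≥0∞ := ENNReal.ofReal (K1 * A * ((m : ℝ) ^ 2 / 2 ^ m)) ^ (p - 3) with hb
  have hbt : b ≠ ∞ := ENNReal.rpow_ne_top_of_nonneg hp3 ENNReal.ofReal_ne_top
  have key : ∀ t, ∀ x : ℝ × ℝ, ‖uI (Om D (qt c t) m) al (qt c t) x‖ₑ ^ p ≤
      b * ‖uI (Om D (qt c t) m) al (qt c t) x‖ₑ ^ (3:ℝ) := by
    intro t x
    have e : p = (p - 3) + 3 := by ring
    conv_lhs => rw [e]
    rw [ENNReal.rpow_add_of_nonneg _ _ hp3 (by norm_num)]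
    gcongr
    rw [hb]
    exact ENNReal.rpow_le_rpow (h1 c t A al m hm hA hal x) hp3
  calc ∫⁻ t, ∫⁻ x : ℝ × ℝ, ‖uI (Om D (qt c t) m) al (qt c t) x‖ₑ ^ p
      ≤ ∫⁻ t, ∫⁻ x : ℝ × ℝ, b * ‖uI (Om D (qt c t) m) al (qt c t) x‖ₑ ^ (3:ℝ) :=
        lintegral_mono fun t => lintegral_mono fun x => key t x
    _ = b * ∫⁻ t, ∫⁻ x : ℝ × ℝ, ‖uI (Om D (qt c t) m) al (qt c t) x‖ₑ ^ (3:ℝ) := by
        rw [← lintegral_const_mul' _ _ hbt]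
        refine lintegral_congr fun t => ?_
        rw [lintegral_const_mul' _ _ hbt]
    _ ≤ b * ENNReal.ofReal (K2 * A ^ 3 * m ^ 4) := by
        gcongr
        exact h2 c A al m hm hA hal
    _ = ENNReal.ofReal (((K1 * A) ^ (p - 3) * (K2 * A ^ 3)) *
        (((m : ℝ) ^ 2 / 2 ^ m) ^ (p - 3) * (m : ℝ) ^ 4)) := by
        rw [hb, ENNReal.ofReal_rpow_of_nonneg hb0 hp3,
          ← ENNReal.ofReal_mul (Real.rpow_nonneg hb0 _)]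
        congr 1
        rw [Real.mul_rpow (by positivity) (by positivity)]
        ring

theorem core (D : ℕ) (A p : ℝ) (hA : 0 ≤ A) (hp : 3 < p) : ∃ C : ℝ≥0∞, C ≠ ∞ ∧
    ∀ (c : Cf D) (al : RR), Amp A al →
    ∫⁻ z : ℝ × (ℝ × ℝ), ‖uI BB al (qt c z.1) z.2‖ₑ ^ p ≤ C := by
  obtain ⟨K1, hK1, h1⟩ := um_sup D
  obtain ⟨K2, hK2, h2⟩ := um_cube_t D
  obtain ⟨K3, hK3, h3⟩ := u2_bound D A p hA (by linarith)
  have hp0 : 0 ≤ p := by linarith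
  have hK0 : 0 ≤ (K1 * A) ^ (p - 3) * (K2 * A ^ 3) := by
    have : 0 ≤ (K1 * A) ^ (p - 3) := Real.rpow_nonneg (by positivity) _
    positivity
  set K : ℝ := max K3 ((K1 * A) ^ (p - 3) * (K2 * A ^ 3)) with hK
  obtain ⟨C, hC, hS⟩ := sum_levels p K hp (le_trans hK3.le (le_max_left _ _))
  refine ⟨C, hC, fun c al hal => ?_⟩
  have hmeas : ∀ m : ℕ, Measurable fun z : ℝ × (ℝ × ℝ) =>
      ‖uI (Om D (qt c z.1) (m + 2)) al (qt c z.1) z.2‖ₑ := by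
    intro m
    exact (measurable_uI D c al (m + 2)).enorm
  have hfub : ∀ m : ℕ, ∫⁻ z : ℝ × (ℝ × ℝ), ‖uI (Om D (qt c z.1) (m + 2)) al (qt c z.1) z.2‖ₑ ^ p =
      ∫⁻ t, ∫⁻ x : ℝ × ℝ, ‖uI (Om D (qt c t) (m + 2)) al (qt c t) x‖ₑ ^ p := by
    intro m
    rw [Measure.volume_eq_prod ℝ (ℝ × ℝ)]
    exact lintegral_prod _ ((hmeas m).pow_const p).aemeasurable
  refine le_trans (lintegral_mono fun z => ?_) (hS (ℝ × (ℝ × ℝ)) volume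
    (fun m z => ‖uI (Om D (qt c z.1) (m + 2)) al (qt c z.1) z.2‖ₑ) hmeas ?_ ?_)
  · exact ENNReal.rpow_le_rpow (h4e_uI_le D c al z.1 z.2) hp0
  · rw [hfub 0]
    exact (h3 c al hal).trans (ENNReal.ofReal_le_ofReal (le_max_left _ _))
  · intro m hm
    rw [hfub m]
    refine (h4e_level D A p hA hp K1 K2 hK1 hK2 h1 h2 c al hal (m + 2) (by omega)).trans ?_
    apply ENNReal.ofReal_le_ofReal
    push_cast
    have h0 : 0 ≤ ((((m : ℝ) + 2) ^ 2 / 2 ^ (m + 2)) ^ (p - 3) * ((m : ℝ) + 2) ^ 4) := by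
      have : 0 ≤ (((m : ℝ) + 2) ^ 2 / 2 ^ (m + 2)) ^ (p - 3) := Real.rpow_nonneg (by positivity) _
      positivity
    exact mul_le_mul_of_nonneg_right (le_max_right _ _) h0

end Pool.Agent.PPH
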