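import Pool.Agent.PPH.A3b

/-!
ROW S0 (0.7 h). Like A3b (look at the delivered PPH_A3b.lean for the compactness argument and the linearity of c ↦ ev (DD a b (qq c)) y), now with all derivatives of order ≤ JJ D.
 Φ(y,c) = Σ_{a,b ≤ JJ D, a+b ≤ JJ D} |ev (DD a b (qq c)) y| is continuous on BB × Cf D, homogeneous of degree 1 in c, and > 0 for c ≠ 0: suppose all derivatives of order ≤ JJ D vanish at y. Put c' = c with the
 coefficients with (p.1:ℕ) + p.2.1 ≤ 1, p.2.2 = 0 replaced by 0; qq c = qq c' + (C α + C β X0 + C γ X1), so the derivatives of order ≥ 2 of qq c' vanish at y (DD_add, DD_affine) and c' = 0 by `vanish`.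
 So qq c = C α + C β * X 0 + C γ * X 1 with value α + β y.1 + γ y.2 and gradient (β, γ) at y equal to 0 (orders 0 and 1; JJ D ≥ 2): α = β = γ = 0 and c = 0.
 By compactness Φ ≥ δ' > 0 on BB × {‖c‖ = 1} (IsCompact.exists_isMinOn), so some term is ≥ δ' / (JJ D + 1)^2 ‖c‖.
-/

namespace Pool.Agent.PPH

open MeasureTheory Set MvPolynomial
open scoped ENNReal Real

/-- the monomials -/
noncomputable def s0_mon {D : ℕ} (p : Fin (D + 1) × Fin (D + 1) × Fin 2) : RR :=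
  X 0 ^ (p.1 : ℕ) * X 1 ^ (p.2.1 : ℕ) * X 2 ^ (p.2.2 : ℕ)

theorem s0_ev {D : ℕ} (a b : ℕ) (c : Cf D) (y : ℝ × ℝ) :
    ev (DD a b (qq c)) y = ∑ p, c p * ev (DD a b (s0_mon p)) y := by
  unfold qq
  rw [DD_sum, ev_sum]
  refine Finset.sum_congr rfl fun p _ => ?_
  rw [DD_C_mul, ev_mul, ev_C]
  rfl

theorem s0_affine {D : ℕ} (a b : ℕ) (h : 2 ≤ a + b) (p : Fin (D + 1) × Fin (D + 1) × Fin 2)
    (h1 : (p.1 : ℕ) + p.2.1 ≤ 1) (h2 : (p.2.2 : ℕ) = 0) : DD a b (s0_mon p) = 0 := by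
  have h3 : ((p.1 : ℕ) = 0 ∧ (p.2.1 : ℕ) = 0) ∨ ((p.1 : ℕ) = 1 ∧ (p.2.1 : ℕ) = 0) ∨
      ((p.1 : ℕ) = 0 ∧ (p.2.1 : ℕ) = 1) := by omega
  unfold s0_mon
  rcases h3 with ⟨e1, e2⟩ | ⟨e1, e2⟩ | ⟨e1, e2⟩
  · rw [e1, e2, h2]
    have := DD_affine a b h 1 0 0
    simpa using this
  · rw [e1, e2, h2]
    have := DD_affine a b h 0 1 0
    simpa using this
  · rw [e1, e2, h2]
    have := DD_affine a b h 0 0 1
    simpa using this

/-- removal of the affine part -/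
noncomputable def s0_cz {D : ℕ} (c : Cf D) : Cf D := fun p =>
  if (p.1 : ℕ) + p.2.1 ≤ 1 ∧ (p.2.2 : ℕ) = 0 then 0 else c p

theorem s0_ev_cz {D : ℕ} (a b : ℕ) (h : 2 ≤ a + b) (c : Cf D) (y : ℝ × ℝ) :
    ev (DD a b (qq (s0_cz c))) y = ev (DD a b (qq c)) y := by
  rw [s0_ev, s0_ev]
  refine Finset.sum_congr rfl fun p _ => ?_
  unfold s0_cz
  split_ifs with hp
  · rw [s0_affine a b h p hp.1 hp.2]
    simp [ev]
  · rfl

theorem s0_ext {D : ℕ} {p q : Fin (D + 1) × Fin (D + 1) × Fin 2} (h1 : (p.1 : ℕ) = q.1)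
    (h2 : (p.2.1 : ℕ) = q.2.1) (h3 : (p.2.2 : ℕ) = q.2.2) : p = q :=
  Prod.ext (Fin.ext h1) (Prod.ext (Fin.ext h2) (Fin.ext h3))

theorem s0_D1 (i j : ℕ) (h : i + j ≤ 1) (y : ℝ × ℝ) :
    ev (DD 1 0 (X 0 ^ i * X 1 ^ j * X 2 ^ 0)) y = if i = 1 then 1 else 0 := by
  show ev (D1 (X 0 ^ i * X 1 ^ j * X 2 ^ 0)) y = _
  have h3 : (i = 0 ∧ j = 0) ∨ (i = 1 ∧ j = 0) ∨ (i = 0 ∧ j = 1) := by omega
  rcases h3 with ⟨e1, e2⟩ | ⟨e1, e2⟩ | ⟨e1, e2⟩
  · subst e1 e2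
    simp [ev]
  · subst e1 e2
    simp [D1, mkDerivation_X, ev]
  · subst e1 e2
    simp [D1, mkDerivation_X, ev]

theorem s0_D2 (i j : ℕ) (h : i + j ≤ 1) (y : ℝ × ℝ) :
    ev (DD 0 1 (X 0 ^ i * X 1 ^ j * X 2 ^ 0)) y = if j = 1 then 1 else 0 := by
  show ev (D2 (X 0 ^ i * X 1 ^ j * X 2 ^ 0)) y = _
  have h3 : (i = 0 ∧ j = 0) ∨ (i = 1 ∧ j = 0) ∨ (i = 0 ∧ j = 1) := by omega
  rcases h3 with ⟨e1, e2⟩ | ⟨e1, e2⟩ | ⟨e1, e2⟩
  · subst e1 e2
    simp [ev]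
  · subst e1 e2
    simp [D2, mkDerivation_X, ev]
  · subst e1 e2
    simp [D2, mkDerivation_X, ev]

theorem s0_vanish {D : ℕ} (c : Cf D) (y : ℝ × ℝ) (hy : y ∈ BB)
    (h : ∀ a b : ℕ, a + b ≤ JJ D → ev (DD a b (qq c)) y = 0) : c = 0 := by
  have h0 : s0_cz c = 0 := by
    refine vanish D (s0_cz c) y hy ?_ ?_
    · intro p hp hp'
      unfold s0_cz
      rw [if_pos ⟨hp, hp'⟩]
    · intro a b hab hab'
      rw [s0_ev_cz a b hab]
      exact h a b hab'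
  have hna : ∀ p : Fin (D + 1) × Fin (D + 1) × Fin 2,
      ¬ ((p.1 : ℕ) + p.2.1 ≤ 1 ∧ (p.2.2 : ℕ) = 0) → c p = 0 := by
    intro p hp
    have h1 := congrFun h0 p
    unfold s0_cz at h1
    rw [if_neg hp] at h1
    exact h1
  have hJ : 2 ≤ JJ D := by unfold JJ; omega
  have hx : ∀ p : Fin (D + 1) × Fin (D + 1) × Fin 2, (p.1 : ℕ) = 1 → (p.2.1 : ℕ) = 0 →
      (p.2.2 : ℕ) = 0 → c p = 0 := by
    intro p h1 h2 h3
    have h4 := h 1 0 (by omega)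
    rw [s0_ev, Finset.sum_eq_single p] at h4
    · unfold s0_mon at h4
      rw [h3, s0_D1 _ _ (by omega), if_pos h1, mul_one] at h4
      exact h4
    · intro q _ hq
      by_cases hqa : (q.1 : ℕ) + q.2.1 ≤ 1 ∧ (q.2.2 : ℕ) = 0
      · unfold s0_mon
        rw [hqa.2, s0_D1 _ _ hqa.1, if_neg, mul_zero]
        intro h5
        exact hq (s0_ext (by omega) (by omega) (by omega))
      · rw [hna q hqa, zero_mul]
    · intro h5
      exact absurd (Finset.mem_univ _) h5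
  have hz : ∀ p : Fin (D + 1) × Fin (D + 1) × Fin 2, (p.1 : ℕ) = 0 → (p.2.1 : ℕ) = 1 →
      (p.2.2 : ℕ) = 0 → c p = 0 := by
    intro p h1 h2 h3
    have h4 := h 0 1 (by omega)
    rw [s0_ev, Finset.sum_eq_single p] at h4
    · unfold s0_mon at h4
      rw [h3, s0_D2 _ _ (by omega), if_pos h2, mul_one] at h4
      exact h4
    · intro q _ hq
      by_cases hqa : (q.1 : ℕ) + q.2.1 ≤ 1 ∧ (q.2.2 : ℕ) = 0
      · unfold s0_mon
        rw [hqa.2, s0_D2 _ _ hqa.1, if_neg, mul_zero]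
        intro h5
        exact hq (s0_ext (by omega) (by omega) (by omega))
      · rw [hna q hqa, zero_mul]
    · intro h5
      exact absurd (Finset.mem_univ _) h5
  have hc : ∀ p : Fin (D + 1) × Fin (D + 1) × Fin 2, (p.1 : ℕ) = 0 → (p.2.1 : ℕ) = 0 →
      (p.2.2 : ℕ) = 0 → c p = 0 := by
    intro p h1 h2 h3
    have h4 := h 0 0 (by omega)
    rw [s0_ev, Finset.sum_eq_single p] at h4
    · unfold s0_mon at h4
      rw [h1, h2, h3, DD_zero] at h4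
      simpa [ev] using h4
    · intro q _ hq
      by_cases hqa : (q.1 : ℕ) + q.2.1 ≤ 1 ∧ (q.2.2 : ℕ) = 0
      · by_cases hq1 : (q.1 : ℕ) = 1
        · rw [hx q hq1 (by omega) hqa.2, zero_mul]
        · by_cases hq2 : (q.2.1 : ℕ) = 1
          · rw [hz q (by omega) hq2 hqa.2, zero_mul]
          · exact absurd (s0_ext (by omega) (by omega) (by omega)) hq
      · rw [hna q hqa, zero_mul]
    · intro h5
      exact absurd (Finset.mem_univ _) h5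
  funext p
  show c p = 0
  by_cases hpa : (p.1 : ℕ) + p.2.1 ≤ 1 ∧ (p.2.2 : ℕ) = 0
  · by_cases hp1 : (p.1 : ℕ) = 1
    · exact hx p hp1 (by omega) hpa.2
    · by_cases hp2 : (p.2.1 : ℕ) = 1
      · exact hz p (by omega) hp2 hpa.2
      · exact hc p (by omega) (by omega) hpa.2
  · exact hna p hpa

/-- the index set of the derivatives -/
def s0_F (D : ℕ) : Finset (ℕ × ℕ) :=
  (Finset.range (JJ D + 1) ×ˢ Finset.range (JJ D + 1)).filter fun p => p.1 + p.2 ≤ JJ D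

theorem s0_memF {D : ℕ} {p : ℕ × ℕ} : p ∈ s0_F D ↔ p.1 + p.2 ≤ JJ D := by
  unfold s0_F
  rw [Finset.mem_filter, Finset.mem_product, Finset.mem_range, Finset.mem_range]
  constructor
  · exact fun h => h.2
  · intro h
    exact ⟨⟨by omega, by omega⟩, h⟩

/-- the sum of the derivatives -/
noncomputable def s0_Phi {D : ℕ} (z : (ℝ × ℝ) × Cf D) : ℝ :=
  ∑ p ∈ s0_F D, |ev (DD p.1 p.2 (qq z.2)) z.1|

theorem s0_Phi_nonneg {D : ℕ} (z : (ℝ × ℝ) × Cf D) : 0 ≤ s0_Phi z :=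
  Finset.sum_nonneg fun _ _ => abs_nonneg _

theorem s0_Phi_smul {D : ℕ} (y : ℝ × ℝ) (t : ℝ) (c : Cf D) :
    s0_Phi (y, t • c) = |t| * s0_Phi (y, c) := by
  unfold s0_Phi
  rw [Finset.mul_sum]
  refine Finset.sum_congr rfl fun p _ => ?_
  rw [← abs_mul]
  congr 1
  show ev (DD p.1 p.2 (qq (t • c))) y = t * ev (DD p.1 p.2 (qq c)) y
  rw [s0_ev, s0_ev, Finset.mul_sum]
  refine Finset.sum_congr rfl fun q _ => ?_
  rw [Pi.smul_apply, smul_eq_mul, mul_assoc]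

theorem s0_cont {D : ℕ} (S : Set (Cf D)) : ContinuousOn (s0_Phi (D := D)) (BB ×ˢ S) := by
  unfold s0_Phi
  refine continuousOn_finsetSum _ fun p _ => ContinuousOn.abs ?_
  have h : (fun z : (ℝ × ℝ) × Cf D => ev (DD p.1 p.2 (qq z.2)) z.1) =
      fun z => ∑ q, z.2 q * ev (DD p.1 p.2 (s0_mon q)) z.1 := by
    funext z
    exact s0_ev _ _ _ _
  rw [h]
  refine continuousOn_finsetSum _ fun q _ => ContinuousOn.mul ?_ ?_
  · exact ((continuous_apply q).comp continuous_snd).continuousOn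
  · have h1 : ContinuousOn (ev (DD p.1 p.2 (s0_mon q))) BB :=
      (continuousOn_ev _).mono BB_sub_disc
    exact h1.comp continuousOn_fst fun z hz => hz.1

theorem s0_lower (D : ℕ) : ∃ δ : ℝ, 0 < δ ∧ ∀ (y : ℝ × ℝ) (c : Cf D), y ∈ BB →
    δ * ‖c‖ ≤ s0_Phi (y, c) := by
  set S : Set (Cf D) := Metric.sphere 0 1 with hS
  have hSc : IsCompact S := isCompact_sphere 0 1
  have hK : IsCompact (BB ×ˢ S) := isCompact_BB.prod hSc
  obtain ⟨δ, hδ, hmin⟩ : ∃ δ : ℝ, 0 < δ ∧ ∀ z ∈ BB ×ˢ S, δ ≤ s0_Phi z := by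
    by_cases hne : (BB ×ˢ S).Nonempty
    · obtain ⟨z, hz, hz'⟩ := hK.exists_isMinOn hne (s0_cont S)
      refine ⟨s0_Phi z, ?_, fun w hw => hz' hw⟩
      refine lt_of_le_of_ne (s0_Phi_nonneg z) fun h0 => ?_
      have h1 := (Finset.sum_eq_zero_iff_of_nonneg (fun p _ => abs_nonneg _)).1 h0.symm
      have h2 := s0_vanish z.2 z.1 hz.1 fun a b hab => by
        have h3 := h1 (a, b) (s0_memF.2 hab)
        exact abs_eq_zero.1 h3
      have h4 : ‖z.2‖ = 1 := by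
        have := hz.2
        rwa [hS, mem_sphere_zero_iff_norm] at this
      rw [h2, norm_zero] at h4
      exact absurd h4 zero_ne_one
    · exact ⟨1, one_pos, fun w hw => absurd ⟨w, hw⟩ hne⟩
  refine ⟨δ, hδ, fun y c hy => ?_⟩
  by_cases h0 : c = 0
  · rw [h0, norm_zero, mul_zero]
    exact s0_Phi_nonneg _
  · have hn : 0 < ‖c‖ := norm_pos_iff.2 h0
    have h1 : (y, ‖c‖⁻¹ • c) ∈ BB ×ˢ S := by
      refine ⟨hy, ?_⟩
      rw [hS, mem_sphere_zero_iff_norm]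
      show ‖‖c‖⁻¹ • c‖ = 1
      rw [norm_smul, norm_inv, norm_norm, inv_mul_cancel₀ hn.ne']
    have h2 := hmin _ h1
    rw [s0_Phi_smul, abs_of_pos (inv_pos.2 hn), inv_mul_eq_div, le_div_iff₀ hn] at h2
    exact h2

theorem norm_equiv0 (D : ℕ) : ∃ δ : ℝ, 0 < δ ∧ ∀ (c : Cf D) (y : ℝ × ℝ), y ∈ BB →
    ∃ a b : ℕ, a + b ≤ JJ D ∧ δ * ‖c‖ ≤ |ev (DD a b (qq c)) y| := by
  obtain ⟨δ, hδ, hlow⟩ := s0_lower D
  refine ⟨δ / ((s0_F D).card + 1), by positivity, ?_⟩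
  intro c y hy
  by_contra hcon
  push Not at hcon
  have h0 := hcon 0 0 (Nat.zero_le _)
  have hc : 0 < δ / ((s0_F D).card + 1) * ‖c‖ := lt_of_le_of_lt (abs_nonneg _) h0
  have h1 := hlow y c hy
  have h2 : s0_Phi (y, c) ≤ (s0_F D).card * (δ / ((s0_F D).card + 1) * ‖c‖) := by
    unfold s0_Phi
    rw [← nsmul_eq_mul]
    refine Finset.sum_le_card_nsmul _ _ _ fun p hp => ?_
    exact (hcon p.1 p.2 (s0_memF.1 hp)).le
  have h3 : δ * ‖c‖ = ((s0_F D).card + 1) * (δ / ((s0_F D).card + 1) * ‖c‖) := by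
    field_simp
  rw [h3] at h1
  nlinarith

/-- linearity in the coefficients -/
theorem qq_smul {D : ℕ} (r : ℝ) (c : Cf D) : qq (r • c) = C r * qq c := by
  unfold qq
  rw [Finset.mul_sum]
  refine Finset.sum_congr rfl fun p _ => ?_
  rw [Pi.smul_apply, smul_eq_mul, C_mul, mul_assoc]

theorem qq_add {D : ℕ} (c c' : Cf D) : qq (c + c') = qq c + qq c' := by
  unfold qq
  rw [← Finset.sum_add_distrib]
  refine Finset.sum_congr rfl fun p _ => ?_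
  rw [Pi.add_apply, C_add, add_mul]

theorem ev_qq_le (D : ℕ) : ∃ K : ℝ, 0 < K ∧ ∀ (c : Cf D) (y : ℝ × ℝ), y ∈ BB →
    |ev (qq c) y| ≤ K * ‖c‖ := by
  choose k hk0 hk using ev_bdd
  refine ⟨(∑ p : Fin (D + 1) × Fin (D + 1) × Fin 2, k (s0_mon p)) + 1, ?_, ?_⟩
  · have : 0 ≤ ∑ p : Fin (D + 1) × Fin (D + 1) × Fin 2, k (s0_mon p) :=
      Finset.sum_nonneg fun p _ => (hk0 _).le
    linarith
  · intro c y hy
    have h1 : |ev (qq c) y| ≤
        (∑ p : Fin (D + 1) × Fin (D + 1) × Fin 2, k (s0_mon p)) * ‖c‖ := by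
      have h0 := s0_ev 0 0 c y
      rw [DD_zero] at h0
      rw [h0, Finset.sum_mul]
      refine (Finset.abs_sum_le_sum_abs _ _).trans (Finset.sum_le_sum fun p _ => ?_)
      rw [abs_mul, mul_comm]
      have h2 : |c p| ≤ ‖c‖ := by
        have := norm_le_pi_norm c p
        rwa [Real.norm_eq_abs] at this
      exact mul_le_mul (hk _ y hy) h2 (abs_nonneg _) (hk0 _).le
    have := norm_nonneg c
    rw [add_mul, one_mul]
    linarith

end Pool.Agent.PPH
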