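import Pool.Agent.PPH.A5
import Pool.Agent.PPH.B2
import Pool.Agent.PPH.C0
import Pool.Agent.PPH.S0

/-!
ROW S1 (0.8 h). Sublevel sets of normalised q_c. κ = 1/(JJ D), JJ D = 4D+2 ≥ 2. Let δ0 be the constant of norm_equiv0. For y ∈ BB with |ev (qq c) y| ≤ δ, ‖c‖ = 1, take (a,b) from norm_equiv0, k = a + b.
 If k = 0: δ0 ≤ |ev (qq c) y| ≤ δ; this happens only if δ ≥ δ0, and then volume ≤ volume BB ≤ 1 ≤ (δ/δ0)^κ. If k ≥ 1: `vand k` gives s ≤ k with δ0/K_k ≤ |ev ((Ds s)^[k] (qq c)) y|; sublevel2 (2D+1) k s with α = δ,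
 β = δ0/K_k: volume ≤ K (δ K_k/δ0)^(1/k) ≤ K' δ^(1/k) ≤ K' δ^κ for δ ≤ 1 (1/k ≥ κ). For δ > 1: volume ≤ 1 ≤ δ^κ. Finite sum over 1 ≤ k ≤ JJ D, s ≤ k.
`zero_null`: let δ → 0+ (or from sublevel_qq with δ = 0: 0^κ = 0).
-/

namespace Pool.Agent.PPH

open MeasureTheory Set MvPolynomial
open scoped ENNReal Real

lemma s1_vol : volume BB ≤ 1 := by
  have h : volume BB = ENNReal.ofReal (1 / 2) * ENNReal.ofReal (1 / 2) := by
    unfold BB
    rw [Measure.volume_eq_prod, Measure.prod_prod, Real.volume_Icc]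
    norm_num
  rw [h, ← ENNReal.ofReal_mul (by norm_num)]
  exact ENNReal.ofReal_le_one.mpr (by norm_num)

theorem sublevel_qq (D : ℕ) : ∃ K : ℝ, 0 < K ∧ ∀ c : Cf D, ‖c‖ = 1 → ∀ δ : ℝ, 0 ≤ δ →
    volume {y : ℝ × ℝ | y ∈ BB ∧ |ev (qq c) y| ≤ δ} ≤
      ENNReal.ofReal (K * δ ^ (1 / (JJ D : ℝ))) := by
  obtain ⟨δ0, hδ0, hne⟩ := norm_equiv0 D
  choose Kv hKv hv using vand
  have hsub : ∀ k s : ℕ, ∃ K : ℝ, 0 < K ∧ (1 ≤ k → ∀ f : RR, f.totalDegree ≤ 2 * D + 1 →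
      ∀ α β : ℝ, 0 ≤ α → 0 < β →
      volume {y : ℝ × ℝ | y ∈ BB ∧ |ev f y| ≤ α ∧ β ≤ |ev ((Ds s)^[k] f) y|} ≤
        ENNReal.ofReal (K * (α / β) ^ (1 / (k : ℝ)))) := by
    intro k s
    by_cases hk : 1 ≤ k
    · obtain ⟨K, hK, h⟩ := sublevel2 (2 * D + 1) k s hk
      exact ⟨K, hK, fun _ => h⟩
    · exact ⟨1, one_pos, fun h => absurd h hk⟩
  choose Ks hKs hs using hsub
  have hJ : 0 < (JJ D : ℝ) := by
    have : 0 < JJ D := by unfold JJ; omega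
    exact_mod_cast this
  set κ : ℝ := 1 / (JJ D : ℝ) with hκ
  have hκpos : 0 < κ := by positivity
  set δ1 := min δ0 1 with hδ1
  have hδ1pos : 0 < δ1 := lt_min hδ0 one_pos
  set B : ℝ := ∑ k ∈ Finset.Icc 1 (JJ D), ∑ s ∈ Finset.range (k + 1),
    Ks k s * (Kv k / δ0) ^ (1 / (k : ℝ)) with hB
  have hterm : ∀ k s : ℕ, 0 ≤ Ks k s * (Kv k / δ0) ^ (1 / (k : ℝ)) := fun k s => by
    have h1 := (hKs k s).le
    have h2 : 0 ≤ (Kv k / δ0) ^ (1 / (k : ℝ)) := Real.rpow_nonneg (div_nonneg (hKv k).le hδ0.le) _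
    positivity
  have hB0 : 0 ≤ B := Finset.sum_nonneg fun k _ => Finset.sum_nonneg fun s _ => hterm k s
  have hA0 : 0 < (δ1 ^ κ)⁻¹ := inv_pos.mpr (Real.rpow_pos_of_pos hδ1pos _)
  refine ⟨(δ1 ^ κ)⁻¹ + B, by linarith, ?_⟩
  intro c hc δ hδ
  rcases le_or_gt δ1 δ with hcase | hcase
  · have h1 : volume {y : ℝ × ℝ | y ∈ BB ∧ |ev (qq c) y| ≤ δ} ≤ 1 :=
      (measure_mono fun y hy => hy.1).trans s1_vol
    refine h1.trans ?_
    rw [← ENNReal.ofReal_one]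
    apply ENNReal.ofReal_le_ofReal
    have h2 : 1 ≤ (δ1 ^ κ)⁻¹ * δ ^ κ := by
      rw [inv_mul_eq_div, one_le_div (Real.rpow_pos_of_pos hδ1pos _)]
      exact Real.rpow_le_rpow hδ1pos.le hcase hκpos.le
    have h3 : 0 ≤ B * δ ^ κ := mul_nonneg hB0 (Real.rpow_nonneg hδ _)
    linarith [add_mul (δ1 ^ κ)⁻¹ B (δ ^ κ)]
  · have hδδ0 : δ < δ0 := hcase.trans_le (min_le_left _ _)
    have hδ1' : δ ≤ 1 := (hcase.trans_le (min_le_right _ _)).le
    set E : ℕ → ℕ → Set (ℝ × ℝ) := fun k s =>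
      {y : ℝ × ℝ | y ∈ BB ∧ |ev (qq c) y| ≤ δ ∧ δ0 / Kv k ≤ |ev ((Ds s)^[k] (qq c)) y|} with hE
    have hcov : {y : ℝ × ℝ | y ∈ BB ∧ |ev (qq c) y| ≤ δ} ⊆
        ⋃ k ∈ Finset.Icc 1 (JJ D), ⋃ s ∈ Finset.range (k + 1), E k s := by
      rintro y ⟨hy, hyd⟩
      obtain ⟨a, b, hab, hle⟩ := hne c y hy
      rw [hc, mul_one] at hle
      have hk : 1 ≤ a + b := by
        by_contra hlt
        have ha : a = 0 := by omega
        have hb : b = 0 := by omega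
        subst ha
        subst hb
        have : DD 0 0 (qq c) = qq c := rfl
        rw [this] at hle
        linarith
      obtain ⟨s, hs1, hs2⟩ := hv (a + b) (qq c) y a b rfl δ0 hδ0.le hle
      simp only [mem_iUnion]
      exact ⟨a + b, Finset.mem_Icc.mpr ⟨hk, hab⟩, s, Finset.mem_range.mpr (by omega),
        hy, hyd, hs2⟩
    have hEvol : ∀ k ∈ Finset.Icc 1 (JJ D), ∀ s ∈ Finset.range (k + 1), volume (E k s) ≤
        ENNReal.ofReal (Ks k s * (Kv k / δ0) ^ (1 / (k : ℝ)) * δ ^ κ) := by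
      intro k hk s _
      obtain ⟨hk1, hk2⟩ := Finset.mem_Icc.mp hk
      have hβ : 0 < δ0 / Kv k := div_pos hδ0 (hKv k)
      refine (hs k s hk1 (qq c) (deg_qq c) δ (δ0 / Kv k) hδ hβ).trans ?_
      apply ENNReal.ofReal_le_ofReal
      have hkpos : (0:ℝ) < k := by exact_mod_cast hk1
      have e1 : δ / (δ0 / Kv k) = (Kv k / δ0) * δ := by
        have := (hKv k).ne'
        field_simp
      rw [e1, Real.mul_rpow (div_nonneg (hKv k).le hδ0.le) hδ, ← mul_assoc]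
      have e2 : δ ^ (1 / (k : ℝ)) ≤ δ ^ κ := by
        apply Real.rpow_le_rpow_of_exponent_ge' hδ hδ1' hκpos.le
        rw [hκ]
        apply one_div_le_one_div_of_le hkpos
        exact_mod_cast hk2
      exact mul_le_mul_of_nonneg_left e2 (hterm k s)
    have hδκ : 0 ≤ δ ^ κ := Real.rpow_nonneg hδ _
    calc volume {y : ℝ × ℝ | y ∈ BB ∧ |ev (qq c) y| ≤ δ}
        ≤ volume (⋃ k ∈ Finset.Icc 1 (JJ D), ⋃ s ∈ Finset.range (k + 1), E k s) :=
          measure_mono hcov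
      _ ≤ ∑ k ∈ Finset.Icc 1 (JJ D), volume (⋃ s ∈ Finset.range (k + 1), E k s) :=
          measure_biUnion_finset_le _ _
      _ ≤ ∑ k ∈ Finset.Icc 1 (JJ D), ∑ s ∈ Finset.range (k + 1), volume (E k s) :=
          Finset.sum_le_sum fun k _ => measure_biUnion_finset_le _ _
      _ ≤ ∑ k ∈ Finset.Icc 1 (JJ D), ∑ s ∈ Finset.range (k + 1),
            ENNReal.ofReal (Ks k s * (Kv k / δ0) ^ (1 / (k : ℝ)) * δ ^ κ) :=
          Finset.sum_le_sum fun k hk => Finset.sum_le_sum fun s hs => hEvol k hk s hs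
      _ = ∑ k ∈ Finset.Icc 1 (JJ D), ENNReal.ofReal (∑ s ∈ Finset.range (k + 1),
            (Ks k s * (Kv k / δ0) ^ (1 / (k : ℝ)) * δ ^ κ)) := by
          refine Finset.sum_congr rfl fun k _ => ?_
          rw [ENNReal.ofReal_sum_of_nonneg]
          intro s _
          exact mul_nonneg (hterm k s) hδκ
      _ = ENNReal.ofReal (∑ k ∈ Finset.Icc 1 (JJ D), ∑ s ∈ Finset.range (k + 1),
            (Ks k s * (Kv k / δ0) ^ (1 / (k : ℝ)) * δ ^ κ)) := by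
          rw [ENNReal.ofReal_sum_of_nonneg]
          intro k _
          exact Finset.sum_nonneg fun s _ => mul_nonneg (hterm k s) hδκ
      _ = ENNReal.ofReal (B * δ ^ κ) := by
          rw [hB, Finset.sum_mul]
          congr 1
          refine Finset.sum_congr rfl fun k _ => ?_
          rw [Finset.sum_mul]
      _ ≤ ENNReal.ofReal (((δ1 ^ κ)⁻¹ + B) * δ ^ κ) := by
          apply ENNReal.ofReal_le_ofReal
          apply mul_le_mul_of_nonneg_right _ hδκ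
          linarith

theorem zero_null {D : ℕ} (c : Cf D) (hc : c ≠ 0) :
    volume {y : ℝ × ℝ | y ∈ BB ∧ ev (qq c) y = 0} = 0 := by
  obtain ⟨K, hK, h⟩ := sublevel_qq D
  have hn : 0 < ‖c‖ := norm_pos_iff.mpr hc
  have hn1 : ‖(‖c‖⁻¹ • c)‖ = 1 := by
    rw [norm_smul, norm_inv, norm_norm, inv_mul_cancel₀ hn.ne']
  have h0 := h (‖c‖⁻¹ • c) hn1 0 le_rfl
  have hJ : (1 / (JJ D : ℝ)) ≠ 0 := by
    have : 0 < JJ D := by unfold JJ; omega
    have : (0:ℝ) < JJ D := by exact_mod_cast this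
    positivity
  rw [Real.zero_rpow hJ, mul_zero, ENNReal.ofReal_zero] at h0
  refine nonpos_iff_eq_zero.mp ((measure_mono ?_).trans h0)
  rintro y ⟨hy, hy0⟩
  refine ⟨hy, ?_⟩
  rw [qq_smul, ev_mul, ev_C, hy0, mul_zero, abs_zero]

end Pool.Agent.PPH
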