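import Pool.Agent.PPH.S1

/-!
ROW S3 (0.7 h). L¹ bound. κ = 1/(2 JJ D). ‖c‖ = 1. For 0 < r ≤ 1: |r q e^{-(rq)²}| ≤ r |q| ≤ r K (ev_qq_le), times volume BB = 1/4. For r ≥ 1: |v e^{-v²}| ≤ 1, and ≤ 1/|v| (v² e^{-v²} ≤ 1). On {|q| ≤ r^(-1/2)}:
 measure ≤ K (r^(-1/2))^(1/JJ D) = K r^(-κ) (sublevel_qq). On the rest |r q| ≥ r^(1/2): integrand ≤ r^(-1/2) ≤ r^(-κ) (κ ≤ 1/2). Total ≤ K' min(r, r^(-κ)).
-/

namespace Pool.Agent.PPH

open MeasureTheory Set MvPolynomial
open scoped ENNReal Real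

private theorem s3_vol_BB : volume BB ≤ 1 := by
  unfold BB
  rw [Measure.volume_eq_prod, Measure.prod_prod, Real.volume_Icc]
  have h1 : ENNReal.ofReal ((1 / 4 : ℝ) - (-(1 / 4))) ≤ 1 := by
    rw [ENNReal.ofReal_le_one]
    norm_num
  calc ENNReal.ofReal ((1 / 4 : ℝ) - (-(1 / 4))) * ENNReal.ofReal ((1 / 4 : ℝ) - (-(1 / 4)))
      ≤ 1 * 1 := mul_le_mul' h1 h1
    _ = 1 := one_mul 1

private theorem s3_exp1 {v : ℝ} (_hv : 0 ≤ v) : v * Real.exp (-v ^ 2) ≤ 1 := by
  rw [Real.exp_neg, ← div_eq_mul_inv, div_le_one (Real.exp_pos _)]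
  have h1 := Real.add_one_le_exp (v ^ 2)
  nlinarith [sq_nonneg (v - 1)]

private theorem s3_exp2 {v : ℝ} : v ^ 2 * Real.exp (-v ^ 2) ≤ 1 := by
  rw [Real.exp_neg, ← div_eq_mul_inv, div_le_one (Real.exp_pos _)]
  have h1 := Real.add_one_le_exp (v ^ 2)
  linarith

theorem l1_bound (D : ℕ) : ∃ K : ℝ, 0 < K ∧ ∀ c : Cf D, ‖c‖ = 1 → ∀ r : ℝ, 0 < r →
    ∫⁻ y in BB, ENNReal.ofReal (|r * ev (qq c) y| * Real.exp (-(r * ev (qq c) y) ^ 2)) ≤
      ENNReal.ofReal (K * min r (r ^ (-(1 / (2 * (JJ D : ℝ)))))) := by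
  obtain ⟨K1, hK1, hq⟩ := ev_qq_le D
  obtain ⟨K2, hK2, hs⟩ := sublevel_qq D
  have hJ : (2 : ℝ) ≤ (JJ D : ℝ) := by
    unfold JJ
    push_cast
    have : (0 : ℝ) ≤ D := Nat.cast_nonneg D
    linarith
  have hJ0 : (0 : ℝ) < (JJ D : ℝ) := by linarith
  set κ : ℝ := 1 / (2 * (JJ D : ℝ)) with hκ
  have hκ0 : 0 < κ := by positivity
  have hκ1 : κ ≤ 1 / 2 := by
    rw [hκ, div_le_div_iff₀ (by positivity) (by norm_num)]
    linarith
  refine ⟨K1 + K2 + 1, by positivity, fun c hc r hr => ?_⟩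
  set f : ℝ × ℝ → ℝ := fun y => |r * ev (qq c) y| * Real.exp (-(r * ev (qq c) y) ^ 2) with hf
  have hf0 : ∀ y, 0 ≤ f y := fun y => by positivity
  show ∫⁻ y in BB, ENNReal.ofReal (f y) ≤ _
  rcases le_total r 1 with hr1 | hr1
  · -- `r ≤ 1`
    have hmin : min r (r ^ (-κ)) = r := by
      apply min_eq_left
      calc r ≤ 1 := hr1
        _ ≤ r ^ (-κ) := Real.one_le_rpow_of_pos_of_le_one_of_nonpos hr hr1 (by linarith)
    rw [hmin]
    have h1 : ∀ y ∈ BB, ENNReal.ofReal (f y) ≤ ENNReal.ofReal (r * K1) := by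
      intro y hy
      apply ENNReal.ofReal_le_ofReal
      have h2 := hq c y hy
      rw [hc, mul_one] at h2
      have h3 : Real.exp (-(r * ev (qq c) y) ^ 2) ≤ 1 := by
        rw [Real.exp_le_one_iff]
        nlinarith [sq_nonneg (r * ev (qq c) y)]
      calc f y ≤ |r * ev (qq c) y| * 1 := mul_le_mul_of_nonneg_left h3 (abs_nonneg _)
        _ = r * |ev (qq c) y| := by rw [mul_one, abs_mul, abs_of_pos hr]
        _ ≤ r * K1 := mul_le_mul_of_nonneg_left h2 hr.le
    calc ∫⁻ y in BB, ENNReal.ofReal (f y) ≤ ∫⁻ _ in BB, ENNReal.ofReal (r * K1) :=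
          setLIntegral_mono' measurableSet_BB h1
      _ = ENNReal.ofReal (r * K1) * volume BB := by
          rw [setLIntegral_const]
      _ ≤ ENNReal.ofReal (r * K1) * 1 := mul_le_mul' le_rfl s3_vol_BB
      _ ≤ ENNReal.ofReal ((K1 + K2 + 1) * r) := by
          rw [mul_one]
          apply ENNReal.ofReal_le_ofReal
          nlinarith
  · -- `1 ≤ r`
    have hrκ : 0 < r ^ (-κ) := Real.rpow_pos_of_pos hr _
    have hmin : min r (r ^ (-κ)) = r ^ (-κ) := by
      apply min_eq_right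
      calc r ^ (-κ) ≤ 1 := Real.rpow_le_one_of_one_le_of_nonpos hr1 (by linarith)
        _ ≤ r := hr1
    rw [hmin]
    set S : Set (ℝ × ℝ) := {y : ℝ × ℝ | y ∈ BB ∧ |ev (qq c) y| ≤ r ^ (-(1 / 2 : ℝ))} with hS
    have hSm : MeasurableSet S :=
      measurableSet_BB.inter (measurableSet_le ((measurable_ev (qq c)).abs) measurable_const)
    have hvolS : volume S ≤ ENNReal.ofReal (K2 * r ^ (-κ)) := by
      have h1 := hs c hc (r ^ (-(1 / 2 : ℝ))) (Real.rpow_nonneg hr.le _)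
      have h2 : (r ^ (-(1 / 2 : ℝ))) ^ (1 / (JJ D : ℝ)) = r ^ (-κ) := by
        rw [← Real.rpow_mul hr.le]
        congr 1
        rw [hκ]
        field_simp
      rwa [h2] at h1
    have hpt : ∀ y ∈ BB, ENNReal.ofReal (f y) ≤
        S.indicator (fun _ => (1 : ℝ≥0∞)) y + ENNReal.ofReal (r ^ (-κ)) := by
      intro y hy
      by_cases hyS : y ∈ S
      · rw [Set.indicator_of_mem hyS]
        have h1 : f y ≤ 1 := by
          have h2 := s3_exp1 (abs_nonneg (r * ev (qq c) y))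
          rwa [sq_abs] at h2
        calc ENNReal.ofReal (f y) ≤ ENNReal.ofReal 1 := ENNReal.ofReal_le_ofReal h1
          _ = 1 := ENNReal.ofReal_one
          _ ≤ 1 + ENNReal.ofReal (r ^ (-κ)) := le_self_add
      · rw [Set.indicator_of_notMem hyS, zero_add]
        apply ENNReal.ofReal_le_ofReal
        have h1 : r ^ (-(1 / 2 : ℝ)) < |ev (qq c) y| := by
          by_contra hcon
          exact hyS ⟨hy, not_lt.1 hcon⟩
        have h2 : r ^ (1 / 2 : ℝ) ≤ |r * ev (qq c) y| := by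
          rw [abs_mul, abs_of_pos hr]
          calc r ^ (1 / 2 : ℝ) = r * r ^ (-(1 / 2 : ℝ)) := by
                nth_rw 2 [← Real.rpow_one r]
                rw [← Real.rpow_add hr]
                norm_num
            _ ≤ r * |ev (qq c) y| := mul_le_mul_of_nonneg_left h1.le hr.le
        have hr2 : 0 < r ^ (1 / 2 : ℝ) := Real.rpow_pos_of_pos hr _
        have h3 : r ^ (1 / 2 : ℝ) * f y ≤ 1 := by
          calc r ^ (1 / 2 : ℝ) * f y ≤ |r * ev (qq c) y| * f y :=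
                mul_le_mul_of_nonneg_right h2 (hf0 y)
            _ = (r * ev (qq c) y) ^ 2 * Real.exp (-(r * ev (qq c) y) ^ 2) := by
                rw [hf]
                simp only
                rw [← mul_assoc, abs_mul_abs_self]
                ring
            _ ≤ 1 := s3_exp2
        have h4 : f y ≤ r ^ (-(1 / 2 : ℝ)) := by
          rw [Real.rpow_neg hr.le, ← one_div, le_div_iff₀ hr2, mul_comm]
          exact h3
        exact h4.trans (Real.rpow_le_rpow_of_exponent_le hr1 (by linarith))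
    calc ∫⁻ y in BB, ENNReal.ofReal (f y)
        ≤ ∫⁻ y in BB, (S.indicator (fun _ => (1 : ℝ≥0∞)) y + ENNReal.ofReal (r ^ (-κ))) :=
          setLIntegral_mono' measurableSet_BB hpt
      _ = (∫⁻ y in BB, S.indicator (fun _ => (1 : ℝ≥0∞)) y) +
            ∫⁻ _ in BB, ENNReal.ofReal (r ^ (-κ)) :=
          lintegral_add_right _ measurable_const
      _ ≤ volume S + ENNReal.ofReal (r ^ (-κ)) * volume BB := by
          rw [setLIntegral_const]
          gcongr
          calc ∫⁻ y in BB, S.indicator (fun _ => (1 : ℝ≥0∞)) y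
              ≤ ∫⁻ y, S.indicator (fun _ => (1 : ℝ≥0∞)) y := setLIntegral_le_lintegral _ _
            _ = volume S := by
                rw [lintegral_indicator_const hSm, one_mul]
      _ ≤ ENNReal.ofReal (K2 * r ^ (-κ)) + ENNReal.ofReal (r ^ (-κ)) * 1 :=
          add_le_add hvolS (mul_le_mul' le_rfl s3_vol_BB)
      _ = ENNReal.ofReal (K2 * r ^ (-κ) + r ^ (-κ)) := by
          rw [mul_one, ENNReal.ofReal_add (by positivity) hrκ.le]
      _ ≤ ENNReal.ofReal ((K1 + K2 + 1) * r ^ (-κ)) := by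
          apply ENNReal.ofReal_le_ofReal
          nlinarith

end Pool.Agent.PPH
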