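import Pool.Agent.PPH.S5e

/-!
ROW S6 (1 h). All dimensions. A port of base_lon, longi_base, longi_bound (origin/main:Pool/Agent/MP_6cbfb8_an/LiftF.lean, lines 290-430) with `lon h` replaced by `pol P Q`.
`tpow_bound`: for every j and q > 3. j = 0: tpow 0 (pol P Q) x = pol P Q x * [0 < x 2] = pol P (Fin.append Q ![X 2]) x (Fin.last 2 = 2): main3 with D + 1, N + 1. j + 1: tpow (j+1) (pol P Q) agrees on the sphere with the superposition
 over c ∈ (0,1) with the measure powν j of pol P Q x * hsn c (eLast 2) x = pol P (Fin.append Q ![X 2 - C c]) x; lintegral_mix_le, as in base_lon.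
`high`: `lifting` with κ = 1, q₁ = 3, i = l - 2, class {pol P Q | degrees ≤ D} (measurable_pol, norm_pol_le); then `multicut` for n = 2 + l, p0 = 2 (l+2)/(l+1), for M half spaces, as in longi_bound;
 lift (pol P Q) is measurable (measurable_lift).
-/

namespace Pool.Agent.PPH

open MeasureTheory Set MvPolynomial Pool.Agent.MP_6cbfb8_an
open scoped ENNReal Real

/-- the cut polynomial `X 2 - c` -/
noncomputable def s6T (c : ℝ) : Fin 1 → MvPolynomial (Fin 3) ℝ := fun _ => X 2 - C c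

theorem s6T_deg (c : ℝ) (i : Fin 1) : (s6T c i).totalDegree ≤ 1 := by
  unfold s6T
  refine (totalDegree_sub _ _).trans (max_le ?_ ?_)
  · rw [totalDegree_X]
  · rw [totalDegree_C]
    exact Nat.zero_le _

theorem s6_append_deg {D N : ℕ} (Q : Fin N → MvPolynomial (Fin 3) ℝ)
    (hQ : ∀ i, (Q i).totalDegree ≤ D) (c : ℝ) (i : Fin (N + 1)) :
    (Fin.append Q (s6T c) i).totalDegree ≤ D + 1 := by
  refine Fin.addCases (fun j => ?_) (fun j => ?_) i
  · rw [Fin.append_left]
    exact (hQ j).trans (Nat.le_succ D)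
  · rw [Fin.append_right]
    exact (s6T_deg c j).trans (by omega)

theorem s6_pol (P : MvPolynomial (Fin 3) ℝ) {N : ℕ} (Q : Fin N → MvPolynomial (Fin 3) ℝ)
    (c : ℝ) (x : E 3) :
    pol P (Fin.append Q (s6T c)) x = pol P Q x * hsn c (eLast 2) x := by
  rw [pol_append, Fin.prod_univ_one]
  congr 1
  unfold hsn s6T
  rw [inner_eLast2]
  have h1 : eval (fun j => x j) (X 2 - C c : MvPolynomial (Fin 3) ℝ) = x 2 - c := by
    simp
  rw [h1]
  have h2 : (Fin.last 2 : Fin 3) = 2 := rfl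
  rw [h2]
  by_cases h : c < x 2
  · rw [if_pos h, if_pos (sub_pos.2 h)]
  · rw [if_neg h, if_neg (fun h' => h (sub_pos.1 h'))]

theorem tpow_bound (D N j : ℕ) (q : ℝ) (hq : 3 < q) : ∃ C : ℝ≥0∞, C ≠ ∞ ∧
    ∀ (P : MvPolynomial (Fin 3) ℝ) (Q : Fin N → MvPolynomial (Fin 3) ℝ), P.totalDegree ≤ D →
    (∀ i, (Q i).totalDegree ≤ D) → ∫⁻ ξ : E 3, ‖extn (tpow j (pol P Q)) ξ‖ₑ ^ q ≤ C := by
  obtain ⟨C, hC, H⟩ := main3 (D + 1) (N + 1) q hq
  have H' : ∀ (P : MvPolynomial (Fin 3) ℝ) (Q : Fin N → MvPolynomial (Fin 3) ℝ),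
      P.totalDegree ≤ D → (∀ i, (Q i).totalDegree ≤ D) → ∀ c : ℝ,
      ∫⁻ ξ : E 3, ‖extn (fun x => pol P Q x * hsn c (eLast 2) x) ξ‖ₑ ^ q ≤ C := by
    intro P Q hP hQ c
    have h1 := H P (Fin.append Q (s6T c)) (hP.trans (Nat.le_succ D)) (s6_append_deg Q hQ c)
    refine le_trans (le_of_eq ?_) h1
    refine lintegral_congr fun ξ => ?_
    congr 3
    funext x
    rw [s6_pol]
  rcases j with _ | j
  · refine ⟨C, hC, fun P Q hP hQ => ?_⟩
    refine le_trans (le_of_eq ?_) (H' P Q hP hQ 0)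
    refine lintegral_congr fun ξ => ?_
    congr 3
    funext x
    unfold tpow hsn
    rw [inner_eLast2]
    split_ifs <;> simp
  · refine ⟨C * powν j univ ^ q, ENNReal.mul_ne_top hC
      (ENNReal.rpow_ne_top_of_nonneg (by linarith) (measure_ne_top _ _)), fun P Q hP hQ => ?_⟩
    have key := lintegral_mix_le (p := q) (C := C) (by linarith)
      (fun g : E 3 → ℂ => ∃ c : ℝ, g = fun x => pol P Q x * hsn c (eLast 2) x)
      (by
        rintro g _ _ ⟨c, rfl⟩
        exact H' P Q hP hQ c)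
      (powν j) (fun _ => LinearIsometryEquiv.refl ℝ (E 3)) (fun _ => 0)
      (fun c x => pol P Q x * hsn c (eLast 2) x)
      measurable_snd measurable_const (by
        have h1 : Measurable fun q : ℝ × E 3 => pol P Q q.2 :=
          (measurable_pol P Q).comp measurable_snd
        refine h1.mul ?_
        unfold hsn
        refine Measurable.ite ?_ measurable_const measurable_const
        exact measurableSet_lt measurable_fst (by fun_prop))
      (fun c x => by
        rw [norm_mul]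
        exact mul_le_one₀ (norm_pol_le P Q _) (norm_nonneg _) (norm_hsn_le _ _ _))
      (fun c => ⟨c, rfl⟩)
    refine le_trans (le_of_eq ?_) key
    have : extn (tpow (j + 1) (pol P Q) : E 3 → ℂ) = extn (mix (powν j)
        (fun _ => LinearIsometryEquiv.refl ℝ (E 3)) (fun _ => 0)
        (fun c x => pol P Q x * hsn c (eLast 2) x)) := by
      refine extn_congr_sphere fun x hx => ?_
      unfold mix
      simp only [inner_zero_right, mul_zero, Complex.ofReal_zero, zero_mul,
        Complex.exp_zero, one_mul, LinearIsometryEquiv.coe_refl, id]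
      rw [integral_const_mul]
      have e1 : (fun c : ℝ => hsn c (eLast 2) x) = (Iio (x (Fin.last 2))).indicator fun _ => (1:ℂ) := by
        funext c
        unfold hsn
        rw [inner_eLast2]
        by_cases h : c < x (Fin.last 2)
        · rw [if_pos h, indicator_of_mem (mem_Iio.2 h)]
        · rw [if_neg h, indicator_of_notMem]
          exact h
      rw [e1, integral_indicator_const _ measurableSet_Iio]
      unfold tpow Measure.real
      split_ifs with h
      · rw [powν_Iio j h ((le_abs_self _).trans ((abs_last_le x).trans hx.le)),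
          ENNReal.toReal_ofReal (by positivity)]
        simp
      · rw [powν_Iio_neg j (not_lt.1 h)]
        simp
    rw [this]

theorem high (D N M l : ℕ) (hl : 2 ≤ l) (p : ℝ) (hp : 2 * ((l : ℝ) + 2) / (l + 1) < p) :
    ∃ C : ℝ≥0∞, C ≠ ∞ ∧
    ∀ (P : MvPolynomial (Fin 3) ℝ) (Q : Fin N → MvPolynomial (Fin 3) ℝ), P.totalDegree ≤ D →
    (∀ i, (Q i).totalDegree ≤ D) → ∀ (v : Fin M → E (2 + l)) (c : Fin M → ℝ),
    ∫⁻ ξ : E (2 + l), ‖extn (fun x => lift (pol P Q) x * ∏ i, hsn (c i) (v i) x) ξ‖ₑ ^ p ≤ C := by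
  obtain ⟨C, hC, H⟩ := multicut (2 + l) (by omega) (2 * ((l : ℝ) + 2) / (l + 1)) (by
    rw [le_div_iff₀ (by positivity)]
    have : (0:ℝ) ≤ l := Nat.cast_nonneg l
    linarith) (fun g => ∃ (P : MvPolynomial (Fin 3) ℝ) (Q : Fin N → MvPolynomial (Fin 3) ℝ),
      P.totalDegree ≤ D ∧ (∀ i, (Q i).totalDegree ≤ D) ∧ g = lift (pol P Q)) (by
    intro p' hp'
    obtain ⟨i, rfl⟩ : ∃ i, l = i + 2 := ⟨l - 2, by omega⟩
    have hi0 : (0:ℝ) ≤ i := Nat.cast_nonneg i
    push_cast at hp'
    have hp2 : 2 < p' := by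
      refine lt_trans ?_ hp'
      rw [lt_div_iff₀ (by positivity)]
      linarith
    obtain ⟨C, hC, H⟩ := lifting 1 i 3 (by norm_num) (fun G => ∃ (P : MvPolynomial (Fin 3) ℝ)
      (Q : Fin N → MvPolynomial (Fin 3) ℝ),
      P.totalDegree ≤ D ∧ (∀ i, (Q i).totalDegree ≤ D) ∧ G = pol P Q) (by
        intro j q hq
        obtain ⟨C, hC, H⟩ := tpow_bound D N j q hq
        refine ⟨C, hC, ?_⟩
        rintro G _ _ ⟨P, Q, hP, hQ, rfl⟩
        exact H P Q hP hQ) p' hp2 (by
        have h1 : 2 * ((i : ℝ) + 2 + 2) / (i + 2 + 1) = 2 + 2 / (i + 3) := by field_simp; ring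
        have h2 : 2 / ((i:ℝ) + 3) < p' - 2 := by linarith
        have h3 := one_div_lt_one_div_of_lt (by positivity) h2
        rw [one_div_div] at h3
        refine h3.trans_le (le_of_eq ?_)
        norm_num
        ring)
    refine ⟨C, hC, ?_⟩
    rintro g _ _ ⟨P, Q, hP, hQ, rfl⟩
    exact H (pol P Q) (measurable_pol P Q) (norm_pol_le P Q) ⟨P, Q, hP, hQ, rfl⟩) M p hp
  refine ⟨C, hC, fun P Q hP hQ v c => ?_⟩
  exact H (lift (pol P Q)) (measurable_lift (measurable_pol P Q)) (fun x => norm_pol_le P Q _)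
    ⟨P, Q, hP, hQ, rfl⟩ v c

end Pool.Agent.PPH
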